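import Mathlib

/-! Congruence subgroups of the units of an order in the quaternion algebra `(2, 3 / ℚ)`. -/

set_option autoImplicit false

open scoped MatrixGroups UpperHalfPlane
open Matrix

namespace Pool.Agent.H85R3.HS

/-- The matrix of the quaternion `x + y i + z j + w i j`. -/
noncomputable def qm (x y z w : ℤ) : Matrix (Fin 2) (Fin 2) ℝ :=
  !![(x : ℝ) + y * √2, z + w * √2; 3 * (z - w * √2), x - y * √2]

theorem sqrt2_sq : √(2 : ℝ) * √2 = 2 := Real.mul_self_sqrt (by norm_num)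

theorem qm_mul (x y z w x' y' z' w' : ℤ) : qm x y z w * qm x' y' z' w' =
    qm (x * x' + 2 * (y * y') + 3 * (z * z') - 6 * (w * w'))
      (x * y' + y * x' + 3 * (w * z' - z * w'))
      (x * z' + 2 * (y * w') + z * x' - 2 * (w * y'))
      (x * w' + y * z' + w * x' - z * y') := by
  have h := sqrt2_sq
  unfold qm
  rw [Matrix.mul_fin_two]
  push_cast
  congr 2
  · congr 1
    · linear_combination ((y : ℝ) * y' - 3 * w * w') * h
    · congr 1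
      linear_combination ((y : ℝ) * w' - w * y') * h
  · congr 1
    congr 1
    · linear_combination (3 * ((y : ℝ) * w' - w * y')) * h
    · congr 1
      linear_combination (-3 * (w : ℝ) * w' + y * y') * h

theorem det_qm (x y z w : ℤ) :
    (qm x y z w).det = ((x ^ 2 - 2 * y ^ 2 - 3 * z ^ 2 + 6 * w ^ 2 : ℤ) : ℝ) := by
  have h := sqrt2_sq
  unfold qm
  rw [Matrix.det_fin_two_of]
  push_cast
  linear_combination (-(y : ℝ) ^ 2 + 3 * w ^ 2) * h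

theorem adj_qm (x y z w : ℤ) : (qm x y z w).adjugate = qm x (-y) (-z) (-w) := by
  unfold qm
  rw [Matrix.adjugate_fin_two_of]
  push_cast
  congr 2
  · congr 1
    · ring
    · congr 1
      ring
  · congr 1
    congr 1
    · ring
    · congr 1
      ring

theorem qm_injective {x y z w x' y' z' w' : ℤ} (h : qm x y z w = qm x' y' z' w') :
    x = x' ∧ y = y' ∧ z = z' ∧ w = w' := by
  have h00 := congrFun (congrFun h 0) 0
  have h01 := congrFun (congrFun h 0) 1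
  have h10 := congrFun (congrFun h 1) 0
  have h11 := congrFun (congrFun h 1) 1
  simp [qm] at h00 h01 h10 h11
  have h2 : (0 : ℝ) < √2 := by positivity
  have e1 : (x : ℝ) = x' := by linarith
  have e2 : (y : ℝ) * √2 = y' * √2 := by linarith
  have e3 : (z : ℝ) = z' := by linarith
  have e4 : (w : ℝ) * √2 = w' * √2 := by linarith
  have e2' : (y : ℝ) = y' := mul_right_cancel₀ h2.ne' e2
  have e4' : (w : ℝ) = w' := mul_right_cancel₀ h2.ne' e4
  exact ⟨by exact_mod_cast e1, by exact_mod_cast e2', by exact_mod_cast e3, by exact_mod_cast e4'⟩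

theorem three_dvd_aux {x y : ℤ} (h : (3 : ℤ) ∣ x ^ 2 - 2 * y ^ 2) : (3 : ℤ) ∣ x ∧ (3 : ℤ) ∣ y := by
  have hx : x % 3 = 0 ∨ x % 3 = 1 ∨ x % 3 = 2 := by omega
  have hy : y % 3 = 0 ∨ y % 3 = 1 ∨ y % 3 = 2 := by omega
  have h' := Int.emod_emod_of_dvd (x ^ 2 - 2 * y ^ 2) (dvd_refl (3 : ℤ))
  have h0 : (x ^ 2 - 2 * y ^ 2) % 3 = 0 := Int.emod_eq_zero_of_dvd h
  rw [Int.sub_emod, Int.mul_emod, pow_two, pow_two, Int.mul_emod x x, Int.mul_emod y y] at h0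
  rcases hx with hx | hx | hx <;> rcases hy with hy | hy | hy <;>
    first
    | (simp [hx, hy] at h0; done)
    | omega

theorem aniso_dvd {x y z w : ℤ} (h : x ^ 2 - 2 * y ^ 2 - 3 * z ^ 2 + 6 * w ^ 2 = 0) :
    (3 : ℤ) ∣ x ∧ (3 : ℤ) ∣ y ∧ (3 : ℤ) ∣ z ∧ (3 : ℤ) ∣ w := by
  obtain ⟨⟨a, rfl⟩, ⟨b, rfl⟩⟩ := three_dvd_aux (x := x) (y := y) ⟨z ^ 2 - 2 * w ^ 2, by linarith⟩
  obtain ⟨hz, hw⟩ := three_dvd_aux (x := z) (y := w) ⟨a ^ 2 - 2 * b ^ 2, by nlinarith⟩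
  exact ⟨⟨a, rfl⟩, ⟨b, rfl⟩, hz, hw⟩

theorem aniso_aux : ∀ (n : ℕ) (x y z w : ℤ),
    x.natAbs + y.natAbs + z.natAbs + w.natAbs ≤ n →
    x ^ 2 - 2 * y ^ 2 - 3 * z ^ 2 + 6 * w ^ 2 = 0 → x = 0 ∧ y = 0 ∧ z = 0 ∧ w = 0 := by
  intro n
  induction n with
  | zero =>
    intro x y z w hn _
    omega
  | succ n ih =>
    intro x y z w hn h
    obtain ⟨⟨a, rfl⟩, ⟨b, rfl⟩, ⟨c, rfl⟩, ⟨d, rfl⟩⟩ := aniso_dvd h
    have h' : a ^ 2 - 2 * b ^ 2 - 3 * c ^ 2 + 6 * d ^ 2 = 0 := by nlinarith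
    rcases Nat.eq_zero_or_pos (a.natAbs + b.natAbs + c.natAbs + d.natAbs) with h0 | h0
    · omega
    · obtain ⟨h1, h2, h3, h4⟩ := ih a b c d (by omega) h'
      subst h1 h2 h3 h4
      simp

theorem aniso {x y z w : ℤ} (h : x ^ 2 - 2 * y ^ 2 - 3 * z ^ 2 + 6 * w ^ 2 = 0) :
    x = 0 ∧ y = 0 ∧ z = 0 ∧ w = 0 :=
  aniso_aux _ x y z w le_rfl h

/-- The principal congruence subgroup of level `N` of the norm-one units of the order. -/
noncomputable def cong (N : ℤ) : Subgroup SL(2, ℝ) where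
  carrier := {g | ∃ x y z w : ℤ, g.1 = qm x y z w ∧ N ∣ x - 1 ∧ N ∣ y ∧ N ∣ z ∧ N ∣ w}
  one_mem' := by
    refine ⟨1, 0, 0, 0, ?_, by simp, by simp, by simp, by simp⟩
    unfold qm
    simp [Matrix.one_fin_two]
  mul_mem' := by
    rintro g g' ⟨x, y, z, w, hg, ⟨a, ha⟩, ⟨b, rfl⟩, ⟨c, rfl⟩, ⟨d, rfl⟩⟩
      ⟨x', y', z', w', hg', ⟨a', ha'⟩, ⟨b', rfl⟩, ⟨c', rfl⟩, ⟨d', rfl⟩⟩
    have hx : x = 1 + N * a := by linarith
    have hx' : x' = 1 + N * a' := by linarith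
    subst hx hx'
    refine ⟨_, _, _, _, by rw [Matrix.SpecialLinearGroup.coe_mul, hg, hg', qm_mul],
      ⟨a + a' + N * (a * a') + 2 * N * (b * b') + 3 * N * (c * c') - 6 * N * (d * d'), by ring⟩,
      ⟨b' + b + N * (a * b' + b * a' + 3 * (d * c' - c * d')), by ring⟩,
      ⟨c' + c + N * (a * c' + 2 * (b * d') + c * a' - 2 * (d * b')), by ring⟩,
      ⟨d' + d + N * (a * d' + b * c' + d * a' - c * b'), by ring⟩⟩
  inv_mem' := by
    rintro g ⟨x, y, z, w, hg, hx, hy, hz, hw⟩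
    refine ⟨x, -y, -z, -w, ?_, hx, by simpa using hy, by simpa using hz, by simpa using hw⟩
    rw [Matrix.SpecialLinearGroup.coe_inv, hg, adj_qm]

theorem mem_cong {N : ℤ} {g : SL(2, ℝ)} : g ∈ cong N ↔ ∃ x y z w : ℤ, g.1 = qm x y z w ∧
    N ∣ x - 1 ∧ N ∣ y ∧ N ∣ z ∧ N ∣ w := Iff.rfl

theorem trace_bound {N : ℤ} (hN : Odd N) {g : SL(2, ℝ)} (hg : g ∈ cong N) (hg1 : g ≠ 1) :
    2 * ((N : ℝ) ^ 2 - 1) ≤ |g.1.trace| := by
  obtain ⟨x, y, z, w, hgm, hx, ⟨b, rfl⟩, ⟨c, rfl⟩, ⟨d, rfl⟩⟩ := hg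
  have hdet := g.2
  rw [hgm, det_qm] at hdet
  have hdet' : x ^ 2 - 2 * (N * b) ^ 2 - 3 * (N * c) ^ 2 + 6 * (N * d) ^ 2 = 1 := by
    exact_mod_cast hdet
  have htr : g.1.trace = 2 * x := by
    rw [hgm]
    unfold qm
    rw [Matrix.trace_fin_two_of]
    ring
  have h1 : N ^ 2 ∣ (x - 1) * (x + 1) :=
    ⟨2 * b ^ 2 + 3 * c ^ 2 - 6 * d ^ 2, by linear_combination hdet'⟩
  have hcop : IsCoprime (N ^ 2) (x + 1) := by
    apply IsCoprime.pow_left
    obtain ⟨k, hk⟩ := hx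
    obtain ⟨m, hm⟩ := hN
    -- x + 1 = 2 + N k, N = 2 m + 1
    have hx1 : x + 1 = 2 + N * k := by linarith
    rw [hx1]
    exact IsCoprime.add_mul_left_right (z := k) ⟨1, -m, by rw [hm]; ring⟩
  have h2 : N ^ 2 ∣ x - 1 := hcop.dvd_of_dvd_mul_right h1
  have h3 : x ≠ 1 := by
    rintro rfl
    have h4 : (0 : ℤ) ^ 2 - 2 * (N * b) ^ 2 - 3 * (N * c) ^ 2 + 6 * (N * d) ^ 2 = 0 := by
      linarith
    obtain ⟨-, e1, e2, e3⟩ := aniso h4
    apply hg1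
    apply Subtype.ext
    rw [hgm, e1, e2, e3]
    unfold qm
    simp [Matrix.one_fin_two]
  have h5 : N ^ 2 ≤ |x - 1| := Int.le_of_dvd (abs_pos.mpr (sub_ne_zero.mpr h3)) ((dvd_abs _ _).mpr h2)
  have h6 : (N : ℝ) ^ 2 ≤ |(x : ℝ) - 1| := by exact_mod_cast h5
  rw [htr, abs_mul, abs_two]
  have h7 : |(x : ℝ) - 1| ≤ |(x : ℝ)| + 1 := by
    calc |(x : ℝ) - 1| ≤ |(x : ℝ)| + |(1 : ℝ)| := abs_sub _ _
      _ = _ := by simp
  linarith

/-- Formula for the displacement of the base point. -/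
theorem cosh_dist_I (g : SL(2, ℝ)) : Real.cosh (dist UpperHalfPlane.I (g • UpperHalfPlane.I)) =
    (g 0 0 ^ 2 + g 0 1 ^ 2 + g 1 0 ^ 2 + g 1 1 ^ 2) / 2 := by
  have hdet : g 0 0 * g 1 1 - g 0 1 * g 1 0 = 1 := by
    have := g.2
    rw [Matrix.det_fin_two] at this
    exact this
  have hne : g 1 0 ^ 2 + g 1 1 ^ 2 ≠ 0 := by
    intro h
    have h1 : g 1 0 = 0 := by nlinarith [sq_nonneg (g 1 0), sq_nonneg (g 1 1)]
    have h2 : g 1 1 = 0 := by nlinarith [sq_nonneg (g 1 0), sq_nonneg (g 1 1)]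
    rw [h1, h2] at hdet
    simp at hdet
  have hz : ((g • UpperHalfPlane.I : ℍ) : ℂ) =
      ((g 0 0 : ℂ) * Complex.I + g 0 1) / ((g 1 0 : ℂ) * Complex.I + g 1 1) := by
    rw [UpperHalfPlane.coe_specialLinearGroup_apply]
    simp
  have hden : ((g 1 0 : ℂ) * Complex.I + g 1 1) ≠ 0 := by
    intro h
    have h1 := congrArg Complex.re h
    have h2 := congrArg Complex.im h
    simp at h1 h2
    apply hne
    rw [h1, h2]
    simp
  have hnsq : Complex.normSq ((g 1 0 : ℂ) * Complex.I + g 1 1) = g 1 0 ^ 2 + g 1 1 ^ 2 := by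
    simp [Complex.normSq_apply]
    ring
  have him : (g • UpperHalfPlane.I : ℍ).im = 1 / (g 1 0 ^ 2 + g 1 1 ^ 2) := by
    rw [← UpperHalfPlane.coe_im, hz, Complex.div_im, hnsq]
    simp
    field_simp
    linarith
  rw [UpperHalfPlane.cosh_dist, him, UpperHalfPlane.I_im, Complex.dist_eq, hz]
  have hsub : (UpperHalfPlane.I : ℂ) - ((g 0 0 : ℂ) * Complex.I + g 0 1) /
      ((g 1 0 : ℂ) * Complex.I + g 1 1) = (-((g 0 1 + g 1 0 : ℝ) : ℂ) +
        ((g 1 1 - g 0 0 : ℝ) : ℂ) * Complex.I) / ((g 1 0 : ℂ) * Complex.I + g 1 1) := by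
    rw [eq_div_iff hden, sub_mul, div_mul_cancel₀ _ hden, UpperHalfPlane.coe_I]
    push_cast
    linear_combination (g 1 0 : ℂ) * Complex.I_mul_I
  rw [hsub, norm_div, div_pow, ← Complex.normSq_eq_norm_sq, ← Complex.normSq_eq_norm_sq, hnsq]
  have hn2 : Complex.normSq (-((g 0 1 + g 1 0 : ℝ) : ℂ) +
        ((g 1 1 - g 0 0 : ℝ) : ℂ) * Complex.I) = (g 0 1 + g 1 0) ^ 2 + (g 1 1 - g 0 0) ^ 2 := by
    simp [Complex.normSq_apply]
    ring
  rw [hn2]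
  field_simp
  nlinarith

/-- The displacement is bounded below in terms of the trace. -/
theorem cosh_dist_ge (g : SL(2, ℝ)) (z : ℍ) :
    g.1.trace ^ 2 - 2 ≤ 2 * Real.cosh (dist z (g • z)) := by
  set h := z.toSL2R with hh
  have hz : h • UpperHalfPlane.I = z := UpperHalfPlane.toSL2R_smul_I z
  have h1 : dist z (g • z) = dist UpperHalfPlane.I ((h⁻¹ * g * h) • UpperHalfPlane.I) := by
    rw [← hz, ← dist_smul h⁻¹]
    simp [mul_smul]
  have h2 : g.1.trace = (h⁻¹ * g * h).1.trace := by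
    rw [Matrix.SpecialLinearGroup.coe_mul, Matrix.trace_mul_comm,
      ← Matrix.SpecialLinearGroup.coe_mul, ← mul_assoc, mul_inv_cancel, one_mul]
  rw [h1, h2, cosh_dist_I]
  set k := h⁻¹ * g * h with hk
  have hdet : k 0 0 * k 1 1 - k 0 1 * k 1 0 = 1 := by
    have := k.2
    rw [Matrix.det_fin_two] at this
    exact this
  have htr : k.1.trace = k 0 0 + k 1 1 := Matrix.trace_fin_two _
  rw [htr]
  nlinarith [sq_nonneg (k 0 1 - k 1 0)]

/-- Principal congruence subgroups of high level move every point far. -/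
theorem exists_level (S : ℝ) : ∃ N : ℤ, Odd N ∧ 0 < N ∧ ∀ g ∈ cong N, g ≠ 1 → ∀ z : ℍ,
    S ≤ dist z (g • z) := by
  obtain ⟨n, hn⟩ := exists_nat_gt (Real.cosh S + 2)
  refine ⟨2 * n + 1, ⟨n, rfl⟩, by positivity, fun g hg hg1 z => ?_⟩
  have h1 := trace_bound ⟨(n : ℤ), rfl⟩ hg hg1
  have h2 := cosh_dist_ge g z
  push_cast at h1
  have hc := Real.one_le_cosh S
  have h3 : Real.cosh S ≤ Real.cosh (dist z (g • z)) := by
    have hn0 : (0 : ℝ) ≤ n := Nat.cast_nonneg n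
    have h4 : (n : ℝ) ≤ 2 * ((2 * (n : ℝ) + 1) ^ 2 - 1) := by nlinarith
    have h5 : (n : ℝ) ≤ |g.1.trace| := h4.trans h1
    have h6 : (n : ℝ) ^ 2 ≤ g.1.trace ^ 2 := by
      rw [← sq_abs g.1.trace]
      exact pow_le_pow_left₀ hn0 h5 2
    nlinarith
  by_contra hcon
  push Not at hcon
  have hS : 0 ≤ S := dist_nonneg.trans hcon.le
  have h7 := Real.cosh_lt_cosh.mpr (show |dist z (g • z)| < |S| by
    rw [abs_of_nonneg dist_nonneg, abs_of_nonneg hS]; exact hcon)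
  linarith

end Pool.Agent.H85R3.HS
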