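import Pool.Agent.H85R3.HSArith

/-! The congruence subgroups are cocompact. -/

set_option autoImplicit false

open scoped MatrixGroups UpperHalfPlane
open Matrix MeasureTheory

namespace Pool.Agent.H85R3.HS

/-- The matrix of the linear map `v ↦ M(v) h`. -/
noncomputable def bigM (a b c d : ℝ) : Matrix (Fin 4) (Fin 4) ℝ :=
  !![a, a * √2, c, c * √2;
     b, b * √2, d, d * √2;
     c, -(c * √2), 3 * a, -(3 * a * √2);
     d, -(d * √2), 3 * b, -(3 * b * √2)]

theorem det_bigM (a b c d : ℝ) (h : a * d - b * c = 1) : (bigM a b c d).det ^ 2 = 24 ^ 2 := by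
  have h2 := sqrt2_sq
  have h3 : (bigM a b c d).det = 24 * (a * d - b * c) ^ 2 ∨
      (bigM a b c d).det = -(24 * (a * d - b * c) ^ 2) := by
    unfold bigM
    rw [Matrix.det_succ_row_zero]
    simp [Fin.sum_univ_succ, Matrix.det_fin_three, Matrix.submatrix, Fin.succAbove]
    first
    | (left; linear_combination (12 * (a * d - b * c) ^ 2) * h2)
    | (right; linear_combination (-12 * (a * d - b * c) ^ 2) * h2)
  rcases h3 with h3 | h3 <;> rw [h3, h] <;> norm_num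

theorem minkowski (h : SL(2, ℝ)) : ∃ x y z w : ℤ, ¬ (x = 0 ∧ y = 0 ∧ z = 0 ∧ w = 0) ∧
    ∀ i j, |(qm x y z w * h.1) i j| < 3 := by
  have hdet : h 0 0 * h 1 1 - h 0 1 * h 1 0 = 1 := by
    have := h.2
    rw [Matrix.det_fin_two] at this
    exact this
  set A := bigM (h 0 0) (h 0 1) (h 1 0) (h 1 1) with hA
  have hdA := det_bigM (h 0 0) (h 0 1) (h 1 0) (h 1 1) hdet
  rw [← hA] at hdA
  have hdA' : |A.det| = 24 := by
    rw [← Real.sqrt_sq_eq_abs, hdA]
    exact Real.sqrt_sq (by norm_num)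
  set b := Pi.basisFun ℝ (Fin 4) with hb
  set cube : Set (Fin 4 → ℝ) := Set.pi Set.univ fun _ => Set.Ioo (-3 : ℝ) 3 with hcube
  set s : Set (Fin 4 → ℝ) := (Matrix.toLin' A) ⁻¹' cube with hs
  have hlin : LinearMap.det (Matrix.toLin' A) ≠ 0 := by
    rw [LinearMap.det_toLin']
    intro h0
    rw [h0] at hdA'
    norm_num at hdA'
  have hvol : volume s = ENNReal.ofReal 54 := by
    rw [hs, Measure.addHaar_preimage_linearMap volume hlin, LinearMap.det_toLin', abs_inv, hdA',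
      hcube, Real.volume_pi_Ioo]
    simp only [sub_neg_eq_add]
    rw [Finset.prod_const, Finset.card_univ, Fintype.card_fin, ← ENNReal.ofReal_pow (by norm_num),
      ← ENNReal.ofReal_mul (by norm_num)]
    norm_num
  have hfund := ZSpan.isAddFundamentalDomain' b (volume : Measure (Fin 4 → ℝ))
  have hcount : Countable (Submodule.span ℤ (Set.range b)).toAddSubgroup :=
    inferInstanceAs (Countable (Submodule.span ℤ (Set.range b)))
  obtain ⟨v, hv0, hvs⟩ := exists_ne_zero_mem_lattice_of_measure_mul_two_pow_lt_measure (s := s)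
    hfund (by
      intro v hv
      rw [hs, Set.mem_preimage, hcube, Set.mem_univ_pi] at hv ⊢
      intro i
      rw [map_neg]
      have := hv i
      exact ⟨by simpa using neg_lt_neg this.2, by simpa using neg_lt_neg this.1⟩)
    ((convex_pi fun i _ => convex_Ioo _ _).linear_preimage _) (by
      rw [hvol, hb, ZSpan.fundamentalDomain_pi_basisFun, volume_pi, Measure.pi_pi]
      simp
      rw [show (54 : ENNReal) = ((54 : ℕ) : ENNReal) by norm_num,
        show (2 : ENNReal) ^ 4 = ((16 : ℕ) : ENNReal) by norm_num]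
      exact_mod_cast (by norm_num : (16 : ℕ) < 54))
  have hmem : (v : Fin 4 → ℝ) ∈ Submodule.span ℤ (Set.range b) := v.2
  rw [b.mem_span_iff_repr_mem ℤ] at hmem
  have hint : ∀ i, ∃ k : ℤ, (k : ℝ) = (v : Fin 4 → ℝ) i := by
    intro i
    obtain ⟨k, hk⟩ := hmem i
    exact ⟨k, by simpa [hb] using hk⟩
  obtain ⟨x, hx⟩ := hint 0
  obtain ⟨y, hy⟩ := hint 1
  obtain ⟨z, hz⟩ := hint 2
  obtain ⟨w, hw⟩ := hint 3
  refine ⟨x, y, z, w, ?_, ?_⟩
  · rintro ⟨rfl, rfl, rfl, rfl⟩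
    apply hv0
    apply Subtype.ext
    funext i
    fin_cases i
    · simpa using hx.symm
    · simpa using hy.symm
    · simpa using hz.symm
    · simpa using hw.symm
  · rw [hs, Set.mem_preimage, hcube, Set.mem_univ_pi] at hvs
    have e0 := hvs 0
    have e1 := hvs 1
    have e2 := hvs 2
    have e3 := hvs 3
    rw [Matrix.toLin'_apply] at e0 e1 e2 e3
    simp only [hA, bigM, Matrix.mulVec, dotProduct, Fin.sum_univ_four, Set.mem_Ioo] at e0 e1 e2 e3
    simp at e0 e1 e2 e3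
    rw [← hx, ← hy, ← hz, ← hw] at e0 e1 e2 e3
    intro i j
    rw [abs_lt]
    fin_cases i <;> fin_cases j <;>
      simp [qm, Matrix.mul_apply, Fin.sum_univ_two]
    · constructor <;> nlinarith [e0.1, e0.2]
    · constructor <;> nlinarith [e1.1, e1.2]
    · constructor <;> nlinarith [e2.1, e2.2]
    · constructor <;> nlinarith [e3.1, e3.2]

/-- The norm form. -/
def nf (q : ℤ × ℤ × ℤ × ℤ) : ℤ := q.1 ^ 2 - 2 * q.2.1 ^ 2 - 3 * q.2.2.1 ^ 2 + 6 * q.2.2.2 ^ 2

/-- Size of a quadruple. -/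
def sz (q : ℤ × ℤ × ℤ × ℤ) : ℕ := q.1.natAbs + q.2.1.natAbs + q.2.2.1.natAbs + q.2.2.2.natAbs

/-- The class of a quadruple. -/
def cls (N : ℤ) (q : ℤ × ℤ × ℤ × ℤ) : ℤ × ℤ × ℤ × ℤ × ℤ :=
  (nf q, q.1 % (nf q * N), q.2.1 % (nf q * N), q.2.2.1 % (nf q * N), q.2.2.2 % (nf q * N))

theorem exists_reps {N : ℤ} (hN : 0 < N) : ∃ B : ℕ, ∀ q : ℤ × ℤ × ℤ × ℤ, nf q ≠ 0 → |nf q| ≤ 18 →
    ∃ q', cls N q' = cls N q ∧ sz q' ≤ B := by
  classical
  set P : Set (ℤ × ℤ × ℤ × ℤ) := {q | nf q ≠ 0 ∧ |nf q| ≤ 18} with hP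
  have hfin : (cls N '' P).Finite := by
    refine Set.Finite.subset (Set.finite_Icc ((-18 : ℤ), (0 : ℤ), (0 : ℤ), (0 : ℤ), (0 : ℤ))
      (18, 18 * N, 18 * N, 18 * N, 18 * N)) ?_
    rintro _ ⟨q, ⟨hq0, hq⟩, rfl⟩
    rw [abs_le] at hq
    have hne : nf q * N ≠ 0 := mul_ne_zero hq0 hN.ne'
    have hb : ∀ t : ℤ, 0 ≤ t % (nf q * N) ∧ t % (nf q * N) ≤ 18 * N := by
      intro t
      refine ⟨Int.emod_nonneg _ hne, ?_⟩
      have h1 : t % (nf q * N) < |nf q * N| := Int.emod_lt_abs _ hne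
      have h2 : |nf q * N| ≤ 18 * N := by
        rw [abs_mul, abs_of_pos hN]
        exact mul_le_mul_of_nonneg_right (abs_le.mpr hq) hN.le
      linarith
    exact ⟨⟨hq.1, (hb _).1, (hb _).1, (hb _).1, (hb _).1⟩,
      ⟨hq.2, (hb _).2, (hb _).2, (hb _).2, (hb _).2⟩⟩
  have hch : ∀ c : ℤ × ℤ × ℤ × ℤ × ℤ, ∃ B : ℕ, c ∈ cls N '' P → ∃ q', cls N q' = c ∧ sz q' ≤ B := by
    intro c
    by_cases hc : c ∈ cls N '' P
    · obtain ⟨q, -, rfl⟩ := hc
      exact ⟨sz q, fun _ => ⟨q, rfl, le_rfl⟩⟩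
    · exact ⟨0, fun h => absurd h hc⟩
  choose B hB using hch
  refine ⟨hfin.toFinset.sup B, fun q h0 h1 => ?_⟩
  have hc : cls N q ∈ cls N '' P := ⟨q, ⟨h0, h1⟩, rfl⟩
  obtain ⟨q', h2, h3⟩ := hB _ hc
  exact ⟨q', h2, h3.trans (Finset.le_sup (f := B) (hfin.mem_toFinset.mpr hc))⟩

theorem qm_sub (x y z w x' y' z' w' : ℤ) :
    qm x y z w - qm x' y' z' w' = qm (x - x') (y - y') (z - z') (w - w') := by
  unfold qm
  ext i j
  fin_cases i <;> fin_cases j <;> simp <;> ring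

theorem qm_one_add (N p q r s : ℤ) :
    (1 : Matrix (Fin 2) (Fin 2) ℝ) + (N : ℝ) • qm p q r s = qm (1 + N * p) (N * q) (N * r) (N * s) := by
  unfold qm
  ext i j
  fin_cases i <;> fin_cases j <;> simp <;> ring

theorem exists_unit {N : ℤ} {x y z w x' y' z' w' : ℤ} (h0 : nf (x, y, z, w) ≠ 0)
    (hc : cls N (x', y', z', w') = cls N (x, y, z, w)) :
    ∃ g ∈ cong N, g.1 = ((nf (x, y, z, w) : ℤ) : ℝ)⁻¹ • ((qm x' y' z' w').adjugate * qm x y z w) := by
  set n := nf (x, y, z, w) with hn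
  simp only [cls, Prod.mk.injEq] at hc
  obtain ⟨hn', hx, hy, hz, hw⟩ := hc
  rw [hn'] at hx hy hz hw
  rw [← hn] at hx hy hz hw hn'
  have key : ∀ {t t' : ℤ}, t' % (n * N) = t % (n * N) → ∃ k, t - t' = n * N * k := by
    intro t t' h
    exact Int.ModEq.dvd h
  obtain ⟨p, hp⟩ := key hx
  obtain ⟨q, hq⟩ := key hy
  obtain ⟨r, hr⟩ := key hz
  obtain ⟨s, hs⟩ := key hw
  have hnR : (n : ℝ) ≠ 0 := by exact_mod_cast h0
  have hd' : (qm x' y' z' w').det = (n : ℝ) := by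
    rw [det_qm]
    exact_mod_cast hn'
  have hd : (qm x y z w).det = (n : ℝ) := by
    rw [det_qm]
    rfl
  have h1 : qm x y z w = qm x' y' z' w' + ((n * N : ℤ) : ℝ) • qm p q r s := by
    have h2 := qm_sub x y z w x' y' z' w'
    rw [hp, hq, hr, hs] at h2
    have h3 : qm (n * N * p) (n * N * q) (n * N * r) (n * N * s) =
        ((n * N : ℤ) : ℝ) • qm p q r s := by
      unfold qm
      ext i j
      fin_cases i <;> fin_cases j <;> simp <;> ring
    rw [← h3, ← h2]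
    abel
  have h4 : (n : ℝ)⁻¹ • ((qm x' y' z' w').adjugate * qm x y z w) =
      1 + (N : ℝ) • ((qm x' y' z' w').adjugate * qm p q r s) := by
    rw [h1, Matrix.mul_add, Matrix.adjugate_mul, hd', Matrix.mul_smul, smul_add, smul_smul,
      smul_smul, inv_mul_cancel₀ hnR, one_smul]
    congr 2
    push_cast
    field_simp
  have hdet1 : ((n : ℝ)⁻¹ • ((qm x' y' z' w').adjugate * qm x y z w)).det = 1 := by
    rw [Matrix.det_smul, Matrix.det_mul, Matrix.det_adjugate, hd, hd']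
    simp
    field_simp
  obtain ⟨g, hg⟩ : ∃ g : SL(2, ℝ), g.1 =
      (n : ℝ)⁻¹ • ((qm x' y' z' w').adjugate * qm x y z w) := ⟨⟨_, hdet1⟩, rfl⟩
  refine ⟨g, ?_, hg⟩
  rw [mem_cong, hg, h4, adj_qm, qm_mul, qm_one_add]
  exact ⟨_, _, _, _, rfl, by simp, by simp, by simp, by simp⟩

theorem abs_qm_le (x y z w : ℤ) (B : ℕ) (h : sz (x, y, z, w) ≤ B) (i j : Fin 2) :
    |qm x y z w i j| ≤ 9 * B := by
  have h2 : √(2 : ℝ) ≤ 2 := by
    rw [Real.sqrt_le_left (by norm_num)]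
    norm_num
  have h2' : 0 ≤ √(2 : ℝ) := Real.sqrt_nonneg _
  simp only [sz] at h
  have hc : ((x.natAbs : ℝ) + y.natAbs + z.natAbs + w.natAbs) ≤ B := by exact_mod_cast h
  simp only [Nat.cast_natAbs, Int.cast_abs] at hc
  have a1 := abs_nonneg (x : ℝ)
  have a2 := abs_nonneg (y : ℝ)
  have a3 := abs_nonneg (z : ℝ)
  have a4 := abs_nonneg (w : ℝ)
  have m1 : |(y : ℝ) * √2| ≤ 2 * |(y : ℝ)| := by
    rw [abs_mul, abs_of_nonneg h2']
    nlinarith
  have m2 : |(w : ℝ) * √2| ≤ 2 * |(w : ℝ)| := by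
    rw [abs_mul, abs_of_nonneg h2']
    nlinarith
  have t1 := abs_add_le (x : ℝ) (y * √2)
  have t2 := abs_sub (x : ℝ) (y * √2)
  have t3 := abs_add_le (z : ℝ) (w * √2)
  have t4 := abs_sub (z : ℝ) (w * √2)
  fin_cases i <;> fin_cases j
  · simp [qm]; linarith
  · simp [qm]; linarith
  · simp [qm, abs_mul]; linarith
  · simp [qm]; linarith

/-- The congruence subgroups act cocompactly. -/
theorem cocompact {N : ℤ} (hN : 0 < N) :
    ∃ K : Set ℍ, IsCompact K ∧ ∀ z : ℍ, ∃ g ∈ cong N, g • z ∈ K := by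
  obtain ⟨B, hB⟩ := exists_reps hN
  set R : ℝ := 2 * (2 * (54 * (B : ℝ)) ^ 2) with hR
  refine ⟨Metric.closedBall UpperHalfPlane.I R, isCompact_closedBall _ _, fun z => ?_⟩
  set h := z.toSL2R with hh
  have hz : h • UpperHalfPlane.I = z := UpperHalfPlane.toSL2R_smul_I z
  obtain ⟨x, y, z', w, hne, hbd⟩ := minkowski h
  have hdh : h.1.det = 1 := h.2
  have hnf : ((nf (x, y, z', w) : ℤ) : ℝ) = (qm x y z' w * h.1).det := by
    rw [Matrix.det_mul, hdh, mul_one, det_qm]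
    rfl
  have h0 : nf (x, y, z', w) ≠ 0 := fun h' => hne (aniso h')
  have h18 : |nf (x, y, z', w)| ≤ 18 := by
    have h1 : |((nf (x, y, z', w) : ℤ) : ℝ)| ≤ 18 := by
      rw [hnf, Matrix.det_fin_two]
      have b00 := (hbd 0 0).le
      have b01 := (hbd 0 1).le
      have b10 := (hbd 1 0).le
      have b11 := (hbd 1 1).le
      refine (abs_sub _ _).trans ?_
      rw [abs_mul, abs_mul]
      have := mul_le_mul b00 b11 (abs_nonneg _) (by norm_num)
      have := mul_le_mul b01 b10 (abs_nonneg _) (by norm_num)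
      linarith
    exact_mod_cast h1
  obtain ⟨⟨x', y', z'', w'⟩, hcl, hsz⟩ := hB _ h0 h18
  obtain ⟨g, hg, hgm⟩ := exists_unit h0 hcl
  refine ⟨g, hg, ?_⟩
  have hn1 : (1 : ℝ) ≤ |((nf (x, y, z', w) : ℤ) : ℝ)| := by
    have : 1 ≤ |nf (x, y, z', w)| := Int.one_le_abs h0
    exact_mod_cast this
  have hent : ∀ i j, |(g * h).1 i j| ≤ 54 * B := by
    intro i j
    have h1 : (g * h).1 = ((nf (x, y, z', w) : ℤ) : ℝ)⁻¹ •
        ((qm x' (-y') (-z'') (-w')) * (qm x y z' w * h.1)) := by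
      rw [Matrix.SpecialLinearGroup.coe_mul, hgm, adj_qm, Matrix.smul_mul, Matrix.mul_assoc]
    rw [h1, Matrix.smul_apply, Matrix.mul_apply, Fin.sum_univ_two, smul_eq_mul, abs_mul, abs_inv]
    have hsz' : sz (x', -y', -z'', -w') ≤ B := by simpa [sz] using hsz
    have q0 := abs_qm_le x' (-y') (-z'') (-w') B hsz' i 0
    have q1 := abs_qm_le x' (-y') (-z'') (-w') B hsz' i 1
    have r0 := (hbd 0 j).le
    have r1 := (hbd 1 j).le
    have hB0 : (0 : ℝ) ≤ 9 * B := by positivity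
    have s1 : |qm x' (-y') (-z'') (-w') i 0 * (qm x y z' w * h.1) 0 j +
        qm x' (-y') (-z'') (-w') i 1 * (qm x y z' w * h.1) 1 j| ≤ 54 * B := by
      refine (abs_add_le _ _).trans ?_
      rw [abs_mul, abs_mul]
      have := mul_le_mul q0 r0 (abs_nonneg _) hB0
      have := mul_le_mul q1 r1 (abs_nonneg _) hB0
      linarith
    have s2 : |((nf (x, y, z', w) : ℤ) : ℝ)|⁻¹ ≤ 1 := inv_le_one_of_one_le₀ hn1
    calc _ ≤ 1 * (54 * (B : ℝ)) := mul_le_mul s2 s1 (abs_nonneg _) zero_le_one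
      _ = _ := one_mul _
  rw [Metric.mem_closedBall, dist_comm, ← hz, ← mul_smul]
  have hcosh := cosh_dist_I (g * h)
  set k := g * h with hk
  have e := fun i j => sq_le_sq' (neg_le_of_abs_le (hent i j)) (le_of_abs_le (hent i j))
  have e00 := e 0 0
  have e01 := e 0 1
  have e10 := e 1 0
  have e11 := e 1 1
  have h3 : Real.cosh (dist UpperHalfPlane.I (k • UpperHalfPlane.I)) ≤ 2 * (54 * (B : ℝ)) ^ 2 := by
    rw [hcosh]
    change (k.1 0 0 ^ 2 + k.1 0 1 ^ 2 + k.1 1 0 ^ 2 + k.1 1 1 ^ 2) / 2 ≤ _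
    linarith
  have h4 : dist UpperHalfPlane.I (k • UpperHalfPlane.I) ≤
      2 * Real.cosh (dist UpperHalfPlane.I (k • UpperHalfPlane.I)) := by
    rw [Real.cosh_eq]
    have h5 := Real.add_one_le_exp (dist UpperHalfPlane.I (k • UpperHalfPlane.I))
    have h6 := Real.exp_pos (-(dist UpperHalfPlane.I (k • UpperHalfPlane.I)))
    linarith
  rw [hR]
  linarith

end Pool.Agent.H85R3.HS
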