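import Mathlib

/-! Closed hyperbolic surfaces: area, genus, eigenvalues, simple closed geodesics. -/

set_option autoImplicit false

open scoped MatrixGroups UpperHalfPlane ContDiff ENNReal
open MeasureTheory UpperHalfPlane

namespace Pool.Agent.H85R3.HS

/-- `Γ` is a discrete subgroup of `SL(2, ℝ)` acting freely and cocompactly on the hyperbolic plane
`ℍ`: the quotient `ℍ / Γ` is a closed connected orientable hyperbolic surface. -/
structure IsClosedSurface (Γ : Subgroup SL(2, ℝ)) : Prop where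
  discrete : DiscreteTopology Γ
  free : ∀ g ∈ Γ, ∀ z : ℍ, g • z = z → g = 1
  cocompact : ∃ K : Set ℍ, IsCompact K ∧ ∀ z : ℍ, ∃ g ∈ Γ, g • z ∈ K

/-- The surface `ℍ / Γ`, as a topological space. -/
abbrev Surface (Γ : Subgroup SL(2, ℝ)) : Type := MulAction.orbitRel.Quotient Γ ℍ

/-- The projection `ℍ → ℍ / Γ`. -/
noncomputable def proj (Γ : Subgroup SL(2, ℝ)) (z : ℍ) : Surface Γ := Quotient.mk _ z

/-- The hyperbolic area of `ℍ / Γ`. -/
noncomputable def area (Γ : Subgroup SL(2, ℝ)) : ℝ := (covolume Γ ℍ (volume : Measure ℍ)).toReal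

/-- The genus of the closed hyperbolic surface `ℍ / Γ`, through the Gauss-Bonnet formula
`area = 4 π (genus - 1)`. -/
noncomputable def genus (Γ : Subgroup SL(2, ℝ)) : ℝ := 1 + area Γ / (4 * Real.pi)

/-- The square of the norm of the hyperbolic gradient of `f`: `y² (f_x² + f_y²)`. -/
noncomputable def gradSq (f : ℍ → ℝ) (z : ℍ) : ℝ :=
  z.im ^ 2 * (fderiv ℝ (f ∘ ofComplex) (z : ℂ) 1 ^ 2 +
    fderiv ℝ (f ∘ ofComplex) (z : ℂ) Complex.I ^ 2)

/-- `f` is a smooth function on `ℍ / Γ`, i.e. a smooth `Γ`-invariant function on `ℍ`. -/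
structure IsSmoothOn (Γ : Subgroup SL(2, ℝ)) (f : ℍ → ℝ) : Prop where
  smooth : ContDiffOn ℝ ∞ (f ∘ ofComplex) {z : ℂ | 0 < z.im}
  invariant : ∀ g ∈ Γ, ∀ z : ℍ, f (g • z) = f z

/-- The Rayleigh quotient of the function `f` on `ℍ / Γ` is at most `t`:
`∫ |∇f|² ≤ t ∫ f²`, the integrals being over `ℍ / Γ`, that is, over any fundamental domain. -/
def RayleighLE (Γ : Subgroup SL(2, ℝ)) (f : ℍ → ℝ) (t : ℝ) : Prop :=
  ∀ D : Set ℍ, IsFundamentalDomain Γ D (volume : Measure ℍ) →
    ∫⁻ z in D, ENNReal.ofReal (gradSq f z) ≤ ENNReal.ofReal t * ∫⁻ z in D, ENNReal.ofReal (f z ^ 2)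

/-- The eigenvalue `λ_i` of the Laplacian of the closed hyperbolic surface `ℍ / Γ`, where
`0 = λ_0 < λ_1 ≤ λ_2 ≤ …` with multiplicity, through the min-max principle: the infimum of the `t`
such that the Rayleigh quotient is at most `t` on some `(i + 1)`-dimensional space of smooth
functions. -/
noncomputable def eigenvalue (Γ : Subgroup SL(2, ℝ)) (i : ℕ) : ℝ :=
  sInf {t : ℝ | 0 ≤ t ∧ ∃ V : Submodule ℝ (ℍ → ℝ), Module.finrank ℝ V = i + 1 ∧
    ∀ f ∈ V, IsSmoothOn Γ f ∧ RayleighLE Γ f t}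

/-- The unit speed geodesic line of `ℍ` that is the image under `h` of `s ↦ e^s i`. Every geodesic
line of `ℍ` is of this form. -/
noncomputable def geod (h : SL(2, ℝ)) (s : ℝ) : ℍ :=
  h • UpperHalfPlane.mk ⟨0, Real.exp s⟩ (Real.exp_pos s)

/-- A simple closed geodesic of `ℍ / Γ` of length `length`: a unit speed geodesic `s ↦ c (s)` with
`c (s) = c (t)` exactly when `t - s` is an integer multiple of `length`. -/
structure SimpleClosedGeodesic (Γ : Subgroup SL(2, ℝ)) where
  /-- determines the geodesic line -/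
  frame : SL(2, ℝ)
  /-- the length -/
  length : ℝ
  length_pos : 0 < length
  closed_simple : ∀ s t : ℝ, proj Γ (geod frame s) = proj Γ (geod frame t) ↔
    ∃ n : ℤ, t - s = n * length

/-- The image of the geodesic in the surface. -/
def SimpleClosedGeodesic.carrier {Γ : Subgroup SL(2, ℝ)} (c : SimpleClosedGeodesic Γ) :
    Set (Surface Γ) :=
  Set.range fun s : ℝ => proj Γ (geod c.frame s)

/-- `L_i`: the least total length of a finite collection of pairwise disjoint simple closed
geodesics of `ℍ / Γ` whose complement has exactly `i + 1` connected components. -/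
noncomputable def cutLength (Γ : Subgroup SL(2, ℝ)) (i : ℕ) : ℝ≥0∞ :=
  ⨅ (n : ℕ) (c : Fin n → SimpleClosedGeodesic Γ)
    (_ : Pairwise fun j k => Disjoint (c j).carrier (c k).carrier)
    (_ : Nat.card (ConnectedComponents ((⋃ j, (c j).carrier)ᶜ : Set (Surface Γ))) = i + 1),
    ∑ j, ENNReal.ofReal (c j).length

end Pool.Agent.H85R3.HS
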