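import Pool.Agent.H85R3.HSCocompact
import Pool.Agent.H85R3.HSDefs

/-! Fundamental domains, area and packings for groups moving every point far. -/

set_option autoImplicit false

open scoped MatrixGroups UpperHalfPlane ENNReal Pointwise
open MeasureTheory UpperHalfPlane

namespace Pool.Agent.H85R3.HS

/-- Every nontrivial element of `Γ` moves every point by at least `S`. -/
def MovesFar (Γ : Subgroup SL(2, ℝ)) (S : ℝ) : Prop :=
  ∀ g ∈ Γ, g ≠ 1 → ∀ z : ℍ, S ≤ dist z (g • z)

instance : SMulInvariantMeasure SL(2, ℝ) ℍ volume where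
  measure_preimage_smul c s hs := by
    have h := (inferInstance : SMulInvariantMeasure (GL (Fin 2) ℝ) ℍ volume).measure_preimage_smul
      (c : GL (Fin 2) ℝ) hs
    exact h

variable {Γ : Subgroup SL(2, ℝ)} {S : ℝ}

theorem MovesFar.eq_of_dist_lt (h : MovesFar Γ S) {g g' : SL(2, ℝ)} (hg : g ∈ Γ) (hg' : g' ∈ Γ)
    {z : ℍ} (hd : dist (g • z) (g' • z) < S) : g = g' := by
  by_contra hne
  have h1 : g⁻¹ * g' ≠ 1 := by
    intro h1
    exact hne (inv_mul_eq_one.mp h1)
  have h2 := h _ (Γ.mul_mem (Γ.inv_mem hg) hg') h1 z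
  have h3 : dist (g • z) (g' • z) = dist z ((g⁻¹ * g') • z) := by
    rw [mul_smul, ← dist_smul g⁻¹ (g • z), inv_smul_smul]
  rw [h3] at hd
  linarith

theorem MovesFar.free (h : MovesFar Γ S) (hS : 0 < S) : ∀ g ∈ Γ, ∀ z : ℍ, g • z = z → g = 1 := by
  intro g hg z hz
  by_contra hne
  have := h g hg hne z
  rw [hz, dist_self] at this
  linarith

theorem MovesFar.countable (h : MovesFar Γ S) (hS : 0 < S) : Countable Γ := by
  have h1 : Pairwise (Function.onFun Disjoint fun g : Γ => Metric.ball (g.1 • UpperHalfPlane.I) (S / 2)) := by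
    intro g g' hne
    refine Set.disjoint_left.mpr fun z hz hz' => hne ?_
    apply Subtype.ext
    refine h.eq_of_dist_lt g.2 g'.2 (z := UpperHalfPlane.I) ?_
    rw [Metric.mem_ball] at hz hz'
    calc dist (g.1 • UpperHalfPlane.I) (g'.1 • UpperHalfPlane.I)
        ≤ dist (g.1 • UpperHalfPlane.I) z + dist z (g'.1 • UpperHalfPlane.I) := dist_triangle _ _ _
      _ < S := by rw [dist_comm _ z]; linarith
  exact h1.countable_of_isOpen_disjoint (fun _ => Metric.isOpen_ball)
    fun g => ⟨_, Metric.mem_ball_self (by linarith)⟩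

theorem MovesFar.discrete (h : MovesFar Γ S) (hS : 0 < S) : DiscreteTopology Γ := by
  apply discreteTopology_of_isOpen_singleton_one
  have h1 : ({1} : Set Γ) = {g : Γ | dist UpperHalfPlane.I (g.1 • UpperHalfPlane.I) < S} := by
    ext g
    constructor
    · rintro rfl
      simpa using hS
    · intro hg
      apply Subtype.ext
      refine (h.eq_of_dist_lt Γ.one_mem g.2 (z := UpperHalfPlane.I) ?_).symm
      simpa using hg
  rw [h1]
  have hc : Continuous fun g : Γ => dist UpperHalfPlane.I (g.1 • UpperHalfPlane.I) :=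
    continuous_const.dist (continuous_subtype_val.smul continuous_const)
  exact isOpen_lt hc continuous_const

theorem smul_def' (g : Γ) (z : ℍ) : g • z = g.1 • z := rfl

theorem MovesFar.exists_domain (h : MovesFar Γ S) (hS : 0 < S) :
    ∃ D : Set ℍ, MeasurableSet D ∧ IsFundamentalDomain Γ D (volume : Measure ℍ) := by
  have : Countable Γ := h.countable hS
  set p : ℕ → ℍ := TopologicalSpace.denseSeq ℍ with hp
  set B : ℕ → Set ℍ := fun k => Metric.ball (p k) (S / 2) with hB
  set A : ℕ → Set ℍ := fun k => ⋃ g : Γ, g • B k with hA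
  have hAm : ∀ k, MeasurableSet (A k) := fun k =>
    MeasurableSet.iUnion fun g => (Metric.isOpen_ball.measurableSet).const_smul g
  have hAinv : ∀ k (g : Γ) (z : ℍ), g • z ∈ A k ↔ z ∈ A k := by
    intro k g z
    simp only [hA, Set.mem_iUnion, Set.mem_smul_set_iff_inv_smul_mem]
    constructor
    · rintro ⟨g', hg'⟩
      refine ⟨g⁻¹ * g', ?_⟩
      rwa [mul_inv_rev, inv_inv, mul_smul]
    · rintro ⟨g', hg'⟩
      refine ⟨g * g', ?_⟩
      rwa [mul_inv_rev, mul_smul, inv_smul_smul]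
  have hdinv : ∀ k (g : Γ) (z : ℍ), g • z ∈ disjointed A k ↔ z ∈ disjointed A k := by
    intro k g z
    rw [disjointed_eq_inter_compl]
    simp only [Set.mem_inter_iff, Set.mem_iInter, Set.mem_compl_iff, hAinv]
  have hcov : ∀ z : ℍ, ∃ k, z ∈ disjointed A k := by
    intro z
    have h1 : z ∈ ⋃ k, A k := by
      obtain ⟨k, hk⟩ := (TopologicalSpace.denseRange_denseSeq ℍ).exists_dist_lt z
        (show 0 < S / 2 by linarith)
      refine Set.mem_iUnion.mpr ⟨k, Set.mem_iUnion.mpr ⟨1, ?_⟩⟩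
      rw [one_smul]
      exact hk
    rw [← iUnion_disjointed] at h1
    exact Set.mem_iUnion.mp h1
  refine ⟨⋃ k, B k ∩ disjointed A k, MeasurableSet.iUnion fun k =>
    Metric.isOpen_ball.measurableSet.inter (MeasurableSet.disjointed hAm k), ?_⟩
  refine IsFundamentalDomain.mk' (MeasurableSet.iUnion fun k =>
    Metric.isOpen_ball.measurableSet.inter (MeasurableSet.disjointed hAm k)).nullMeasurableSet ?_
  intro z
  obtain ⟨k, hk⟩ := hcov z
  have h2 : z ∈ A k := disjointed_subset A k hk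
  obtain ⟨g, hg⟩ := Set.mem_iUnion.mp h2
  rw [Set.mem_smul_set_iff_inv_smul_mem] at hg
  refine ⟨g⁻¹, Set.mem_iUnion.mpr ⟨k, hg, (hdinv k _ z).mpr hk⟩, ?_⟩
  intro g' hg'
  obtain ⟨k', hk'1, hk'2⟩ := Set.mem_iUnion.mp hg'
  have hk'3 : z ∈ disjointed A k' := (hdinv k' g' z).mp hk'2
  have hkk : k' = k := by
    by_contra hne
    exact Set.disjoint_left.mp (disjoint_disjointed A hne) hk'3 hk
  subst hkk
  apply Subtype.ext
  refine h.eq_of_dist_lt g'.2 (g⁻¹).2 (z := z) ?_
  have h3 : dist (g'.1 • z) (p k') < S / 2 := hk'1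
  have h4 : dist ((g⁻¹).1 • z) (p k') < S / 2 := hg
  calc dist (g'.1 • z) ((g⁻¹).1 • z) ≤ dist (g'.1 • z) (p k') + dist ((g⁻¹).1 • z) (p k') :=
        dist_triangle_right _ _ _
    _ < S := by linarith

theorem MovesFar.area_eq (h : MovesFar Γ S) (hS : 0 < S) {D : Set ℍ}
    (hD : IsFundamentalDomain Γ D (volume : Measure ℍ)) :
    covolume Γ ℍ (volume : Measure ℍ) = volume D := by
  have : Countable Γ := h.countable hS
  exact hD.covolume_eq_volume _

theorem MovesFar.volume_le_of_cover (h : MovesFar Γ S) (hS : 0 < S) {D : Set ℍ}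
    (hD : IsFundamentalDomain Γ D (volume : Measure ℍ)) {t : Set ℍ}
    (ht : ∀ z : ℍ, ∃ g ∈ Γ, g • z ∈ t) : volume D ≤ volume t := by
  have : Countable Γ := h.countable hS
  rw [hD.measure_eq_tsum t]
  calc volume D ≤ volume (⋃ g : Γ, g • t ∩ D) := by
        refine measure_mono fun z hz => ?_
        obtain ⟨g, hg, hgt⟩ := ht z
        refine Set.mem_iUnion.mpr ⟨(⟨g, hg⟩ : Γ)⁻¹, ?_, hz⟩
        rw [Set.mem_smul_set_iff_inv_smul_mem, inv_inv]
        exact hgt
    _ ≤ ∑' g : Γ, volume (g • t ∩ D) := measure_iUnion_le _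

theorem MovesFar.volume_ge_of_packing (h : MovesFar Γ S) (hS : 0 < S) {D : Set ℍ}
    (hD : IsFundamentalDomain Γ D (volume : Measure ℍ)) {t : Set ℍ} (htm : MeasurableSet t)
    (ht : ∀ g ∈ Γ, g ≠ 1 → ∀ z ∈ t, g • z ∉ t) : volume t ≤ volume D := by
  have : Countable Γ := h.countable hS
  refine hD.measure_le_of_pairwise_disjoint htm.nullMeasurableSet ?_
  intro g g' hne
  refine Disjoint.aedisjoint (Set.disjoint_left.mpr fun z hz hz' => ?_)
  have h1 := hz.1
  have h2 := hz'.1
  rw [Set.mem_smul_set_iff_inv_smul_mem] at h1 h2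
  have h3 : (g'⁻¹ * g).1 ≠ 1 := by
    intro h3
    apply hne
    have : g'⁻¹ * g = 1 := Subtype.ext h3
    exact (inv_mul_eq_one.mp this).symm
  refine ht _ (g'⁻¹ * g).2 h3 _ h1 ?_
  have : (g'⁻¹ * g).1 • (g⁻¹ • z) = g'⁻¹ • z := by
    change (g'⁻¹ * g) • (g⁻¹ • z) = g'⁻¹ • z
    rw [mul_smul, smul_inv_smul]
  rw [this]
  exact h2

theorem volume_ball (z : ℍ) (r : ℝ) : volume (Metric.ball z r) = volume (Metric.ball UpperHalfPlane.I r) := by
  have h1 : Metric.ball z r = z.toSL2R • Metric.ball UpperHalfPlane.I r := by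
    ext w
    rw [Set.mem_smul_set_iff_inv_smul_mem, Metric.mem_ball, Metric.mem_ball,
      ← dist_smul z.toSL2R (z.toSL2R⁻¹ • w), smul_inv_smul, UpperHalfPlane.toSL2R_smul_I]
  rw [h1, measure_smul]

theorem volume_ball_lt_top (z : ℍ) (r : ℝ) : volume (Metric.ball z r) < ∞ :=
  (measure_mono Metric.ball_subset_closedBall).trans_lt (isCompact_closedBall z r).measure_lt_top

theorem volume_ball_large (C : ℝ) : ∃ r : ℝ, 0 < r ∧ ENNReal.ofReal C ≤ volume (Metric.ball UpperHalfPlane.I r) := by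
  -- a rectangle of height one
  set L : ℝ := 4 * |C| + 1 with hL
  have hL0 : 0 < L := by positivity
  set Q : Set ℂ := (Set.Ioo 0 L) ×ℂ (Set.Ioo 1 2) with hQ
  set r : ℝ := 2 * (1 + (L ^ 2 + 1) / 2) + 1 with hr
  refine ⟨r, by positivity, ?_⟩
  have hsub : Q ⊆ UpperHalfPlane.coe '' Metric.ball UpperHalfPlane.I r := by
    intro z hz
    have hz1 : z.re ∈ Set.Ioo 0 L := hz.1
    have hz2 : z.im ∈ Set.Ioo (1 : ℝ) 2 := hz.2
    have him : 0 < z.im := by linarith [hz2.1]
    refine ⟨⟨z, him⟩, ?_, rfl⟩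
    rw [Metric.mem_ball, dist_comm]
    have hcosh := UpperHalfPlane.cosh_dist UpperHalfPlane.I (⟨z, him⟩ : ℍ)
    have h1 : dist ((UpperHalfPlane.I : ℍ) : ℂ) ((⟨z, him⟩ : ℍ) : ℂ) ^ 2 = z.re ^ 2 + (1 - z.im) ^ 2 := by
      rw [Complex.dist_eq, ← Complex.normSq_eq_norm_sq, Complex.normSq_apply]
      simp
      ring
    have h2 : (⟨z, him⟩ : ℍ).im = z.im := rfl
    rw [h1, h2, UpperHalfPlane.I_im] at hcosh
    have h3 : (z.re ^ 2 + (1 - z.im) ^ 2) / (2 * 1 * z.im) ≤ (L ^ 2 + 1) / 2 := by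
      rw [div_le_div_iff₀ (by linarith) (by norm_num)]
      have a1 : z.re ^ 2 ≤ L ^ 2 := pow_le_pow_left₀ hz1.1.le hz1.2.le 2
      have a2 : (1 - z.im) ^ 2 ≤ 1 := by nlinarith [hz2.1, hz2.2]
      nlinarith [hz2.1, sq_nonneg L]
    set d := dist UpperHalfPlane.I (⟨z, him⟩ : ℍ) with hd
    have h4 : d ≤ 2 * Real.cosh d := by
      rw [Real.cosh_eq]
      have h5 := Real.add_one_le_exp d
      have h6 := Real.exp_pos (-d)
      linarith
    rw [hr]
    linarith
  rw [volume_eq_lintegral]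
  calc ENNReal.ofReal C ≤ ∫⁻ _z in Q, ENNReal.ofReal (1 / 4) := by
        rw [setLIntegral_const]
        have hv : volume Q = ENNReal.ofReal L := by
          have h1 : Q = Complex.measurableEquivRealProd ⁻¹' (Set.Ioo 0 L ×ˢ Set.Ioo 1 2) := by
            ext z
            simp [hQ, Complex.mem_reProdIm]
          rw [h1, Complex.volume_preserving_equiv_real_prod.measure_preimage
            (measurableSet_Ioo.prod measurableSet_Ioo).nullMeasurableSet, Measure.volume_eq_prod,
            Measure.prod_prod, Real.volume_Ioo, Real.volume_Ioo]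
          norm_num
        rw [hv, ← ENNReal.ofReal_mul (by norm_num)]
        apply ENNReal.ofReal_le_ofReal
        rw [hL]
        have := le_abs_self C
        linarith
    _ ≤ ∫⁻ z in Q, ↑((1 / ‖z.im‖₊) ^ 2 : NNReal) := by
        refine setLIntegral_mono' ?_ ?_
        · exact (isOpen_Ioo.reProdIm isOpen_Ioo).measurableSet
        · intro z hz
          have hz2 : z.im ∈ Set.Ioo (1 : ℝ) 2 := hz.2
          rw [ENNReal.ofReal]
          norm_cast
          rw [← NNReal.coe_le_coe, Real.coe_toNNReal _ (by norm_num)]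
          push_cast
          rw [Real.norm_of_nonneg (by linarith [hz2.1])]
          have : (1 / 2 : ℝ) ≤ 1 / z.im := one_div_le_one_div_of_le (by linarith [hz2.1]) hz2.2.le
          nlinarith
    _ ≤ _ := lintegral_mono_set hsub

end Pool.Agent.H85R3.HS
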