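import Pool.Agent.H85R3.HSDomain

/-! Maximal packings by balls. -/

set_option autoImplicit false

open scoped MatrixGroups UpperHalfPlane ENNReal Pointwise
open MeasureTheory UpperHalfPlane

namespace Pool.Agent.H85R3.HS

variable {Γ : Subgroup SL(2, ℝ)} {S : ℝ}

/-- The points `z j` are far apart in the quotient. -/
def Sep (Γ : Subgroup SL(2, ℝ)) (r : ℝ) {n : ℕ} (z : Fin n → ℍ) : Prop :=
  ∀ j k, ∀ g ∈ Γ, (j ≠ k ∨ g ≠ 1) → 2 * r ≤ dist (z j) (g • z k)

theorem Sep.disjoint {r : ℝ} {n : ℕ} {z : Fin n → ℍ} (h : Sep Γ r z) {j k : Fin n}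
    {g : SL(2, ℝ)} (hg : g ∈ Γ) (hne : j ≠ k ∨ g ≠ 1) {w : ℍ} (hw : w ∈ Metric.ball (z j) r)
    (hw' : g⁻¹ • w ∈ Metric.ball (z k) r) : False := by
  have h1 := h j k g hg hne
  rw [Metric.mem_ball] at hw hw'
  rw [← dist_smul g, smul_inv_smul] at hw'
  have h2 := dist_triangle_left (z j) (g • z k) w
  linarith

theorem Sep.volume_le (hM : MovesFar Γ S) (hS : 0 < S) {r : ℝ} {n : ℕ} {z : Fin n → ℍ}
    (h : Sep Γ r z) {D : Set ℍ} (hD : IsFundamentalDomain Γ D (volume : Measure ℍ)) :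
    n * volume (Metric.ball UpperHalfPlane.I r) ≤ volume D := by
  have h1 : volume (⋃ j, Metric.ball (z j) r) = n * volume (Metric.ball UpperHalfPlane.I r) := by
    rw [measure_iUnion]
    · simp only [volume_ball]
      rw [tsum_fintype, Finset.sum_const, Finset.card_univ, Fintype.card_fin, nsmul_eq_mul]
    · intro j k hjk
      refine Set.disjoint_left.mpr fun w hw hw' => ?_
      exact h.disjoint Γ.one_mem (Or.inl hjk) hw (by simpa using hw')
    · intro j
      exact Metric.isOpen_ball.measurableSet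
  rw [← h1]
  refine hM.volume_ge_of_packing hS hD (MeasurableSet.iUnion fun j =>
    Metric.isOpen_ball.measurableSet) ?_
  intro g hg hg1 w hw hw'
  obtain ⟨j, hj⟩ := Set.mem_iUnion.mp hw
  obtain ⟨k, hk⟩ := Set.mem_iUnion.mp hw'
  exact h.disjoint (g := g) (w := g • w) hg (Or.inr hg1) hk (by simpa using hj)

theorem volume_ball_ne_zero {r : ℝ} (hr : 0 < r) :
    volume (Metric.ball UpperHalfPlane.I r) ≠ 0 := by
  rw [volume_eq_lintegral]
  have hopen : IsOpen (UpperHalfPlane.coe '' Metric.ball UpperHalfPlane.I r) :=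
    isOpenEmbedding_coe.isOpenMap _ Metric.isOpen_ball
  have hne : (UpperHalfPlane.coe '' Metric.ball UpperHalfPlane.I r).Nonempty :=
    ⟨_, UpperHalfPlane.I, Metric.mem_ball_self hr, rfl⟩
  have hpos := hopen.measure_pos volume hne
  intro h0
  have hmeas : Measurable fun z : ℂ => (((1 / ‖z.im‖₊) ^ 2 : NNReal) : ℝ≥0∞) := by
    fun_prop
  rw [lintegral_eq_zero_iff hmeas] at h0
  have h1 : ∀ᵐ z ∂(volume.restrict (UpperHalfPlane.coe '' Metric.ball UpperHalfPlane.I r)),
      False := by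
    filter_upwards [h0, ae_restrict_mem hopen.measurableSet] with z hz hz'
    obtain ⟨w, -, rfl⟩ := hz'
    simp at hz
    exact w.im_ne_zero hz
  rw [ae_iff] at h1
  simp at h1
  exact hpos.ne' h1

theorem exists_packing (hM : MovesFar Γ S) (hS : 0 < S) {K : Set ℍ} (hK : IsCompact K)
    (hKΓ : ∀ z : ℍ, ∃ g ∈ Γ, g • z ∈ K) {r : ℝ} (hr : 0 < r) (hrS : 2 * r ≤ S) {D : Set ℍ}
    (hD : IsFundamentalDomain Γ D (volume : Measure ℍ)) :
    ∃ (n : ℕ) (z : Fin n → ℍ), Sep Γ r z ∧ n * volume (Metric.ball UpperHalfPlane.I r) ≤ volume D ∧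
      volume D ≤ n * volume (Metric.ball UpperHalfPlane.I (2 * r)) := by
  have hDfin : volume D < ∞ := (hM.volume_le_of_cover hS hD hKΓ).trans_lt hK.measure_lt_top
  have hv0 : volume (Metric.ball UpperHalfPlane.I r) ≠ 0 := volume_ball_ne_zero hr
  set P : ℕ → Prop := fun n => ∃ z : Fin n → ℍ, Sep Γ r z with hP
  have hbd : BddAbove {n | P n} := by
    obtain ⟨N, hN⟩ := ENNReal.exists_nat_gt (ENNReal.div_lt_top hDfin.ne hv0).ne
    refine ⟨N, fun n ⟨z, hz⟩ => ?_⟩
    have h1 := hz.volume_le hM hS hD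
    have h2 : (n : ℝ≥0∞) ≤ volume D / volume (Metric.ball UpperHalfPlane.I r) := by
      rw [ENNReal.le_div_iff_mul_le (Or.inl hv0) (Or.inl (volume_ball_lt_top _ _).ne)]
      exact h1
    exact_mod_cast (h2.trans hN.le)
  have hne : {n | P n}.Nonempty := ⟨0, fun j => j.elim0, fun j => j.elim0⟩
  have hmem := Nat.sSup_mem hne hbd
  set n := sSup {n | P n} with hn
  obtain ⟨z, hz⟩ := hmem
  refine ⟨n, z, hz, hz.volume_le hM hS hD, ?_⟩
  have hcov : ∀ w : ℍ, ∃ g ∈ Γ, g • w ∈ ⋃ j, Metric.ball (z j) (2 * r) := by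
    by_contra hcon
    push Not at hcon
    obtain ⟨w, hw⟩ := hcon
    have hw' : ∀ g ∈ Γ, ∀ j, 2 * r ≤ dist (g • w) (z j) := by
      intro g hg j
      have := hw g hg
      simp only [Set.mem_iUnion, Metric.mem_ball, not_exists, not_lt] at this
      exact this j
    have hP1 : P (n + 1) := by
      refine ⟨Fin.cons w z, ?_⟩
      intro j k g hg hne
      rcases Fin.eq_zero_or_eq_succ j with rfl | ⟨j, rfl⟩ <;>
        rcases Fin.eq_zero_or_eq_succ k with rfl | ⟨k, rfl⟩
      · have hg1 : g ≠ 1 := by simpa using hne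
        simp only [Fin.cons_zero]
        exact hrS.trans (hM g hg hg1 w)
      · simp only [Fin.cons_zero, Fin.cons_succ]
        have := hw' g⁻¹ (Γ.inv_mem hg) k
        rwa [← dist_smul g, smul_inv_smul] at this
      · simp only [Fin.cons_zero, Fin.cons_succ]
        rw [dist_comm]
        exact hw' g hg j
      · simp only [Fin.cons_succ]
        refine hz j k g hg ?_
        rcases hne with h | h
        · left
          intro hjk
          exact h (by rw [hjk])
        · exact Or.inr h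
    have := le_csSup hbd hP1
    omega
  refine (hM.volume_le_of_cover hS hD hcov).trans ((measure_iUnion_le _).trans ?_)
  simp only [volume_ball]
  rw [tsum_fintype, Finset.sum_const, Finset.card_univ, Fintype.card_fin, nsmul_eq_mul]

end Pool.Agent.H85R3.HS
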