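import Pool.Agent.H85R3.HSTopo2
import Pool.Agent.H85R3.HSEig
import Pool.Agent.H85R3.HSPack

/-! Closed hyperbolic surfaces of large systole: lower bound of `cutLength`, numerical estimates. -/

set_option autoImplicit false

open scoped MatrixGroups UpperHalfPlane ENNReal
open MeasureTheory UpperHalfPlane

namespace Pool.Agent.H85R3.HS

variable {Γ : Subgroup SL(2, ℝ)} {S : ℝ}

theorem dist_geod (h : SL(2, ℝ)) (s t : ℝ) : dist (geod h s) (geod h t) = |s - t| := by
  unfold geod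
  rw [dist_smul, UpperHalfPlane.dist_of_re_eq]
  · show dist (Real.log (Real.exp s)) (Real.log (Real.exp t)) = _
    rw [Real.log_exp, Real.log_exp, Real.dist_eq]
  · rfl

/-- Closed geodesics are long. -/
theorem SimpleClosedGeodesic.length_ge (hM : MovesFar Γ S) (hS : 0 < S)
    (c : SimpleClosedGeodesic Γ) : S ≤ c.length := by
  obtain ⟨τ, hτ, h⟩ := c.exists_trans hM hS 1
  have h0 := h 0
  have hl := c.length_pos
  have hd : dist (geod c.frame 0) (τ • geod c.frame 0) = c.length := by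
    rw [h0, dist_geod]
    simp only [Int.cast_one, one_mul, zero_sub, neg_neg, abs_of_pos hl]
  have hne : τ ≠ 1 := by
    rintro rfl
    rw [one_smul, dist_self] at hd
    exact hl.ne hd
  rw [← hd]
  exact hM τ hτ hne _

theorem cutLength_ge (hM : MovesFar Γ S) (hS : 0 < S) (i : ℕ) :
    (i : ℝ≥0∞) * ENNReal.ofReal S ≤ cutLength Γ i := by
  unfold cutLength
  refine le_iInf fun n => le_iInf fun c => le_iInf fun hdisj => le_iInf fun hcard => ?_
  have h1 : i ≤ n := card_le hM hS c hdisj hcard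
  calc (i : ℝ≥0∞) * ENNReal.ofReal S ≤ n * ENNReal.ofReal S := by
        gcongr
    _ = ∑ _j : Fin n, ENNReal.ofReal S := by
        rw [Finset.sum_const, Finset.card_univ, Fintype.card_fin, nsmul_eq_mul]
    _ ≤ ∑ j, ENNReal.ofReal (c j).length :=
        Finset.sum_le_sum fun j _ => ENNReal.ofReal_le_ofReal ((c j).length_ge hM hS)

/-- The final numerical comparison. -/
theorem numerics {K S V n A lam : ℝ} (hK : 0 < K) (hV : 0 < V) (hn : 2 ≤ n) (hA : 0 < A)
    (hAV : A ≤ n * V) (hlam : 0 ≤ lam)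
    (hS : 4 * (1 + V) ^ 2 * (lam + 1) / K ≤ S) :
    lam < K * (n - 1) / (1 + A / (4 * Real.pi)) ^ 2 * ((n - 1) * S) := by
  have hpi := Real.pi_gt_three
  have hg : 1 + A / (4 * Real.pi) ≤ n * (1 + V) := by
    have h1 : A / (4 * Real.pi) ≤ A := by
      rw [div_le_iff₀ (by positivity)]
      nlinarith
    nlinarith
  have hg0 : 0 < 1 + A / (4 * Real.pi) := by positivity
  have hS' : 4 * (1 + V) ^ 2 * (lam + 1) ≤ K * S := by
    rw [div_le_iff₀ hK] at hS
    linarith
  have h2 : (1 + A / (4 * Real.pi)) ^ 2 ≤ (n * (1 + V)) ^ 2 := by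
    exact pow_le_pow_left₀ hg0.le hg 2
  rw [div_mul_eq_mul_div, lt_div_iff₀ (by positivity)]
  have h3 : lam * (1 + A / (4 * Real.pi)) ^ 2 ≤ lam * (n * (1 + V)) ^ 2 :=
    mul_le_mul_of_nonneg_left h2 hlam
  have h4 : n ^ 2 ≤ 4 * (n - 1) ^ 2 := by nlinarith
  have h5 : 0 < n ^ 2 * (1 + V) ^ 2 := by positivity
  calc lam * (1 + A / (4 * Real.pi)) ^ 2 ≤ lam * (n * (1 + V)) ^ 2 := h3
    _ < (lam + 1) * (n * (1 + V)) ^ 2 := by nlinarith
    _ = n ^ 2 / 4 * (4 * (1 + V) ^ 2 * (lam + 1)) := by ring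
    _ ≤ n ^ 2 / 4 * (K * S) := by gcongr
    _ ≤ (n - 1) ^ 2 * (K * S) := by
        have h6 : 0 ≤ K * S := le_trans (by positivity) hS'
        nlinarith
    _ = K * (n - 1) * ((n - 1) * S) := by ring

end Pool.Agent.H85R3.HS
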