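import Pool.Agent.H85R3.HSPack

/-! Test functions supported in the balls of a packing. -/

set_option autoImplicit false

open scoped MatrixGroups UpperHalfPlane ENNReal Pointwise ContDiff Topology
open MeasureTheory UpperHalfPlane

namespace Pool.Agent.H85R3.HS

/-- The action of `h` in the coordinate of `ℂ`. -/
noncomputable def mob (h : SL(2, ℝ)) (z : ℂ) : ℂ := ((h • ofComplex z : ℍ) : ℂ)

theorem det_coe_pos (h : SL(2, ℝ)) : 0 < (h : GL (Fin 2) ℝ).val.det := by
  simp

theorem hasDerivAt_mob (h : SL(2, ℝ)) (w : ℍ) :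
    HasDerivAt (mob h) (1 / denom h w ^ 2) w := by
  have h1 : HasDerivAt (mob h) (((h : GL (Fin 2) ℝ).val.det : ℂ) / denom h w ^ 2) w :=
    (hasStrictDerivAt_smul (det_coe_pos h) w).hasDerivAt
  refine h1.congr_deriv ?_
  simp

theorem contDiffAt_mob (h : SL(2, ℝ)) (w : ℍ) : ContDiffAt ℝ ∞ (mob h) w := by
  have h1 : AnalyticAt ℂ (mob h) w := analyticAt_smul (det_coe_pos h) w
  exact (h1.contDiffAt (n := ∞)).restrict_scalars ℝ

theorem comp_mob (f : ℍ → ℝ) (h : SL(2, ℝ)) (z : ℂ) :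
    ((fun w : ℍ => f (h • w)) ∘ ofComplex) z = ((f ∘ ofComplex) ∘ mob h) z := by
  simp only [Function.comp, mob, ofComplex_apply]

/-- The gradient is invariant under isometries. -/
theorem gradSq_smul (f : ℍ → ℝ) (h : SL(2, ℝ)) (w : ℍ)
    (hf : DifferentiableAt ℝ (f ∘ ofComplex) ((h • w : ℍ) : ℂ)) :
    gradSq (fun w : ℍ => f (h • w)) w = gradSq f (h • w) := by
  have hw : mob h (w : ℂ) = ((h • w : ℍ) : ℂ) := by simp [mob, ofComplex_apply]
  have h1 : ((fun w : ℍ => f (h • w)) ∘ ofComplex) = (f ∘ ofComplex) ∘ mob h :=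
    funext (comp_mob f h)
  have hd : HasFDerivAt (mob h) _ (w : ℂ) := (hasDerivAt_mob h w).hasFDerivAt.restrictScalars ℝ
  rw [← hw] at hf
  have h2 := hf.hasFDerivAt.comp (w : ℂ) hd
  unfold gradSq
  rw [h1, h2.fderiv, ← hw]
  set L := fderiv ℝ (f ∘ ofComplex) (mob h (w : ℂ)) with hL
  set c : ℂ := 1 / denom h w ^ 2 with hc
  have hLc : ∀ v : ℂ, L v = v.re * L 1 + v.im * L Complex.I := by
    intro v
    conv_lhs => rw [← Complex.re_add_im v]
    rw [map_add]
    have e1 : L ((v.re : ℂ)) = v.re * L 1 := by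
      have : ((v.re : ℂ)) = v.re • (1 : ℂ) := by simp
      rw [this, map_smul, smul_eq_mul]
    have e2 : L ((v.im : ℂ) * Complex.I) = v.im * L Complex.I := by
      have : ((v.im : ℂ)) * Complex.I = v.im • Complex.I := by simp
      rw [this, map_smul, smul_eq_mul]
    rw [e1, e2]
  have him : (h • w : ℍ).im = w.im * ‖c‖ := by
    have h3 := UpperHalfPlane.im_smul_eq_div_normSq (h : GL (Fin 2) ℝ) w
    have h4 : ((h : GL (Fin 2) ℝ) • w : ℍ) = h • w := rfl
    rw [h4] at h3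
    rw [h3, hc, norm_div, norm_pow, norm_one, ← Complex.normSq_eq_norm_sq]
    simp
    field_simp
  rw [him]
  simp only [ContinuousLinearMap.comp_apply]
  have e3 : (ContinuousLinearMap.restrictScalars ℝ (ContinuousLinearMap.toSpanSingleton ℂ c)) (1 : ℂ)
      = c := by simp
  have e4 : (ContinuousLinearMap.restrictScalars ℝ (ContinuousLinearMap.toSpanSingleton ℂ c))
      Complex.I = Complex.I * c := by simp
  rw [e3, e4, hLc c, hLc (Complex.I * c)]
  have h5 : ‖c‖ ^ 2 = c.re ^ 2 + c.im ^ 2 := by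
    rw [← Complex.normSq_eq_norm_sq, Complex.normSq_apply]
    ring
  rw [mul_pow, h5]
  simp
  ring

/-- A bump function near `I`. -/
noncomputable def bump : ContDiffBump (Complex.I : ℂ) := ⟨1 / 4, 1 / 2, by norm_num, by norm_num⟩

/-- The basic test function. -/
noncomputable def phi (w : ℍ) : ℝ := bump (w : ℂ)

theorem phi_comp {z : ℂ} (hz : 0 < z.im) : (phi ∘ ofComplex) z = bump z := by
  simp only [Function.comp, phi]
  rw [ofComplex_apply_of_im_pos hz]

theorem phi_comp_eventuallyEq (w : ℍ) : (phi ∘ ofComplex) =ᶠ[𝓝 (w : ℂ)] bump := by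
  filter_upwards [isOpen_upperHalfPlaneSet.mem_nhds w.im_pos] with z hz
  exact phi_comp hz

theorem contDiffAt_phi (w : ℍ) : ContDiffAt ℝ ∞ (phi ∘ ofComplex) w :=
  bump.contDiffAt.congr_of_eventuallyEq (phi_comp_eventuallyEq w)

theorem dist_lt_one {w : ℍ} (hw : dist (w : ℂ) Complex.I < 1 / 2) : dist w UpperHalfPlane.I < 1 := by
  have hn : ‖(w : ℂ) - Complex.I‖ < 1 / 2 := by rwa [← Complex.dist_eq]
  have him : 1 / 2 < w.im := by
    have h1 := Complex.abs_im_le_norm ((w : ℂ) - Complex.I)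
    simp at h1
    have h2 := neg_abs_le (w.im - 1)
    linarith
  have hc := UpperHalfPlane.cosh_dist w UpperHalfPlane.I
  rw [UpperHalfPlane.I_im] at hc
  have h3 : dist (w : ℂ) ((UpperHalfPlane.I : ℍ) : ℂ) ^ 2 ≤ 1 / 4 := by
    have h4 : dist (w : ℂ) ((UpperHalfPlane.I : ℍ) : ℂ) < 1 / 2 := by
      rw [UpperHalfPlane.coe_I]
      exact hw
    nlinarith [dist_nonneg (x := (w : ℂ)) (y := ((UpperHalfPlane.I : ℍ) : ℂ))]
  have h5 : dist (w : ℂ) ((UpperHalfPlane.I : ℍ) : ℂ) ^ 2 / (2 * w.im * 1) ≤ 1 / 4 := by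
    rw [div_le_iff₀ (by linarith)]
    linarith
  by_contra hcon
  push Not at hcon
  have h6 : Real.cosh 1 ≤ Real.cosh (dist w UpperHalfPlane.I) := by
    apply Real.cosh_le_cosh.mpr
    rw [abs_one, abs_of_nonneg dist_nonneg]
    exact hcon
  have h7 : (1 : ℝ) + 1 ^ 2 / 2 ≤ Real.cosh 1 := by
    have h8 : Real.cosh 1 = 2 * Real.sinh (1 / 2) ^ 2 + 1 := by
      have := Real.cosh_two_mul (1 / 2)
      rw [show (2 : ℝ) * (1 / 2) = 1 by norm_num] at this
      rw [this, Real.cosh_sq]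
      ring
    have h9 : (1 / 2 : ℝ) < Real.sinh (1 / 2) := Real.self_lt_sinh_iff.mpr (by norm_num)
    nlinarith
  linarith

theorem phi_eq_zero {w : ℍ} (hw : 1 ≤ dist w UpperHalfPlane.I) : phi w = 0 := by
  by_contra h
  have h1 : (w : ℂ) ∈ Function.support bump := h
  rw [bump.support_eq, Metric.mem_ball] at h1
  have h2 : dist w UpperHalfPlane.I < 1 := dist_lt_one h1
  linarith

theorem phi_I : phi UpperHalfPlane.I = 1 := by
  unfold phi
  rw [UpperHalfPlane.coe_I]
  exact bump.one_of_mem_closedBall (Metric.mem_closedBall_self (by norm_num [bump]))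

theorem continuous_phi : Continuous phi := bump.continuous.comp UpperHalfPlane.continuous_coe

theorem gradSq_phi (w : ℍ) : gradSq phi w = w.im ^ 2 * (fderiv ℝ bump (w : ℂ) 1 ^ 2 +
    fderiv ℝ bump (w : ℂ) Complex.I ^ 2) := by
  unfold gradSq
  rw [(phi_comp_eventuallyEq w).fderiv_eq]

theorem continuous_gradSq_phi : Continuous (gradSq phi) := by
  have h1 : Continuous (fderiv ℝ bump) := (bump.contDiff (n := 1)).continuous_fderiv (by norm_num)
  have h2 : gradSq phi = fun w : ℍ => w.im ^ 2 * (fderiv ℝ bump (w : ℂ) 1 ^ 2 +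
    fderiv ℝ bump (w : ℂ) Complex.I ^ 2) := funext gradSq_phi
  rw [h2]
  have h3 : Continuous fun w : ℍ => fderiv ℝ bump (w : ℂ) := h1.comp UpperHalfPlane.continuous_coe
  exact (UpperHalfPlane.continuous_im.pow 2).mul
    (((h3.clm_apply continuous_const).pow 2).add ((h3.clm_apply continuous_const).pow 2))

theorem gradSq_eq_zero_of_eventually {f : ℍ → ℝ} {w : ℍ} (h : ∀ᶠ w' in 𝓝 w, f w' = 0) :
    gradSq f w = 0 := by
  have h1 : (f ∘ ofComplex) =ᶠ[𝓝 (w : ℂ)] fun _ => 0 := by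
    have h2 : ContinuousAt ofComplex (w : ℂ) := ofComplex.continuousAt (by
      rw [ofComplex]
      simp [w.im_pos])
    have h3 : ofComplex (w : ℂ) = w := ofComplex_apply w
    have h4 : Filter.Tendsto ofComplex (𝓝 (w : ℂ)) (𝓝 w) := by
      have := h2.tendsto
      rwa [h3] at this
    exact h4.eventually h
  unfold gradSq
  rw [h1.fderiv_eq]
  simp

theorem gradSq_congr {f g : ℍ → ℝ} {w : ℍ} (h : ∀ᶠ w' in 𝓝 w, f w' = g w') :
    gradSq f w = gradSq g w := by
  have h1 : (f ∘ ofComplex) =ᶠ[𝓝 (w : ℂ)] (g ∘ ofComplex) := by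
    have h2 : ContinuousAt ofComplex (w : ℂ) := ofComplex.continuousAt (by
      rw [ofComplex]
      simp [w.im_pos])
    have h3 : ofComplex (w : ℂ) = w := ofComplex_apply w
    have h4 : Filter.Tendsto ofComplex (𝓝 (w : ℂ)) (𝓝 w) := by
      have := h2.tendsto
      rwa [h3] at this
    exact h4.eventually h
  unfold gradSq
  rw [h1.fderiv_eq]

theorem eventually_smul {P : ℂ → Prop} {w : ℍ} (h : ∀ᶠ w' : ℍ in 𝓝 w, P w') :
    ∀ᶠ z in 𝓝 (w : ℂ), P z := by
  rw [← isOpenEmbedding_coe.map_nhds_eq, Filter.eventually_map]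
  exact h

theorem measurable_gradSq (f : ℍ → ℝ) : Measurable (gradSq f) := by
  unfold gradSq
  have h1 : Measurable fun w : ℍ => fderiv ℝ (f ∘ ofComplex) (w : ℂ) 1 :=
    (measurable_fderiv_apply_const ℝ (f ∘ ofComplex) 1).comp measurable_coe
  have h2 : Measurable fun w : ℍ => fderiv ℝ (f ∘ ofComplex) (w : ℂ) Complex.I :=
    (measurable_fderiv_apply_const ℝ (f ∘ ofComplex) Complex.I).comp measurable_coe
  exact (UpperHalfPlane.continuous_im.measurable.pow_const 2).mul
    ((h1.pow_const 2).add (h2.pow_const 2))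

end Pool.Agent.H85R3.HS
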