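import Pool.Agent.H85R3.HSDomain

/-! A family of `N` disjoint simple closed geodesics has at most `N + 1` complementary components. -/

set_option autoImplicit false

open scoped MatrixGroups UpperHalfPlane Topology Pointwise
open MeasureTheory UpperHalfPlane

namespace Pool.Agent.H85R3.HS

variable {Γ : Subgroup SL(2, ℝ)} {S : ℝ}

theorem proj_eq_iff {z w : ℍ} : proj Γ z = proj Γ w ↔ ∃ g ∈ Γ, g • w = z := by
  unfold proj
  rw [Quotient.eq, MulAction.orbitRel_apply, MulAction.mem_orbit_iff]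
  constructor
  · rintro ⟨g, hg⟩
    exact ⟨g.1, g.2, hg⟩
  · rintro ⟨g, hg, h⟩
    exact ⟨⟨g, hg⟩, h⟩

theorem proj_smul {g : SL(2, ℝ)} (hg : g ∈ Γ) (w : ℍ) : proj Γ (g • w) = proj Γ w :=
  proj_eq_iff.mpr ⟨g, hg, rfl⟩

theorem continuous_proj : Continuous (proj Γ) := continuous_quotient_mk'

theorem surjective_proj : Function.Surjective (proj Γ) := Quotient.mk_surjective

theorem MovesFar.properlyDiscontinuous (h : MovesFar Γ S) (hS : 0 < S) :
    ProperlyDiscontinuousSMul Γ ℍ where
  finite_disjoint_inter_image := by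
    intro K L hK hL
    obtain ⟨s, -, hsf, hs⟩ := hK.finite_cover_balls (show 0 < S / 4 by linarith)
    obtain ⟨t, -, htf, ht⟩ := hL.finite_cover_balls (show 0 < S / 4 by linarith)
    refine (Set.Finite.biUnion hsf fun p _ => Set.Finite.biUnion htf fun q _ =>
      (Set.Subsingleton.finite (s := {g : Γ | ∃ x ∈ Metric.ball p (S / 4),
        g • x ∈ Metric.ball q (S / 4)}) ?_)).subset (?_ : _ ⊆ ⋃ p ∈ s, ⋃ q ∈ t,
          {g : Γ | ∃ x ∈ Metric.ball p (S / 4), g • x ∈ Metric.ball q (S / 4)})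
    · rintro g ⟨x, hx, hgx⟩ g' ⟨x', hx', hgx'⟩
      apply Subtype.ext
      refine h.eq_of_dist_lt g.2 g'.2 (z := p) ?_
      rw [Metric.mem_ball] at hx hgx hx' hgx'
      have h1 : dist (g.1 • p) (g.1 • x) < S / 4 := by rwa [dist_smul, dist_comm]
      have h2 : dist (g'.1 • x') (g'.1 • p) < S / 4 := by rwa [dist_smul]
      have h3 : dist (g.1 • x) (g'.1 • x') < S / 4 + S / 4 := by
        calc dist (g.1 • x) (g'.1 • x') ≤ dist (g.1 • x) q + dist (g'.1 • x') q :=
              dist_triangle_right _ _ _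
          _ < _ := add_lt_add hgx hgx'
      have h4 := dist_triangle4 (g.1 • p) (g.1 • x) (g'.1 • x') (g'.1 • p)
      linarith
    · intro g hg
      obtain ⟨y, ⟨x, hx, rfl⟩, hy⟩ := hg
      have hx2 := hs hx
      have hy2 := ht hy
      simp only [Set.mem_iUnion, exists_prop] at hx2 hy2 ⊢
      obtain ⟨p, hp, hxp⟩ := hx2
      obtain ⟨q, hq, hyq⟩ := hy2
      exact ⟨p, hp, q, hq, x, hxp, hyq⟩

theorem continuous_geod (h : SL(2, ℝ)) : Continuous (geod h) := by
  unfold geod
  refine Continuous.const_smul ?_ h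
  rw [UpperHalfPlane.isEmbedding_coe.continuous_iff]
  have : (((↑) : ℍ → ℂ) ∘ fun s : ℝ => UpperHalfPlane.mk ⟨0, Real.exp s⟩ (Real.exp_pos s)) =
      fun s : ℝ => Complex.I * (Real.exp s : ℝ) := by
    funext s
    apply Complex.ext <;> simp [Complex.exp_ofReal_re, Complex.exp_ofReal_im]
  rw [this]
  fun_prop

/-- Every closed geodesic comes from an element of the group. -/
theorem SimpleClosedGeodesic.exists_trans (hM : MovesFar Γ S) (hS : 0 < S)
    (c : SimpleClosedGeodesic Γ) (n : ℤ) :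
    ∃ τ ∈ Γ, ∀ t, τ • geod c.frame t = geod c.frame (t - n * c.length) := by
  have h1 : ∀ t : ℝ, ∃ g ∈ Γ, g • geod c.frame t = geod c.frame (t - n * c.length) := by
    intro t
    apply proj_eq_iff.mp
    rw [c.closed_simple]
    exact ⟨n, by ring⟩
  choose g hgΓ hg using h1
  have hlc : IsLocallyConstant g := by
    rw [IsLocallyConstant.iff_eventually_eq]
    intro t
    have hc1 : ContinuousAt (fun t' : ℝ => dist (g t • geod c.frame t') (geod c.frame (t' - n * c.length))) t := by
      refine Continuous.continuousAt ?_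
      refine ((continuous_geod c.frame).const_smul (g t)).dist ?_
      exact (continuous_geod c.frame).comp (by fun_prop)
    have hlt : (fun t' : ℝ => dist (g t • geod c.frame t') (geod c.frame (t' - n * c.length))) t < S := by
      simp only
      rw [hg t, dist_self]
      exact hS
    filter_upwards [hc1.eventually (gt_mem_nhds hlt)] with t' ht'
    refine (hM.eq_of_dist_lt (hgΓ t) (hgΓ t') (z := geod c.frame t') ?_).symm
    rw [hg t']
    exact ht'
  refine ⟨g 0, hgΓ 0, fun t => ?_⟩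
  rw [hlc.apply_eq_of_preconnectedSpace 0 t]
  exact hg t

/-- Fermi coordinates along a geodesic line. -/
noncomputable def fermi (h : SL(2, ℝ)) (s u : ℝ) : ℍ :=
  h • UpperHalfPlane.mk ⟨Real.exp s * u, Real.exp s⟩ (Real.exp_pos s)

theorem fermi_zero (h : SL(2, ℝ)) (s : ℝ) : fermi h s 0 = geod h s := by
  unfold fermi geod
  congr 2
  rw [mul_zero]

theorem continuous_fermi (h : SL(2, ℝ)) : Continuous fun p : ℝ × ℝ => fermi h p.1 p.2 := by
  unfold fermi
  refine Continuous.const_smul ?_ h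
  rw [UpperHalfPlane.isEmbedding_coe.continuous_iff]
  have : (((↑) : ℍ → ℂ) ∘ fun p : ℝ × ℝ =>
      UpperHalfPlane.mk ⟨Real.exp p.1 * p.2, Real.exp p.1⟩ (Real.exp_pos p.1)) =
      fun p : ℝ × ℝ => ((Real.exp p.1 * p.2 : ℝ) : ℂ) + Complex.I * (Real.exp p.1 : ℝ) := by
    funext s
    apply Complex.ext <;> simp [Complex.exp_ofReal_re, Complex.exp_ofReal_im]
  rw [this]
  fun_prop

noncomputable def fs (h : SL(2, ℝ)) (w : ℍ) : ℝ := Real.log (h⁻¹ • w).im

noncomputable def fu (h : SL(2, ℝ)) (w : ℍ) : ℝ := (h⁻¹ • w).re / (h⁻¹ • w).im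

theorem fermi_fs_fu (h : SL(2, ℝ)) (w : ℍ) : fermi h (fs h w) (fu h w) = w := by
  unfold fermi
  rw [← eq_inv_smul_iff]
  apply UpperHalfPlane.ext
  have hp : 0 < (h⁻¹ • w).im := (h⁻¹ • w).im_pos
  apply Complex.ext
  · show Real.exp (fs h w) * fu h w = (h⁻¹ • w).re
    unfold fs fu
    rw [Real.exp_log hp]
    field_simp
  · show Real.exp (fs h w) = (h⁻¹ • w).im
    unfold fs
    rw [Real.exp_log hp]

theorem fs_fermi (h : SL(2, ℝ)) (s u : ℝ) : fs h (fermi h s u) = s := by
  unfold fs fermi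
  rw [inv_smul_smul]
  exact Real.log_exp s

theorem fu_fermi (h : SL(2, ℝ)) (s u : ℝ) : fu h (fermi h s u) = u := by
  unfold fu fermi
  rw [inv_smul_smul]
  show Real.exp s * u / Real.exp s = u
  field_simp

theorem continuous_fs (h : SL(2, ℝ)) : Continuous (fs h) := by
  unfold fs
  refine Continuous.log ?_ fun w => (UpperHalfPlane.im_pos _).ne'
  exact UpperHalfPlane.continuous_im.comp (continuous_const_smul h⁻¹)

theorem continuous_fu (h : SL(2, ℝ)) : Continuous (fu h) := by
  unfold fu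
  refine Continuous.div ?_ ?_ fun w => (UpperHalfPlane.im_pos _).ne'
  · exact UpperHalfPlane.continuous_re.comp (continuous_const_smul h⁻¹)
  · exact UpperHalfPlane.continuous_im.comp (continuous_const_smul h⁻¹)

theorem smul_fermi (g h : SL(2, ℝ)) (s u : ℝ) : g • fermi h s u = fermi (g * h) s u := by
  unfold fermi
  rw [mul_smul]


theorem SimpleClosedGeodesic.exists_mem (c : SimpleClosedGeodesic Γ) {w : ℍ}
    (hw : proj Γ w ∈ c.carrier) :
    ∃ g ∈ Γ, ∃ t ∈ Set.Icc 0 c.length, w = g • geod c.frame t := by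
  obtain ⟨s, hs⟩ := hw
  have hl := c.length_pos
  have h1 : proj Γ (geod c.frame (s - ⌊s / c.length⌋ * c.length)) = proj Γ w := by
    rw [← hs]
    exact (c.closed_simple _ _).mpr ⟨⌊s / c.length⌋, by ring⟩
  obtain ⟨g, hg, h⟩ := proj_eq_iff.mp h1.symm
  refine ⟨g, hg, _, ?_, h.symm⟩
  have h2 := Int.floor_le (s / c.length)
  have h3 := (Int.lt_floor_add_one (s / c.length)).le
  rw [le_div_iff₀ hl] at h2
  rw [div_le_iff₀ hl] at h3
  constructor <;> linarith

theorem SimpleClosedGeodesic.mem_carrier (c : SimpleClosedGeodesic Γ) {g : SL(2, ℝ)} (hg : g ∈ Γ)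
    (t : ℝ) : proj Γ (g • geod c.frame t) ∈ c.carrier := by
  rw [proj_smul hg]
  exact ⟨t, rfl⟩

theorem SimpleClosedGeodesic.isClosed_carrier (hM : MovesFar Γ S) (hS : 0 < S)
    (c : SimpleClosedGeodesic Γ) : IsClosed c.carrier := by
  have := hM.properlyDiscontinuous hS
  have hc : c.carrier = (fun s => proj Γ (geod c.frame s)) '' Set.Icc 0 c.length := by
    apply Set.Subset.antisymm
    · intro x hx
      obtain ⟨w, rfl⟩ := surjective_proj x
      obtain ⟨g, hg, t, ht, rfl⟩ := c.exists_mem hx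
      exact ⟨t, ht, (proj_smul hg _).symm⟩
    · rintro _ ⟨s, -, rfl⟩
      exact ⟨s, rfl⟩
  rw [hc]
  have : T2Space (Surface Γ) := t2Space_of_properlyDiscontinuousSMul_of_t2Space
  exact (isCompact_Icc.image (continuous_proj.comp (continuous_geod c.frame))).isClosed

/-- Near a point of a simple closed geodesic, its preimage is the geodesic line. -/
theorem SimpleClosedGeodesic.local_line (hM : MovesFar Γ S) (hS : 0 < S)
    (c : SimpleClosedGeodesic Γ) (s : ℝ) :
    ∀ᶠ w in 𝓝 (geod c.frame s), proj Γ w ∈ c.carrier → ∃ t, w = geod c.frame t := by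
  have := hM.properlyDiscontinuous hS
  set Z : Set ℍ := geod c.frame '' Set.Icc 0 c.length with hZ
  have hZc : IsCompact Z := isCompact_Icc.image (continuous_geod c.frame)
  set z := geod c.frame s with hz
  have hfin := ProperlyDiscontinuousSMul.finite_disjoint_inter_image (Γ := Γ) hZc
    (isCompact_closedBall z 1)
  have hev : ∀ᶠ w in 𝓝 z, ∀ g ∈ {γ : Γ | ((fun x => γ • x) '' Z ∩ Metric.closedBall z 1).Nonempty},
      z ∉ (fun x => g • x) '' Z → w ∉ (fun x => g • x) '' Z := by
    rw [Filter.eventually_all_finite hfin]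
    intro g hg
    by_cases hzg : z ∈ (fun x => g • x) '' Z
    · exact Filter.Eventually.of_forall fun w h => absurd hzg h
    · have hcl : IsClosed ((fun x => g • x) '' Z) :=
        (hZc.image (continuous_const_smul g)).isClosed
      filter_upwards [hcl.isOpen_compl.mem_nhds hzg] with w hw _
      exact hw
  filter_upwards [hev, Metric.ball_mem_nhds z one_pos] with w hw hwb hwc
  obtain ⟨g, hg, t, ht, rfl⟩ := c.exists_mem hwc
  have hgm : g • geod c.frame t ∈ (fun x => (⟨g, hg⟩ : Γ) • x) '' Z :=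
    ⟨geod c.frame t, ⟨t, ht, rfl⟩, rfl⟩
  have h1 : z ∈ (fun x => (⟨g, hg⟩ : Γ) • x) '' Z := by
    by_contra hn
    exact hw ⟨g, hg⟩ ⟨_, hgm, Metric.ball_subset_closedBall hwb⟩ hn hgm
  obtain ⟨_, ⟨t', ht', rfl⟩, h2⟩ := h1
  have h3 : g • geod c.frame t' = geod c.frame s := h2
  obtain ⟨n, hn⟩ := (c.closed_simple s t').mp (by rw [← h3, proj_smul hg])
  obtain ⟨τ, hτ, hτ'⟩ := c.exists_trans hM hS n
  have h4 : g = τ := by
    refine hM.eq_of_dist_lt hg hτ (z := geod c.frame t') ?_
    rw [h3, hτ' t']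
    have : t' - n * c.length = s := by linarith
    rw [this, dist_self]
    exact hS
  exact ⟨t - n * c.length, by rw [h4, hτ' t]⟩

theorem discreteTopology_components {X : Type*} [TopologicalSpace X]
    [Finite (ConnectedComponents X)] : DiscreteTopology (ConnectedComponents X) := inferInstance

theorem eventually_fermi (h : SL(2, ℝ)) {s : ℝ} {P : ℍ → Prop} (hP : ∀ᶠ w in 𝓝 (geod h s), P w) :
    ∃ ε > 0, ∀ s' u : ℝ, |s' - s| < ε → |u| < ε → P (fermi h s' u) := by
  have h1 : Filter.Tendsto (fun p : ℝ × ℝ => fermi h p.1 p.2) (𝓝 (s, 0)) (𝓝 (geod h s)) := by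
    have := (continuous_fermi h).tendsto (s, 0)
    rwa [fermi_zero] at this
  obtain ⟨ε, hε, H⟩ := Metric.eventually_nhds_iff.mp (h1.eventually hP)
  refine ⟨ε, hε, fun s' u hs' hu => H (y := (s', u)) ?_⟩
  rw [Prod.dist_eq, max_lt_iff]
  constructor
  · simpa [Real.dist_eq] using hs'
  · simpa [Real.dist_eq] using hu

end Pool.Agent.H85R3.HS
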