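import Pool.Agent.H85R3.HSTopo

/-! A family of `N` disjoint simple closed geodesics has at most `N + 1` complementary components. -/

set_option autoImplicit false

open scoped MatrixGroups UpperHalfPlane Topology Pointwise
open MeasureTheory UpperHalfPlane

namespace Pool.Agent.H85R3.HS

variable {Γ : Subgroup SL(2, ℝ)} {S : ℝ}

/-- The component of the complement `Y` containing the image of a point. -/
noncomputable def comp (Y : Set (Surface Γ)) (c₀ : ConnectedComponents Y) (w : ℍ) :
    ConnectedComponents Y :=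
  open Classical in if h : proj Γ w ∈ Y then ConnectedComponents.mk ⟨proj Γ w, h⟩ else c₀

theorem comp_of_mem {Y : Set (Surface Γ)} {c₀ : ConnectedComponents Y} {w : ℍ}
    (h : proj Γ w ∈ Y) : comp Y c₀ w = ConnectedComponents.mk ⟨proj Γ w, h⟩ := by
  unfold comp
  rw [dif_pos h]

theorem comp_smul {Y : Set (Surface Γ)} {c₀ : ConnectedComponents Y} {w : ℍ} {g : SL(2, ℝ)}
    (hg : g ∈ Γ) : comp Y c₀ (g • w) = comp Y c₀ w := by
  by_cases h : proj Γ w ∈ Y
  · have h' : proj Γ (g • w) ∈ Y := by rwa [proj_smul hg]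
    rw [comp_of_mem h, comp_of_mem h']
    congr 1
    exact Subtype.ext (proj_smul hg w)
  · have h' : ¬ proj Γ (g • w) ∈ Y := by rwa [proj_smul hg]
    unfold comp
    rw [dif_neg h, dif_neg h']

theorem comp_eventually {Y : Set (Surface Γ)} (hY : IsOpen Y) (c₀ : ConnectedComponents Y)
    [DiscreteTopology (ConnectedComponents Y)] {w : ℍ} (h : proj Γ w ∈ Y) :
    ∀ᶠ w' in 𝓝 w, proj Γ w' ∈ Y ∧ comp Y c₀ w' = comp Y c₀ w := by
  have h1 : IsOpen (Subtype.val '' (ConnectedComponents.mk ⁻¹' {comp Y c₀ w} : Set Y)) := by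
    apply hY.isOpenMap_subtype_val
    exact (isOpen_discrete _).preimage ConnectedComponents.continuous_coe
  have h2 : proj Γ w ∈ Subtype.val '' (ConnectedComponents.mk ⁻¹' {comp Y c₀ w} : Set Y) :=
    ⟨⟨proj Γ w, h⟩, (comp_of_mem h).symm, rfl⟩
  filter_upwards [(h1.preimage continuous_proj).mem_nhds h2] with w' hw'
  obtain ⟨y, hy, hy2⟩ := hw'
  have h3 : proj Γ w' ∈ Y := by
    rw [← hy2]
    exact y.2
  refine ⟨h3, ?_⟩
  rw [comp_of_mem h3]
  have h4 : y = ⟨proj Γ w', h3⟩ := Subtype.ext hy2
  rw [← h4]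
  exact hy

/-- Along one side of a geodesic line the component does not change. -/
theorem side_const {Y : Set (Surface Γ)} (hY : IsOpen Y) (c₀ : ConnectedComponents Y)
    [DiscreteTopology (ConnectedComponents Y)] (h : SL(2, ℝ)) (σ : ℝ)
    {ε : ℝ → ℝ} (hε : ∀ s, 0 < ε s)
    (H : ∀ s s' u : ℝ, |s' - s| < ε s → 0 < u → u < ε s → proj Γ (fermi h s' (σ * u)) ∈ Y) :
    ∀ s s' u : ℝ, |s' - s| < ε s → 0 < u → u < ε s →
      comp Y c₀ (fermi h s' (σ * u)) = comp Y c₀ (fermi h 0 (σ * (ε 0 / 2))) := by
  -- constant on each rectangle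
  have hrect : ∀ s s₁ u₁ s₂ u₂ : ℝ, |s₁ - s| < ε s → 0 < u₁ → u₁ < ε s → |s₂ - s| < ε s →
      0 < u₂ → u₂ < ε s → comp Y c₀ (fermi h s₁ (σ * u₁)) = comp Y c₀ (fermi h s₂ (σ * u₂)) := by
    intro s s₁ u₁ s₂ u₂ h1 h2 h3 h4 h5 h6
    have hconv : IsPreconnected (Metric.ball s (ε s) ×ˢ Set.Ioo 0 (ε s)) :=
      ((convex_ball s (ε s)).prod (convex_Ioo 0 (ε s))).isPreconnected
    have hcont : ContinuousOn (fun p : ℝ × ℝ => comp Y c₀ (fermi h p.1 (σ * p.2)))
        (Metric.ball s (ε s) ×ˢ Set.Ioo 0 (ε s)) := by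
      intro p hp
      apply ContinuousAt.continuousWithinAt
      have h7 : proj Γ (fermi h p.1 (σ * p.2)) ∈ Y := by
        refine H s p.1 p.2 ?_ hp.2.1 hp.2.2
        have := hp.1
        rwa [Metric.mem_ball, Real.dist_eq] at this
      have h8 := comp_eventually hY c₀ h7
      have h9 : ContinuousAt (fun p : ℝ × ℝ => fermi h p.1 (σ * p.2)) p := by
        have := (continuous_fermi h).comp
          (show Continuous fun p : ℝ × ℝ => ((p.1, σ * p.2) : ℝ × ℝ) by fun_prop)
        exact this.continuousAt
      have h10 := h9.eventually h8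
      exact continuousAt_const.congr (h10.mono fun q hq => hq.2.symm)
    exact hconv.constant hcont (x := (s₁, u₁)) (y := (s₂, u₂))
      ⟨by rw [Metric.mem_ball, Real.dist_eq]; exact h1, h2, h3⟩
      ⟨by rw [Metric.mem_ball, Real.dist_eq]; exact h4, h5, h6⟩
  have hself : ∀ s, |s - s| < ε s := fun s => by rw [sub_self, abs_zero]; exact hε s
  have hlc : IsLocallyConstant fun s : ℝ => comp Y c₀ (fermi h s (σ * (ε s / 2))) := by
    rw [IsLocallyConstant.iff_eventually_eq]
    intro s
    filter_upwards [Metric.ball_mem_nhds s (hε s)] with s' hs'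
    rw [Metric.mem_ball, Real.dist_eq] at hs'
    have hm : 0 < min (ε s) (ε s') / 2 := by
      have := lt_min (hε s) (hε s')
      linarith
    have hm1 : min (ε s) (ε s') / 2 < ε s := by
      have := min_le_left (ε s) (ε s')
      have := hε s
      linarith
    have hm2 : min (ε s) (ε s') / 2 < ε s' := by
      have := min_le_right (ε s) (ε s')
      have := hε s'
      linarith
    have e1 := hε s
    have e2 := hε s'
    rw [hrect s' s' (ε s' / 2) s' (min (ε s) (ε s') / 2) (hself _) (by linarith) (by linarith)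
      (hself _) hm hm2]
    exact hrect s s' _ s _ hs' hm hm1 (hself _) (by linarith) (by linarith)
  intro s s' u h1 h2 h3
  have e1 := hε s
  rw [hrect s s' u s (ε s / 2) h1 h2 h3 (hself _) (by linarith) (by linarith)]
  exact hlc.apply_eq_of_preconnectedSpace s 0


theorem neighborhood (hM : MovesFar Γ S) (hS : 0 < S) {N : ℕ} (c : Fin N → SimpleClosedGeodesic Γ)
    (hdisj : Pairwise fun j k => Disjoint (c j).carrier (c k).carrier) (j : Fin N) (s : ℝ) :
    ∃ ε > 0, ∀ s' u : ℝ, |s' - s| < ε → |u| < ε → u ≠ 0 →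
      proj Γ (fermi (c j).frame s' u) ∈ (⋃ k, (c k).carrier)ᶜ := by
  have h1 : ∀ᶠ w in 𝓝 (geod (c j).frame s), ∀ k, proj Γ w ∈ (c k).carrier →
      ∃ t, w = geod (c j).frame t := by
    rw [Filter.eventually_all]
    intro k
    by_cases hk : k = j
    · subst hk
      exact (c k).local_line hM hS s
    · have h2 : IsClosed (proj Γ ⁻¹' (c k).carrier) :=
        ((c k).isClosed_carrier hM hS).preimage continuous_proj
      have h3 : geod (c j).frame s ∉ proj Γ ⁻¹' (c k).carrier := by
        intro h3
        exact Set.disjoint_left.mp (hdisj hk) h3 ⟨s, rfl⟩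
      filter_upwards [h2.isOpen_compl.mem_nhds h3] with w hw hw2
      exact absurd hw2 hw
  obtain ⟨ε, hε, H⟩ := eventually_fermi (c j).frame h1
  refine ⟨ε, hε, fun s' u hs' hu hu0 hmem => ?_⟩
  obtain ⟨k, hk⟩ := Set.mem_iUnion.mp hmem
  obtain ⟨t, ht⟩ := H s' u hs' hu k hk
  apply hu0
  rw [← fu_fermi (c j).frame s' u, ht, ← fermi_zero, fu_fermi]

/-- A family of `N` disjoint simple closed geodesics has at most `N + 1` complementary
components. -/
theorem card_le (hM : MovesFar Γ S) (hS : 0 < S) {N i : ℕ} (c : Fin N → SimpleClosedGeodesic Γ)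
    (hdisj : Pairwise fun j k => Disjoint (c j).carrier (c k).carrier)
    (hcard : Nat.card (ConnectedComponents ((⋃ j, (c j).carrier)ᶜ : Set (Surface Γ))) = i + 1) :
    i ≤ N := by
  set Y : Set (Surface Γ) := (⋃ j, (c j).carrier)ᶜ with hYdef
  have hYo : IsOpen Y := by
    rw [hYdef, isOpen_compl_iff]
    exact isClosed_iUnion_of_finite fun j => (c j).isClosed_carrier hM hS
  have hfin : Finite (ConnectedComponents Y) := Nat.finite_of_card_ne_zero (by rw [hcard]; omega)
  have hdt : DiscreteTopology (ConnectedComponents Y) := inferInstance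
  have hne : Nonempty (ConnectedComponents Y) := by
    by_contra hne
    rw [not_nonempty_iff] at hne
    rw [Nat.card_of_isEmpty] at hcard
    omega
  obtain ⟨c₀⟩ := hne
  choose ε hε H using fun j s => neighborhood hM hS c hdisj j s
  -- the two sides
  set R : Fin N → ConnectedComponents Y := fun j => comp Y c₀ (fermi (c j).frame 0 (1 * (ε j 0 / 2)))
    with hR
  set L : Fin N → ConnectedComponents Y := fun j =>
    comp Y c₀ (fermi (c j).frame 0 ((-1) * (ε j 0 / 2))) with hL
  have HR : ∀ j s s' u, |s' - s| < ε j s → 0 < u → u < ε j s →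
      comp Y c₀ (fermi (c j).frame s' u) = R j := by
    intro j s s' u h1 h2 h3
    have := side_const hYo c₀ (c j).frame 1 (hε j) (fun s s' u h1 h2 h3 => by
      refine H j s s' _ h1 ?_ ?_
      · rw [one_mul, abs_of_pos h2]; exact h3
      · rw [one_mul]; exact h2.ne') s s' u h1 h2 h3
    rwa [one_mul] at this
  have HL : ∀ j s s' u, |s' - s| < ε j s → 0 < u → u < ε j s →
      comp Y c₀ (fermi (c j).frame s' (-u)) = L j := by
    intro j s s' u h1 h2 h3
    have := side_const hYo c₀ (c j).frame (-1) (hε j) (fun s s' u h1 h2 h3 => by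
      refine H j s s' _ h1 ?_ ?_
      · rw [neg_one_mul, abs_neg, abs_of_pos h2]; exact h3
      · rw [neg_one_mul]; exact neg_ne_zero.mpr h2.ne') s s' u h1 h2 h3
    rwa [neg_one_mul] at this
  have hft : Fintype (ConnectedComponents Y) := Fintype.ofFinite _
  set δ : (ConnectedComponents Y → ℝ) →ₗ[ℝ] (Fin N → ℝ) :=
    LinearMap.pi fun j => (LinearMap.proj (R j) : (ConnectedComponents Y → ℝ) →ₗ[ℝ] ℝ) -
      (LinearMap.proj (L j) : (ConnectedComponents Y → ℝ) →ₗ[ℝ] ℝ) with hδ
  have hker : LinearMap.ker δ ≤ Submodule.span ℝ {(fun _ => 1 : ConnectedComponents Y → ℝ)} := by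
    intro f hf
    have hf' : ∀ j, f (R j) = f (L j) := by
      intro j
      have := congrFun (LinearMap.mem_ker.mp hf) j
      simp only [hδ, LinearMap.pi_apply, LinearMap.sub_apply, LinearMap.proj_apply,
        Pi.zero_apply] at this
      linarith
    classical
    set G : ℍ → ℝ := fun w => if h : ∃ j, proj Γ w ∈ (c j).carrier then f (R h.choose)
      else f (comp Y c₀ w) with hG
    have hGc : ∀ w j, proj Γ w ∈ (c j).carrier → G w = f (R j) := by
      intro w j hj
      have h : ∃ j, proj Γ w ∈ (c j).carrier := ⟨j, hj⟩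
      have hj2 : h.choose = j := by
        by_contra hne
        exact Set.disjoint_left.mp (hdisj hne) h.choose_spec hj
      simp only [hG]
      rw [dif_pos h, hj2]
    have hGY : ∀ w, proj Γ w ∈ Y → G w = f (comp Y c₀ w) := by
      intro w hw
      have h : ¬ ∃ j, proj Γ w ∈ (c j).carrier := fun h => hw (Set.mem_iUnion.mpr h)
      simp only [hG]
      rw [dif_neg h]
    have hGlc : IsLocallyConstant G := by
      rw [IsLocallyConstant.iff_eventually_eq]
      intro w
      by_cases hw : proj Γ w ∈ Y
      · filter_upwards [comp_eventually hYo c₀ hw] with w' hw'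
        rw [hGY w' hw'.1, hGY w hw, hw'.2]
      · have hw2 : proj Γ w ∈ ⋃ j, (c j).carrier := not_not.mp hw
        obtain ⟨j, s, hs⟩ := Set.mem_iUnion.mp hw2
        obtain ⟨g, hg, hgw⟩ := proj_eq_iff.mp hs
        -- `g • w = geod s`
        have hcs : ContinuousAt (fun w' : ℍ => fs (c j).frame (g • w')) w :=
          ((continuous_fs _).comp (continuous_const_smul g)).continuousAt
        have hcu : ContinuousAt (fun w' : ℍ => fu (c j).frame (g • w')) w :=
          ((continuous_fu _).comp (continuous_const_smul g)).continuousAt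
        have hvs : fs (c j).frame (g • w) = s := by
          rw [hgw]
          show fs (c j).frame (geod (c j).frame s) = s
          rw [← fermi_zero, fs_fermi]
        have hvu : fu (c j).frame (g • w) = 0 := by
          rw [hgw]
          show fu (c j).frame (geod (c j).frame s) = 0
          rw [← fermi_zero, fu_fermi]
        have hG0 : G w = f (R j) := hGc w j ⟨s, hs⟩
        have he1 := hcs.eventually (Metric.ball_mem_nhds _ (hε j s))
        have he2 := hcu.eventually (Metric.ball_mem_nhds _ (hε j s))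
        filter_upwards [he1, he2] with w' hw1 hw2
        rw [hvs, Real.dist_eq] at hw1
        rw [hvu, Real.dist_eq, sub_zero] at hw2
        have hrec : fermi (c j).frame (fs (c j).frame (g • w')) (fu (c j).frame (g • w')) = g • w' :=
          fermi_fs_fu _ _
        rw [hG0]
        rcases lt_trichotomy (fu (c j).frame (g • w')) 0 with h0 | h0 | h0
        · have h5 : proj Γ w' ∈ Y := by
            rw [← proj_smul hg, ← hrec]
            exact H j s _ _ hw1 hw2 h0.ne
          rw [hGY w' h5, ← comp_smul hg, ← hrec]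
          have h6 := HL j s (fs (c j).frame (g • w')) (-(fu (c j).frame (g • w'))) hw1
            (by linarith) (by rwa [abs_of_neg h0] at hw2)
          rw [neg_neg] at h6
          rw [h6, hf' j]
        · refine hGc w' j ?_
          rw [← proj_smul hg, ← hrec, h0, fermi_zero]
          exact ⟨_, rfl⟩
        · have h5 : proj Γ w' ∈ Y := by
            rw [← proj_smul hg, ← hrec]
            exact H j s _ _ hw1 hw2 h0.ne'
          rw [hGY w' h5, ← comp_smul hg, ← hrec]
          rw [HR j s _ _ hw1 h0 (by rwa [abs_of_pos h0] at hw2)]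
    rw [Submodule.mem_span_singleton]
    refine ⟨f c₀, ?_⟩
    funext x
    have hval : ∀ y : ConnectedComponents Y, f y = G UpperHalfPlane.I := by
      intro y
      obtain ⟨y', rfl⟩ := ConnectedComponents.surjective_coe y
      obtain ⟨w, hw⟩ := surjective_proj y'.1
      have hwY : proj Γ w ∈ Y := by rw [hw]; exact y'.2
      have h7 : G w = f (ConnectedComponents.mk y') := by
        rw [hGY w hwY, comp_of_mem hwY]
        congr 2
        exact Subtype.ext hw
      rw [← h7]
      exact hGlc.apply_eq_of_preconnectedSpace w _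
    simp only [Pi.smul_apply, smul_eq_mul, mul_one]
    rw [hval c₀, hval x]
  have hrn := LinearMap.finrank_range_add_finrank_ker δ
  have h1 : Module.finrank ℝ (LinearMap.range δ) ≤ N := by
    have := Submodule.finrank_le (LinearMap.range δ)
    rwa [Module.finrank_fin_fun] at this
  have h2 : Module.finrank ℝ (LinearMap.ker δ) ≤ 1 := by
    refine (Submodule.finrank_mono hker).trans ?_
    exact (finrank_span_le_card _).trans (by simp)
  have h3 : Module.finrank ℝ (ConnectedComponents Y → ℝ) = i + 1 := by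
    rw [Module.finrank_fintype_fun_eq_card, ← Nat.card_eq_fintype_card, hcard]
  omega

end Pool.Agent.H85R3.HS
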