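import Mathlib

/-! Embedded submanifolds of Euclidean space through local parametrisations: second derivatives,
minimality in the unit sphere, the Laplace-Beltrami operator, and independence of the choices. -/

set_option autoImplicit false

open scoped ContDiff RealInnerProductSpace Topology

namespace Pool.Agent.H85R3.Minimal

/-- Euclidean space of dimension `n`. -/
abbrev E (n : ℕ) := EuclideanSpace ℝ (Fin n)

/-- `φ`, restricted to the open set `U ⊆ ℝ^d`, is a smooth local parametrisation of the subset `M` of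
`ℝ^N`: it is smooth, an immersion, injective, and a homeomorphism onto a relatively open subset
of `M`. -/
structure IsLocalParam {d N : ℕ} (M : Set (E N)) (U : Set (E d)) (φ : E d → E N) : Prop where
  isOpen : IsOpen U
  smooth : ContDiffOn ℝ ∞ φ U
  immersion : ∀ x ∈ U, Function.Injective (fderiv ℝ φ x)
  injOn : Set.InjOn φ U
  relOpen : ∀ W ⊆ U, IsOpen W → ∃ O : Set (E N), IsOpen O ∧ φ '' W = M ∩ O

/-- `M ⊆ ℝ^N` is a closed (compact, without boundary), connected, embedded smooth submanifold of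
dimension `d`. -/
structure IsClosedSubmanifold {N : ℕ} (d : ℕ) (M : Set (E N)) : Prop where
  isCompact : IsCompact M
  isConnected : IsConnected M
  exists_param : ∀ p ∈ M, ∃ (U : Set (E d)) (φ : E d → E N), IsLocalParam M U φ ∧ p ∈ φ '' U

/-- The second derivative of `φ` at `x`, as a bilinear form. -/
noncomputable def D2 {d : ℕ} {W : Type*} [NormedAddCommGroup W] [NormedSpace ℝ W] (φ : E d → W)
    (x : E d) : E d →L[ℝ] E d →L[ℝ] W :=
  fderiv ℝ (fun y => fderiv ℝ φ y) x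

/-- `u` is a frame at `x` that is orthonormal for the metric induced by `φ`. -/
def IsFrame {d N : ℕ} (φ : E d → E N) (x : E d) (u : Fin d → E d) : Prop :=
  Orthonormal ℝ fun i => fderiv ℝ φ x (u i)

/-- The trace of the second derivative of `φ` at `x` with respect to the induced metric, computed in
a frame `u` orthonormal at `x`. The mean curvature vector is the normal component of this vector. -/
noncomputable def traceD2 {d : ℕ} {W : Type*} [NormedAddCommGroup W] [NormedSpace ℝ W]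
    (φ : E d → W) (x : E d) (u : Fin d → E d) : W :=
  ∑ i, D2 φ x (u i) (u i)

/-- `M ⊆ ℝ^N` is a minimal submanifold of the unit sphere: `M` lies in the sphere and its mean
curvature vector in the sphere vanishes, i.e. the trace of the second derivative of every local
parametrisation is tangent to `M` up to a multiple of the position vector (the normal of the
sphere). -/
def IsMinimalInSphere {N : ℕ} (d : ℕ) (M : Set (E N)) : Prop :=
  M ⊆ Metric.sphere 0 1 ∧
    ∀ (U : Set (E d)) (φ : E d → E N), IsLocalParam M U φ → ∀ x ∈ U, ∀ u : Fin d → E d,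
      IsFrame φ x u → traceD2 φ x u ∈ Submodule.span ℝ (Set.range (fderiv ℝ φ x) ∪ {φ x})

/-- The Laplace-Beltrami operator of the metric induced by `φ`, applied to `F` at `x` and computed in
a frame `u` orthonormal at `x`: the trace of the covariant Hessian of `F`, where
`∑ k, ⟪D²φ(v, v), Dφ (u k)⟫ • u k` is the Christoffel term of the induced metric. -/
noncomputable def laplaceBeltrami {d N : ℕ} (φ : E d → E N) (F : E d → ℝ) (x : E d)
    (u : Fin d → E d) : ℝ :=
  traceD2 F x u - ∑ k, ⟪traceD2 φ x u, fderiv ℝ φ x (u k)⟫ * fderiv ℝ F x (u k)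

/-- `μ` is an eigenvalue of the (non-negative) Laplace-Beltrami operator of the `d`-dimensional
submanifold `M ⊆ ℝ^N`: there is a smooth function `f` on `M`, not identically zero, with
`-Δ f = μ f`. -/
def IsEigenvalue {N : ℕ} (d : ℕ) (M : Set (E N)) (μ : ℝ) : Prop :=
  ∃ f : E N → ℝ,
    (∀ (U : Set (E d)) (φ : E d → E N), IsLocalParam M U φ → ContDiffOn ℝ ∞ (f ∘ φ) U) ∧
    (∃ p ∈ M, f p ≠ 0) ∧
    ∀ (U : Set (E d)) (φ : E d → E N), IsLocalParam M U φ → ∀ x ∈ U, ∀ u : Fin d → E d,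
      IsFrame φ x u → laplaceBeltrami φ (f ∘ φ) x u = -(μ * f (φ x))

/-- The first eigenvalue: the smallest positive eigenvalue of the Laplace-Beltrami operator. -/
noncomputable def firstEigenvalue {N : ℕ} (d : ℕ) (M : Set (E N)) : ℝ :=
  sInf {μ : ℝ | 0 < μ ∧ IsEigenvalue d M μ}

/-! ### Independence of the frame -/

section Frames

variable {d N : ℕ}

theorem frame_linearIndependent {φ : E d → E N} {x : E d} {u : Fin d → E d}
    (hu : IsFrame φ x u) : LinearIndependent ℝ u :=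
  LinearIndependent.of_comp (fderiv ℝ φ x).toLinearMap hu.linearIndependent

theorem frame_expand {φ : E d → E N} {x : E d} {u : Fin d → E d}
    (hu : IsFrame φ x u) (v : E d) :
    v = ∑ k, ⟪fderiv ℝ φ x (u k), fderiv ℝ φ x v⟫ • u k := by
  have hli := frame_linearIndependent hu
  have hsp : ⊤ ≤ Submodule.span ℝ (Set.range u) := by
    rw [hli.span_eq_top_of_card_eq_finrank' (by simp)]
  obtain ⟨c, hc⟩ : ∃ c : Fin d → ℝ, ∑ k, c k • u k = v :=
    (Submodule.mem_span_range_iff_exists_fun ℝ).mp (hsp trivial)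
  have hck : ∀ k, ⟪fderiv ℝ φ x (u k), fderiv ℝ φ x v⟫ = c k := by
    intro k
    rw [← hc, map_sum]
    simp only [map_smul]
    exact hu.inner_right_fintype c k
  simp only [hck, hc]

theorem frame_sum {W : Type*} [NormedAddCommGroup W] [NormedSpace ℝ W] {φ : E d → E N} {x : E d}
    {u w : Fin d → E d} (hu : IsFrame φ x u) (hw : IsFrame φ x w)
    (B : E d → E d → W) (hadd₁ : ∀ a b c, B (a + b) c = B a c + B b c)
    (hsm₁ : ∀ (r : ℝ) a b, B (r • a) b = r • B a b)
    (hadd₂ : ∀ a b c, B a (b + c) = B a b + B a c)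
    (hsm₂ : ∀ (r : ℝ) a b, B a (r • b) = r • B a b) :
    ∑ i, B (u i) (u i) = ∑ i, B (w i) (w i) := by
  classical
  let BB : E d →ₗ[ℝ] E d →ₗ[ℝ] W := LinearMap.mk₂ ℝ B hadd₁ hsm₁ hadd₂ hsm₂
  have hBB : ∀ a b, B a b = BB a b := fun _ _ => rfl
  set O : Fin d → Fin d → ℝ := fun i k => ⟪fderiv ℝ φ x (u k), fderiv ℝ φ x (w i)⟫ with hO
  have hexp : ∀ i, w i = ∑ k, O i k • u k := fun i => frame_expand hu (w i)
  have hexp' : ∀ k, u k = ∑ i, O i k • w i := by
    intro k
    have := frame_expand hw (u k)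
    rw [this]
    refine Finset.sum_congr rfl fun i _ => ?_
    rw [real_inner_comm]
  simp only [hBB]
  symm
  calc ∑ i, BB (w i) (w i) = ∑ i, ∑ k, O i k • BB (w i) (u k) := by
        refine Finset.sum_congr rfl fun i _ => ?_
        conv_lhs => rw [show BB (w i) (w i) = BB (w i) (∑ k, O i k • u k) by rw [← hexp i]]
        rw [map_sum]
        simp only [map_smul]
    _ = ∑ k, ∑ i, O i k • BB (w i) (u k) := Finset.sum_comm
    _ = ∑ k, BB (u k) (u k) := by
        refine Finset.sum_congr rfl fun k _ => ?_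
        conv_rhs => rw [show BB (u k) (u k) = BB (∑ i, O i k • w i) (u k) by rw [← hexp' k]]
        rw [map_sum, LinearMap.sum_apply]
        simp only [map_smul, LinearMap.smul_apply]

theorem traceD2_frame {W : Type*} [NormedAddCommGroup W] [NormedSpace ℝ W] {φ : E d → E N}
    {x : E d} {u w : Fin d → E d} (hu : IsFrame φ x u) (hw : IsFrame φ x w) (G : E d → W)
    (y : E d) : traceD2 G y u = traceD2 G y w :=
  frame_sum hu hw (fun a b => D2 G y a b) (fun a b c => by simp) (fun r a b => by simp)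
    (fun a b c => by simp) (fun r a b => by simp)

theorem laplaceBeltrami_frame {φ : E d → E N}
    {x : E d} {u w : Fin d → E d} (hu : IsFrame φ x u) (hw : IsFrame φ x w) (F : E d → ℝ) :
    laplaceBeltrami φ F x u = laplaceBeltrami φ F x w := by
  unfold laplaceBeltrami
  rw [traceD2_frame hu hw F x, traceD2_frame hu hw φ x]
  congr 1
  exact frame_sum hu hw (fun a b => ⟪traceD2 φ x w, fderiv ℝ φ x a⟫ * fderiv ℝ F x b)
    (fun a b c => by simp [inner_add_right]; ring) (fun r a b => by simp [inner_smul_right]; ring)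
    (fun a b c => by simp; ring) (fun r a b => by simp; ring)

end Frames

/-! ### Change of parametrisation -/

section Transition

variable {d N : ℕ} {M : Set (E N)}

theorem IsLocalParam.mapsTo {U : Set (E d)} {φ : E d → E N} (h : IsLocalParam M U φ) :
    Set.MapsTo φ U M := by
  obtain ⟨O, -, hO⟩ := h.relOpen U subset_rfl h.isOpen
  intro x hx
  have : φ x ∈ φ '' U := ⟨x, hx, rfl⟩
  rw [hO] at this
  exact this.1

theorem IsLocalParam.contDiffAt {U : Set (E d)} {φ : E d → E N} (h : IsLocalParam M U φ)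
    {x : E d} (hx : x ∈ U) : ContDiffAt ℝ ∞ φ x :=
  h.smooth.contDiffAt (h.isOpen.mem_nhds hx)

theorem exists_transition {U U' : Set (E d)} {φ ψ : E d → E N} (hφ : IsLocalParam M U φ)
    (hψ : IsLocalParam M U' ψ) {x y : E d} (hx : x ∈ U) (hy : y ∈ U') (hxy : φ x = ψ y) :
    ∃ τ : E d → E d, ContDiffAt ℝ ∞ τ x ∧ τ x = y ∧ ∀ᶠ z in 𝓝 x, φ z = ψ (τ z) := by
  have hinj := hψ.immersion y hy
  obtain ⟨P₀, hP₀⟩ := LinearMap.exists_leftInverse_of_injective (fderiv ℝ ψ y).toLinearMap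
    (LinearMap.ker_eq_bot.mpr hinj)
  let P : E N →L[ℝ] E d := LinearMap.toContinuousLinearMap P₀
  have hP : ∀ v, P (fderiv ℝ ψ y v) = v := fun v => by
    exact congrArg (fun L : E d →ₗ[ℝ] E d => L v) hP₀
  have hc : ContDiffAt ℝ ∞ (fun z => P (ψ z)) y :=
    P.contDiff.contDiffAt.comp y (hψ.contDiffAt hy)
  have hψd : HasFDerivAt ψ (fderiv ℝ ψ y) y :=
    ((hψ.contDiffAt hy).differentiableAt (by simp)).hasFDerivAt
  have hd : HasFDerivAt (fun z => P (ψ z)) ((ContinuousLinearEquiv.refl ℝ (E d) :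
      E d ≃L[ℝ] E d) : E d →L[ℝ] E d) y := by
    have h1 := P.hasFDerivAt.comp y hψd
    have h2 : P.comp (fderiv ℝ ψ y) = ((ContinuousLinearEquiv.refl ℝ (E d) :
      E d ≃L[ℝ] E d) : E d →L[ℝ] E d) := by
      ext1 v
      simpa using hP v
    rw [h2] at h1
    exact h1
  have hs : HasStrictFDerivAt (fun z => P (ψ z)) ((ContinuousLinearEquiv.refl ℝ (E d) :
      E d ≃L[ℝ] E d) : E d →L[ℝ] E d) y := hc.hasStrictFDerivAt' hd (by simp)
  set σ := hs.localInverse with hσ
  have hσc : ContDiffAt ℝ ∞ σ (P (ψ y)) := hc.to_localInverse hd (by simp)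
  have hσl : ∀ᶠ z in 𝓝 y, σ (P (ψ z)) = z := hs.eventually_left_inverse
  refine ⟨fun z => σ (P (φ z)), ?_, ?_, ?_⟩
  · have h1 : ContDiffAt ℝ ∞ (fun z => P (φ z)) x :=
      P.contDiff.contDiffAt.comp x (hφ.contDiffAt hx)
    have h2 : ContDiffAt ℝ ∞ σ (P (φ x)) := by rw [hxy]; exact hσc
    exact h2.comp x h1
  · change σ (P (φ x)) = y
    rw [hxy]
    exact hσl.self_of_nhds
  · obtain ⟨W, hW, hWo, hyW⟩ := mem_nhds_iff.mp (Filter.inter_mem hσl (hψ.isOpen.mem_nhds hy))
    obtain ⟨O, hOo, hO⟩ := hψ.relOpen W (fun z hz => (hW hz).2) hWo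
    have hxO : φ x ∈ O := by
      have : ψ y ∈ ψ '' W := ⟨y, hyW, rfl⟩
      rw [hO] at this
      rw [hxy]
      exact this.2
    have hcont : ContinuousAt φ x := (hφ.contDiffAt hx).continuousAt
    filter_upwards [hcont.preimage_mem_nhds (hOo.mem_nhds hxO), hφ.isOpen.mem_nhds hx]
      with z hzO hzU
    have hz : φ z ∈ ψ '' W := by
      rw [hO]
      exact ⟨hφ.mapsTo hzU, hzO⟩
    obtain ⟨w, hw, hwz⟩ := hz
    have h1 : σ (P (ψ w)) = w := (hW hw).1
    rw [← hwz, h1]

theorem le_two : (2 : WithTop ℕ∞) ≤ ∞ := WithTop.coe_le_coe.mpr (le_top : (2 : ℕ∞) ≤ ⊤)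

/-- Chain rule for the second derivative. -/
theorem D2_comp {W : Type*} [NormedAddCommGroup W] [NormedSpace ℝ W] {ψ : E d → W}
    {φ : E d → W} {τ : E d → E d} {x : E d}
    (hψ : ContDiffAt ℝ 2 ψ (τ x)) (hτ : ContDiffAt ℝ 2 τ x) (h : ∀ᶠ z in 𝓝 x, φ z = ψ (τ z)) :
    fderiv ℝ φ x = (fderiv ℝ ψ (τ x)).comp (fderiv ℝ τ x) ∧
    ∀ u v, D2 φ x u v = D2 ψ (τ x) (fderiv ℝ τ x u) (fderiv ℝ τ x v) +
      fderiv ℝ ψ (τ x) (D2 τ x u v) := by
  have e1 : ∀ᶠ z in 𝓝 x, ContDiffAt ℝ 2 τ z := hτ.eventually (by simp)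
  have e2 : ∀ᶠ z in 𝓝 x, ContDiffAt ℝ 2 ψ (τ z) :=
    hτ.continuousAt.eventually (hψ.eventually (by simp))
  have key : ∀ᶠ z in 𝓝 x, fderiv ℝ φ z = (fderiv ℝ ψ (τ z)).comp (fderiv ℝ τ z) := by
    filter_upwards [e1, e2, h.eventually_nhds] with z h1 h2 h3
    have h4 : φ =ᶠ[𝓝 z] fun z => ψ (τ z) := h3
    rw [h4.fderiv_eq]
    exact fderiv_comp z (h2.differentiableAt (by simp)) (h1.differentiableAt (by simp))
  refine ⟨key.self_of_nhds, fun u v => ?_⟩
  have hd1 : DifferentiableAt ℝ (fun z => fderiv ℝ ψ z) (τ x) := by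
    have : ContDiffAt ℝ 1 (fun z => fderiv ℝ ψ z) (τ x) :=
      hψ.fderiv_right (m := 1) (by norm_num)
    exact this.differentiableAt (by simp)
  have hd2 : DifferentiableAt ℝ (fun z => fderiv ℝ τ z) x := by
    have : ContDiffAt ℝ 1 (fun z => fderiv ℝ τ z) x :=
      hτ.fderiv_right (m := 1) (by norm_num)
    exact this.differentiableAt (by simp)
  have hτd : DifferentiableAt ℝ τ x := hτ.differentiableAt (by simp)
  have hd3 : HasFDerivAt (fun z => fderiv ℝ ψ (τ z))
      ((fderiv ℝ (fun z => fderiv ℝ ψ z) (τ x)).comp (fderiv ℝ τ x)) x :=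
    hd1.hasFDerivAt.comp x hτd.hasFDerivAt
  have hd4 := hd3.clm_comp hd2.hasFDerivAt
  have hd5 : fderiv ℝ (fun z => fderiv ℝ φ z) x = _ :=
    (Filter.EventuallyEq.fderiv_eq key).trans hd4.fderiv
  unfold D2
  rw [hd5]
  simp
  exact add_comm _ _

theorem fderiv_surj {τ : E d → E d} {x : E d} {φ : E d → E N} {ψ : E d → E N}
    (hinj : Function.Injective (fderiv ℝ φ x))
    (h : fderiv ℝ φ x = (fderiv ℝ ψ (τ x)).comp (fderiv ℝ τ x)) :
    Function.Surjective (fderiv ℝ τ x) := by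
  have h1 : Function.Injective (fderiv ℝ τ x) := by
    intro a b hab
    apply hinj
    rw [h]
    simp [hab]
  exact LinearMap.surjective_of_injective (f := (fderiv ℝ τ x).toLinearMap) h1

theorem minimal_transfer {U U' : Set (E d)} {φ ψ : E d → E N} (hφ : IsLocalParam M U φ)
    (hψ : IsLocalParam M U' ψ) {x y : E d} (hx : x ∈ U) (hy : y ∈ U') (hxy : φ x = ψ y)
    {u w : Fin d → E d} (hu : IsFrame φ x u) (hw : IsFrame ψ y w)
    (hmin : traceD2 ψ y w ∈ Submodule.span ℝ (Set.range (fderiv ℝ ψ y) ∪ {ψ y})) :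
    traceD2 φ x u ∈ Submodule.span ℝ (Set.range (fderiv ℝ φ x) ∪ {φ x}) := by
  obtain ⟨τ, hτ, rfl, hev⟩ := exists_transition hφ hψ hx hy hxy
  obtain ⟨h1, h2⟩ := D2_comp ((hψ.contDiffAt hy).of_le le_two) (hτ.of_le le_two) hev
  have hw' : IsFrame ψ (τ x) (fun i => fderiv ℝ τ x (u i)) := by
    unfold IsFrame at hu ⊢
    rw [h1] at hu
    exact hu
  have hrange : Set.range (fderiv ℝ φ x) = Set.range (fderiv ℝ ψ (τ x)) := by
    rw [h1]
    have := fderiv_surj (hφ.immersion x hx) h1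
    ext v
    constructor
    · rintro ⟨a, rfl⟩
      exact ⟨_, rfl⟩
    · rintro ⟨a, rfl⟩
      obtain ⟨b, rfl⟩ := this a
      exact ⟨b, rfl⟩
  have h3 : traceD2 φ x u = traceD2 ψ (τ x) w +
      fderiv ℝ ψ (τ x) (∑ i, D2 τ x (u i) (u i)) := by
    rw [← traceD2_frame hw' hw ψ (τ x)]
    unfold traceD2
    rw [map_sum, ← Finset.sum_add_distrib]
    exact Finset.sum_congr rfl fun i _ => h2 _ _
  rw [h3, hrange, hxy]
  exact Submodule.add_mem _ hmin (Submodule.subset_span (Or.inl ⟨_, rfl⟩))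

theorem laplace_transfer {U U' : Set (E d)} {φ ψ : E d → E N} (hφ : IsLocalParam M U φ)
    (hψ : IsLocalParam M U' ψ) {x y : E d} (hx : x ∈ U) (hy : y ∈ U') (hxy : φ x = ψ y)
    {u w : Fin d → E d} (hu : IsFrame φ x u) (hw : IsFrame ψ y w) {f : E N → ℝ}
    (hf : ContDiffAt ℝ ∞ (f ∘ ψ) y) :
    laplaceBeltrami φ (f ∘ φ) x u = laplaceBeltrami ψ (f ∘ ψ) y w := by
  obtain ⟨τ, hτ, rfl, hev⟩ := exists_transition hφ hψ hx hy hxy
  obtain ⟨h1, h2⟩ := D2_comp ((hψ.contDiffAt hy).of_le le_two) (hτ.of_le le_two) hev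
  have hev' : ∀ᶠ z in 𝓝 x, (f ∘ φ) z = (f ∘ ψ) (τ z) := by
    filter_upwards [hev] with z hz
    simp [hz]
  obtain ⟨h1', h2'⟩ := D2_comp (hf.of_le le_two) (hτ.of_le le_two) hev'
  have hw' : IsFrame ψ (τ x) (fun i => fderiv ℝ τ x (u i)) := by
    unfold IsFrame at hu ⊢
    rw [h1] at hu
    exact hu
  rw [← laplaceBeltrami_frame hw' hw]
  set κ := ∑ i, D2 τ x (u i) (u i) with hκ
  have h3 : traceD2 φ x u = traceD2 ψ (τ x) (fun i => fderiv ℝ τ x (u i)) +
      fderiv ℝ ψ (τ x) κ := by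
    unfold traceD2
    rw [hκ, map_sum, ← Finset.sum_add_distrib]
    exact Finset.sum_congr rfl fun i _ => h2 _ _
  have h3' : traceD2 (f ∘ φ) x u = traceD2 (f ∘ ψ) (τ x) (fun i => fderiv ℝ τ x (u i)) +
      fderiv ℝ (f ∘ ψ) (τ x) κ := by
    unfold traceD2
    rw [hκ, map_sum, ← Finset.sum_add_distrib]
    exact Finset.sum_congr rfl fun i _ => h2' _ _
  have h4 : fderiv ℝ (f ∘ ψ) (τ x) κ = ∑ k, ⟪fderiv ℝ ψ (τ x) κ,
      fderiv ℝ ψ (τ x) (fderiv ℝ τ x (u k))⟫ *
        fderiv ℝ (f ∘ ψ) (τ x) (fderiv ℝ τ x (u k)) := by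
    conv_lhs => rw [frame_expand hw' κ]
    rw [map_sum]
    refine Finset.sum_congr rfl fun k _ => ?_
    rw [map_smul, smul_eq_mul, real_inner_comm]
  unfold laplaceBeltrami
  rw [h3, h3', h1, h1']
  simp only [ContinuousLinearMap.comp_apply, inner_add_left, add_mul, Finset.sum_add_distrib]
  rw [← h4]
  ring

/-- Second derivatives are computed along straight lines. -/
theorem D2_of_curve {W : Type*} [NormedAddCommGroup W] [NormedSpace ℝ W] {φ : E d → W}
    {x u : E d} (hφ : ContDiffAt ℝ 2 φ x) {c₁ : ℝ → W} {w : W}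
    (h₁ : ∀ t : ℝ, HasDerivAt (fun s : ℝ => φ (x + s • u)) (c₁ t) t) (h₂ : HasDerivAt c₁ w 0) :
    fderiv ℝ φ x u = c₁ 0 ∧ D2 φ x u u = w := by
  have hline : ∀ t : ℝ, HasDerivAt (fun s : ℝ => x + s • u) u t := fun t => by
    simpa using ((hasDerivAt_id t).smul_const u).const_add x
  have e1 : ∀ᶠ z in 𝓝 x, ContDiffAt ℝ 2 φ z := hφ.eventually (by simp)
  have hcont : Filter.Tendsto (fun s : ℝ => x + s • u) (𝓝 0) (𝓝 x) := by
    have := (hline 0).continuousAt.tendsto
    simpa using this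
  have e2 : ∀ᶠ t in 𝓝 (0 : ℝ), c₁ t = fderiv ℝ φ (x + t • u) u := by
    filter_upwards [hcont.eventually e1] with t ht
    have h3 : HasFDerivAt φ (fderiv ℝ φ (x + t • u)) (x + t • u) :=
      (ht.differentiableAt (by simp)).hasFDerivAt
    exact (h₁ t).unique (h3.comp_hasDerivAt t (hline t))
  have hd1 : DifferentiableAt ℝ (fun z => fderiv ℝ φ z) x := by
    have : ContDiffAt ℝ 1 (fun z => fderiv ℝ φ z) x :=
      hφ.fderiv_right (m := 1) (by norm_num)
    exact this.differentiableAt (by simp)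
  refine ⟨?_, ?_⟩
  · have := e2.self_of_nhds
    simpa using this.symm
  · have h4 : HasFDerivAt (fun z => fderiv ℝ φ z) (D2 φ x) (x + (0 : ℝ) • u) := by
      rw [zero_smul, add_zero]
      exact hd1.hasFDerivAt
    have h5 := h4.comp_hasDerivAt (0 : ℝ) (hline 0)
    have h6 := h5.clm_apply (hasDerivAt_const (0 : ℝ) u)
    have h7 := h6.congr_of_eventuallyEq (f₁ := c₁) (by filter_upwards [e2] with t ht; simpa using ht)
    have h8 := h7.unique h₂
    simpa using h8

end Transition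

end Pool.Agent.H85R3.Minimal
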