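import Pool.Agent.H85R3.MinDefs

/-! The product of a sphere and a flat torus: the ambient coordinates. -/

set_option autoImplicit false

open scoped ContDiff RealInnerProductSpace Topology

namespace Pool.Agent.H85R3.Minimal

/-- The vector of `ℝ^(a+1) × ℂ³` with given components. -/
noncomputable def mkV (a : ℕ) (x : E (a + 1)) (z₀ z₁ z₂ : ℂ) : E (a + 1 + 6) :=
  WithLp.toLp 2 (Fin.append (fun i => x i) ![z₀.re, z₀.im, z₁.re, z₁.im, z₂.re, z₂.im])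

theorem mkV_left {a : ℕ} (x : E (a + 1)) (z₀ z₁ z₂ : ℂ) (i : Fin (a + 1)) :
    mkV a x z₀ z₁ z₂ (Fin.castAdd 6 i) = x i := by
  simp [mkV, Fin.append_left]

theorem mkV_right {a : ℕ} (x : E (a + 1)) (z₀ z₁ z₂ : ℂ) (j : Fin 6) :
    mkV a x z₀ z₁ z₂ (Fin.natAdd (a + 1) j) =
      ![z₀.re, z₀.im, z₁.re, z₁.im, z₂.re, z₂.im] j := by
  simp only [mkV, Fin.append_right]

/-- The first component of a vector of `ℝ^(a+1) × ℂ³`. -/
noncomputable def hd {a : ℕ} (p : E (a + 1 + 6)) : E (a + 1) :=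
  WithLp.toLp 2 fun i => p (Fin.castAdd 6 i)

/-- The three complex components of a vector of `ℝ^(a+1) × ℂ³`. -/
def zc₀ {a : ℕ} (p : E (a + 1 + 6)) : ℂ := ⟨p (Fin.natAdd (a + 1) 0), p (Fin.natAdd (a + 1) 1)⟩
/-- The three complex components of a vector of `ℝ^(a+1) × ℂ³`. -/
def zc₁ {a : ℕ} (p : E (a + 1 + 6)) : ℂ := ⟨p (Fin.natAdd (a + 1) 2), p (Fin.natAdd (a + 1) 3)⟩
/-- The three complex components of a vector of `ℝ^(a+1) × ℂ³`. -/
def zc₂ {a : ℕ} (p : E (a + 1 + 6)) : ℂ := ⟨p (Fin.natAdd (a + 1) 4), p (Fin.natAdd (a + 1) 5)⟩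

@[simp] theorem hd_mkV {a : ℕ} (x : E (a + 1)) (z₀ z₁ z₂ : ℂ) : hd (mkV a x z₀ z₁ z₂) = x := by
  ext i
  simp [hd, mkV_left]

@[simp] theorem zc₀_mkV {a : ℕ} (x : E (a + 1)) (z₀ z₁ z₂ : ℂ) :
    zc₀ (mkV a x z₀ z₁ z₂) = z₀ := by
  apply Complex.ext <;> simp [zc₀, mkV_right]

@[simp] theorem zc₁_mkV {a : ℕ} (x : E (a + 1)) (z₀ z₁ z₂ : ℂ) :
    zc₁ (mkV a x z₀ z₁ z₂) = z₁ := by
  apply Complex.ext <;> simp [zc₁, mkV_right]

@[simp] theorem zc₂_mkV {a : ℕ} (x : E (a + 1)) (z₀ z₁ z₂ : ℂ) :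
    zc₂ (mkV a x z₀ z₁ z₂) = z₂ := by
  apply Complex.ext <;> simp [zc₂, mkV_right]

theorem mkV_add {a : ℕ} (x x' : E (a + 1)) (z₀ z₁ z₂ z₀' z₁' z₂' : ℂ) :
    mkV a (x + x') (z₀ + z₀') (z₁ + z₁') (z₂ + z₂') = mkV a x z₀ z₁ z₂ + mkV a x' z₀' z₁' z₂' := by
  ext i
  refine Fin.addCases (fun i => ?_) (fun j => ?_) i
  · simp [mkV_left]
  · rw [PiLp.add_apply, mkV_right, mkV_right, mkV_right]
    fin_cases j <;> simp

theorem mkV_smul {a : ℕ} (r : ℝ) (x : E (a + 1)) (z₀ z₁ z₂ : ℂ) :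
    mkV a (r • x) (r • z₀) (r • z₁) (r • z₂) = r • mkV a x z₀ z₁ z₂ := by
  ext i
  refine Fin.addCases (fun i => ?_) (fun j => ?_) i
  · simp [mkV_left]
  · rw [PiLp.smul_apply, mkV_right, mkV_right]
    fin_cases j <;> simp

/-- `mkV` as a continuous linear map. -/
noncomputable def mkL (a : ℕ) : E (a + 1) × ℂ × ℂ × ℂ →L[ℝ] E (a + 1 + 6) :=
  LinearMap.toContinuousLinearMap
    { toFun := fun q => mkV a q.1 q.2.1 q.2.2.1 q.2.2.2
      map_add' := fun q q' => mkV_add _ _ _ _ _ _ _ _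
      map_smul' := fun r q => mkV_smul r _ _ _ _ }

theorem mkL_apply {a : ℕ} (x : E (a + 1)) (z₀ z₁ z₂ : ℂ) :
    mkL a (x, z₀, z₁, z₂) = mkV a x z₀ z₁ z₂ := rfl

theorem inner_mkV {a : ℕ} (x x' : E (a + 1)) (z₀ z₁ z₂ z₀' z₁' z₂' : ℂ) :
    ⟪mkV a x z₀ z₁ z₂, mkV a x' z₀' z₁' z₂'⟫ = ⟪x, x'⟫ + (z₀ * (starRingEnd ℂ) z₀').re +
      (z₁ * (starRingEnd ℂ) z₁').re + (z₂ * (starRingEnd ℂ) z₂').re := by
  rw [PiLp.inner_apply, Fin.sum_univ_add, PiLp.inner_apply]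
  simp only [mkV_left, mkV_right]
  rw [Fin.sum_univ_six]
  simp
  ring

/-- `hd` as a continuous linear map. -/
noncomputable def hdL (a : ℕ) : E (a + 1 + 6) →L[ℝ] E (a + 1) :=
  LinearMap.toContinuousLinearMap
    { toFun := fun p => hd p
      map_add' := fun q q' => by ext i; simp [hd]
      map_smul' := fun r q => by ext i; simp [hd] }

theorem hdL_apply {a : ℕ} (p : E (a + 1 + 6)) : hdL a p = hd p := rfl

/-- `zc₀` as a continuous linear map. -/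
noncomputable def zL₀ (a : ℕ) : E (a + 1 + 6) →L[ℝ] ℂ :=
  LinearMap.toContinuousLinearMap
    { toFun := fun p => zc₀ p
      map_add' := fun q q' => by apply Complex.ext <;> simp [zc₀]
      map_smul' := fun r q => by apply Complex.ext <;> simp [zc₀] }
/-- `zc₁` as a continuous linear map. -/
noncomputable def zL₁ (a : ℕ) : E (a + 1 + 6) →L[ℝ] ℂ :=
  LinearMap.toContinuousLinearMap
    { toFun := fun p => zc₁ p
      map_add' := fun q q' => by apply Complex.ext <;> simp [zc₁]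
      map_smul' := fun r q => by apply Complex.ext <;> simp [zc₁] }
/-- `zc₂` as a continuous linear map. -/
noncomputable def zL₂ (a : ℕ) : E (a + 1 + 6) →L[ℝ] ℂ :=
  LinearMap.toContinuousLinearMap
    { toFun := fun p => zc₂ p
      map_add' := fun q q' => by apply Complex.ext <;> simp [zc₂]
      map_smul' := fun r q => by apply Complex.ext <;> simp [zc₂] }

theorem contDiff_hd {a : ℕ} {n : WithTop ℕ∞} : ContDiff ℝ n (hd : E (a + 1 + 6) → E (a + 1)) :=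
  (hdL a).contDiff
theorem contDiff_zc₀ {a : ℕ} {n : WithTop ℕ∞} : ContDiff ℝ n (zc₀ : E (a + 1 + 6) → ℂ) :=
  (zL₀ a).contDiff
theorem contDiff_zc₁ {a : ℕ} {n : WithTop ℕ∞} : ContDiff ℝ n (zc₁ : E (a + 1 + 6) → ℂ) :=
  (zL₁ a).contDiff
theorem contDiff_zc₂ {a : ℕ} {n : WithTop ℕ∞} : ContDiff ℝ n (zc₂ : E (a + 1 + 6) → ℂ) :=
  (zL₂ a).contDiff

end Pool.Agent.H85R3.Minimal
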