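import Pool.Agent.H85R3.MinEx1

/-! The product of a sphere and a flat torus: an explicit parametrisation. -/

set_option autoImplicit false

open scoped ContDiff RealInnerProductSpace Topology ComplexConjugate

namespace Pool.Agent.H85R3.Minimal

/-- The dimension of the product, as a real number. -/
noncomputable def dd (a : ℕ) : ℝ := (a : ℝ) + 2
/-- The radius of the sphere factor. -/
noncomputable def cR (a : ℕ) : ℝ := √((a : ℝ) / dd a)
/-- The radius of the first circle. -/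
noncomputable def cA (a : ℕ) : ℝ := √(7 / (16 * dd a))
/-- The radius of the second and the third circle. -/
noncomputable def cB (a : ℕ) : ℝ := √(25 / (32 * dd a))
/-- The frequency. -/
noncomputable def ka (a : ℕ) : ℝ := √(dd a) / 5

theorem dd_pos (a : ℕ) : 0 < dd a := by unfold dd; positivity

theorem cR_sq (a : ℕ) : cR a ^ 2 = (a : ℝ) / dd a :=
  Real.sq_sqrt (div_nonneg (Nat.cast_nonneg a) (dd_pos a).le)
theorem cA_sq (a : ℕ) : cA a ^ 2 = 7 / (16 * dd a) :=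
  Real.sq_sqrt (by have := dd_pos a; positivity)
theorem cB_sq (a : ℕ) : cB a ^ 2 = 25 / (32 * dd a) :=
  Real.sq_sqrt (by have := dd_pos a; positivity)
theorem ka_sq (a : ℕ) : ka a ^ 2 = dd a / 25 := by
  unfold ka
  rw [div_pow, Real.sq_sqrt (dd_pos a).le]
  norm_num

theorem cR_pos {a : ℕ} (ha : 1 ≤ a) : 0 < cR a :=
  Real.sqrt_pos.mpr (div_pos (by exact_mod_cast ha) (dd_pos a))
theorem cA_pos (a : ℕ) : 0 < cA a := Real.sqrt_pos.mpr (by have := dd_pos a; positivity)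
theorem cB_pos (a : ℕ) : 0 < cB a := Real.sqrt_pos.mpr (by have := dd_pos a; positivity)
theorem ka_pos (a : ℕ) : 0 < ka a := div_pos (Real.sqrt_pos.mpr (dd_pos a)) (by norm_num)

/-- The point of the product with given coordinates. -/
noncomputable def pt (a : ℕ) (x : E (a + 1)) (w₁ w₂ : ℂ) : E (a + 1 + 6) :=
  mkV a (cR a • x) (cA a * w₁ ^ 5) (cB a * (w₁ ^ 3 * w₂)) (cB a * (w₁ ^ 3 * conj w₂))

/-- The product of the sphere and the flat torus. -/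
def Mset (a : ℕ) : Set (E (a + 1 + 6)) :=
  {p | ∃ (x : E (a + 1)) (w₁ w₂ : ℂ), ‖x‖ = 1 ∧ ‖w₁‖ = 1 ∧ ‖w₂‖ = 1 ∧ p = pt a x w₁ w₂}

variable {a : ℕ}

/-- The linear part of the parametrisation of the sphere. -/
noncomputable def Tm (b : OrthonormalBasis (Fin (a + 1)) ℝ (E (a + 1))) (y : E (a + 2)) : E (a + 1) :=
  ∑ i : Fin a, y (Fin.castAdd 2 i) • b i.castSucc

/-- The square of the norm of the unnormalised vector. -/
noncomputable def qf (y : E (a + 2)) : ℝ := ∑ i : Fin a, y (Fin.castAdd 2 i) ^ 2 + cR a ^ 2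

/-- The parametrisation of the sphere factor. -/
noncomputable def sph (b : OrthonormalBasis (Fin (a + 1)) ℝ (E (a + 1))) (y : E (a + 2)) : E (a + 1) :=
  (√(qf y))⁻¹ • (Tm b y + cR a • b (Fin.last a))

/-- The parametrisation of the first circle factor. -/
noncomputable def u1 (w₁ : ℂ) (y : E (a + 2)) : ℂ :=
  w₁ * Complex.exp ((ka a * y (Fin.natAdd a 0) : ℝ) * Complex.I)
/-- The parametrisation of the second circle factor. -/
noncomputable def u2 (w₂ : ℂ) (y : E (a + 2)) : ℂ :=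
  w₂ * Complex.exp ((4 * ka a * y (Fin.natAdd a 1) : ℝ) * Complex.I)

/-- The parametrisation. -/
noncomputable def par (b : OrthonormalBasis (Fin (a + 1)) ℝ (E (a + 1))) (w₁ w₂ : ℂ)
    (y : E (a + 2)) : E (a + 1 + 6) :=
  pt a (sph b y) (u1 w₁ y) (u2 w₂ y)

theorem qf_pos (ha : 1 ≤ a) (y : E (a + 2)) : 0 < qf y := by
  unfold qf
  have := cR_pos ha
  have h : 0 ≤ ∑ i : Fin a, y (Fin.castAdd 2 i) ^ 2 := Finset.sum_nonneg fun i _ => sq_nonneg _
  positivity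

theorem norm_Tm_sq (b : OrthonormalBasis (Fin (a + 1)) ℝ (E (a + 1))) (y : E (a + 2)) :
    ‖Tm b y + cR a • b (Fin.last a)‖ ^ 2 = qf y := by
  have h : Tm b y + cR a • b (Fin.last a) =
      ∑ i : Fin (a + 1), (Fin.snoc (fun i : Fin a => y (Fin.castAdd 2 i)) (cR a) :
        Fin (a + 1) → ℝ) i • b i := by
    rw [Fin.sum_univ_castSucc]
    simp [Tm]
  rw [h, ← real_inner_self_eq_norm_sq, sum_inner]
  simp only [inner_smul_left, b.orthonormal.inner_right_fintype]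
  rw [Fin.sum_univ_castSucc]
  simp [qf, sq]

theorem norm_sph (ha : 1 ≤ a) (b : OrthonormalBasis (Fin (a + 1)) ℝ (E (a + 1)))
    (y : E (a + 2)) : ‖sph b y‖ = 1 := by
  have h := qf_pos ha y
  unfold sph
  have h1 : ‖Tm b y + cR a • b (Fin.last a)‖ = √(qf y) := by
    rw [← norm_Tm_sq b y, Real.sqrt_sq (norm_nonneg _)]
  rw [norm_smul, h1, norm_inv, Real.norm_of_nonneg (Real.sqrt_nonneg _)]
  exact inv_mul_cancel₀ (Real.sqrt_pos.mpr h).ne'

theorem norm_u1 {w₁ : ℂ} (h : ‖w₁‖ = 1) (y : E (a + 2)) : ‖u1 w₁ y‖ = 1 := by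
  unfold u1
  rw [norm_mul, h, Complex.norm_exp_ofReal_mul_I, one_mul]
theorem norm_u2 {w₂ : ℂ} (h : ‖w₂‖ = 1) (y : E (a + 2)) : ‖u2 w₂ y‖ = 1 := by
  unfold u2
  rw [norm_mul, h, Complex.norm_exp_ofReal_mul_I, one_mul]

theorem par_mem (ha : 1 ≤ a) (b : OrthonormalBasis (Fin (a + 1)) ℝ (E (a + 1))) {w₁ w₂ : ℂ}
    (h₁ : ‖w₁‖ = 1) (h₂ : ‖w₂‖ = 1) (y : E (a + 2)) : par b w₁ w₂ y ∈ Mset a :=
  ⟨_, _, _, norm_sph ha b y, norm_u1 h₁ y, norm_u2 h₂ y, rfl⟩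

/-! ### Smoothness -/

theorem contDiff_coord (i : Fin (a + 2)) : ContDiff ℝ ∞ (fun y : E (a + 2) => y i) :=
  (EuclideanSpace.proj (𝕜 := ℝ) i).contDiff

theorem contDiff_qf : ContDiff ℝ ∞ (qf : E (a + 2) → ℝ) := by
  have h : ContDiff ℝ ∞ (fun y : E (a + 2) => ∑ i : Fin a, y (Fin.castAdd 2 i) ^ 2) :=
    ContDiff.sum fun i _ => (contDiff_coord (Fin.castAdd 2 i)).pow 2
  exact h.add contDiff_const

theorem contDiff_Tm (b : OrthonormalBasis (Fin (a + 1)) ℝ (E (a + 1))) : ContDiff ℝ ∞ (Tm b) := by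
  unfold Tm
  exact ContDiff.sum fun i _ => (contDiff_coord (Fin.castAdd 2 i)).smul contDiff_const

theorem contDiff_sph (ha : 1 ≤ a) (b : OrthonormalBasis (Fin (a + 1)) ℝ (E (a + 1))) :
    ContDiff ℝ ∞ (sph b) := by
  have h1 : ContDiff ℝ ∞ (fun y : E (a + 2) => (√(qf y))⁻¹) :=
    ContDiff.inv (contDiff_qf.sqrt fun y => (qf_pos ha y).ne') fun y =>
      (Real.sqrt_pos.mpr (qf_pos ha y)).ne'
  have h2 : ContDiff ℝ ∞ (fun y : E (a + 2) => Tm b y + cR a • b (Fin.last a)) :=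
    (contDiff_Tm b).add contDiff_const
  exact h1.smul h2

theorem contDiff_u1 (w₁ : ℂ) : ContDiff ℝ ∞ (u1 w₁ : E (a + 2) → ℂ) := by
  unfold u1
  refine contDiff_const.mul (ContDiff.cexp (ContDiff.mul ?_ contDiff_const))
  exact Complex.ofRealCLM.contDiff.comp (contDiff_const.mul (contDiff_coord _))

theorem contDiff_u2 (w₂ : ℂ) : ContDiff ℝ ∞ (u2 w₂ : E (a + 2) → ℂ) := by
  unfold u2
  refine contDiff_const.mul (ContDiff.cexp (ContDiff.mul ?_ contDiff_const))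
  exact Complex.ofRealCLM.contDiff.comp (contDiff_const.mul (contDiff_coord _))

theorem contDiff_conj {n : WithTop ℕ∞} : ContDiff ℝ n (fun z : ℂ => conj z) :=
  Complex.conjCLE.contDiff

theorem contDiff_mkV {X : Type*} [NormedAddCommGroup X] [NormedSpace ℝ X] {n : WithTop ℕ∞}
    {f : X → E (a + 1)} {g₀ g₁ g₂ : X → ℂ} (hf : ContDiff ℝ n f) (h₀ : ContDiff ℝ n g₀)
    (h₁ : ContDiff ℝ n g₁) (h₂ : ContDiff ℝ n g₂) :
    ContDiff ℝ n (fun y => mkV a (f y) (g₀ y) (g₁ y) (g₂ y)) :=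
  (mkL a).contDiff.comp (hf.prodMk (h₀.prodMk (h₁.prodMk h₂)))

theorem contDiff_pt {X : Type*} [NormedAddCommGroup X] [NormedSpace ℝ X]
    {f : X → E (a + 1)} {g₁ g₂ : X → ℂ} (hf : ContDiff ℝ ∞ f)
    (h₁ : ContDiff ℝ ∞ g₁) (h₂ : ContDiff ℝ ∞ g₂) :
    ContDiff ℝ ∞ (fun y => pt a (f y) (g₁ y) (g₂ y)) := by
  unfold pt
  exact contDiff_mkV (hf.const_smul _) (contDiff_const.mul (h₁.pow 5))
    (contDiff_const.mul ((h₁.pow 3).mul h₂))
    (contDiff_const.mul ((h₁.pow 3).mul (contDiff_conj.comp h₂)))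

theorem contDiff_par (ha : 1 ≤ a) (b : OrthonormalBasis (Fin (a + 1)) ℝ (E (a + 1)))
    (w₁ w₂ : ℂ) : ContDiff ℝ ∞ (par b w₁ w₂) := by
  unfold par
  exact contDiff_pt (contDiff_sph ha b) (contDiff_u1 w₁) (contDiff_u2 w₂)

/-! ### Derivatives along curves -/

theorem hasDerivAt_mkV {f : ℝ → E (a + 1)} {g₀ g₁ g₂ : ℝ → ℂ} {f' : E (a + 1)}
    {g₀' g₁' g₂' : ℂ} {t : ℝ} (hf : HasDerivAt f f' t) (h₀ : HasDerivAt g₀ g₀' t)
    (h₁ : HasDerivAt g₁ g₁' t) (h₂ : HasDerivAt g₂ g₂' t) :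
    HasDerivAt (fun s => mkV a (f s) (g₀ s) (g₁ s) (g₂ s)) (mkV a f' g₀' g₁' g₂') t :=
  (mkL a).hasFDerivAt.comp_hasDerivAt t (hf.prodMk (h₀.prodMk (h₁.prodMk h₂)))

theorem hasDerivAt_osc (Z : ℂ) (om t : ℝ) :
    HasDerivAt (fun s : ℝ => Z * Complex.exp ((om * s : ℝ) * Complex.I))
      (((om : ℂ) * Complex.I * Z) * Complex.exp ((om * t : ℝ) * Complex.I)) t := by
  have h1 : HasDerivAt (fun s : ℝ => ((om * s : ℝ) : ℂ)) (om : ℂ) t := by
    have := ((hasDerivAt_id t).const_mul om).ofReal_comp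
    simpa using this
  have h2 := ((h1.mul_const Complex.I).cexp).const_mul Z
  refine h2.congr_deriv ?_
  push_cast
  ring

/-- A curve in the torus factor. -/
noncomputable def osc (a : ℕ) (X : E (a + 1)) (Z₀ Z₁ Z₂ : ℂ) (o₀ o₁ o₂ : ℝ) (s : ℝ) :
    E (a + 1 + 6) :=
  mkV a X (Z₀ * Complex.exp ((o₀ * s : ℝ) * Complex.I))
    (Z₁ * Complex.exp ((o₁ * s : ℝ) * Complex.I)) (Z₂ * Complex.exp ((o₂ * s : ℝ) * Complex.I))

theorem hasDerivAt_oscC (X : E (a + 1)) (Z₀ Z₁ Z₂ : ℂ) (o₀ o₁ o₂ t : ℝ) :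
    HasDerivAt (osc a X Z₀ Z₁ Z₂ o₀ o₁ o₂)
      (osc a 0 (o₀ * Complex.I * Z₀) (o₁ * Complex.I * Z₁) (o₂ * Complex.I * Z₂) o₀ o₁ o₂ t) t :=
  hasDerivAt_mkV (hasDerivAt_const t X) (hasDerivAt_osc Z₀ o₀ t) (hasDerivAt_osc Z₁ o₁ t)
    (hasDerivAt_osc Z₂ o₂ t)

theorem osc_zero (X : E (a + 1)) (Z₀ Z₁ Z₂ : ℂ) (o₀ o₁ o₂ : ℝ) :
    osc a X Z₀ Z₁ Z₂ o₀ o₁ o₂ 0 = mkV a X Z₀ Z₁ Z₂ := by
  simp [osc]

/-- The scaling function of the central projection. -/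
noncomputable def rho (R s : ℝ) : ℝ := (√(s ^ 2 + R ^ 2))⁻¹

theorem hasDerivAt_rho {R : ℝ} (hR : 0 < R) (t : ℝ) :
    HasDerivAt (rho R) (-(t * rho R t ^ 3)) t := by
  have h0 : 0 < t ^ 2 + R ^ 2 := by positivity
  have h1 : HasDerivAt (fun s : ℝ => s ^ 2 + R ^ 2) (2 * t) t := by
    simpa using (hasDerivAt_pow 2 t).add_const (R ^ 2)
  have h2 := (h1.sqrt h0.ne').inv (Real.sqrt_pos.mpr h0).ne'
  refine h2.congr_deriv ?_
  unfold rho
  have h3 : √(t ^ 2 + R ^ 2) ≠ 0 := (Real.sqrt_pos.mpr h0).ne'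
  field_simp

theorem rho_zero {R : ℝ} (hR : 0 < R) : rho R 0 = R⁻¹ := by
  unfold rho
  simp [Real.sqrt_sq hR.le]

/-- The curve on the sphere factor. -/
theorem hasDerivAt_sphC {R : ℝ} (hR : 0 < R) (v n : E (a + 1)) (t : ℝ) :
    HasDerivAt (fun s : ℝ => R • (rho R s • (s • v + R • n)))
      (R • (-(t * rho R t ^ 3) • (t • v + R • n) + rho R t • v)) t := by
  have h1 : HasDerivAt (fun s : ℝ => s • v + R • n) v t := by
    simpa using ((hasDerivAt_id t).smul_const v).add_const (R • n)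
  have h2 := ((hasDerivAt_rho hR t).smul h1).const_smul R
  refine h2.congr_deriv ?_
  rw [add_comm (rho R t • v)]

theorem hasDerivAt_sphC' {R : ℝ} (hR : 0 < R) (v n : E (a + 1)) :
    HasDerivAt (fun t : ℝ => R • (-(t * rho R t ^ 3) • (t • v + R • n) + rho R t • v))
      (-(R⁻¹ • n)) 0 := by
  have h1 : HasDerivAt (fun s : ℝ => s • v + R • n) v 0 := by
    simpa using ((hasDerivAt_id (0 : ℝ)).smul_const v).add_const (R • n)
  have h2 : HasDerivAt (fun t : ℝ => -(t * rho R t ^ 3)) (-(R⁻¹ ^ 3)) 0 := by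
    have := ((hasDerivAt_id (0 : ℝ)).mul ((hasDerivAt_rho hR 0).pow 3)).neg
    refine this.congr_deriv ?_
    simp [rho_zero hR]
  have h3 := ((h2.smul h1).add ((hasDerivAt_rho hR 0).smul_const v)).const_smul R
  refine h3.congr_deriv ?_
  simp only [zero_mul, neg_zero, zero_smul, zero_add, add_zero, smul_smul, rho_zero hR,
    ← neg_smul]
  congr 1
  field_simp

end Pool.Agent.H85R3.Minimal
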