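import Pool.Agent.H85R3.MinEx2

/-! The product of a sphere and a flat torus: it is a closed embedded submanifold. -/

set_option autoImplicit false

open scoped ContDiff RealInnerProductSpace Topology ComplexConjugate

namespace Pool.Agent.H85R3.Minimal

variable {a : ℕ}

/-- Recovers `w₁`. -/
noncomputable def W1 (p : E (a + 1 + 6)) : ℂ :=
  zc₁ p * zc₂ p * conj (zc₀ p) * ((cA a * cB a ^ 2 : ℝ) : ℂ)⁻¹
/-- Recovers `w₂`. -/
noncomputable def W2 (p : E (a + 1 + 6)) : ℂ := zc₁ p * conj (W1 p) ^ 3 * ((cB a : ℝ) : ℂ)⁻¹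

theorem mul_conj_one {w : ℂ} (h : ‖w‖ = 1) : w * conj w = 1 := by
  rw [Complex.mul_conj, Complex.normSq_eq_norm_sq, h]
  simp

theorem W1_pt (x : E (a + 1)) {w₁ w₂ : ℂ} (h₁ : ‖w₁‖ = 1) (h₂ : ‖w₂‖ = 1) :
    W1 (pt a x w₁ w₂) = w₁ := by
  have e1 := mul_conj_one h₁
  have e2 := mul_conj_one h₂
  have hA : (cA a : ℂ) ≠ 0 := by exact_mod_cast (cA_pos a).ne'
  have hB : (cB a : ℂ) ≠ 0 := by exact_mod_cast (cB_pos a).ne'
  unfold W1 pt
  simp only [zc₀_mkV, zc₁_mkV, zc₂_mkV, map_mul, map_pow, Complex.conj_ofReal]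
  push_cast
  field_simp
  calc _ = w₁ * (w₁ * conj w₁) ^ 5 * (w₂ * conj w₂) := by ring
      _ = w₁ := by rw [e1, e2]; ring

theorem W2_pt (x : E (a + 1)) {w₁ w₂ : ℂ} (h₁ : ‖w₁‖ = 1) (h₂ : ‖w₂‖ = 1) :
    W2 (pt a x w₁ w₂) = w₂ := by
  have e1 := mul_conj_one h₁
  have hB : (cB a : ℂ) ≠ 0 := by exact_mod_cast (cB_pos a).ne'
  unfold W2
  rw [W1_pt x h₁ h₂]
  unfold pt
  simp only [zc₁_mkV]
  field_simp
  calc _ = w₂ * (w₁ * conj w₁) ^ 3 := by ring
    _ = w₂ := by rw [e1]; ring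

theorem contDiff_W1 {n : WithTop ℕ∞} : ContDiff ℝ n (W1 : E (a + 1 + 6) → ℂ) :=
  ((contDiff_zc₁.mul contDiff_zc₂).mul (contDiff_conj.comp contDiff_zc₀)).mul contDiff_const

theorem contDiff_W2 {n : WithTop ℕ∞} : ContDiff ℝ n (W2 : E (a + 1 + 6) → ℂ) :=
  (contDiff_zc₁.mul ((contDiff_conj.comp contDiff_W1).pow 3)).mul contDiff_const

theorem hd_pt (x : E (a + 1)) (w₁ w₂ : ℂ) : hd (pt a x w₁ w₂) = cR a • x := by
  unfold pt
  rw [hd_mkV]

/-- The domain of the parametrisation. -/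
def U0 (a : ℕ) : Set (E (a + 2)) :=
  {y | |ka a * y (Fin.natAdd a 0)| < Real.pi ∧ |4 * ka a * y (Fin.natAdd a 1)| < Real.pi}

/-- The domain of the inverse. -/
def O0 (b : OrthonormalBasis (Fin (a + 1)) ℝ (E (a + 1))) (w₁ w₂ : ℂ) : Set (E (a + 1 + 6)) :=
  {p | 0 < ⟪b (Fin.last a), hd p⟫ ∧ W1 p * conj w₁ ∈ Complex.slitPlane ∧
    W2 p * conj w₂ ∈ Complex.slitPlane}

/-- The inverse of the parametrisation. -/
noncomputable def inv (b : OrthonormalBasis (Fin (a + 1)) ℝ (E (a + 1))) (w₁ w₂ : ℂ)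
    (p : E (a + 1 + 6)) : E (a + 2) :=
  WithLp.toLp 2 (Fin.append
    (fun i : Fin a => cR a * ⟪b i.castSucc, hd p⟫ * ⟪b (Fin.last a), hd p⟫⁻¹)
    ![(Complex.log (W1 p * conj w₁)).im * (ka a)⁻¹,
      (Complex.log (W2 p * conj w₂)).im * (4 * ka a)⁻¹])

theorem inv_left (b : OrthonormalBasis (Fin (a + 1)) ℝ (E (a + 1))) (w₁ w₂ : ℂ)
    (p : E (a + 1 + 6)) (i : Fin a) : inv b w₁ w₂ p (Fin.castAdd 2 i) =
      cR a * ⟪b i.castSucc, hd p⟫ * ⟪b (Fin.last a), hd p⟫⁻¹ := by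
  simp [inv, Fin.append_left]

theorem inv_right (b : OrthonormalBasis (Fin (a + 1)) ℝ (E (a + 1))) (w₁ w₂ : ℂ)
    (p : E (a + 1 + 6)) (j : Fin 2) : inv b w₁ w₂ p (Fin.natAdd a j) =
      ![(Complex.log (W1 p * conj w₁)).im * (ka a)⁻¹,
      (Complex.log (W2 p * conj w₂)).im * (4 * ka a)⁻¹] j := by
  simp [inv, Fin.append_right]

theorem isOpen_U0 : IsOpen (U0 a) := by
  have h0 : Continuous fun y : E (a + 2) => y (Fin.natAdd a 0) := (contDiff_coord _).continuous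
  have h1 : Continuous fun y : E (a + 2) => y (Fin.natAdd a 1) := (contDiff_coord _).continuous
  exact (isOpen_lt (continuous_const.mul h0).abs continuous_const).inter
    (isOpen_lt (continuous_const.mul h1).abs continuous_const)

theorem isOpen_O0 (b : OrthonormalBasis (Fin (a + 1)) ℝ (E (a + 1))) (w₁ w₂ : ℂ) :
    IsOpen (O0 b w₁ w₂) := by
  have h0 : Continuous fun p : E (a + 1 + 6) => ⟪b (Fin.last a), hd p⟫ :=
    continuous_const.inner (contDiff_hd (n := 0)).continuous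
  have h1 : Continuous fun p : E (a + 1 + 6) => W1 p * conj w₁ :=
    (contDiff_W1 (n := 0)).continuous.mul continuous_const
  have h2 : Continuous fun p : E (a + 1 + 6) => W2 p * conj w₂ :=
    (contDiff_W2 (n := 0)).continuous.mul continuous_const
  exact (isOpen_lt continuous_const h0).inter
    ((Complex.isOpen_slitPlane.preimage h1).inter (Complex.isOpen_slitPlane.preimage h2))

theorem contDiffAt_logIm {z : ℂ} (hz : z ∈ Complex.slitPlane) :
    ContDiffAt ℝ ∞ (fun z => (Complex.log z).im) z := by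
  have h1 : ContDiffAt ℝ ∞ Complex.log z := (Complex.contDiffAt_log hz).restrict_scalars ℝ
  exact Complex.imCLM.contDiff.contDiffAt.comp z h1

theorem contDiffAt_inv (b : OrthonormalBasis (Fin (a + 1)) ℝ (E (a + 1))) {w₁ w₂ : ℂ}
    {p : E (a + 1 + 6)} (hp : p ∈ O0 b w₁ w₂) : ContDiffAt ℝ ∞ (inv b w₁ w₂) p := by
  rw [contDiffAt_piLp]
  intro i
  refine Fin.addCases (fun i => ?_) (fun j => ?_) i
  · simp only [inv_left]
    have h0 : ContDiffAt ℝ ∞ (fun p : E (a + 1 + 6) => ⟪b (Fin.last a), hd p⟫) p :=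
      (contDiff_const.inner ℝ contDiff_hd).contDiffAt
    have h1 : ContDiffAt ℝ ∞ (fun p : E (a + 1 + 6) => ⟪b i.castSucc, hd p⟫) p :=
      (contDiff_const.inner ℝ contDiff_hd).contDiffAt
    exact (contDiffAt_const.mul h1).mul (h0.inv hp.1.ne')
  · simp only [inv_right]
    have k1 : ContDiffAt ℝ ∞ (fun p : E (a + 1 + 6) => W1 p * conj w₁) p :=
      (contDiff_W1.mul contDiff_const).contDiffAt
    have k2 : ContDiffAt ℝ ∞ (fun p : E (a + 1 + 6) => W2 p * conj w₂) p :=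
      (contDiff_W2.mul contDiff_const).contDiffAt
    have h1 : ContDiffAt ℝ ∞ (fun p : E (a + 1 + 6) => (Complex.log (W1 p * conj w₁)).im) p :=
      ContDiffAt.comp (g := fun z => (Complex.log z).im) p (contDiffAt_logIm hp.2.1) k1
    have h2 : ContDiffAt ℝ ∞ (fun p : E (a + 1 + 6) => (Complex.log (W2 p * conj w₂)).im) p :=
      ContDiffAt.comp (g := fun z => (Complex.log z).im) p (contDiffAt_logIm hp.2.2) k2
    fin_cases j
    · exact h1.mul contDiffAt_const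
    · exact h2.mul contDiffAt_const

theorem inner_b_sph (b : OrthonormalBasis (Fin (a + 1)) ℝ (E (a + 1)))
    (y : E (a + 2)) (i : Fin a) : ⟪b i.castSucc, sph b y⟫ = (√(qf y))⁻¹ * y (Fin.castAdd 2 i) := by
  unfold sph Tm
  rw [inner_smul_right, inner_add_right, inner_sum]
  simp only [inner_smul_right, b.inner_eq_ite]
  simp [Fin.castSucc_inj, (Fin.castSucc_lt_last i).ne]

theorem inner_last_sph (b : OrthonormalBasis (Fin (a + 1)) ℝ (E (a + 1)))
    (y : E (a + 2)) : ⟪b (Fin.last a), sph b y⟫ = (√(qf y))⁻¹ * cR a := by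
  unfold sph Tm
  rw [inner_smul_right, inner_add_right, inner_sum]
  simp only [inner_smul_right, b.inner_eq_ite]
  have : ∀ i : Fin a, ¬ (Fin.last a = i.castSucc) := fun i => (Fin.castSucc_lt_last i).ne'
  simp [this]

theorem log_exp_im {t : ℝ} (ht : |t| < Real.pi) :
    (Complex.log (Complex.exp ((t : ℝ) * Complex.I))).im = t := by
  rw [abs_lt] at ht
  rw [Complex.log_exp (by simpa using ht.1) (by simpa using ht.2.le)]
  simp

theorem exp_mem_slitPlane {t : ℝ} (ht : |t| < Real.pi) :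
    Complex.exp ((t : ℝ) * Complex.I) ∈ Complex.slitPlane := by
  rw [Complex.mem_slitPlane_iff_arg]
  refine ⟨?_, Complex.exp_ne_zero _⟩
  rw [← Complex.log_im, log_exp_im ht]
  exact (abs_lt.mp ht).2.ne

theorem u_mul_conj {w : ℂ} (h : ‖w‖ = 1) (z : ℂ) : w * z * conj w = z := by
  calc w * z * conj w = z * (w * conj w) := by ring
    _ = z := by rw [mul_conj_one h, mul_one]

theorem par_mem_O0 (ha : 1 ≤ a) (b : OrthonormalBasis (Fin (a + 1)) ℝ (E (a + 1))) {w₁ w₂ : ℂ}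
    (h₁ : ‖w₁‖ = 1) (h₂ : ‖w₂‖ = 1) {y : E (a + 2)} (hy : y ∈ U0 a) :
    par b w₁ w₂ y ∈ O0 b w₁ w₂ := by
  refine ⟨?_, ?_, ?_⟩
  · unfold par
    rw [hd_pt, inner_smul_right, inner_last_sph]
    have := cR_pos ha
    have := Real.sqrt_pos.mpr (qf_pos ha y)
    positivity
  · unfold par
    rw [W1_pt _ (norm_u1 h₁ y) (norm_u2 h₂ y)]
    unfold u1
    rw [u_mul_conj h₁]
    exact exp_mem_slitPlane hy.1
  · unfold par
    rw [W2_pt _ (norm_u1 h₁ y) (norm_u2 h₂ y)]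
    unfold u2
    rw [u_mul_conj h₂]
    exact exp_mem_slitPlane hy.2

theorem inv_par (ha : 1 ≤ a) (b : OrthonormalBasis (Fin (a + 1)) ℝ (E (a + 1))) {w₁ w₂ : ℂ}
    (h₁ : ‖w₁‖ = 1) (h₂ : ‖w₂‖ = 1) {y : E (a + 2)} (hy : y ∈ U0 a) :
    inv b w₁ w₂ (par b w₁ w₂ y) = y := by
  have hR := cR_pos ha
  have hq := Real.sqrt_pos.mpr (qf_pos ha y)
  have hk := ka_pos a
  ext i
  refine Fin.addCases (fun i => ?_) (fun j => ?_) i
  · rw [inv_left]
    unfold par
    rw [hd_pt, inner_smul_right, inner_smul_right, inner_last_sph, inner_b_sph]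
    field_simp
  · rw [inv_right]
    unfold par
    rw [W1_pt _ (norm_u1 h₁ y) (norm_u2 h₂ y), W2_pt _ (norm_u1 h₁ y) (norm_u2 h₂ y)]
    unfold u1 u2
    rw [u_mul_conj h₁, u_mul_conj h₂, log_exp_im hy.1, log_exp_im hy.2]
    fin_cases j
    · simp
      field_simp
    · simp
      field_simp

theorem exp_log_im {z : ℂ} (hz : ‖z‖ = 1) :
    Complex.exp (((Complex.log z).im : ℝ) * Complex.I) = z := by
  have h0 : z ≠ 0 := by
    rintro rfl
    simp at hz
  have h1 : Complex.log z = ((Complex.log z).im : ℝ) * Complex.I := by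
    apply Complex.ext
    · simp [Complex.log_re, hz]
    · simp
  rw [← h1, Complex.exp_log h0]

theorem par_inv (ha : 1 ≤ a) (b : OrthonormalBasis (Fin (a + 1)) ℝ (E (a + 1))) {w₁ w₂ : ℂ}
    (h₁ : ‖w₁‖ = 1) (h₂ : ‖w₂‖ = 1) {p : E (a + 1 + 6)} (hp : p ∈ Mset a)
    (hpO : p ∈ O0 b w₁ w₂) : par b w₁ w₂ (inv b w₁ w₂ p) = p := by
  obtain ⟨x, v₁, v₂, hx, hv₁, hv₂, rfl⟩ := hp
  have hR := cR_pos ha
  have hk := ka_pos a
  obtain ⟨hO1, hO2, hO3⟩ := hpO
  rw [hd_pt, inner_smul_right] at hO1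
  have hc : 0 < ⟪b (Fin.last a), x⟫ := by
    by_contra hcon
    push Not at hcon
    nlinarith [mul_nonneg hR.le (neg_nonneg.mpr hcon)]
  set y := inv b w₁ w₂ (pt a x v₁ v₂) with hy
  have hyl : ∀ i : Fin a, y (Fin.castAdd 2 i) =
      cR a * ⟪b (Fin.last a), x⟫⁻¹ * ⟪b i.castSucc, x⟫ := by
    intro i
    rw [hy, inv_left, hd_pt, inner_smul_right, inner_smul_right]
    field_simp
  have hT : Tm b y + cR a • b (Fin.last a) = (cR a * ⟪b (Fin.last a), x⟫⁻¹) • x := by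
    have h3 : x = ∑ i : Fin (a + 1), ⟪b i, x⟫ • b i := (b.sum_repr' x).symm
    rw [Fin.sum_univ_castSucc] at h3
    have h4 : Tm b y + cR a • b (Fin.last a) = (cR a * ⟪b (Fin.last a), x⟫⁻¹) •
        (∑ i : Fin a, ⟪b i.castSucc, x⟫ • b i.castSucc +
          ⟪b (Fin.last a), x⟫ • b (Fin.last a)) := by
      rw [smul_add, Finset.smul_sum]
      unfold Tm
      congr 1
      · refine Finset.sum_congr rfl fun i _ => ?_
        rw [hyl i, smul_smul]
      · rw [smul_smul]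
        congr 1
        field_simp
    rw [h4, ← h3]
  have hq : √(qf y) = cR a * ⟪b (Fin.last a), x⟫⁻¹ := by
    rw [← norm_Tm_sq b y, hT, norm_smul, hx, mul_one, Real.sqrt_sq (norm_nonneg _),
      Real.norm_of_nonneg (by positivity)]
  have hs : sph b y = x := by
    unfold sph
    rw [hT, hq, smul_smul, inv_mul_cancel₀ (by positivity), one_smul]
  have hu1 : u1 w₁ y = v₁ := by
    unfold u1
    have h4 : ka a * y (Fin.natAdd a 0) = (Complex.log (v₁ * conj w₁)).im := by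
      rw [hy, inv_right, W1_pt _ hv₁ hv₂]
      simp
      field_simp
    rw [h4, exp_log_im (by rw [norm_mul, hv₁, RCLike.norm_conj, h₁, one_mul])]
    calc w₁ * (v₁ * conj w₁) = v₁ * (w₁ * conj w₁) := by ring
      _ = v₁ := by rw [mul_conj_one h₁, mul_one]
  have hu2 : u2 w₂ y = v₂ := by
    unfold u2
    have h4 : 4 * ka a * y (Fin.natAdd a 1) = (Complex.log (v₂ * conj w₂)).im := by
      rw [hy, inv_right, W2_pt _ hv₁ hv₂]
      simp
      field_simp
    rw [h4, exp_log_im (by rw [norm_mul, hv₂, RCLike.norm_conj, h₂, one_mul])]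
    calc w₂ * (v₂ * conj w₂) = v₂ * (w₂ * conj w₂) := by ring
      _ = v₂ := by rw [mul_conj_one h₂, mul_one]
  unfold par
  rw [hs, hu1, hu2]

theorem inv_mem_U0 (b : OrthonormalBasis (Fin (a + 1)) ℝ (E (a + 1))) {w₁ w₂ : ℂ}
    {p : E (a + 1 + 6)} (hpO : p ∈ O0 b w₁ w₂) : inv b w₁ w₂ p ∈ U0 a := by
  have hk := ka_pos a
  obtain ⟨-, hO2, hO3⟩ := hpO
  have key : ∀ z : ℂ, z ∈ Complex.slitPlane → |(Complex.log z).im| < Real.pi := by
    intro z hz
    rw [Complex.log_im, abs_lt]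
    exact ⟨Complex.neg_pi_lt_arg z, lt_of_le_of_ne (Complex.arg_le_pi z)
      (Complex.mem_slitPlane_iff_arg.mp hz).1⟩
  refine ⟨?_, ?_⟩
  · have : ka a * (inv b w₁ w₂ p) (Fin.natAdd a 0) = (Complex.log (W1 p * conj w₁)).im := by
      rw [inv_right]
      simp
      field_simp
    rw [this]
    exact key _ hO2
  · have : 4 * ka a * (inv b w₁ w₂ p) (Fin.natAdd a 1) = (Complex.log (W2 p * conj w₂)).im := by
      rw [inv_right]
      simp
      field_simp
    rw [this]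
    exact key _ hO3

theorem isLocalParam_par (ha : 1 ≤ a) (b : OrthonormalBasis (Fin (a + 1)) ℝ (E (a + 1)))
    {w₁ w₂ : ℂ} (h₁ : ‖w₁‖ = 1) (h₂ : ‖w₂‖ = 1) :
    IsLocalParam (Mset a) (U0 a) (par b w₁ w₂) where
  isOpen := isOpen_U0
  smooth := (contDiff_par ha b w₁ w₂).contDiffOn
  immersion := by
    intro y hy
    have hd1 : HasFDerivAt (par b w₁ w₂) (fderiv ℝ (par b w₁ w₂) y) y :=
      ((contDiff_par ha b w₁ w₂).differentiable (by simp) y).hasFDerivAt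
    have hd2 : HasFDerivAt (inv b w₁ w₂) (fderiv ℝ (inv b w₁ w₂) (par b w₁ w₂ y))
        (par b w₁ w₂ y) :=
      ((contDiffAt_inv b (par_mem_O0 ha b h₁ h₂ hy)).differentiableAt (by simp)).hasFDerivAt
    have hd3 := hd2.comp y hd1
    have hd4 : HasFDerivAt (inv b w₁ w₂ ∘ par b w₁ w₂) (ContinuousLinearMap.id ℝ (E (a + 2))) y := by
      refine (hasFDerivAt_id y).congr_of_eventuallyEq ?_
      filter_upwards [isOpen_U0.mem_nhds hy] with z hz
      exact inv_par ha b h₁ h₂ hz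
    have h5 := hd3.unique hd4
    intro u v huv
    have h6 := congrArg (fun L : E (a + 2) →L[ℝ] E (a + 2) => L u) h5
    have h7 := congrArg (fun L : E (a + 2) →L[ℝ] E (a + 2) => L v) h5
    simp only [ContinuousLinearMap.comp_apply, ContinuousLinearMap.id_apply] at h6 h7
    rw [← h6, ← h7, huv]
  injOn := by
    intro y hy z hz hyz
    rw [← inv_par ha b h₁ h₂ hy, ← inv_par ha b h₁ h₂ hz, hyz]
  relOpen := by
    intro W hWU hW
    refine ⟨O0 b w₁ w₂ ∩ inv b w₁ w₂ ⁻¹' W, ?_, ?_⟩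
    · have hc : ContinuousOn (inv b w₁ w₂) (O0 b w₁ w₂) := fun p hp =>
        (contDiffAt_inv b hp).continuousAt.continuousWithinAt
      exact hc.isOpen_inter_preimage (isOpen_O0 b w₁ w₂) hW
    · ext p
      constructor
      · rintro ⟨y, hy, rfl⟩
        refine ⟨par_mem ha b h₁ h₂ y, par_mem_O0 ha b h₁ h₂ (hWU hy), ?_⟩
        rw [Set.mem_preimage, inv_par ha b h₁ h₂ (hWU hy)]
        exact hy
      · rintro ⟨hpM, hpO, hpW⟩
        exact ⟨_, hpW, par_inv ha b h₁ h₂ hpM hpO⟩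

theorem exists_basis (x : E (a + 1)) (hx : ‖x‖ = 1) :
    ∃ b : OrthonormalBasis (Fin (a + 1)) ℝ (E (a + 1)), b (Fin.last a) = x := by
  have h : Orthonormal ℝ (({Fin.last a} : Set (Fin (a + 1))).domRestrict fun _ => x) := by
    constructor
    · intro i
      exact hx
    · intro i j hij
      exact absurd (Subsingleton.elim i j) hij
  obtain ⟨b, hb⟩ := h.exists_orthonormalBasis_extension_of_card_eq (by simp)
  exact ⟨b, hb _ rfl⟩

theorem par_zero (ha : 1 ≤ a) (b : OrthonormalBasis (Fin (a + 1)) ℝ (E (a + 1))) (w₁ w₂ : ℂ) :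
    par b w₁ w₂ 0 = pt a (b (Fin.last a)) w₁ w₂ := by
  have hR := cR_pos ha
  have h1 : sph b (0 : E (a + 2)) = b (Fin.last a) := by
    unfold sph Tm qf
    simp [Real.sqrt_sq hR.le, smul_smul, hR.ne']
  unfold par
  rw [h1]
  simp [u1, u2]

theorem zero_mem_U0 : (0 : E (a + 2)) ∈ U0 a := by
  simp [U0, Real.pi_pos]

theorem exists_par (ha : 1 ≤ a) {p : E (a + 1 + 6)} (hp : p ∈ Mset a) :
    ∃ (b : OrthonormalBasis (Fin (a + 1)) ℝ (E (a + 1))) (w₁ w₂ : ℂ), ‖w₁‖ = 1 ∧ ‖w₂‖ = 1 ∧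
      par b w₁ w₂ 0 = p := by
  obtain ⟨x, v₁, v₂, hx, hv₁, hv₂, rfl⟩ := hp
  obtain ⟨b, rfl⟩ := exists_basis x hx
  exact ⟨b, v₁, v₂, hv₁, hv₂, par_zero ha b v₁ v₂⟩

theorem Mset_eq_image : Mset a = (fun q : E (a + 1) × ℂ × ℂ => pt a q.1 q.2.1 q.2.2) ''
    (Metric.sphere 0 1 ×ˢ (Metric.sphere 0 1 ×ˢ Metric.sphere 0 1)) := by
  ext p
  constructor
  · rintro ⟨x, v₁, v₂, hx, hv₁, hv₂, rfl⟩
    exact ⟨(x, v₁, v₂), by simp [hx, hv₁, hv₂], rfl⟩
  · rintro ⟨⟨x, v₁, v₂⟩, h, rfl⟩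
    simp at h
    exact ⟨x, v₁, v₂, h.1, h.2.1, h.2.2, rfl⟩

theorem isClosedSubmanifold_Mset (ha : 1 ≤ a) : IsClosedSubmanifold (a + 2) (Mset a) := by
  have hc : Continuous (fun q : E (a + 1) × ℂ × ℂ => pt a q.1 q.2.1 q.2.2) :=
    (contDiff_pt contDiff_fst (contDiff_fst.comp contDiff_snd)
      (contDiff_snd.comp contDiff_snd)).continuous
  refine ⟨?_, ?_, ?_⟩
  · rw [Mset_eq_image]
    exact ((isCompact_sphere _ _).prod ((isCompact_sphere _ _).prod (isCompact_sphere _ _))).image hc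
  · rw [Mset_eq_image]
    have hC : IsConnected (Metric.sphere (0 : ℂ) 1) :=
      isConnected_sphere (by rw [Complex.rank_real_complex]; norm_num) 0 zero_le_one
    have hE : IsConnected (Metric.sphere (0 : E (a + 1)) 1) := by
      refine isConnected_sphere ?_ 0 zero_le_one
      rw [← Module.finrank_eq_rank, finrank_euclideanSpace_fin]
      exact_mod_cast Nat.lt_succ_of_le ha
    exact (hE.prod (hC.prod hC)).image _ hc.continuousOn
  · intro p hp
    obtain ⟨b, w₁, w₂, h₁, h₂, rfl⟩ := exists_par ha hp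
    exact ⟨U0 a, par b w₁ w₂, isLocalParam_par ha b h₁ h₂, ⟨0, zero_mem_U0, rfl⟩⟩

end Pool.Agent.H85R3.Minimal
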