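import Pool.Agent.H85R3.MinEx3

/-! The product of a sphere and a flat torus: minimality and a small eigenvalue. -/

set_option autoImplicit false

open scoped ContDiff RealInnerProductSpace Topology ComplexConjugate

namespace Pool.Agent.H85R3.Minimal

variable {a : ℕ}

/-- The standard basis. -/
noncomputable def eb (a : ℕ) (i : Fin (a + 2)) : E (a + 2) := EuclideanSpace.single i (1 : ℝ)

theorem smul_eb_apply (s : ℝ) (i j : Fin (a + 2)) :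
    ((0 : E (a + 2)) + s • eb a i) j = if j = i then s else 0 := by
  simp [eb]

theorem castAdd_ne_natAdd (i : Fin a) (j : Fin 2) : Fin.castAdd 2 i ≠ Fin.natAdd a j := by
  intro h
  have := congrArg Fin.val h
  simp at this
  omega

/-- First complex coordinate of the point. -/
noncomputable def Z₀ (a : ℕ) (w₁ : ℂ) : ℂ := cA a * w₁ ^ 5
/-- Second complex coordinate of the point. -/
noncomputable def Z₁ (a : ℕ) (w₁ w₂ : ℂ) : ℂ := cB a * (w₁ ^ 3 * w₂)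
/-- Third complex coordinate of the point. -/
noncomputable def Z₂ (a : ℕ) (w₁ w₂ : ℂ) : ℂ := cB a * (w₁ ^ 3 * conj w₂)

theorem line_left (b : OrthonormalBasis (Fin (a + 1)) ℝ (E (a + 1)))
    (w₁ w₂ : ℂ) (i : Fin a) (s : ℝ) :
    par b w₁ w₂ (0 + s • eb a (Fin.castAdd 2 i)) =
      mkV a (cR a • (rho (cR a) s • (s • b i.castSucc + cR a • b (Fin.last a))))
        (Z₀ a w₁) (Z₁ a w₁ w₂) (Z₂ a w₁ w₂) := by
  have h1 : ∀ j : Fin 2, ((0 : E (a + 2)) + s • eb a (Fin.castAdd 2 i)) (Fin.natAdd a j) = 0 := by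
    intro j
    rw [smul_eb_apply, if_neg (castAdd_ne_natAdd i j).symm]
  have h2 : ∀ j : Fin a, ((0 : E (a + 2)) + s • eb a (Fin.castAdd 2 i)) (Fin.castAdd 2 j) =
      if j = i then s else 0 := by
    intro j
    rw [smul_eb_apply]
    simp
  unfold par pt sph Tm qf u1 u2 rho Z₀ Z₁ Z₂
  simp only [h1, h2]
  simp

theorem line_zero (ha : 1 ≤ a) (b : OrthonormalBasis (Fin (a + 1)) ℝ (E (a + 1)))
    (w₁ w₂ : ℂ) (s : ℝ) :
    par b w₁ w₂ (0 + s • eb a (Fin.natAdd a 0)) =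
      osc a (cR a • b (Fin.last a)) (Z₀ a w₁) (Z₁ a w₁ w₂) (Z₂ a w₁ w₂)
        (5 * ka a) (3 * ka a) (3 * ka a) s := by
  have hR := cR_pos ha
  have h2 : ∀ j : Fin a, ((0 : E (a + 2)) + s • eb a (Fin.natAdd a 0)) (Fin.castAdd 2 j) = 0 := by
    intro j
    rw [smul_eb_apply, if_neg (castAdd_ne_natAdd j 0)]
  have h1 : ((0 : E (a + 2)) + s • eb a (Fin.natAdd a 0)) (Fin.natAdd a 0) = s := by
    rw [smul_eb_apply, if_pos rfl]
  have h3 : ((0 : E (a + 2)) + s • eb a (Fin.natAdd a 0)) (Fin.natAdd a 1) = 0 := by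
    rw [smul_eb_apply, if_neg (by simp)]
  have e1 : ∀ (k : ℕ), Complex.exp (((ka a * s : ℝ) : ℂ) * Complex.I) ^ k =
      Complex.exp ((((k : ℝ) * ka a * s : ℝ) : ℂ) * Complex.I) := by
    intro k
    rw [← Complex.exp_nat_mul]
    congr 1
    push_cast
    ring
  unfold par pt sph Tm qf u1 u2 osc Z₀ Z₁ Z₂
  simp only [h1, h2, h3]
  have e2 : (√(∑ _i : Fin a, (0 : ℝ) ^ 2 + cR a ^ 2))⁻¹ •
      (∑ i : Fin a, (0 : ℝ) • b i.castSucc + cR a • b (Fin.last a)) = b (Fin.last a) := by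
    simp [Real.sqrt_sq hR.le, smul_smul, hR.ne']
  rw [e2]
  have e5 := e1 5
  have e3 := e1 3
  push_cast at e5 e3
  simp only [mul_pow]
  push_cast
  rw [e5, e3]
  simp only [mul_zero, zero_mul, Complex.exp_zero, mul_one, Complex.ofReal_zero]
  congr 1 <;> ring

theorem line_one (ha : 1 ≤ a) (b : OrthonormalBasis (Fin (a + 1)) ℝ (E (a + 1)))
    (w₁ w₂ : ℂ) (s : ℝ) :
    par b w₁ w₂ (0 + s • eb a (Fin.natAdd a 1)) =
      osc a (cR a • b (Fin.last a)) (Z₀ a w₁) (Z₁ a w₁ w₂) (Z₂ a w₁ w₂)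
        0 (4 * ka a) (-(4 * ka a)) s := by
  have hR := cR_pos ha
  have h2 : ∀ j : Fin a, ((0 : E (a + 2)) + s • eb a (Fin.natAdd a 1)) (Fin.castAdd 2 j) = 0 := by
    intro j
    rw [smul_eb_apply, if_neg (castAdd_ne_natAdd j 1)]
  have h1 : ((0 : E (a + 2)) + s • eb a (Fin.natAdd a 1)) (Fin.natAdd a 1) = s := by
    rw [smul_eb_apply, if_pos rfl]
  have h3 : ((0 : E (a + 2)) + s • eb a (Fin.natAdd a 1)) (Fin.natAdd a 0) = 0 := by
    rw [smul_eb_apply, if_neg (by simp)]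
  unfold par pt sph Tm qf u1 u2 osc Z₀ Z₁ Z₂
  simp only [h1, h2, h3]
  have e2 : (√(∑ _i : Fin a, (0 : ℝ) ^ 2 + cR a ^ 2))⁻¹ •
      (∑ i : Fin a, (0 : ℝ) • b i.castSucc + cR a • b (Fin.last a)) = b (Fin.last a) := by
    simp [Real.sqrt_sq hR.le, smul_smul, hR.ne']
  rw [e2]
  have e3 : conj (Complex.exp (((4 * ka a * s : ℝ) : ℂ) * Complex.I)) =
      Complex.exp (((-(4 * ka a) * s : ℝ) : ℂ) * Complex.I) := by
    rw [← Complex.exp_conj, map_mul, Complex.conj_ofReal, Complex.conj_I]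
    congr 1
    push_cast
    ring
  rw [map_mul, e3]
  simp only [mul_zero, zero_mul, Complex.exp_zero, mul_one, Complex.ofReal_zero]
  congr 1 <;> ring

theorem contDiffAt_par (ha : 1 ≤ a) (b : OrthonormalBasis (Fin (a + 1)) ℝ (E (a + 1)))
    (w₁ w₂ : ℂ) (y : E (a + 2)) : ContDiffAt ℝ 2 (par b w₁ w₂) y :=
  ((contDiff_par ha b w₁ w₂).of_le le_two).contDiffAt

theorem deriv_left (ha : 1 ≤ a) (b : OrthonormalBasis (Fin (a + 1)) ℝ (E (a + 1)))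
    (w₁ w₂ : ℂ) (i : Fin a) :
    fderiv ℝ (par b w₁ w₂) 0 (eb a (Fin.castAdd 2 i)) = mkV a (b i.castSucc) 0 0 0 ∧
    D2 (par b w₁ w₂) 0 (eb a (Fin.castAdd 2 i)) (eb a (Fin.castAdd 2 i)) =
      mkV a (-((cR a)⁻¹ • b (Fin.last a))) 0 0 0 := by
  have hR := cR_pos ha
  have h1 : ∀ t : ℝ, HasDerivAt (fun s : ℝ => par b w₁ w₂ (0 + s • eb a (Fin.castAdd 2 i)))
      (mkV a (cR a • (-(t * rho (cR a) t ^ 3) • (t • b i.castSucc + cR a • b (Fin.last a)) +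
        rho (cR a) t • b i.castSucc)) 0 0 0) t := by
    intro t
    simp only [line_left]
    exact hasDerivAt_mkV (hasDerivAt_sphC hR _ _ t) (hasDerivAt_const t _)
      (hasDerivAt_const t _) (hasDerivAt_const t _)
  have h2 := hasDerivAt_mkV (a := a) (hasDerivAt_sphC' hR (b i.castSucc) (b (Fin.last a)))
    (hasDerivAt_const (0 : ℝ) (0 : ℂ)) (hasDerivAt_const (0 : ℝ) (0 : ℂ))
    (hasDerivAt_const (0 : ℝ) (0 : ℂ))
  obtain ⟨h3, h4⟩ := D2_of_curve (contDiffAt_par ha b w₁ w₂ 0) h1 h2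
  refine ⟨?_, h4⟩
  rw [h3]
  simp [rho_zero hR, smul_smul, hR.ne']

theorem deriv_zero (ha : 1 ≤ a) (b : OrthonormalBasis (Fin (a + 1)) ℝ (E (a + 1)))
    (w₁ w₂ : ℂ) :
    fderiv ℝ (par b w₁ w₂) 0 (eb a (Fin.natAdd a 0)) =
      mkV a 0 ((5 * ka a : ℝ) * Complex.I * Z₀ a w₁) ((3 * ka a : ℝ) * Complex.I * Z₁ a w₁ w₂)
        ((3 * ka a : ℝ) * Complex.I * Z₂ a w₁ w₂) ∧
    D2 (par b w₁ w₂) 0 (eb a (Fin.natAdd a 0)) (eb a (Fin.natAdd a 0)) =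
      mkV a 0 ((5 * ka a : ℝ) * Complex.I * ((5 * ka a : ℝ) * Complex.I * Z₀ a w₁))
        ((3 * ka a : ℝ) * Complex.I * ((3 * ka a : ℝ) * Complex.I * Z₁ a w₁ w₂))
        ((3 * ka a : ℝ) * Complex.I * ((3 * ka a : ℝ) * Complex.I * Z₂ a w₁ w₂)) := by
  have h1 : ∀ t : ℝ, HasDerivAt (fun s : ℝ => par b w₁ w₂ (0 + s • eb a (Fin.natAdd a 0)))
      (osc a 0 ((5 * ka a : ℝ) * Complex.I * Z₀ a w₁)
        ((3 * ka a : ℝ) * Complex.I * Z₁ a w₁ w₂) ((3 * ka a : ℝ) * Complex.I * Z₂ a w₁ w₂)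
        (5 * ka a) (3 * ka a) (3 * ka a) t) t := by
    intro t
    simp only [line_zero ha]
    exact hasDerivAt_oscC _ _ _ _ _ _ _ t
  have h2 := hasDerivAt_oscC (a := a) 0 ((5 * ka a : ℝ) * Complex.I * Z₀ a w₁)
    ((3 * ka a : ℝ) * Complex.I * Z₁ a w₁ w₂) ((3 * ka a : ℝ) * Complex.I * Z₂ a w₁ w₂)
    (5 * ka a) (3 * ka a) (3 * ka a) 0
  obtain ⟨h3, h4⟩ := D2_of_curve (contDiffAt_par ha b w₁ w₂ 0) h1 h2
  rw [osc_zero] at h3 h4
  exact ⟨h3, h4⟩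

theorem deriv_one (ha : 1 ≤ a) (b : OrthonormalBasis (Fin (a + 1)) ℝ (E (a + 1)))
    (w₁ w₂ : ℂ) :
    fderiv ℝ (par b w₁ w₂) 0 (eb a (Fin.natAdd a 1)) =
      mkV a 0 ((0 : ℝ) * Complex.I * Z₀ a w₁) ((4 * ka a : ℝ) * Complex.I * Z₁ a w₁ w₂)
        ((-(4 * ka a) : ℝ) * Complex.I * Z₂ a w₁ w₂) ∧
    D2 (par b w₁ w₂) 0 (eb a (Fin.natAdd a 1)) (eb a (Fin.natAdd a 1)) =
      mkV a 0 ((0 : ℝ) * Complex.I * ((0 : ℝ) * Complex.I * Z₀ a w₁))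
        ((4 * ka a : ℝ) * Complex.I * ((4 * ka a : ℝ) * Complex.I * Z₁ a w₁ w₂))
        ((-(4 * ka a) : ℝ) * Complex.I * ((-(4 * ka a) : ℝ) * Complex.I * Z₂ a w₁ w₂)) := by
  have h1 : ∀ t : ℝ, HasDerivAt (fun s : ℝ => par b w₁ w₂ (0 + s • eb a (Fin.natAdd a 1)))
      (osc a 0 ((0 : ℝ) * Complex.I * Z₀ a w₁)
        ((4 * ka a : ℝ) * Complex.I * Z₁ a w₁ w₂) ((-(4 * ka a) : ℝ) * Complex.I * Z₂ a w₁ w₂)
        0 (4 * ka a) (-(4 * ka a)) t) t := by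
    intro t
    simp only [line_one ha]
    exact hasDerivAt_oscC _ _ _ _ _ _ _ t
  have h2 := hasDerivAt_oscC (a := a) 0 ((0 : ℝ) * Complex.I * Z₀ a w₁)
    ((4 * ka a : ℝ) * Complex.I * Z₁ a w₁ w₂) ((-(4 * ka a) : ℝ) * Complex.I * Z₂ a w₁ w₂)
    0 (4 * ka a) (-(4 * ka a)) 0
  obtain ⟨h3, h4⟩ := D2_of_curve (contDiffAt_par ha b w₁ w₂ 0) h1 h2
  rw [osc_zero] at h3 h4
  exact ⟨h3, h4⟩

theorem normSq_Z₀ {w₁ : ℂ} (h₁ : ‖w₁‖ = 1) : Z₀ a w₁ * conj (Z₀ a w₁) = ((cA a ^ 2 : ℝ) : ℂ) := by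
  unfold Z₀
  simp only [map_mul, map_pow, Complex.conj_ofReal]
  calc _ = (cA a : ℂ) ^ 2 * (w₁ * conj w₁) ^ 5 := by ring
    _ = _ := by rw [mul_conj_one h₁]; push_cast; ring

theorem normSq_Z₁ {w₁ w₂ : ℂ} (h₁ : ‖w₁‖ = 1) (h₂ : ‖w₂‖ = 1) :
    Z₁ a w₁ w₂ * conj (Z₁ a w₁ w₂) = ((cB a ^ 2 : ℝ) : ℂ) := by
  unfold Z₁
  simp only [map_mul, map_pow, Complex.conj_ofReal]
  calc _ = (cB a : ℂ) ^ 2 * (w₁ * conj w₁) ^ 3 * (w₂ * conj w₂) := by ring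
    _ = _ := by rw [mul_conj_one h₁, mul_conj_one h₂]; push_cast; ring

theorem normSq_Z₂ {w₁ w₂ : ℂ} (h₁ : ‖w₁‖ = 1) (h₂ : ‖w₂‖ = 1) :
    Z₂ a w₁ w₂ * conj (Z₂ a w₁ w₂) = ((cB a ^ 2 : ℝ) : ℂ) := by
  unfold Z₂
  simp only [map_mul, map_pow, Complex.conj_ofReal, Complex.conj_conj]
  calc _ = (cB a : ℂ) ^ 2 * (w₁ * conj w₁) ^ 3 * (w₂ * conj w₂) := by ring
    _ = _ := by rw [mul_conj_one h₁, mul_conj_one h₂]; push_cast; ring

theorem re_aux (r s : ℝ) {z : ℂ} {c : ℝ} (h : z * conj z = (c : ℂ)) :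
    ((r : ℂ) * Complex.I * z * conj ((s : ℂ) * Complex.I * z)).re = r * s * c := by
  have : (r : ℂ) * Complex.I * z * conj ((s : ℂ) * Complex.I * z) = ((r * s * c : ℝ) : ℂ) := by
    simp only [map_mul, Complex.conj_ofReal, Complex.conj_I]
    calc _ = -(r : ℂ) * s * (Complex.I * Complex.I) * (z * conj z) := by ring
      _ = _ := by rw [h, Complex.I_mul_I]; push_cast; ring
  rw [this, Complex.ofReal_re]

theorem re_aux' (s : ℝ) {z : ℂ} {c : ℝ} (h : z * conj z = (c : ℂ)) :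
    (z * conj ((s : ℂ) * Complex.I * z)).re = 0 := by
  have : z * conj ((s : ℂ) * Complex.I * z) = ((-(s * c) : ℝ) : ℂ) * Complex.I := by
    simp only [map_mul, Complex.conj_ofReal, Complex.conj_I]
    calc _ = -(s : ℂ) * Complex.I * (z * conj z) := by ring
      _ = _ := by rw [h]; push_cast; ring
  rw [this]
  simp

theorem id₁ (a : ℕ) : 5 * ka a * (5 * ka a) * cA a ^ 2 + 3 * ka a * (3 * ka a) * cB a ^ 2 +
    3 * ka a * (3 * ka a) * cB a ^ 2 = 1 := by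
  have h := dd_pos a
  have : 5 * ka a * (5 * ka a) * cA a ^ 2 + 3 * ka a * (3 * ka a) * cB a ^ 2 +
    3 * ka a * (3 * ka a) * cB a ^ 2 = 25 * ka a ^ 2 * cA a ^ 2 + 18 * ka a ^ 2 * cB a ^ 2 := by ring
  rw [this, ka_sq, cA_sq, cB_sq]
  field_simp
  norm_num

theorem id₂ (a : ℕ) : 4 * ka a * (4 * ka a) * cB a ^ 2 +
    -(4 * ka a) * -(4 * ka a) * cB a ^ 2 = 1 := by
  have h := dd_pos a
  have : 4 * ka a * (4 * ka a) * cB a ^ 2 + -(4 * ka a) * -(4 * ka a) * cB a ^ 2 =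
    32 * ka a ^ 2 * cB a ^ 2 := by ring
  rw [this, ka_sq, cB_sq]
  field_simp

theorem isFrame_par (ha : 1 ≤ a) (b : OrthonormalBasis (Fin (a + 1)) ℝ (E (a + 1)))
    {w₁ w₂ : ℂ} (h₁ : ‖w₁‖ = 1) (h₂ : ‖w₂‖ = 1) :
    IsFrame (par b w₁ w₂) 0 (eb a) := by
  have n0 := normSq_Z₀ (a := a) h₁
  have n1 := normSq_Z₁ (a := a) h₁ h₂
  have n2 := normSq_Z₂ (a := a) h₁ h₂
  have c00 : ⟪fderiv ℝ (par b w₁ w₂) 0 (eb a (Fin.natAdd a 0)),
      fderiv ℝ (par b w₁ w₂) 0 (eb a (Fin.natAdd a 0))⟫ = 1 := by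
    rw [(deriv_zero ha b w₁ w₂).1, inner_mkV, re_aux _ _ n0, re_aux _ _ n1, re_aux _ _ n2,
      inner_zero_left, zero_add, id₁]
  have c11 : ⟪fderiv ℝ (par b w₁ w₂) 0 (eb a (Fin.natAdd a 1)),
      fderiv ℝ (par b w₁ w₂) 0 (eb a (Fin.natAdd a 1))⟫ = 1 := by
    rw [(deriv_one ha b w₁ w₂).1, inner_mkV, re_aux _ _ n0, re_aux _ _ n1, re_aux _ _ n2,
      inner_zero_left, ← id₂ a]
    ring
  have c01 : ⟪fderiv ℝ (par b w₁ w₂) 0 (eb a (Fin.natAdd a 0)),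
      fderiv ℝ (par b w₁ w₂) 0 (eb a (Fin.natAdd a 1))⟫ = 0 := by
    rw [(deriv_zero ha b w₁ w₂).1, (deriv_one ha b w₁ w₂).1, inner_mkV, re_aux _ _ n0,
      re_aux _ _ n1, re_aux _ _ n2, inner_zero_left]
    ring
  have cl : ∀ i k : Fin a, ⟪fderiv ℝ (par b w₁ w₂) 0 (eb a (Fin.castAdd 2 i)),
      fderiv ℝ (par b w₁ w₂) 0 (eb a (Fin.castAdd 2 k))⟫ = if i = k then 1 else 0 := by
    intro i k
    rw [(deriv_left ha b w₁ w₂ i).1, (deriv_left ha b w₁ w₂ k).1, inner_mkV, b.inner_eq_ite]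
    simp
  have c0l : ∀ i : Fin a, ⟪fderiv ℝ (par b w₁ w₂) 0 (eb a (Fin.castAdd 2 i)),
      fderiv ℝ (par b w₁ w₂) 0 (eb a (Fin.natAdd a 0))⟫ = 0 := by
    intro i
    rw [(deriv_left ha b w₁ w₂ i).1, (deriv_zero ha b w₁ w₂).1, inner_mkV]
    simp
  have c1l : ∀ i : Fin a, ⟪fderiv ℝ (par b w₁ w₂) 0 (eb a (Fin.castAdd 2 i)),
      fderiv ℝ (par b w₁ w₂) 0 (eb a (Fin.natAdd a 1))⟫ = 0 := by
    intro i
    rw [(deriv_left ha b w₁ w₂ i).1, (deriv_one ha b w₁ w₂).1, inner_mkV]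
    simp
  unfold IsFrame
  rw [orthonormal_iff_ite]
  intro i k
  refine Fin.addCases (fun i => ?_) (fun i => ?_) i <;>
    refine Fin.addCases (fun k => ?_) (fun k => ?_) k
  · rw [cl i k]
    simp
  · rw [if_neg (castAdd_ne_natAdd i k)]
    fin_cases k
    · exact c0l i
    · exact c1l i
  · rw [if_neg (castAdd_ne_natAdd k i).symm, real_inner_comm]
    fin_cases i
    · exact c0l k
    · exact c1l k
  · fin_cases i <;> fin_cases k
    · simpa using c00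
    · simpa using c01
    · rw [real_inner_comm]
      simpa using c01
    · simpa using c11

theorem mkV_zero : mkV a 0 0 0 0 = 0 := by
  have := mkV_smul (a := a) 0 0 0 0 0
  simpa using this

theorem mkV_sum {ι : Type*} (s : Finset ι) (f : ι → E (a + 1)) :
    mkV a (∑ i ∈ s, f i) 0 0 0 = ∑ i ∈ s, mkV a (f i) 0 0 0 := by
  have h : ∀ x : E (a + 1), mkV a x 0 0 0 = mkL a (x, 0, 0, 0) := fun x => rfl
  have h' : (∑ i ∈ s, f i, (0 : ℂ), (0 : ℂ), (0 : ℂ)) =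
      ∑ i ∈ s, ((f i, 0, 0, 0) : E (a + 1) × ℂ × ℂ × ℂ) := by
    simp [Prod.ext_iff, Prod.fst_sum, Prod.snd_sum]
  rw [h, h', map_sum]
  rfl

theorem par_zero' (ha : 1 ≤ a) (b : OrthonormalBasis (Fin (a + 1)) ℝ (E (a + 1))) (w₁ w₂ : ℂ) :
    par b w₁ w₂ 0 = mkV a (cR a • b (Fin.last a)) (Z₀ a w₁) (Z₁ a w₁ w₂) (Z₂ a w₁ w₂) := by
  rw [par_zero ha]
  rfl

theorem traceD2_par (ha : 1 ≤ a) (b : OrthonormalBasis (Fin (a + 1)) ℝ (E (a + 1)))
    (w₁ w₂ : ℂ) : traceD2 (par b w₁ w₂) 0 (eb a) = (-dd a) • par b w₁ w₂ 0 := by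
  have hR := cR_pos ha
  have hd := dd_pos a
  have hk := ka_sq a
  have hk' : (ka a : ℂ) ^ 2 = (dd a : ℂ) / 25 := by exact_mod_cast hk
  unfold traceD2
  rw [Fin.sum_univ_add, Fin.sum_univ_two, (deriv_zero ha b w₁ w₂).2, (deriv_one ha b w₁ w₂).2]
  simp only [fun i => (deriv_left ha b w₁ w₂ i).2]
  rw [← mkV_sum, ← mkV_add, ← mkV_add, par_zero' ha, ← mkV_smul]
  have hI := Complex.I_mul_I
  congr 1
  · rw [Finset.sum_const, Finset.card_univ, Fintype.card_fin, add_zero, add_zero,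
      ← Nat.cast_smul_eq_nsmul ℝ, smul_neg, smul_smul, smul_smul, ← neg_smul]
    congr 1
    have h1 := cR_sq a
    have h2 : (a : ℝ) = dd a * cR a ^ 2 := by
      rw [h1]
      field_simp
    rw [h2]
    field_simp
  · simp only [zero_add, Complex.real_smul]
    push_cast
    linear_combination (25 * Z₀ a w₁ * ka a ^ 2) * hI + (-25 * Z₀ a w₁) * hk'
  · simp only [zero_add, Complex.real_smul]
    push_cast
    linear_combination (25 * Z₁ a w₁ w₂ * ka a ^ 2) * hI + (-25 * Z₁ a w₁ w₂) * hk'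
  · simp only [zero_add, Complex.real_smul]
    push_cast
    linear_combination (25 * Z₂ a w₁ w₂ * ka a ^ 2) * hI + (-25 * Z₂ a w₁ w₂) * hk'

theorem norm_pt {x : E (a + 1)} {w₁ w₂ : ℂ} (hx : ‖x‖ = 1)
    (h₁ : ‖w₁‖ = 1) (h₂ : ‖w₂‖ = 1) : ‖pt a x w₁ w₂‖ = 1 := by
  have n0 := normSq_Z₀ (a := a) h₁
  have n1 := normSq_Z₁ (a := a) h₁ h₂
  have n2 := normSq_Z₂ (a := a) h₁ h₂
  have hd := dd_pos a
  have h : ‖pt a x w₁ w₂‖ ^ 2 = 1 := by
    rw [← real_inner_self_eq_norm_sq]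
    change ⟪mkV a (cR a • x) (Z₀ a w₁) (Z₁ a w₁ w₂) (Z₂ a w₁ w₂),
      mkV a (cR a • x) (Z₀ a w₁) (Z₁ a w₁ w₂) (Z₂ a w₁ w₂)⟫ = 1
    rw [inner_mkV, n0, n1, n2, inner_smul_left, inner_smul_right, real_inner_self_eq_norm_sq, hx]
    simp only [Complex.ofReal_re, conj_trivial]
    have : cR a * (cR a * 1 ^ 2) = cR a ^ 2 := by ring
    rw [this, cR_sq, cA_sq, cB_sq]
    unfold dd at hd ⊢
    field_simp
    ring
  have h0 := norm_nonneg (pt a x w₁ w₂)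
  nlinarith

theorem isMinimal_Mset (ha : 1 ≤ a) : IsMinimalInSphere (a + 2) (Mset a) := by
  refine ⟨?_, ?_⟩
  · rintro p ⟨x, v₁, v₂, hx, hv₁, hv₂, rfl⟩
    simpa using norm_pt hx hv₁ hv₂
  · intro U φ hφ x hx u hu
    obtain ⟨b, w₁, w₂, h₁, h₂, hp⟩ := exists_par ha (hφ.mapsTo hx)
    refine minimal_transfer hφ (isLocalParam_par ha b h₁ h₂) hx zero_mem_U0 hp.symm hu
      (isFrame_par ha b h₁ h₂) ?_
    rw [traceD2_par ha]
    exact Submodule.smul_mem _ _ (Submodule.subset_span (Or.inr rfl))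

/-- The eigenfunction. -/
noncomputable def ef (p : E (a + 1 + 6)) : ℝ := (W1 p).re

theorem contDiff_ef : ContDiff ℝ ∞ (ef : E (a + 1 + 6) → ℝ) :=
  Complex.reCLM.contDiff.comp contDiff_W1

theorem ef_par (ha : 1 ≤ a) (b : OrthonormalBasis (Fin (a + 1)) ℝ (E (a + 1))) {w₁ w₂ : ℂ}
    (h₁ : ‖w₁‖ = 1) (h₂ : ‖w₂‖ = 1) (y : E (a + 2)) :
    (ef ∘ par b w₁ w₂) y = (u1 w₁ y).re := by
  simp only [Function.comp, ef, par]
  rw [W1_pt _ (norm_u1 h₁ y) (norm_u2 h₂ y)]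

theorem laplace_par (ha : 1 ≤ a) (b : OrthonormalBasis (Fin (a + 1)) ℝ (E (a + 1)))
    {w₁ w₂ : ℂ} (h₁ : ‖w₁‖ = 1) (h₂ : ‖w₂‖ = 1) :
    laplaceBeltrami (par b w₁ w₂) (ef ∘ par b w₁ w₂) 0 (eb a) =
      -(ka a ^ 2 * ef (par b w₁ w₂ 0)) := by
  have n0 := normSq_Z₀ (a := a) h₁
  have n1 := normSq_Z₁ (a := a) h₁ h₂
  have n2 := normSq_Z₂ (a := a) h₁ h₂
  have hperp : ∀ k, ⟪traceD2 (par b w₁ w₂) 0 (eb a), fderiv ℝ (par b w₁ w₂) 0 (eb a k)⟫ = 0 := by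
    intro k
    rw [traceD2_par ha, inner_smul_left]
    have : ⟪par b w₁ w₂ 0, fderiv ℝ (par b w₁ w₂) 0 (eb a k)⟫ = 0 := by
      rw [par_zero' ha]
      refine Fin.addCases (fun k => ?_) (fun k => ?_) k
      · rw [(deriv_left ha b w₁ w₂ k).1, inner_mkV, inner_smul_left, b.inner_eq_ite,
          if_neg (Fin.castSucc_lt_last k).ne']
        simp
      · fin_cases k
        · have := (deriv_zero ha b w₁ w₂).1
          simp only [Fin.zero_eta]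
          rw [this, inner_mkV, re_aux' _ n0, re_aux' _ n1, re_aux' _ n2, inner_zero_right]
          ring
        · have := (deriv_one ha b w₁ w₂).1
          simp only [Fin.mk_one]
          rw [this, inner_mkV, re_aux' _ n0, re_aux' _ n1, re_aux' _ n2, inner_zero_right]
          ring
    rw [this, mul_zero]
  have hc : ContDiffAt ℝ 2 (ef ∘ par b w₁ w₂) 0 :=
    ((contDiff_ef.comp (contDiff_par ha b w₁ w₂)).of_le le_two).contDiffAt
  have hfl : ∀ (i : Fin (a + 2)), i ≠ Fin.natAdd a 0 →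
      D2 (ef ∘ par b w₁ w₂) 0 (eb a i) (eb a i) = 0 := by
    intro i hi
    have e1 : ∀ t : ℝ, HasDerivAt (fun s : ℝ => (ef ∘ par b w₁ w₂) (0 + s • eb a i)) 0 t := by
      intro t
      have : (fun s : ℝ => (ef ∘ par b w₁ w₂) (0 + s • eb a i)) = fun _ => w₁.re := by
        funext s
        rw [ef_par ha b h₁ h₂]
        unfold u1
        rw [smul_eb_apply, if_neg hi.symm]
        simp
      rw [this]
      exact hasDerivAt_const t _
    exact (D2_of_curve hc e1 (hasDerivAt_const (0 : ℝ) (0 : ℝ))).2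
  have hf0 : D2 (ef ∘ par b w₁ w₂) 0 (eb a (Fin.natAdd a 0)) (eb a (Fin.natAdd a 0)) =
      -(ka a ^ 2 * w₁.re) := by
    have hosc := fun (Z : ℂ) (t : ℝ) => hasDerivAt_osc Z (ka a) t
    have e1 : ∀ t : ℝ, HasDerivAt (fun s : ℝ => (ef ∘ par b w₁ w₂)
        (0 + s • eb a (Fin.natAdd a 0)))
        (((ka a : ℂ) * Complex.I * w₁) * Complex.exp ((ka a * t : ℝ) * Complex.I)).re t := by
      intro t
      have h3 : (fun s : ℝ => (ef ∘ par b w₁ w₂) (0 + s • eb a (Fin.natAdd a 0))) =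
          fun s : ℝ => (w₁ * Complex.exp ((ka a * s : ℝ) * Complex.I)).re := by
        funext s
        rw [ef_par ha b h₁ h₂]
        unfold u1
        rw [smul_eb_apply, if_pos rfl]
      rw [h3]
      exact Complex.reCLM.hasFDerivAt.comp_hasDerivAt t (hosc w₁ t)
    have e2 : HasDerivAt (fun t : ℝ =>
        (((ka a : ℂ) * Complex.I * w₁) * Complex.exp ((ka a * t : ℝ) * Complex.I)).re)
        (((ka a : ℂ) * Complex.I * ((ka a : ℂ) * Complex.I * w₁)) *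
          Complex.exp ((ka a * (0 : ℝ) : ℝ) * Complex.I)).re 0 :=
      Complex.reCLM.hasFDerivAt.comp_hasDerivAt 0 (hosc _ 0)
    rw [(D2_of_curve hc e1 e2).2]
    have : ((ka a : ℂ) * Complex.I * ((ka a : ℂ) * Complex.I * w₁)) *
          Complex.exp ((ka a * (0 : ℝ) : ℝ) * Complex.I) = ((-(ka a ^ 2) : ℝ) : ℂ) * w₁ := by
      simp only [mul_zero, Complex.ofReal_zero, zero_mul, Complex.exp_zero, mul_one]
      push_cast
      linear_combination ((ka a : ℂ) ^ 2 * w₁) * Complex.I_mul_I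
    rw [this, Complex.re_ofReal_mul]
    ring
  unfold laplaceBeltrami
  simp only [hperp, zero_mul, Finset.sum_const_zero, sub_zero]
  unfold traceD2
  rw [Finset.sum_eq_single (Fin.natAdd a 0) (fun i _ hi => hfl i hi) (by simp), hf0]
  have : ef (par b w₁ w₂ 0) = w₁.re := by
    have h4 := ef_par ha b h₁ h₂ (0 : E (a + 2))
    simp only [Function.comp] at h4
    rw [h4]
    simp [u1]
  rw [this]

theorem isEigenvalue_Mset (ha : 1 ≤ a) : IsEigenvalue (a + 2) (Mset a) (((a : ℝ) + 2) / 25) := by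
  refine ⟨ef, ?_, ?_, ?_⟩
  · intro U φ hφ
    exact contDiff_ef.comp_contDiffOn hφ.smooth
  · refine ⟨pt a (EuclideanSpace.single (Fin.last a) 1) 1 1,
      ⟨_, 1, 1, by simp, by simp, by simp, rfl⟩, ?_⟩
    unfold ef
    rw [W1_pt _ (by simp) (by simp)]
    simp
  · intro U φ hφ x hx u hu
    obtain ⟨b, w₁, w₂, h₁, h₂, hp⟩ := exists_par ha (hφ.mapsTo hx)
    rw [laplace_transfer hφ (isLocalParam_par ha b h₁ h₂) hx zero_mem_U0 hp.symm hu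
      (isFrame_par ha b h₁ h₂) (contDiff_ef.comp (contDiff_par ha b w₁ w₂)).contDiffAt,
      laplace_par ha b h₁ h₂, ka_sq, hp]
    rfl

end Pool.Agent.H85R3.Minimal
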