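import Pool.Agent.H85R3.RMForms
import Pool.Agent.H85R3.HSArith

/-! The action of a finite quotient group on the functions. -/

set_option autoImplicit false

open scoped MatrixGroups UpperHalfPlane ContDiff Topology Pointwise ENNReal
open MeasureTheory UpperHalfPlane

namespace Pool.Agent.H85R3.RM

open Pool.Agent.H85R3.HS

namespace Setup

variable (A : Setup) {Δ : Subgroup SL(2, ℝ)} {G : Type*} [Group G] (Φ : Δ →* G)
  (hΦs : Function.Surjective Φ) (hΦk : ∀ g : Δ, Φ g = 1 ↔ g.1 ∈ A.Γ) (hΔ : A.Γ ≤ Δ)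

/-- A section of `Φ`. -/
noncomputable def sec (g : G) : Δ := (hΦs g).choose

theorem sec_spec (g : G) : Φ (sec Φ hΦs g) = g := (hΦs g).choose_spec

include hΦk hΔ in
theorem normal (h : Δ) (g : SL(2, ℝ)) : g ∈ A.Γ ↔ h.1 * g * h.1⁻¹ ∈ A.Γ := by
  have key : ∀ (h : Δ) (g : SL(2, ℝ)), g ∈ A.Γ → h.1 * g * h.1⁻¹ ∈ A.Γ := by
    intro h g hg
    have h1 : Φ ⟨g, hΔ hg⟩ = 1 := (hΦk _).mpr hg
    have h2 : Φ (h * ⟨g, hΔ hg⟩ * h⁻¹) = 1 := by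
      rw [map_mul, map_mul, h1, mul_one, ← map_mul, mul_inv_cancel, map_one]
    exact (hΦk _).mp h2
  refine ⟨key h g, fun hg => ?_⟩
  have h1 := key h⁻¹ _ hg
  have h2 : (h⁻¹ : Δ).1 * (h.1 * g * h.1⁻¹) * (h⁻¹ : Δ).1⁻¹ = g := by
    show h.1⁻¹ * (h.1 * g * h.1⁻¹) * h.1⁻¹⁻¹ = g
    group
  rwa [h2] at h1

include hΦk hΔ in
theorem comp_mem {F : ℍ × ℝ → ℝ} (hF : F ∈ A.Inv) (h : Δ) : F ∘ tr h.1 0 ∈ A.Inv := by
  refine ⟨hF.1.comp_tr _ _, fun g hg p => ?_, fun p => ?_⟩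
  · have h1 : tr h.1 0 (tr g 0 p) = tr (h.1 * g * h.1⁻¹) 0 (tr h.1 0 p) := by
      rw [tr_tr, tr_tr]
      congr 1
      group
    simp only [Function.comp, h1]
    exact hF.2.1 _ ((A.normal Φ hΦk hΔ h g).mp hg) _
  · have h1 : tr h.1 0 (tr 1 A.ε p) = tr 1 A.ε (tr h.1 0 p) := by
      rw [tr_tr, tr_tr, mul_one, one_mul, add_zero, zero_add]
    simp only [Function.comp, h1]
    exact hF.2.2 _

/-- The operator of composition. -/
noncomputable def compL (h : Δ) : A.Inv →ₗ[ℝ] A.Inv where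
  toFun F := ⟨F.1 ∘ tr h.1 0, A.comp_mem Φ hΦk hΔ F.2 h⟩
  map_add' _ _ := rfl
  map_smul' _ _ := rfl

theorem compL_eq_of {h h' : Δ} (hh : h' * h⁻¹ ∈ Φ.ker) : A.compL Φ hΦk hΔ h = A.compL Φ hΦk hΔ h' := by
  apply LinearMap.ext
  intro F
  apply Subtype.ext
  funext p
  show F.1 (tr h.1 0 p) = F.1 (tr h'.1 0 p)
  have h1 : (h' * h⁻¹).1 ∈ A.Γ := (hΦk _).mp hh
  have h2 : (h' * h⁻¹).1 * h.1 = h'.1 := by
    show h'.1 * h.1⁻¹ * h.1 = h'.1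
    group
  rw [← F.2.2.1 _ h1 (tr h.1 0 p), tr_tr, h2, add_zero]

/-- The representation of `G` on the functions. -/
noncomputable def rho : G →* Module.End ℝ A.Inv where
  toFun g := A.compL Φ hΦk hΔ (sec Φ hΦs g)⁻¹
  map_one' := by
    have h1 : A.compL Φ hΦk hΔ (sec Φ hΦs 1)⁻¹ = A.compL Φ hΦk hΔ 1 := by
      apply compL_eq_of
      rw [MonoidHom.mem_ker, map_mul, inv_inv, map_one, one_mul, sec_spec]
    rw [h1]
    apply LinearMap.ext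
    intro F
    apply Subtype.ext
    funext p
    show F.1 (tr 1 0 p) = F.1 p
    simp [tr]
  map_mul' g h := by
    have h1 : A.compL Φ hΦk hΔ (sec Φ hΦs (g * h))⁻¹ =
        A.compL Φ hΦk hΔ ((sec Φ hΦs g * sec Φ hΦs h)⁻¹) := by
      apply compL_eq_of
      rw [MonoidHom.mem_ker, map_mul, inv_inv, map_inv, map_mul, sec_spec, sec_spec, sec_spec,
        inv_mul_cancel]
    rw [h1]
    apply LinearMap.ext
    intro F
    apply Subtype.ext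
    funext p
    show F.1 (tr ((sec Φ hΦs g * sec Φ hΦs h)⁻¹ : Δ).1 0 p) =
      F.1 (tr (sec Φ hΦs h)⁻¹.1 0 (tr (sec Φ hΦs g)⁻¹.1 0 p))
    rw [tr_tr, add_zero]
    rw [mul_inv_rev]
    rfl

theorem rho_apply (g : G) (F : A.Inv) (p : ℍ × ℝ) :
    (A.rho Φ hΦs hΦk hΔ g F).1 p = F.1 (tr (sec Φ hΦs g)⁻¹.1 0 p) := rfl

theorem E_rho (g : G) (F F' : A.Inv) :
    A.E (A.rho Φ hΦs hΦk hΔ g F) (A.rho Φ hΦs hΦk hΔ g F') = A.E F F' := by
  rw [E_apply, E_apply]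
  have h1 : ∀ p, ef (A.rho Φ hΦs hΦk hΔ g F).1 (A.rho Φ hΦs hΦk hΔ g F').1 p =
      ef F.1 F'.1 (tr (sec Φ hΦs g)⁻¹.1 0 p) := fun p => ef_comp_tr F.2.1 F'.2.1 _ _ p
  simp only [h1]
  exact A.integral_tr (isInv_ef F.2 F'.2) (F.2.1.continuous_ef F'.2.1)
    (A.normal Φ hΦk hΔ (sec Φ hΦs g)⁻¹)

theorem N_rho (g : G) (F F' : A.Inv) :
    A.N (A.rho Φ hΦs hΦk hΔ g F) (A.rho Φ hΦs hΦk hΔ g F') = A.N F F' := by
  rw [N_apply, N_apply]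
  exact A.integral_tr (φ := fun p => F.1 p * F'.1 p) (isInv_mul F.2 F'.2)
    (F.2.1.continuous.mul F'.2.1.continuous) (A.normal Φ hΦk hΔ (sec Φ hΦs g)⁻¹)

/-- A fixed vector is invariant under the big group. -/
theorem fixed_inv {F : A.Inv} (hF : ∀ g, A.rho Φ hΦs hΦk hΔ g F = F) (h : Δ) (p : ℍ × ℝ) :
    F.1 (tr h.1 0 p) = F.1 p := by
  have h1 := hF (Φ h⁻¹)
  have h2 : A.rho Φ hΦs hΦk hΔ (Φ h⁻¹) = A.compL Φ hΦk hΔ h := by
    show A.compL Φ hΦk hΔ (sec Φ hΦs (Φ h⁻¹))⁻¹ = _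
    apply compL_eq_of
    rw [MonoidHom.mem_ker, map_mul, inv_inv, sec_spec, map_inv, mul_inv_cancel]
  rw [h2] at h1
  exact congrFun (congrArg Subtype.val h1) p

end Setup

end Pool.Agent.H85R3.RM
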