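import Pool.Agent.H85R3.RMRep
import Pool.Agent.H85R3.HSDomain

/-! The reduction of the quaternion order modulo special primes. -/

set_option autoImplicit false

open scoped MatrixGroups UpperHalfPlane
open Matrix

namespace Pool.Agent.H85R3.RM

open Pool.Agent.H85R3.HS

section Psi

variable {F : Type*} [Field F]

/-- The matrix of the quaternion `a + b i + c j + d i j` in characteristic `q`. -/
def psi (s t a b c d : F) : Matrix (Fin 2) (Fin 2) F :=
  !![a - 4 * s * t * b - 2 * c, -8 * s * t ^ 2 * b - t * c - 4 * s * t * d;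
     8 * s * b + 3 * c - 12 * s * d, a + 4 * s * t * b + 2 * c]

theorem psi_mul {s t : F} (h3 : 3 * t = 1) (h8 : 8 * s ^ 2 + 3 = 0) (x y z w x' y' z' w' : F) :
    psi s t x y z w * psi s t x' y' z' w' =
    psi s t (x * x' + 2 * (y * y') + 3 * (z * z') - 6 * (w * w'))
      (x * y' + y * x' + 3 * (w * z' - z * w'))
      (x * z' + 2 * (y * w') + z * x' - 2 * (w * y'))
      (x * w' + y * z' + w * x' - z * y') := by
  unfold psi
  rw [Matrix.mul_fin_two]
  ext i j
  fin_cases i <;> fin_cases j <;> simp <;> grind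

theorem det_psi {s t : F} (h3 : 3 * t = 1) (h8 : 8 * s ^ 2 + 3 = 0) (x y z w : F) :
    (psi s t x y z w).det = x ^ 2 - 2 * y ^ 2 - 3 * z ^ 2 + 6 * w ^ 2 := by
  unfold psi
  rw [Matrix.det_fin_two_of]
  grind

end Psi


theorem exists_coord (g : cong 1) : ∃ p : ℤ × ℤ × ℤ × ℤ, g.1.1 = qm p.1 p.2.1 p.2.2.1 p.2.2.2 := by
  obtain ⟨x, y, z, w, h, -⟩ := g.2
  exact ⟨(x, y, z, w), h⟩

/-- The integer coordinates of a unit. -/
noncomputable def crd (g : cong 1) : ℤ × ℤ × ℤ × ℤ := (exists_coord g).choose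

theorem crd_spec (g : cong 1) : g.1.1 = qm (crd g).1 (crd g).2.1 (crd g).2.2.1 (crd g).2.2.2 :=
  (exists_coord g).choose_spec

theorem crd_eq {g : cong 1} {x y z w : ℤ} (h : g.1.1 = qm x y z w) : crd g = (x, y, z, w) := by
  have h1 := (crd_spec g).symm.trans h
  obtain ⟨h2, h3, h4, h5⟩ := qm_injective h1
  exact Prod.ext h2 (Prod.ext h3 (Prod.ext h4 h5))

theorem crd_mul (g h : cong 1) : crd (g * h) =
    ((crd g).1 * (crd h).1 + 2 * ((crd g).2.1 * (crd h).2.1) +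
      3 * ((crd g).2.2.1 * (crd h).2.2.1) - 6 * ((crd g).2.2.2 * (crd h).2.2.2),
     (crd g).1 * (crd h).2.1 + (crd g).2.1 * (crd h).1 +
      3 * ((crd g).2.2.2 * (crd h).2.2.1 - (crd g).2.2.1 * (crd h).2.2.2),
     (crd g).1 * (crd h).2.2.1 + 2 * ((crd g).2.1 * (crd h).2.2.2) +
      (crd g).2.2.1 * (crd h).1 - 2 * ((crd g).2.2.2 * (crd h).2.1),
     (crd g).1 * (crd h).2.2.2 + (crd g).2.1 * (crd h).2.2.1 +
      (crd g).2.2.2 * (crd h).1 - (crd g).2.2.1 * (crd h).2.1) := by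
  apply crd_eq
  show (g.1 * h.1).1 = _
  rw [Matrix.SpecialLinearGroup.coe_mul, crd_spec g, crd_spec h, qm_mul]

theorem crd_norm (g : cong 1) : (crd g).1 ^ 2 - 2 * (crd g).2.1 ^ 2 - 3 * (crd g).2.2.1 ^ 2 +
    6 * (crd g).2.2.2 ^ 2 = 1 := by
  have h1 := g.1.2
  rw [crd_spec g, det_qm] at h1
  exact_mod_cast h1

section Phi

variable {q : ℕ} [Fact q.Prime] {s t : ZMod q}

/-- Reduction modulo `q`. -/
noncomputable def Phi (h3 : 3 * t = 1) (h8 : 8 * s ^ 2 + 3 = 0) : cong 1 →* SL(2, ZMod q) where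
  toFun g := ⟨psi s t ((crd g).1 : ZMod q) ((crd g).2.1 : ZMod q) ((crd g).2.2.1 : ZMod q)
    ((crd g).2.2.2 : ZMod q), by
      rw [det_psi h3 h8]
      have := congrArg (fun n : ℤ => (n : ZMod q)) (crd_norm g)
      simpa using this⟩
  map_one' := by
    apply Subtype.ext
    have h1 : crd (1 : cong 1) = (1, 0, 0, 0) := by
      apply crd_eq
      show (1 : Matrix (Fin 2) (Fin 2) ℝ) = _
      unfold qm
      simp [Matrix.one_fin_two]
    simp only [h1]
    simp [psi, Matrix.one_fin_two]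
  map_mul' g h := by
    apply Subtype.ext
    show psi s t _ _ _ _ = psi s t _ _ _ _ * psi s t _ _ _ _
    rw [psi_mul h3 h8, crd_mul]
    push_cast
    rfl

theorem Phi_coe (h3 : 3 * t = 1) (h8 : 8 * s ^ 2 + 3 = 0) {g : cong 1} {x y z w : ℤ}
    (h : g.1.1 = qm x y z w) :
    (Phi h3 h8 g).1 = psi s t (x : ZMod q) (y : ZMod q) (z : ZMod q) (w : ZMod q) := by
  show psi s t ((crd g).1 : ZMod q) ((crd g).2.1 : ZMod q) ((crd g).2.2.1 : ZMod q)
    ((crd g).2.2.2 : ZMod q) = _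
  rw [crd_eq h]

theorem two_ne_zero_of (h8 : 8 * s ^ 2 + 3 = 0) (h3 : 3 * t = 1) : (2 : ZMod q) ≠ 0 := by
  intro h2
  have h1 : (3 : ZMod q) = 0 := by linear_combination h8 - 4 * s ^ 2 * h2
  rw [h1, zero_mul] at h3
  exact zero_ne_one h3

theorem s_ne_zero (h8 : 8 * s ^ 2 + 3 = 0) (h3 : 3 * t = 1) : s ≠ 0 := by
  rintro rfl
  have h1 : (3 : ZMod q) = 0 := by linear_combination h8
  rw [h1, zero_mul] at h3
  exact zero_ne_one h3

theorem Phi_eq_one_iff (h3 : 3 * t = 1) (h8 : 8 * s ^ 2 + 3 = 0) (g : cong 1) :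
    Phi h3 h8 g = 1 ↔ g.1 ∈ cong q := by
  have h2 := two_ne_zero_of h8 h3
  have hs := s_ne_zero h8 h3
  have h3' : (3 : ZMod q) ≠ 0 := fun h => by rw [h, zero_mul] at h3; exact zero_ne_one h3
  constructor
  · intro h
    have h1 : psi s t ((crd g).1 : ZMod q) ((crd g).2.1 : ZMod q) ((crd g).2.2.1 : ZMod q)
      ((crd g).2.2.2 : ZMod q) = 1 := congrArg Subtype.val h
    set a : ZMod q := ((crd g).1 : ZMod q) with ha
    set b : ZMod q := ((crd g).2.1 : ZMod q) with hb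
    set c : ZMod q := ((crd g).2.2.1 : ZMod q) with hc
    set d : ZMod q := ((crd g).2.2.2 : ZMod q) with hd
    have e00 : a - 4 * s * t * b - 2 * c = 1 := by
      have := congrFun (congrFun h1 0) 0
      simpa [psi] using this
    have e01 : -8 * s * t ^ 2 * b - t * c - 4 * s * t * d = 0 := by
      have := congrFun (congrFun h1 0) 1
      simpa [psi] using this
    have e10 : 8 * s * b + 3 * c - 12 * s * d = 0 := by
      have := congrFun (congrFun h1 1) 0
      simpa [psi] using this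
    have e11 : a + 4 * s * t * b + 2 * c = 1 := by
      have := congrFun (congrFun h1 1) 1
      simpa [psi] using this
    have ha1 : a - 1 = 0 := by
      have : 2 * (a - 1) = 0 := by linear_combination e00 + e11
      exact (mul_eq_zero.mp this).resolve_left h2
    have hd0 : d = 0 := by
      have h5 : 2 * (2 * (2 * (3 * (s * d)))) = 0 := by grind
      simpa [h2, h3', hs] using h5
    have hc0 : c = 0 := by
      have h5 : 3 * (3 * c) = 0 := by grind
      simpa [h3'] using h5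
    have hb0 : b = 0 := by
      have h5 : 2 * (2 * (2 * (s * b))) = 0 := by grind
      simpa [h2, hs] using h5
    refine ⟨(crd g).1, (crd g).2.1, (crd g).2.2.1, (crd g).2.2.2, crd_spec g, ?_, ?_, ?_, ?_⟩
    · rw [← ZMod.intCast_zmod_eq_zero_iff_dvd] at *
      push_cast
      exact ha1
    · exact (ZMod.intCast_zmod_eq_zero_iff_dvd _ q).mp hb0
    · exact (ZMod.intCast_zmod_eq_zero_iff_dvd _ q).mp hc0
    · exact (ZMod.intCast_zmod_eq_zero_iff_dvd _ q).mp hd0
  · rintro ⟨x, y, z, w, hg, hx, hy, hz, hw⟩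
    apply Subtype.ext
    rw [Phi_coe h3 h8 hg]
    have hx' : ((x : ℤ) : ZMod q) = 1 := by
      have h5 := (ZMod.intCast_zmod_eq_zero_iff_dvd _ q).mpr hx
      push_cast at h5
      exact sub_eq_zero.mp h5
    rw [hx', (ZMod.intCast_zmod_eq_zero_iff_dvd _ q).mpr hy,
      (ZMod.intCast_zmod_eq_zero_iff_dvd _ q).mpr hz,
      (ZMod.intCast_zmod_eq_zero_iff_dvd _ q).mpr hw]
    simp [psi, Matrix.one_fin_two]

theorem cong_le_one (N : ℤ) : cong N ≤ cong 1 := by
  rintro g ⟨x, y, z, w, hg, -, -, -, -⟩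
  exact ⟨x, y, z, w, hg, one_dvd _, one_dvd _, one_dvd _, one_dvd _⟩

theorem Phi_surjective (h3 : 3 * t = 1) {x y : ℤ} (hxy : x ^ 2 - 2 * y ^ 2 = 1)
    (hx : (2 * x : ZMod q) = 1) (h8 : 8 * (y : ZMod q) ^ 2 + 3 = 0) :
    Function.Surjective (Phi h3 h8) := by
  have h3' : (3 : ZMod q) ≠ 0 := fun h => by rw [h, zero_mul] at h3; exact zero_ne_one h3
  have hu : ∃ g : cong 1, g.1.1 = qm (2 * x) (2 * y) x y := by
    have hd : (qm (2 * x) (2 * y) x y).det = 1 := by
      rw [det_qm]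
      exact_mod_cast (by linear_combination hxy)
    have hm : (⟨qm (2 * x) (2 * y) x y, hd⟩ : SL(2, ℝ)) ∈ cong 1 :=
      mem_cong.mpr ⟨_, _, _, _, rfl, one_dvd _, one_dvd _, one_dvd _, one_dvd _⟩
    exact ⟨⟨_, hm⟩, rfl⟩
  have hv : ∃ g : cong 1, g.1.1 = qm (2 * x) (2 * y) x (-y) := by
    have hd : (qm (2 * x) (2 * y) x (-y)).det = 1 := by
      rw [det_qm]
      exact_mod_cast (by linear_combination hxy)
    have hm : (⟨qm (2 * x) (2 * y) x (-y), hd⟩ : SL(2, ℝ)) ∈ cong 1 :=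
      mem_cong.mpr ⟨_, _, _, _, rfl, one_dvd _, one_dvd _, one_dvd _, one_dvd _⟩
    exact ⟨⟨_, hm⟩, rfl⟩
  obtain ⟨u, hu⟩ := hu
  obtain ⟨v, hv⟩ := hv
  have hU : Phi h3 h8 u = Um 1 := by
    apply Subtype.ext
    rw [Phi_coe h3 h8 hu]
    unfold psi Um
    push_cast
    ext i j
    fin_cases i <;> fin_cases j <;> simp <;> grind
  have hL : Phi h3 h8 v = Lm (-9) := by
    apply Subtype.ext
    rw [Phi_coe h3 h8 hv]
    unfold psi Lm
    push_cast
    ext i j
    fin_cases i <;> fin_cases j <;> simp <;> grind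
  rw [← MonoidHom.range_eq_top]
  apply eq_top_of_elementary
  · intro r
    rw [Um_eq_pow]
    exact Subgroup.pow_mem _ (MonoidHom.mem_range.mpr ⟨u, hU⟩) _
  · intro r
    have h9 : ((((-(t ^ 2 * r)) : ZMod q).val : ℕ) : ZMod q) * (-9) = r := by
      rw [ZMod.natCast_zmod_val]
      grind
    rw [← h9, ← Lm_pow]
    exact Subgroup.pow_mem _ (MonoidHom.mem_range.mpr ⟨v, hL⟩) _

end Phi

/-- The Pell sequence. -/
def pell : ℕ → ℤ × ℤ
  | 0 => (1, 0)
  | n + 1 => (3 * (pell n).1 + 4 * (pell n).2, 2 * (pell n).1 + 3 * (pell n).2)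

theorem pell_norm (n : ℕ) : (pell n).1 ^ 2 - 2 * (pell n).2 ^ 2 = 1 := by
  induction n with
  | zero => simp [pell]
  | succ n ih =>
    simp only [pell]
    linear_combination ih

theorem pell_ge (n : ℕ) : 1 ≤ (pell n).1 ∧ 0 ≤ (pell n).2 := by
  induction n with
  | zero => simp [pell]
  | succ n ih =>
    simp only [pell]
    constructor <;> omega

def pellMat : SL(2, ℤ) := ⟨!![3, 4; 2, 3], by rw [Matrix.det_fin_two_of]; norm_num⟩

theorem pellMat_pow (n : ℕ) : (pellMat ^ n).1 = !![(pell n).1, 2 * (pell n).2; (pell n).2, (pell n).1] := by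
  induction n with
  | zero => simp [pell, Matrix.one_fin_two]
  | succ n ih =>
    rw [pow_succ', Matrix.SpecialLinearGroup.coe_mul, ih]
    simp only [pellMat, pell, Matrix.mul_fin_two]
    ext i j
    fin_cases i <;> fin_cases j <;> simp <;> ring

theorem exists_period (M : ℕ) (hM : M ≠ 0) : ∃ n : ℕ, 0 < n ∧ ((pell n).1 : ZMod M) = 1 := by
  have : NeZero M := ⟨hM⟩
  set A : SL(2, ZMod M) := Matrix.SpecialLinearGroup.map (Int.castRingHom (ZMod M)) pellMat with hA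
  refine ⟨orderOf A, orderOf_pos A, ?_⟩
  have h1 := pow_orderOf_eq_one A
  rw [hA, ← map_pow] at h1
  have h2 := congrFun (congrFun (congrArg Subtype.val h1) 0) 0
  have h3 : (Matrix.SpecialLinearGroup.map (Int.castRingHom (ZMod M))
      (pellMat ^ orderOf A)).1 0 0 = (((pellMat ^ orderOf A).1 0 0 : ℤ) : ZMod M) := rfl
  have h4 : ((1 : SL(2, ZMod M)) : Matrix (Fin 2) (Fin 2) (ZMod M)) 0 0 = 1 := by simp
  have h5 : ((pellMat ^ orderOf A).1 0 0 : ℤ) = (pell (orderOf A)).1 := by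
    rw [pellMat_pow]
    rfl
  rw [← h5, ← h3]
  exact h2.trans h4

theorem exists_prime (B : ℕ) : ∃ q : ℕ, q.Prime ∧ B < q ∧ ∃ x y : ℤ, x ^ 2 - 2 * y ^ 2 = 1 ∧
    (q : ℤ) ∣ 2 * x - 1 := by
  obtain ⟨n, hn, hp⟩ := exists_period (B.factorial) (Nat.factorial_ne_zero B)
  obtain ⟨m, rfl⟩ : ∃ m, n = m + 1 := ⟨n - 1, by omega⟩
  have h3 : 3 ≤ (pell (m + 1)).1 := by
    have := pell_ge m
    simp only [pell]
    omega
  set x := (pell (m + 1)).1 with hx
  obtain ⟨q, hq, hqd⟩ := Nat.exists_prime_and_dvd (n := (2 * x - 1).natAbs) (by omega)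
  have hqd' : (q : ℤ) ∣ 2 * x - 1 := Int.natCast_dvd.mpr hqd
  refine ⟨q, hq, ?_, x, (pell (m + 1)).2, pell_norm _, hqd'⟩
  by_contra hle
  push Not at hle
  have h4 : q ∣ B.factorial := Nat.dvd_factorial hq.pos hle
  have h5 : ((B.factorial : ℕ) : ℤ) ∣ x - 1 := by
    rw [← ZMod.intCast_zmod_eq_zero_iff_dvd]
    have : ((x : ℤ) : ZMod B.factorial) = 1 := hp
    push_cast
    rw [this, sub_self]
  have h6 : (q : ℤ) ∣ x - 1 := (Int.natCast_dvd_natCast.mpr h4).trans h5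
  have h7 : (q : ℤ) ∣ 1 := by
    have h8 : (1 : ℤ) = (2 * x - 1) - 2 * (x - 1) := by ring
    rw [h8]
    exact dvd_sub hqd' (h6.mul_left 2)
  have h9 := Int.le_of_dvd one_pos h7
  have h10 := hq.two_le
  omega

/-- All principal congruence subgroups of large odd level move every point far. -/
theorem movesFar_of_le (S : ℝ) : ∃ B : ℕ, ∀ N : ℤ, Odd N → (B : ℤ) ≤ N → MovesFar (cong N) S := by
  obtain ⟨n, hn⟩ := exists_nat_gt (Real.cosh S + 2)
  refine ⟨n + 1, fun N hodd hN g hg hg1 z => ?_⟩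
  have h1 := trace_bound hodd hg hg1
  have h2 := cosh_dist_ge g z
  have hc := Real.one_le_cosh S
  have hNn : (n : ℝ) + 1 ≤ N := by exact_mod_cast hN
  have h3 : Real.cosh S ≤ Real.cosh (dist z (g • z)) := by
    have hn0 : (0 : ℝ) ≤ n := Nat.cast_nonneg n
    have h4 : (n : ℝ) ≤ 2 * ((N : ℝ) ^ 2 - 1) := by nlinarith
    have h5 : (n : ℝ) ≤ |g.1.trace| := h4.trans h1
    have h6 : (n : ℝ) ^ 2 ≤ g.1.trace ^ 2 := by
      rw [← sq_abs g.1.trace]
      exact pow_le_pow_left₀ hn0 h5 2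
    nlinarith
  by_contra hcon
  push Not at hcon
  have hS : 0 ≤ S := dist_nonneg.trans hcon.le
  have h7 := Real.cosh_lt_cosh.mpr (show |dist z (g • z)| < |S| by
    rw [abs_of_nonneg dist_nonneg, abs_of_nonneg hS]; exact hcon)
  linarith

/-- The arithmetic input: for every `B` there is a prime `q > B` such that the norm-one units
surject onto `SL₂(F_q)` with kernel the principal congruence subgroup of level `q`. -/
theorem exists_good_prime (B : ℕ) : ∃ q : ℕ, B < q ∧ Odd (q : ℤ) ∧ ∃ hq : Fact q.Prime,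
    ∃ Φ : cong 1 →* SL(2, ZMod q), Function.Surjective Φ ∧ ∀ g, Φ g = 1 ↔ g.1 ∈ cong q := by
  obtain ⟨q, hq, hB, x, y, hxy, hdvd⟩ := exists_prime (max B 3)
  have hB1 : B < q := (le_max_left _ _).trans_lt hB
  have hB2 : 3 < q := (le_max_right _ _).trans_lt hB
  have hF : Fact q.Prime := ⟨hq⟩
  have h3 : (3 : ZMod q) ≠ 0 := by
    intro h
    have h1 : ((3 : ℕ) : ZMod q) = 0 := by exact_mod_cast h
    rw [ZMod.natCast_eq_zero_iff] at h1
    exact absurd (Nat.le_of_dvd (by norm_num) h1) (by omega)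
  have hx : (2 * x : ZMod q) = 1 := by
    have h1 := (ZMod.intCast_zmod_eq_zero_iff_dvd _ q).mpr hdvd
    push_cast at h1
    exact sub_eq_zero.mp h1
  have h8 : 8 * (y : ZMod q) ^ 2 + 3 = 0 := by
    have h1 := congrArg (fun n : ℤ => (n : ZMod q)) hxy
    push_cast at h1
    linear_combination (-4 : ZMod q) * h1 + (2 * x + 1 : ZMod q) * hx
  refine ⟨q, hB1, ?_, hF, Phi (mul_inv_cancel₀ h3) h8,
    Phi_surjective (mul_inv_cancel₀ h3) hxy hx h8, Phi_eq_one_iff _ _⟩
  have : Odd q := hq.odd_of_ne_two (by omega)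
  exact_mod_cast this

end Pool.Agent.H85R3.RM
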