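import Mathlib

/-! An abstract lemma: symmetric min-max values have long plateaus when the symmetry group has no
small representations. -/

set_option autoImplicit false

namespace Pool.Agent.H85R3.RM

variable {H : Type*} [AddCommGroup H] [Module ℝ H]

/-- The min-max values of the form `E` relative to the form `N`. -/
noncomputable def minmax (E N : H →ₗ[ℝ] H →ₗ[ℝ] ℝ) (k : ℕ) : ℝ :=
  sInf {t : ℝ | 0 ≤ t ∧ ∃ W : Submodule ℝ H, Module.finrank ℝ W = k + 1 ∧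
    ∀ f ∈ W, E f f ≤ t * N f f}

theorem null_of_psd {Q : H →ₗ[ℝ] H →ₗ[ℝ] ℝ} (hs : ∀ f g, Q f g = Q g f) {V : Submodule ℝ H}
    (hpos : ∀ w ∈ V, 0 ≤ Q w w) {v : H} (hv : v ∈ V) (h0 : Q v v = 0) {w : H} (hw : w ∈ V) :
    Q v w = 0 := by
  by_contra hne
  have hc := hpos w hw
  have h1 : ∀ s : ℝ, 0 ≤ 2 * s * Q v w + s ^ 2 * Q w w := by
    intro s
    have h2 := hpos (v + s • w) (V.add_mem hv (V.smul_mem s hw))
    simp only [map_add, map_smul, LinearMap.add_apply, LinearMap.smul_apply, smul_eq_mul, h0,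
      hs w v] at h2
    nlinarith
  have hc1 : 0 < Q w w + 1 := by linarith
  have h3 := h1 (-(Q v w) / (Q w w + 1))
  have h4 : 2 * (-(Q v w) / (Q w w + 1)) * Q v w + (-(Q v w) / (Q w w + 1)) ^ 2 * Q w w =
      -((Q v w) ^ 2 * (Q w w + 2) / (Q w w + 1) ^ 2) := by
    field_simp
    ring
  rw [h4] at h3
  have h5 : 0 < (Q v w) ^ 2 := by positivity
  have h6 : 0 < (Q v w) ^ 2 * (Q w w + 2) / (Q w w + 1) ^ 2 := by positivity
  linarith

theorem continuous_form {m : ℕ} (B : (Fin m → ℝ) →ₗ[ℝ] (Fin m → ℝ) →ₗ[ℝ] ℝ) :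
    Continuous fun x => B x x := by
  have h : (fun x => B x x) = fun x => ∑ i, x i * B (fun j => if i = j then 1 else 0) x := by
    funext x
    have := LinearMap.pi_apply_eq_sum_univ B x
    conv_lhs => rw [this]
    simp only [LinearMap.sum_apply, LinearMap.smul_apply, smul_eq_mul]
  rw [h]
  refine continuous_finsetSum _ fun i _ => (continuous_apply i).mul ?_
  exact LinearMap.continuous_of_finiteDimensional _

theorem exists_min (E N : H →ₗ[ℝ] H →ₗ[ℝ] ℝ) {V : Submodule ℝ H} [FiniteDimensional ℝ V]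
    (hV : V ≠ ⊥) (hN : ∀ v ∈ V, v ≠ 0 → 0 < N v v) :
    ∃ t : ℝ, (∀ v ∈ V, t * N v v ≤ E v v) ∧ ∃ v ∈ V, v ≠ 0 ∧ E v v = t * N v v := by
  set m := Module.finrank ℝ V with hm
  set φ : V ≃ₗ[ℝ] (Fin m → ℝ) := (Module.finBasis ℝ V).equivFun with hφ
  set ψ : (Fin m → ℝ) →ₗ[ℝ] H := V.subtype ∘ₗ φ.symm.toLinearMap with hψ
  have hψinj : Function.Injective ψ := by
    intro x y hxy
    exact φ.symm.injective (Subtype.ext hxy)
  have hψV : ∀ x, ψ x ∈ V := fun x => (φ.symm x).2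
  have hψsurj : ∀ v ∈ V, ∃ x, ψ x = v := fun v hv => ⟨φ ⟨v, hv⟩, by simp [hψ]⟩
  have hcE : Continuous fun x => E (ψ x) (ψ x) := continuous_form (E.compl₁₂ ψ ψ)
  have hcN : Continuous fun x => N (ψ x) (ψ x) := continuous_form (N.compl₁₂ ψ ψ)
  have hpos : ∀ x, x ≠ 0 → 0 < N (ψ x) (ψ x) := fun x hx =>
    hN _ (hψV x) (fun h => hx (hψinj (by rw [h, map_zero])))
  have hcomp : IsCompact (Metric.sphere (0 : Fin m → ℝ) 1) := isCompact_sphere _ _
  obtain ⟨v₀, hv₀, hv₀n⟩ := (Submodule.ne_bot_iff V).mp hV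
  obtain ⟨x₀, hx₀⟩ := hψsurj v₀ hv₀
  have hx₀n : x₀ ≠ 0 := by
    rintro rfl
    rw [map_zero] at hx₀
    exact hv₀n hx₀.symm
  have hne : (Metric.sphere (0 : Fin m → ℝ) 1).Nonempty := by
    refine ⟨‖x₀‖⁻¹ • x₀, ?_⟩
    rw [mem_sphere_zero_iff_norm, norm_smul, norm_inv, norm_norm,
      inv_mul_cancel₀ (norm_ne_zero_iff.mpr hx₀n)]
  have hsne : ∀ x ∈ Metric.sphere (0 : Fin m → ℝ) 1, x ≠ 0 := by
    intro x hx h
    rw [h, mem_sphere_zero_iff_norm, norm_zero] at hx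
    exact zero_ne_one hx
  obtain ⟨y, hy, hmin⟩ := hcomp.exists_isMinOn hne
    (f := fun x => E (ψ x) (ψ x) / N (ψ x) (ψ x))
    (hcE.continuousOn.div hcN.continuousOn fun x hx => (hpos x (hsne x hx)).ne')
  refine ⟨E (ψ y) (ψ y) / N (ψ y) (ψ y), ?_, ψ y, hψV y, ?_, ?_⟩
  · intro v hv
    obtain ⟨x, rfl⟩ := hψsurj v hv
    by_cases hx : x = 0
    · rw [hx]
      simp
    · have hx1 : ‖x‖⁻¹ • x ∈ Metric.sphere (0 : Fin m → ℝ) 1 := by
        rw [mem_sphere_zero_iff_norm, norm_smul, norm_inv, norm_norm,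
          inv_mul_cancel₀ (norm_ne_zero_iff.mpr hx)]
      have h1 := hmin hx1
      simp only [Set.mem_ofPred_eq, map_smul, LinearMap.smul_apply, smul_eq_mul] at h1
      have hn : (0 : ℝ) < ‖x‖⁻¹ := inv_pos.mpr (norm_pos_iff.mpr hx)
      have hN' := hpos x hx
      have h2 : ‖x‖⁻¹ * (‖x‖⁻¹ * E (ψ x) (ψ x)) / (‖x‖⁻¹ * (‖x‖⁻¹ * N (ψ x) (ψ x))) =
          E (ψ x) (ψ x) / N (ψ x) (ψ x) := by
        field_simp
      rw [h2, le_div_iff₀ hN'] at h1
      exact h1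
  · intro h
    exact hsne y hy (hψinj (by rw [h, map_zero]))
  · rw [div_mul_cancel₀ _ (hpos y (hsne y hy)).ne']

section Group

variable {G : Type*} [Group G] [Fintype G] (ρ : G →* Module.End ℝ H)

/-- The averaging projection. -/
noncomputable def avg : H →ₗ[ℝ] H := (Fintype.card G : ℝ)⁻¹ • ∑ g, ρ g

theorem avg_apply (f : H) : avg ρ f = (Fintype.card G : ℝ)⁻¹ • ∑ g, ρ g f := by
  simp [avg]

theorem smul_avg (h : G) (f : H) : ρ h (avg ρ f) = avg ρ f := by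
  rw [avg_apply, map_smul, map_sum]
  congr 1
  refine Fintype.sum_equiv (Equiv.mulLeft h) _ _ fun g => ?_
  rw [Equiv.coe_mulLeft, map_mul]
  rfl

theorem avg_smul (h : G) (f : H) : avg ρ (ρ h f) = avg ρ f := by
  rw [avg_apply, avg_apply]
  congr 1
  refine Fintype.sum_equiv (Equiv.mulRight h) _ _ fun g => ?_
  rw [Equiv.coe_mulRight, map_mul]
  rfl

theorem avg_of_fixed {f : H} (h : ∀ g, ρ g f = f) : avg ρ f = f := by
  rw [avg_apply, Finset.sum_congr rfl fun g _ => h g, Finset.sum_const, Finset.card_univ,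
    ← Nat.cast_smul_eq_nsmul ℝ, smul_smul,
    inv_mul_cancel₀ (by exact_mod_cast Fintype.card_ne_zero), one_smul]

theorem avg_avg (f : H) : avg ρ (avg ρ f) = avg ρ f := avg_of_fixed ρ fun g => smul_avg ρ g f

theorem form_avg {B : H →ₗ[ℝ] H →ₗ[ℝ] ℝ} (hB : ∀ g f h, B (ρ g f) (ρ g h) = B f h) {a : H}
    (ha : ∀ g, ρ g a = a) (v : H) : B a (avg ρ v) = B a v := by
  rw [avg_apply, map_smul, map_sum]
  have : ∀ g : G, B a (ρ g v) = B a v := by
    intro g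
    conv_lhs => rw [← ha g]
    exact hB g a v
  rw [Finset.sum_congr rfl fun g _ => this g, Finset.sum_const, Finset.card_univ, nsmul_eq_mul,
    smul_eq_mul, ← mul_assoc, inv_mul_cancel₀ (by exact_mod_cast Fintype.card_ne_zero), one_mul]

theorem form_split {B : H →ₗ[ℝ] H →ₗ[ℝ] ℝ} (hs : ∀ f g, B f g = B g f)
    (hB : ∀ g f h, B (ρ g f) (ρ g h) = B f h) {a v : H}
    (ha : ∀ g, ρ g a = a) (hv : avg ρ v = 0) : B (a + v) (a + v) = B a a + B v v := by
  have h1 : B a v = 0 := by rw [← form_avg ρ hB ha v, hv, map_zero]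
  simp only [map_add, LinearMap.add_apply, hs v a, h1]
  ring

end Group


theorem exists_sub_finrank (W : Submodule ℝ H) [FiniteDimensional ℝ W] {m : ℕ}
    (hm : m ≤ Module.finrank ℝ W) : ∃ W' : Submodule ℝ H, W' ≤ W ∧ Module.finrank ℝ W' = m := by
  set b := Module.finBasis ℝ W with hb
  have hli : LinearIndependent ℝ fun i : Fin m => ((b (Fin.castLE hm i) : W) : H) := by
    have h1 := b.linearIndependent.map' W.subtype (Submodule.ker_subtype W)
    exact h1.comp (Fin.castLE hm) (Fin.castLE_injective hm)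
  refine ⟨Submodule.span ℝ (Set.range fun i : Fin m => ((b (Fin.castLE hm i) : W) : H)), ?_, ?_⟩
  · rw [Submodule.span_le]
    rintro _ ⟨i, rfl⟩
    exact (b (Fin.castLE hm i)).2
  · rw [finrank_span_eq_card hli, Fintype.card_fin]

section Plateau

variable {G : Type*} [Group G] [Fintype G] (ρ : G →* Module.End ℝ H)
  {E N : H →ₗ[ℝ] H →ₗ[ℝ] ℝ}

/-- Projecting a subspace of small Rayleigh quotient to the invariant vectors. -/
theorem project (hEs : ∀ f g, E f g = E g f) (hNs : ∀ f g, N f g = N g f)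
    (hEρ : ∀ g f h, E (ρ g f) (ρ g h) = E f h) (hNρ : ∀ g f h, N (ρ g f) (ρ g h) = N f h)
    {t : ℝ} (ht : ∀ v, avg ρ v = 0 → v ≠ 0 → t * N v v < E v v)
    {W : Submodule ℝ H} (hW : ∀ f ∈ W, E f f ≤ t * N f f) :
    Module.finrank ℝ (W.map (avg ρ)) = Module.finrank ℝ W ∧
      ∀ f ∈ W.map (avg ρ), (∀ g, ρ g f = f) ∧ E f f ≤ t * N f f := by
  constructor
  · have hinj : Function.Injective ((avg ρ).domRestrict W) := by
      rw [injective_iff_map_eq_zero]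
      intro f hf
      have hf' : avg ρ f.1 = 0 := hf
      by_contra hne
      have h1 : f.1 ≠ 0 := fun h => hne (Subtype.ext h)
      exact absurd (ht _ hf' h1) (not_lt.mpr (hW _ f.2))
    have h2 := LinearMap.finrank_range_of_inj hinj
    rwa [LinearMap.range_domRestrict] at h2
  · rintro _ ⟨f, hf, rfl⟩
    refine ⟨fun g => smul_avg ρ g f, ?_⟩
    have hv : avg ρ (f - avg ρ f) = 0 := by rw [map_sub, avg_avg, sub_self]
    have hsum : avg ρ f + (f - avg ρ f) = f := by abel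
    have h1 := form_split ρ hEs hEρ (fun g => smul_avg ρ g f) hv
    have h2 := form_split ρ hNs hNρ (fun g => smul_avg ρ g f) hv
    rw [hsum] at h1 h2
    have h3 := hW f hf
    have h4 : t * N (f - avg ρ f) (f - avg ρ f) ≤ E (f - avg ρ f) (f - avg ρ f) := by
      by_cases h0 : f - avg ρ f = 0
      · rw [h0]; simp
      · exact (ht _ hv h0).le
    have h5 : t * N f f = t * N (avg ρ f) (avg ρ f) +
        t * N (f - avg ρ f) (f - avg ρ f) := by
      rw [h2]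
      ring
    linarith

/-- From a vector of zero average one gets a large space of constant Rayleigh quotient. -/
theorem big_space (hEs : ∀ f g, E f g = E g f) (hNs : ∀ f g, N f g = N g f)
    (hN0 : ∀ f, f ≠ 0 → 0 < N f f)
    (hEρ : ∀ g f h, E (ρ g f) (ρ g h) = E f h) (hNρ : ∀ g f h, N (ρ g f) (ρ g h) = N f h)
    {d : ℕ}
    (hrep : ∀ V : Submodule ℝ H, FiniteDimensional ℝ V → V ≠ ⊥ →
      (∀ g, ∀ v ∈ V, ρ g v ∈ V) → (∀ v ∈ V, (∀ g, ρ g v = v) → v = 0) →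
      d ≤ Module.finrank ℝ V)
    {s : ℝ} {v₁ : H} (hv₁ : avg ρ v₁ = 0) (hv₁0 : v₁ ≠ 0) (hs : E v₁ v₁ ≤ s * N v₁ v₁) :
    ∃ V₀ : Submodule ℝ H, FiniteDimensional ℝ V₀ ∧ d ≤ Module.finrank ℝ V₀ ∧
      (∀ v ∈ V₀, avg ρ v = 0) ∧ ∀ v ∈ V₀, E v v ≤ s * N v v := by
  set V : Submodule ℝ H := Submodule.span ℝ (Set.range fun g => ρ g v₁) with hV
  have hVf : FiniteDimensional ℝ V := FiniteDimensional.span_of_finite ℝ (Set.finite_range _)
  have hv₁V : v₁ ∈ V := Submodule.subset_span ⟨1, by simp⟩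
  have hVb : V ≠ ⊥ := (Submodule.ne_bot_iff V).mpr ⟨v₁, hv₁V, hv₁0⟩
  have hVinv : ∀ g, ∀ v ∈ V, ρ g v ∈ V := by
    intro g v hv
    have h1 : V ≤ V.comap (ρ g) := by
      rw [hV, Submodule.span_le]
      rintro _ ⟨h, rfl⟩
      refine Submodule.subset_span ⟨g * h, ?_⟩
      simp only [map_mul]
      rfl
    exact h1 hv
  have hVk : ∀ v ∈ V, avg ρ v = 0 := by
    intro v hv
    have h1 : V ≤ LinearMap.ker (avg ρ) := by
      rw [hV, Submodule.span_le]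
      rintro _ ⟨h, rfl⟩
      show avg ρ (ρ h v₁) = 0
      rw [avg_smul, hv₁]
    exact h1 hv
  obtain ⟨t, ht, v, hv, hv0, hvt⟩ := exists_min E N hVb fun v _ h => hN0 v h
  have hts : t ≤ s := by
    have h1 := (ht v₁ hv₁V).trans hs
    exact le_of_mul_le_mul_right h1 (hN0 v₁ hv₁0)
  set V₀ : Submodule ℝ H :=
    { carrier := {v | v ∈ V ∧ ∀ w ∈ V, E v w = t * N v w}
      add_mem' := by
        rintro a b ⟨ha, ha'⟩ ⟨hb, hb'⟩
        refine ⟨V.add_mem ha hb, fun w hw => ?_⟩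
        rw [map_add, map_add, LinearMap.add_apply, LinearMap.add_apply, ha' w hw, hb' w hw]
        ring
      zero_mem' := ⟨V.zero_mem, fun w _ => by simp⟩
      smul_mem' := by
        rintro c a ⟨ha, ha'⟩
        refine ⟨V.smul_mem c ha, fun w hw => ?_⟩
        rw [map_smul, map_smul, LinearMap.smul_apply, LinearMap.smul_apply, smul_eq_mul,
          smul_eq_mul, ha' w hw]
        ring } with hV₀
  have hV₀V : V₀ ≤ V := fun v hv => hv.1
  have hV₀f : FiniteDimensional ℝ V₀ := Submodule.finiteDimensional_of_le hV₀V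
  have hvV₀ : v ∈ V₀ := by
    refine ⟨hv, fun w hw => ?_⟩
    have h1 := null_of_psd (Q := E - t • N) (fun f g => by simp [hEs f g, hNs f g]) (V := V)
      (fun w hw => by
        simp only [LinearMap.sub_apply, LinearMap.smul_apply, smul_eq_mul]
        linarith [ht w hw]) hv
      (by simp only [LinearMap.sub_apply, LinearMap.smul_apply, smul_eq_mul]; linarith) hw
    simp only [LinearMap.sub_apply, LinearMap.smul_apply, smul_eq_mul] at h1
    linarith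
  refine ⟨V₀, hV₀f, ?_, fun v hv => hVk v (hV₀V hv), ?_⟩
  · refine hrep V₀ hV₀f ((Submodule.ne_bot_iff V₀).mpr ⟨v, hvV₀, hv0⟩) ?_ ?_
    · rintro g u ⟨hu, hu'⟩
      refine ⟨hVinv g u hu, fun w hw => ?_⟩
      have h1 := hVinv g⁻¹ w hw
      have h2 : ρ g (ρ g⁻¹ w) = w := by
        rw [← Module.End.mul_apply, ← map_mul, mul_inv_cancel, map_one, Module.End.one_apply]
      have h3 := hu' _ h1
      rw [← hEρ g, ← hNρ g, h2] at h3
      exact h3
    · intro u hu hfix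
      rw [← avg_of_fixed ρ hfix]
      exact hVk u (hV₀V hu)
  · intro u hu
    rw [hu.2 u hu.1]
    by_cases h0 : u = 0
    · rw [h0]; simp
    · exact mul_le_mul_of_nonneg_right hts (hN0 u h0).le

theorem plateau (hEs : ∀ f g, E f g = E g f) (hNs : ∀ f g, N f g = N g f)
    (hE0 : ∀ f, 0 ≤ E f f) (hN0 : ∀ f, f ≠ 0 → 0 < N f f)
    (hEρ : ∀ g f h, E (ρ g f) (ρ g h) = E f h) (hNρ : ∀ g f h, N (ρ g f) (ρ g h) = N f h)
    {d k₀ : ℕ} {Λ : ℝ} (hd : 2 ≤ d)
    (hrep : ∀ V : Submodule ℝ H, FiniteDimensional ℝ V → V ≠ ⊥ →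
      (∀ g, ∀ v ∈ V, ρ g v ∈ V) → (∀ v ∈ V, (∀ g, ρ g v = v) → v = 0) →
      d ≤ Module.finrank ℝ V)
    (hk₀ : ∀ W : Submodule ℝ H, FiniteDimensional ℝ W →
      (∀ f ∈ W, (∀ g, ρ g f = f) ∧ E f f ≤ Λ * N f f) → Module.finrank ℝ W ≤ k₀)
    (hbig : ∃ W : Submodule ℝ H, Module.finrank ℝ W = k₀ + 1 ∧ ∀ f ∈ W, E f f ≤ Λ * N f f) :
    ∃ k, 1 ≤ k ∧ k ≤ k₀ + 1 ∧ (d : ℕ∞) ≤ {j | minmax E N j = minmax E N k}.encard := by
  have hN0' : ∀ f, 0 ≤ N f f := by
    intro f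
    by_cases h : f = 0
    · rw [h]; simp
    · exact (hN0 f h).le
  -- a vector of zero average with small quotient
  have hex : ∃ v, avg ρ v = 0 ∧ v ≠ 0 ∧ E v v ≤ Λ * N v v := by
    by_contra hcon
    push Not at hcon
    obtain ⟨W, hW1, hW2⟩ := hbig
    have hWf : FiniteDimensional ℝ W := Module.finite_of_finrank_pos (by omega)
    obtain ⟨h1, h2⟩ := project ρ hEs hNs hEρ hNρ hcon hW2
    have h3 := hk₀ _ inferInstance h2
    omega
  set S' : Set ℝ := {t | 0 ≤ t ∧ ∃ v, avg ρ v = 0 ∧ v ≠ 0 ∧ E v v ≤ t * N v v} with hS'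
  have hnn : ∀ {t : ℝ} {v : H}, v ≠ 0 → E v v ≤ t * N v v → 0 ≤ t := by
    intro t v hv h
    by_contra hneg
    push Not at hneg
    have h1 := hN0 v hv
    have h2 := hE0 v
    nlinarith
  have hΛS : Λ ∈ S' := by
    obtain ⟨v, h1, h2, h3⟩ := hex
    exact ⟨hnn h2 h3, v, h1, h2, h3⟩
  have hSbdd : BddBelow S' := ⟨0, fun t ht => ht.1⟩
  set μ := sInf S' with hμ
  have hμ0 : 0 ≤ μ := le_csInf ⟨Λ, hΛS⟩ fun t ht => ht.1
  have hμΛ : μ ≤ Λ := csInf_le hSbdd hΛS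
  have hlow : ∀ t < μ, ∀ v, avg ρ v = 0 → v ≠ 0 → t * N v v < E v v := by
    intro t ht v hv hv0
    by_contra hcon
    push Not at hcon
    exact absurd (csInf_le hSbdd ⟨hnn hv0 hcon, v, hv, hv0, hcon⟩) (not_le.mpr ht)
  set A : Set ℕ := {n | ∃ W : Submodule ℝ H, FiniteDimensional ℝ W ∧ Module.finrank ℝ W = n ∧
    (∀ f ∈ W, ∀ g, ρ g f = f) ∧ ∃ t < μ, ∀ f ∈ W, E f f ≤ t * N f f} with hA
  have hA0 : 0 ∈ A := by
    refine ⟨⊥, inferInstance, finrank_bot ℝ H, ?_, μ - 1, by linarith, ?_⟩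
    · intro f hf g
      rw [(Submodule.mem_bot ℝ).mp hf, map_zero]
    · intro f hf
      rw [(Submodule.mem_bot ℝ).mp hf]
      simp
  have hAb : ∀ n ∈ A, n ≤ k₀ := by
    rintro _ ⟨W, hWf, rfl, hWfix, t, ht, hWt⟩
    refine hk₀ W hWf fun f hf => ⟨hWfix f hf, (hWt f hf).trans ?_⟩
    exact mul_le_mul_of_nonneg_right (ht.le.trans hμΛ) (hN0' f)
  have hAbdd : BddAbove A := ⟨k₀, fun n hn => hAb n hn⟩
  set a := sSup A with ha
  have haA : a ∈ A := Nat.sSup_mem ⟨0, hA0⟩ hAbdd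
  have hak : a ≤ k₀ := hAb a haA
  -- lower bound
  have hlower : ∀ k, a ≤ k → ∀ t, 0 ≤ t → (∃ W : Submodule ℝ H, Module.finrank ℝ W = k + 1 ∧
      ∀ f ∈ W, E f f ≤ t * N f f) → μ ≤ t := by
    intro k hk t _ ⟨W, hW1, hW2⟩
    by_contra hcon
    push Not at hcon
    have hWf : FiniteDimensional ℝ W := Module.finite_of_finrank_pos (by omega)
    obtain ⟨h1, h2⟩ := project ρ hEs hNs hEρ hNρ (hlow t hcon) hW2
    have h3 : k + 1 ∈ A := ⟨W.map (avg ρ), inferInstance, by rw [h1, hW1],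
      fun f hf => (h2 f hf).1, t, hcon, fun f hf => (h2 f hf).2⟩
    have h4 := le_csSup hAbdd h3
    omega
  -- upper bound
  have hupper : ∀ k, k + 1 ≤ a + d → ∀ ε > 0, ∃ t, t ≤ μ + ε ∧ 0 ≤ t ∧
      ∃ W : Submodule ℝ H, Module.finrank ℝ W = k + 1 ∧ ∀ f ∈ W, E f f ≤ t * N f f := by
    intro k hk ε hε
    have hSne : S'.Nonempty := ⟨Λ, hΛS⟩
    obtain ⟨s, ⟨hs0, v₁, hv₁, hv₁0, hv₁s⟩, hsμ⟩ := exists_lt_of_csInf_lt hSne
      (show sInf S' < μ + ε by rw [← hμ]; linarith)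
    obtain ⟨V₀, hV₀f, hV₀d, hV₀k, hV₀s⟩ := big_space ρ hEs hNs hN0 hEρ hNρ hrep hv₁ hv₁0 hv₁s
    obtain ⟨Wa, hWaf, hWad, hWafix, ta, hta, hWat⟩ := haA
    have hinf : Wa ⊓ V₀ = ⊥ := by
      rw [eq_bot_iff]
      rintro v ⟨h1, h2⟩
      rw [Submodule.mem_bot, ← avg_of_fixed ρ (hWafix v h1)]
      exact hV₀k v h2
    have hdim := Submodule.finrank_sup_add_finrank_inf_eq Wa V₀
    rw [hinf, finrank_bot, add_zero, hWad] at hdim
    obtain ⟨W', hW'1, hW'2⟩ := exists_sub_finrank (Wa ⊔ V₀) (m := k + 1) (by omega)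
    refine ⟨max s 0, by rw [max_eq_left hs0]; exact hsμ.le, le_max_right _ _, W', hW'2, ?_⟩
    rw [max_eq_left hs0]
    intro f hf
    obtain ⟨x, hx, v, hv, rfl⟩ := Submodule.mem_sup.mp (hW'1 hf)
    rw [form_split ρ hEs hEρ (hWafix x hx) (hV₀k v hv),
      form_split ρ hNs hNρ (hWafix x hx) (hV₀k v hv)]
    have h1 := hWat x hx
    have h2 := hV₀s v hv
    have h3 : ta ≤ s := by
      have : μ ≤ s := csInf_le hSbdd ⟨hs0, v₁, hv₁, hv₁0, hv₁s⟩
      linarith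
    have h4 := mul_le_mul_of_nonneg_right h3 (hN0' x)
    linarith
  have hval : ∀ k, a ≤ k → k + 1 ≤ a + d → minmax E N k = μ := by
    intro k hk1 hk2
    unfold minmax
    apply le_antisymm
    · apply le_of_forall_pos_le_add
      intro ε hε
      obtain ⟨t, ht, ht0, hW⟩ := hupper k hk2 ε hε
      refine le_trans (csInf_le ?_ ?_) ht
      · exact ⟨0, fun t ht => ht.1⟩
      · exact ⟨ht0, hW⟩
    · obtain ⟨t, ht, ht0, hW⟩ := hupper k hk2 1 one_pos
      exact le_csInf ⟨t, ht0, hW⟩ fun t ht => hlower k hk1 t ht.1 ht.2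
  refine ⟨max a 1, le_max_right _ _, by omega, ?_⟩
  have hk : minmax E N (max a 1) = μ := hval _ (le_max_left _ _) (by omega)
  have hsub : ((Finset.Ico a (a + d) : Finset ℕ) : Set ℕ) ⊆
      {j | minmax E N j = minmax E N (max a 1)} := by
    intro j hj
    rw [Finset.coe_Ico, Set.mem_Ico] at hj
    show minmax E N j = minmax E N (max a 1)
    rw [hk]
    exact hval j hj.1 (by omega)
  refine le_trans ?_ (Set.encard_le_encard hsub)
  rw [Set.encard_coe_eq_coe_finsetCard, Nat.card_Ico]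
  simp

end Plateau

end Pool.Agent.H85R3.RM
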