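import Pool.Agent.H85R3.RMDim
import Pool.Agent.H85R3.RMPlateau
import Pool.Agent.H85R3.HSEig

/-! Long plateaus in the spectrum of `(ℍ / Γ(q)) × S¹`. -/

set_option autoImplicit false

open scoped MatrixGroups UpperHalfPlane ContDiff Topology Pointwise ENNReal
open MeasureTheory UpperHalfPlane

namespace Pool.Agent.H85R3.RM

open Pool.Agent.H85R3.HS

theorem rayleigh_Ff {Γ : Subgroup SL(2, ℝ)} {S : ℝ} (hM : MovesFar Γ S) (hS : 0 < S) {r : ℝ}
    (hr : 1 < r) {n : ℕ} {z : Fin n → ℍ} (h : Sep Γ r z) (a : Fin n → ℝ) {D : Set ℍ}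
    (hD : IsFundamentalDomain Γ D (volume : Measure ℍ)) :
    ∫⁻ w in D, ENNReal.ofReal (HS.gradSq (Ff Γ z a) w) ≤
      ENNReal.ofReal Lam * ∫⁻ w in D, ENNReal.ofReal (Ff Γ z a w ^ 2) := by
  simp only [sq_formula hr h a, grad_formula hr h a]
  rw [unfold_integral hM hS hD a (fun j => HS.gradSq (uf z j)) (fun j => measurable_gradSq _)
    (fun j => integral_grad_uf z j),
    unfold_integral hM hS hD a (fun j w => uf z j w ^ 2) (fun j => ?_)
    (fun j => integral_sq_uf z j), E0_eq]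
  · exact le_of_eq (by ring)
  · exact (continuous_phi.measurable.comp (measurable_const_smul _)).pow_const 2

/-- Functions of the first variable. -/
def lift1 (f : ℍ → ℝ) (p : ℍ × ℝ) : ℝ := f p.1

theorem cx_lift1 (f : ℍ → ℝ) : cx (lift1 f) = (f ∘ ofComplex) ∘ Prod.fst := rfl

theorem sm_lift1 {f : ℍ → ℝ} (h : ContDiffOn ℝ ∞ (f ∘ ofComplex) {z : ℂ | 0 < z.im}) :
    Sm (lift1 f) := by
  unfold Sm
  rw [cx_lift1]
  exact h.comp contDiff_fst.contDiffOn fun p hp => hp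

theorem dd_lift1 {f : ℍ → ℝ} (h : ContDiffOn ℝ ∞ (f ∘ ofComplex) {z : ℂ | 0 < z.im})
    (v : ℂ × ℝ) (p : ℍ × ℝ) : dd v (lift1 f) p = fderiv ℝ (f ∘ ofComplex) (p.1 : ℂ) v.1 := by
  unfold dd
  rw [cx_lift1]
  have h1 : DifferentiableAt ℝ (f ∘ ofComplex) (pt p).1 :=
    (h.contDiffAt ((isOpen_lt continuous_const Complex.continuous_im).mem_nhds p.1.im_pos)).differentiableAt
      (by simp)
  rw [fderiv_comp (pt p) h1 differentiableAt_fst]
  rw [fderiv_fst]
  rfl

theorem ef_lift1 {f : ℍ → ℝ} (h : ContDiffOn ℝ ∞ (f ∘ ofComplex) {z : ℂ | 0 < z.im}) (p : ℍ × ℝ) :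
    ef (lift1 f) (lift1 f) p = HS.gradSq f p.1 := by
  unfold ef HS.gradSq
  simp only [dd_lift1 h, map_zero]
  ring

theorem big_space' (A : Setup) {r : ℝ} (hr : 1 < r) {n : ℕ} {z : Fin n → ℍ} (h : Sep A.Γ r z) :
    ∃ W : Submodule ℝ A.Inv, Module.finrank ℝ W = n ∧ ∀ F ∈ W, A.E F F ≤ Lam * A.N F F := by
  set emb : (Fin n → ℝ) →ₗ[ℝ] A.Inv :=
    { toFun := fun a => ⟨lift1 (Ff A.Γ z a), sm_lift1 (Ff_smooth hr h a),
        fun g hg p => Ff_invariant z a hg p.1, fun p => by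
          show Ff A.Γ z a ((1 : SL(2, ℝ)) • p.1) = Ff A.Γ z a p.1
          rw [one_smul]⟩
      map_add' := fun a b => by
        apply Subtype.ext
        funext p
        show Ff A.Γ z (a + b) p.1 = Ff A.Γ z a p.1 + Ff A.Γ z b p.1
        rw [map_add]
        rfl
      map_smul' := fun c a => by
        apply Subtype.ext
        funext p
        show Ff A.Γ z (c • a) p.1 = c * Ff A.Γ z a p.1
        rw [map_smul]
        rfl } with hemb
  have hinj : Function.Injective emb := by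
    intro a b hab
    apply Ff_injective hr h
    funext w
    exact congrFun (congrArg Subtype.val hab) (w, 0)
  refine ⟨LinearMap.range emb, ?_, ?_⟩
  · rw [LinearMap.finrank_range_of_inj hinj, Module.finrank_fin_fun]
  · rintro _ ⟨a, rfl⟩
    have hsm := Ff_smooth hr h a
    have hF : (emb a).1 = lift1 (Ff A.Γ z a) := rfl
    have hcF : Continuous (emb a).1 := (emb a).2.1.continuous
    have hcE : Continuous (ef (emb a).1 (emb a).1) := (emb a).2.1.continuous_ef (emb a).2.1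
    have hE : ENNReal.ofReal (A.E (emb a) (emb a)) =
        ENNReal.ofReal A.ε * ∫⁻ w in A.D, ENNReal.ofReal (HS.gradSq (Ff A.Γ z a) w) := by
      rw [Setup.E_apply, A.ofReal_integral (Setup.isInv_ef (emb a).2 (emb a).2) hcE
        fun p => ef_nonneg _ p]
      rw [← lintegral_const_mul _ (measurable_gradSq _).ennreal_ofReal]
      refine lintegral_congr fun w => ?_
      have : ∀ θ : ℝ, ef (emb a).1 (emb a).1 (w, θ) = HS.gradSq (Ff A.Γ z a) w :=
        fun θ => ef_lift1 hsm (w, θ)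
      simp only [this]
      rw [setLIntegral_const, Real.volume_Ico, sub_zero, mul_comm]
    have hN : ENNReal.ofReal (A.N (emb a) (emb a)) =
        ENNReal.ofReal A.ε * ∫⁻ w in A.D, ENNReal.ofReal (Ff A.Γ z a w ^ 2) := by
      rw [Setup.N_apply, A.ofReal_integral (φ := fun p => (emb a).1 p * (emb a).1 p)
        (Setup.isInv_mul (emb a).2 (emb a).2) (hcF.mul hcF) fun p => mul_self_nonneg _]
      have hmF : Measurable fun w => ENNReal.ofReal (Ff A.Γ z a w ^ 2) := by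
        have : Measurable (Ff A.Γ z a) := by
          have h1 : Ff A.Γ z a = fun w => (emb a).1 (w, 0) := rfl
          rw [h1]
          exact hcF.measurable.comp (measurable_id.prodMk measurable_const)
        exact (this.pow_const 2).ennreal_ofReal
      rw [← lintegral_const_mul _ hmF]
      refine lintegral_congr fun w => ?_
      have : ∀ θ : ℝ, (emb a).1 (w, θ) * (emb a).1 (w, θ) = Ff A.Γ z a w ^ 2 :=
        fun θ => (sq _).symm
      simp only [this]
      rw [setLIntegral_const, Real.volume_Ico, sub_zero, mul_comm]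
    have hR := rayleigh_Ff A.hM A.hS hr h a A.fd
    have h1 : ENNReal.ofReal (A.E (emb a) (emb a)) ≤
        ENNReal.ofReal (Lam * A.N (emb a) (emb a)) := by
      rw [ENNReal.ofReal_mul Lam_nonneg, hE, hN, mul_left_comm]
      gcongr
    have hN0 : 0 ≤ A.N (emb a) (emb a) := by
      by_cases h0 : emb a = 0
      · rw [h0]; simp
      · exact (A.N_pos _ h0).le
    exact (ENNReal.ofReal_le_ofReal_iff (mul_nonneg Lam_nonneg hN0)).mp h1

/-- **The spectral statement.** -/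
theorem exists_setup : ∃ k₀ : ℕ, ∀ V : ℝ, 0 < V → ∀ m : ℕ, ∃ A : Setup,
    (volume A.D).toReal * A.ε = V ∧ ∃ k, 1 ≤ k ∧ k ≤ k₀ ∧
      (m : ℕ∞) ≤ {j | minmax A.E A.N j = minmax A.E A.N k}.encard := by
  obtain ⟨k₀, ε₀, hε₀, hdim⟩ := dim_bound Lam
  refine ⟨k₀ + 1, fun V hV m => ?_⟩
  -- the radius of the packing balls is 2
  obtain ⟨v₂, hv₂⟩ : ∃ v : ℝ, v = (volume (Metric.ball UpperHalfPlane.I ((2 : ℝ) * 2))).toReal :=
    ⟨_, rfl⟩
  have hv₂e : ENNReal.ofReal v₂ = volume (Metric.ball UpperHalfPlane.I ((2 : ℝ) * 2)) := by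
    rw [hv₂, ENNReal.ofReal_toReal (volume_ball_lt_top _ _).ne]
  have hv₂0 : 0 < v₂ := by
    rw [hv₂]
    exact ENNReal.toReal_pos (volume_ball_ne_zero (by norm_num)) (volume_ball_lt_top _ _).ne
  obtain ⟨R, hR, hRv⟩ := volume_ball_large (max ((k₀ + 1) * v₂) (V / ε₀))
  obtain ⟨S, hS⟩ : ∃ S : ℝ, S = max (2 * R) 4 := ⟨_, rfl⟩
  have hSR : 2 * R ≤ S := by rw [hS]; exact le_max_left _ _
  have hS4 : 4 ≤ S := by rw [hS]; exact le_max_right _ _
  have hS0 : 0 < S := by linarith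
  obtain ⟨B, hB⟩ := movesFar_of_le S
  obtain ⟨q, hq, hqodd, hqp, Φ, hΦs, hΦk⟩ := exists_good_prime (max B (2 * m + 5))
  have hqB : B < q := (le_max_left _ _).trans_lt hq
  have hqm : 2 * m + 5 < q := (le_max_right _ _).trans_lt hq
  have hM : MovesFar (cong q) S := hB q hqodd (by exact_mod_cast hqB.le)
  obtain ⟨K, hK, hKΓ⟩ := cocompact (N := (q : ℤ)) (by exact_mod_cast (show 0 < q by omega))
  obtain ⟨D, hDm, hDu⟩ := exists_strict hM hS0
  have hc : Countable (cong q) := hM.countable hS0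
  have hfd : IsFundamentalDomain (cong q) D (volume : Measure ℍ) :=
    IsFundamentalDomain.mk' hDm.nullMeasurableSet hDu
  have hDfin : volume D < ⊤ := (hM.volume_le_of_cover hS0 hfd hKΓ).trans_lt hK.measure_lt_top
  have hbig : ENNReal.ofReal (max ((k₀ + 1) * v₂) (V / ε₀)) ≤ volume D := by
    refine hRv.trans (hM.volume_ge_of_packing hS0 hfd Metric.isOpen_ball.measurableSet ?_)
    intro g hg hg1 w hw hw'
    have h1 := hM g hg hg1 w
    rw [Metric.mem_ball] at hw hw'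
    have h2 := dist_triangle_right w (g • w) UpperHalfPlane.I
    linarith
  obtain ⟨a, ha⟩ : ∃ a : ℝ, a = (volume D).toReal := ⟨_, rfl⟩
  have hae : ENNReal.ofReal a = volume D := by rw [ha, ENNReal.ofReal_toReal hDfin.ne]
  have ha0' : 0 ≤ a := by rw [ha]; exact ENNReal.toReal_nonneg
  rw [← hae] at hbig
  have hbig' : max ((k₀ + 1) * v₂) (V / ε₀) ≤ a := (ENNReal.ofReal_le_ofReal_iff ha0').mp hbig
  have hb1 : (k₀ + 1) * v₂ ≤ a := (le_max_left _ _).trans hbig'
  have hb2 : V / ε₀ ≤ a := (le_max_right _ _).trans hbig'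
  have ha0 : 0 < a := lt_of_lt_of_le (by positivity) hb2
  have hεle : V / a ≤ ε₀ := by
    rw [div_le_iff₀ ha0]
    rw [div_le_iff₀ hε₀] at hb2
    linarith
  -- the packing
  obtain ⟨n, z, hz, -, hn⟩ := exists_packing hM hS0 hK hKΓ (r := 2) (by norm_num) (by linarith) hfd
  have hnk : k₀ + 1 ≤ n := by
    rw [← hae, ← hv₂e, ← ENNReal.ofReal_natCast, ← ENNReal.ofReal_mul (by positivity)] at hn
    have h1 := (ENNReal.ofReal_le_ofReal_iff (by positivity)).mp hn
    have h2 : ((k₀ : ℝ) + 1) * v₂ ≤ n * v₂ := hb1.trans h1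
    have h3 := le_of_mul_le_mul_right h2 hv₂0
    exact_mod_cast h3
  have hz' : Sep (cong q) 2 (fun i : Fin (k₀ + 1) => z (Fin.castLE hnk i)) := by
    intro j k g hg hne
    refine hz _ _ g hg (hne.imp (fun h h' => h (Fin.castLE_injective hnk h')) id)
  obtain ⟨A, hAΓ, hAD, hAε⟩ : ∃ A : Setup, A.Γ = cong q ∧ A.D = D ∧ A.ε = V / a :=
    ⟨⟨cong q, S, hS0, hM, K, hK, hKΓ, D, hDm, hDu, V / a, by positivity⟩, rfl, rfl, rfl⟩
  refine ⟨A, ?_, ?_⟩
  · rw [hAD, hAε, ← ha]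
    field_simp
  have hF : Fact q.Prime := hqp
  have hΦk' : ∀ g : cong 1, Φ g = 1 ↔ g.1 ∈ A.Γ := by rw [hAΓ]; exact hΦk
  have hle : A.Γ ≤ cong 1 := by rw [hAΓ]; exact cong_le_one q
  have hz'' : Sep A.Γ 2 (fun i : Fin (k₀ + 1) => z (Fin.castLE hnk i)) := by rw [hAΓ]; exact hz'
  have hd2 : 2 ≤ (q - 1) / 2 := by omega
  have hdm : m ≤ (q - 1) / 2 := by omega
  have hpl := plateau (A.rho Φ hΦs hΦk' hle) A.E_symm A.N_symm A.E_nonneg
    (fun F hF => A.N_pos F hF) (A.E_rho Φ hΦs hΦk' hle) (A.N_rho Φ hΦs hΦk' hle)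
    (d := (q - 1) / 2) (k₀ := k₀) (Λ := Lam) hd2
    (fun W hWf hW0 hWi hWx => rep_bound' (A.rho Φ hΦs hΦk' hle) W hWf hW0 hWi hWx)
    (fun W hWf hW => hdim A (SL(2, ZMod q)) Φ hΦs hΦk' hle (by rw [hAε]; exact hεle) W hWf
      fun F hFW => ⟨fun h p => A.fixed_inv Φ hΦs hΦk' hle (hW F hFW).1 h p, (hW F hFW).2⟩)
    (big_space' A (by norm_num) hz'')
  obtain ⟨k, hk1, hk2, hk3⟩ := hpl
  exact ⟨k, hk1, hk2, le_trans (by exact_mod_cast hdm) hk3⟩

end Pool.Agent.H85R3.RM
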