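import Mathlib

/-! A Poincaré inequality on boxes of `ℝ³`. -/

set_option autoImplicit false

open scoped ENNReal
open MeasureTheory

namespace Pool.Agent.H85R3.RM

section Tensor

variable {X Y : Type*} [MeasurableSpace X] [MeasurableSpace Y]

/-- Twice the variance, times the total mass. -/
noncomputable def Vr (μ : Measure X) (w : X → ℝ) : ℝ≥0∞ :=
  ∫⁻ x, ∫⁻ x', ENNReal.ofReal ((w x - w x') ^ 2) ∂μ ∂μ

theorem Vr_prod_le (μ : Measure X) (ν : Measure Y) [SFinite μ] [SFinite ν] {u : X × Y → ℝ}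
    (hu : Measurable u) :
    Vr (μ.prod ν) u ≤ 2 * ν Set.univ * ∫⁻ y, Vr μ (fun x => u (x, y)) ∂ν +
      2 * μ Set.univ * ∫⁻ x, Vr ν (fun y => u (x, y)) ∂μ := by
  -- pointwise inequality
  have hpt : ∀ x y x' y', ENNReal.ofReal ((u (x, y) - u (x', y')) ^ 2) ≤
      2 * ENNReal.ofReal ((u (x, y) - u (x', y)) ^ 2) +
        2 * ENNReal.ofReal ((u (x', y) - u (x', y')) ^ 2) := by
    intro x y x' y'
    have h2 : (2 : ℝ≥0∞) = ENNReal.ofReal 2 := by simp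
    rw [h2, ← ENNReal.ofReal_mul (by norm_num), ← ENNReal.ofReal_mul (by norm_num),
      ← ENNReal.ofReal_add (by positivity) (by positivity)]
    apply ENNReal.ofReal_le_ofReal
    nlinarith [sq_nonneg ((u (x, y) - u (x', y)) - (u (x', y) - u (x', y')))]
  have hm1 : Measurable fun p : (X × Y) × X => ENNReal.ofReal ((u (p.1.1, p.1.2) - u (p.2, p.1.2)) ^ 2) := by
    fun_prop
  have hm2 : Measurable fun p : (X × Y) × Y => ENNReal.ofReal ((u (p.1.1, p.1.2) - u (p.1.1, p.2)) ^ 2) := by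
    fun_prop
  have hg1 : Measurable fun p : X × Y => ∫⁻ x', ENNReal.ofReal ((u (p.1, p.2) - u (x', p.2)) ^ 2) ∂μ :=
    hm1.lintegral_prod_right'
  have hg2 : Measurable fun p : X × Y => ∫⁻ y', ENNReal.ofReal ((u (p.1, p.2) - u (p.1, y')) ^ 2) ∂ν :=
    hm2.lintegral_prod_right'
  have hbound : ∀ x y, ∫⁻ p', ENNReal.ofReal ((u (x, y) - u p') ^ 2) ∂(μ.prod ν) ≤
      2 * ν Set.univ * (∫⁻ x', ENNReal.ofReal ((u (x, y) - u (x', y)) ^ 2) ∂μ) +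
      2 * ∫⁻ x', ∫⁻ y', ENNReal.ofReal ((u (x', y) - u (x', y')) ^ 2) ∂ν ∂μ := by
    intro x y
    have hme : Measurable fun p' : X × Y => ENNReal.ofReal ((u (x, y) - u p') ^ 2) := by fun_prop
    rw [lintegral_prod _ hme.aemeasurable]
    have hmA : Measurable fun x' : X => 2 * ENNReal.ofReal ((u (x, y) - u (x', y)) ^ 2) * ν Set.univ := by
      fun_prop
    have hmB : Measurable fun x' : X => ∫⁻ y', ENNReal.ofReal ((u (x', y) - u (x', y')) ^ 2) ∂ν :=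
      hg2.comp (measurable_id.prodMk measurable_const)
    calc ∫⁻ x', ∫⁻ y', ENNReal.ofReal ((u (x, y) - u (x', y')) ^ 2) ∂ν ∂μ
        ≤ ∫⁻ x', ∫⁻ y', (2 * ENNReal.ofReal ((u (x, y) - u (x', y)) ^ 2) +
          2 * ENNReal.ofReal ((u (x', y) - u (x', y')) ^ 2)) ∂ν ∂μ :=
          lintegral_mono fun x' => lintegral_mono fun y' => hpt x y x' y'
      _ = ∫⁻ x', (2 * ENNReal.ofReal ((u (x, y) - u (x', y)) ^ 2) * ν Set.univ +
          2 * ∫⁻ y', ENNReal.ofReal ((u (x', y) - u (x', y')) ^ 2) ∂ν) ∂μ := by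
          refine lintegral_congr fun x' => ?_
          rw [lintegral_add_left measurable_const, lintegral_const, lintegral_const_mul _ (by fun_prop)]
      _ = ∫⁻ x', 2 * ENNReal.ofReal ((u (x, y) - u (x', y)) ^ 2) * ν Set.univ ∂μ +
          ∫⁻ x', 2 * ∫⁻ y', ENNReal.ofReal ((u (x', y) - u (x', y')) ^ 2) ∂ν ∂μ :=
          lintegral_add_left hmA _
      _ = _ := by
          rw [lintegral_const_mul _ hmB]
          congr 1
          have : ∀ x' : X, 2 * ENNReal.ofReal ((u (x, y) - u (x', y)) ^ 2) * ν Set.univ =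
              2 * ν Set.univ * ENNReal.ofReal ((u (x, y) - u (x', y)) ^ 2) := fun x' => by ring
          simp only [this]
          rw [lintegral_const_mul _ (by fun_prop)]
  have hK : Measurable fun y : Y => ∫⁻ x', ∫⁻ y', ENNReal.ofReal ((u (x', y) - u (x', y')) ^ 2) ∂ν ∂μ :=
    Measurable.lintegral_prod_left' (f := fun p : X × Y =>
      ∫⁻ y', ENNReal.ofReal ((u (p.1, p.2) - u (p.1, y')) ^ 2) ∂ν) hg2
  unfold Vr
  have hmout : AEMeasurable (fun p : X × Y => ∫⁻ p', ENNReal.ofReal ((u p - u p') ^ 2) ∂(μ.prod ν))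
      (μ.prod ν) := by
    have : Measurable fun q : (X × Y) × (X × Y) => ENNReal.ofReal ((u q.1 - u q.2) ^ 2) := by fun_prop
    exact this.lintegral_prod_right'.aemeasurable
  rw [lintegral_prod _ hmout]
  calc ∫⁻ x, ∫⁻ y, ∫⁻ p', ENNReal.ofReal ((u (x, y) - u p') ^ 2) ∂(μ.prod ν) ∂ν ∂μ
      ≤ ∫⁻ x, ∫⁻ y, (2 * ν Set.univ * (∫⁻ x', ENNReal.ofReal ((u (x, y) - u (x', y)) ^ 2) ∂μ) +
      2 * ∫⁻ x', ∫⁻ y', ENNReal.ofReal ((u (x', y) - u (x', y')) ^ 2) ∂ν ∂μ) ∂ν ∂μ :=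
        lintegral_mono fun x => lintegral_mono fun y => hbound x y
    _ = ∫⁻ x, (2 * ν Set.univ * ∫⁻ y, (∫⁻ x', ENNReal.ofReal ((u (x, y) - u (x', y)) ^ 2) ∂μ) ∂ν +
      2 * ∫⁻ y, ∫⁻ x', ∫⁻ y', ENNReal.ofReal ((u (x', y) - u (x', y')) ^ 2) ∂ν ∂μ ∂ν) ∂μ := by
        refine lintegral_congr fun x => ?_
        have hx : Measurable fun y : Y => ∫⁻ x', ENNReal.ofReal ((u (x, y) - u (x', y)) ^ 2) ∂μ :=
          hg1.comp (measurable_const.prodMk measurable_id)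
        rw [lintegral_add_left (hx.const_mul _), lintegral_const_mul _ hx, lintegral_const_mul _ hK]
    _ = 2 * ν Set.univ * ∫⁻ x, ∫⁻ y, (∫⁻ x', ENNReal.ofReal ((u (x, y) - u (x', y)) ^ 2) ∂μ) ∂ν ∂μ +
      2 * (∫⁻ y, ∫⁻ x', ∫⁻ y', ENNReal.ofReal ((u (x', y) - u (x', y')) ^ 2) ∂ν ∂μ ∂ν) * μ Set.univ := by
        have hx : Measurable fun x : X => ∫⁻ y, ∫⁻ x', ENNReal.ofReal ((u (x, y) - u (x', y)) ^ 2) ∂μ ∂ν :=
          Measurable.lintegral_prod_right' (f := fun p : X × Y =>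
            ∫⁻ x', ENNReal.ofReal ((u (p.1, p.2) - u (x', p.2)) ^ 2) ∂μ) hg1
        rw [lintegral_add_left (hx.const_mul _), lintegral_const_mul _ hx, lintegral_const]
    _ = _ := by
        congr 1
        · congr 1
          exact lintegral_lintegral_swap (f := fun x y =>
            ∫⁻ x', ENNReal.ofReal ((u (x, y) - u (x', y)) ^ 2) ∂μ) hg1.aemeasurable
        · have hsw := lintegral_lintegral_swap (μ := μ) (ν := ν) (f := fun x y =>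
            ∫⁻ y', ENNReal.ofReal ((u (x, y) - u (x, y')) ^ 2) ∂ν) hg2.aemeasurable
          rw [hsw]
          ring

/-- The mean-zero inequality. -/
theorem mean_zero_le (μ : Measure X) [IsFiniteMeasure μ] {w : X → ℝ} (hw : Measurable w)
    (hint : Integrable w μ) (hint2 : Integrable (fun x => w x ^ 2) μ) (h0 : ∫ x, w x ∂μ = 0) :
    μ Set.univ * ∫⁻ x, ENNReal.ofReal (w x ^ 2) ∂μ ≤ Vr μ w := by
  unfold Vr
  rw [← lintegral_const_mul _ (by fun_prop)]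
  refine lintegral_mono fun x => ?_
  have h1 : Integrable (fun x' => (w x - w x') ^ 2) μ := by
    have : (fun x' => (w x - w x') ^ 2) = fun x' => w x ^ 2 - 2 * w x * w x' + w x' ^ 2 := by
      funext x'
      ring
    rw [this]
    exact ((integrable_const _).sub (hint.const_mul _)).add hint2
  have h2 : ∫ x', (w x - w x') ^ 2 ∂μ = w x ^ 2 * μ.real Set.univ + ∫ x', w x' ^ 2 ∂μ := by
    have : (fun x' => (w x - w x') ^ 2) = fun x' => (w x ^ 2 - 2 * w x * w x') + w x' ^ 2 := by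
      funext x'
      ring
    have hA : Integrable (fun x' => w x ^ 2 - 2 * w x * w x') μ :=
      (integrable_const _).sub (hint.const_mul _)
    have e1 : ∫ x', ((w x ^ 2 - 2 * w x * w x') + w x' ^ 2) ∂μ =
        ∫ x', (w x ^ 2 - 2 * w x * w x') ∂μ + ∫ x', w x' ^ 2 ∂μ := integral_add hA hint2
    have e2 : ∫ x', (w x ^ 2 - 2 * w x * w x') ∂μ = ∫ _x', w x ^ 2 ∂μ - ∫ x', 2 * w x * w x' ∂μ :=
      integral_sub (integrable_const _) (hint.const_mul _)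
    rw [this, e1, e2, integral_const_mul, h0, integral_const, smul_eq_mul]
    ring
  rw [← ofReal_integral_eq_lintegral_ofReal h1 (Filter.Eventually.of_forall fun x' => sq_nonneg _),
    h2]
  have h3 : μ Set.univ = ENNReal.ofReal (μ.real Set.univ) := by
    rw [ofReal_measureReal]
  rw [h3, ← ENNReal.ofReal_mul measureReal_nonneg]
  apply ENNReal.ofReal_le_ofReal
  have h4 : 0 ≤ ∫ x', w x' ^ 2 ∂μ := integral_nonneg fun x' => sq_nonneg _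
  linarith

end Tensor

/-- Cauchy-Schwarz on an interval. -/
theorem sq_integral_le {g : ℝ → ℝ} {a b : ℝ} (hab : a ≤ b)
    (hg : ContinuousOn g (Set.Icc a b)) :
    (∫ s in a..b, g s) ^ 2 ≤ (b - a) * ∫ s in a..b, g s ^ 2 := by
  rcases hab.eq_or_lt with rfl | hlt
  · simp
  have hI : IntervalIntegrable g volume a b := by
    apply ContinuousOn.intervalIntegrable
    rwa [Set.uIcc_of_le hab]
  have hI2 : IntervalIntegrable (fun s => g s ^ 2) volume a b := by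
    apply ContinuousOn.intervalIntegrable
    rw [Set.uIcc_of_le hab]
    exact hg.pow 2
  set c : ℝ := (∫ s in a..b, g s) / (b - a) with hc
  have hba : 0 < b - a := by linarith
  have h1 : 0 ≤ ∫ s in a..b, (g s - c) ^ 2 :=
    intervalIntegral.integral_nonneg hab fun s _ => sq_nonneg _
  have h2 : ∫ s in a..b, (g s - c) ^ 2 = (∫ s in a..b, g s ^ 2) - 2 * c * (∫ s in a..b, g s) +
      (b - a) * c ^ 2 := by
    have : (fun s => (g s - c) ^ 2) = fun s => (g s ^ 2 - 2 * c * g s) + c ^ 2 := by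
      funext s
      ring
    rw [this, intervalIntegral.integral_add (hI2.sub (hI.const_mul _)) (by simp),
      intervalIntegral.integral_sub hI2 (hI.const_mul _), intervalIntegral.integral_const_mul,
      intervalIntegral.integral_const, smul_eq_mul]
  rw [h2] at h1
  have h3 : ∫ s in a..b, g s = c * (b - a) := by rw [hc]; field_simp
  rw [h3] at h1 ⊢
  nlinarith

theorem osc_le {w w' : ℝ → ℝ} {a b : ℝ}
    (hw : ∀ s ∈ Set.Icc a b, HasDerivAt w (w' s) s) (hw' : ContinuousOn w' (Set.Icc a b))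
    {x x' : ℝ} (hx : x ∈ Set.Ico a b) (hx' : x' ∈ Set.Ico a b) :
    ENNReal.ofReal ((w x - w x') ^ 2) ≤
      ENNReal.ofReal (b - a) * ∫⁻ s in Set.Ico a b, ENNReal.ofReal (w' s ^ 2) := by
  wlog hle : x' ≤ x generalizing x x'
  · have := this hx' hx (le_of_not_ge hle)
    rwa [show (w x - w x') ^ 2 = (w x' - w x) ^ 2 by ring]
  have hsub : Set.Icc x' x ⊆ Set.Icc a b := Set.Icc_subset_Icc hx'.1 hx.2.le
  have hc : ContinuousOn w' (Set.Icc x' x) := hw'.mono hsub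
  have hI : IntervalIntegrable w' volume x' x := by
    apply ContinuousOn.intervalIntegrable
    rwa [Set.uIcc_of_le hle]
  have hI2 : IntervalIntegrable (fun s => w' s ^ 2) volume x' x := by
    apply ContinuousOn.intervalIntegrable
    rw [Set.uIcc_of_le hle]
    exact hc.pow 2
  have h1 : ∫ s in x'..x, w' s = w x - w x' := by
    refine intervalIntegral.integral_eq_sub_of_hasDerivAt (fun s hs => hw s ?_) hI
    rw [Set.uIcc_of_le hle] at hs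
    exact hsub hs
  rw [← h1]
  refine (ENNReal.ofReal_le_ofReal (sq_integral_le hle hc)).trans ?_
  rw [ENNReal.ofReal_mul (by linarith)]
  gcongr
  · exact hx.2.le
  · exact hx'.1
  rw [intervalIntegral.integral_of_le hle]
  rw [ofReal_integral_eq_lintegral_ofReal hI2.1 (Filter.Eventually.of_forall fun s => sq_nonneg _)]
  refine lintegral_mono_set ?_
  intro s hs
  exact ⟨hx'.1.trans hs.1.le, hs.2.trans_lt hx.2⟩

theorem Vr_interval_le {w w' : ℝ → ℝ} {a b : ℝ}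
    (hw : ∀ s ∈ Set.Icc a b, HasDerivAt w (w' s) s) (hw' : ContinuousOn w' (Set.Icc a b)) :
    Vr (volume.restrict (Set.Ico a b)) w ≤
      ENNReal.ofReal (b - a) ^ 3 * ∫⁻ s in Set.Ico a b, ENNReal.ofReal (w' s ^ 2) := by
  unfold Vr
  set I := ∫⁻ s in Set.Ico a b, ENNReal.ofReal (w' s ^ 2) with hI
  have h1 : ∀ x ∈ Set.Ico a b, ∫⁻ x' in Set.Ico a b, ENNReal.ofReal ((w x - w x') ^ 2) ≤
      ENNReal.ofReal (b - a) * I * ENNReal.ofReal (b - a) := by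
    intro x hx
    calc ∫⁻ x' in Set.Ico a b, ENNReal.ofReal ((w x - w x') ^ 2)
        ≤ ∫⁻ _x' in Set.Ico a b, ENNReal.ofReal (b - a) * I :=
          setLIntegral_mono' measurableSet_Ico fun x' hx' => osc_le hw hw' hx hx'
      _ = _ := by rw [setLIntegral_const, Real.volume_Ico]
  calc ∫⁻ x in Set.Ico a b, ∫⁻ x' in Set.Ico a b, ENNReal.ofReal ((w x - w x') ^ 2)
      ≤ ∫⁻ _x in Set.Ico a b, ENNReal.ofReal (b - a) * I * ENNReal.ofReal (b - a) :=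
        setLIntegral_mono' measurableSet_Ico h1
    _ = _ := by
        rw [setLIntegral_const, Real.volume_Ico]
        ring


section Box

variable {u d₁ d₂ d₃ : (ℝ × ℝ) × ℝ → ℝ} {a₁ b₁ a₂ b₂ a₃ b₃ δ : ℝ}

theorem square_le {w e₁ e₂ : ℝ × ℝ → ℝ} (hw : Measurable w) (he₁ : Measurable e₁)
    (he₂ : Measurable e₂) (hδ₁ : b₁ - a₁ ≤ δ) (hδ₂ : b₂ - a₂ ≤ δ)
    (h1 : ∀ x ∈ Set.Icc a₁ b₁, ∀ y ∈ Set.Icc a₂ b₂, HasDerivAt (fun s => w (s, y)) (e₁ (x, y)) x)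
    (h2 : ∀ x ∈ Set.Icc a₁ b₁, ∀ y ∈ Set.Icc a₂ b₂, HasDerivAt (fun s => w (x, s)) (e₂ (x, y)) y)
    (c1 : ContinuousOn e₁ (Set.Icc a₁ b₁ ×ˢ Set.Icc a₂ b₂))
    (c2 : ContinuousOn e₂ (Set.Icc a₁ b₁ ×ˢ Set.Icc a₂ b₂)) :
    Vr ((volume.restrict (Set.Ico a₁ b₁)).prod (volume.restrict (Set.Ico a₂ b₂))) w ≤
      2 * ENNReal.ofReal (b₁ - a₁) * ENNReal.ofReal (b₂ - a₂) * ENNReal.ofReal δ ^ 2 *
        ∫⁻ p, (ENNReal.ofReal (e₁ p ^ 2) + ENNReal.ofReal (e₂ p ^ 2))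
          ∂((volume.restrict (Set.Ico a₁ b₁)).prod (volume.restrict (Set.Ico a₂ b₂))) := by
  set μ₁ : Measure ℝ := volume.restrict (Set.Ico a₁ b₁) with hμ₁
  set μ₂ : Measure ℝ := volume.restrict (Set.Ico a₂ b₂) with hμ₂
  set L₁ := ENNReal.ofReal (b₁ - a₁) with hL₁
  set L₂ := ENNReal.ofReal (b₂ - a₂) with hL₂
  have hu1 : μ₁ Set.univ = L₁ := by rw [hμ₁, Measure.restrict_apply_univ, Real.volume_Ico]
  have hu2 : μ₂ Set.univ = L₂ := by rw [hμ₂, Measure.restrict_apply_univ, Real.volume_Ico]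
  have hL1δ : L₁ ≤ ENNReal.ofReal δ := ENNReal.ofReal_le_ofReal hδ₁
  have hL2δ : L₂ ≤ ENNReal.ofReal δ := ENNReal.ofReal_le_ofReal hδ₂
  have hg1 : Measurable fun p => ENNReal.ofReal (e₁ p ^ 2) := by fun_prop
  have hg2 : Measurable fun p => ENNReal.ofReal (e₂ p ^ 2) := by fun_prop
  have k1 : ∫⁻ y, Vr μ₁ (fun x => w (x, y)) ∂μ₂ ≤
      L₁ ^ 3 * ∫⁻ p, ENNReal.ofReal (e₁ p ^ 2) ∂(μ₁.prod μ₂) := by
    rw [lintegral_prod_symm' _ hg1, ← lintegral_const_mul _ (by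
      exact Measurable.lintegral_prod_left' (f := fun p : ℝ × ℝ => ENNReal.ofReal (e₁ p ^ 2)) hg1)]
    refine setLIntegral_mono' measurableSet_Ico fun y hy => ?_
    refine Vr_interval_le (w' := fun s => e₁ (s, y)) (fun s hs => h1 s hs y ⟨hy.1, hy.2.le⟩) ?_
    exact c1.comp (Continuous.continuousOn (by fun_prop)) fun s hs => ⟨hs, hy.1, hy.2.le⟩
  have k2 : ∫⁻ x, Vr μ₂ (fun y => w (x, y)) ∂μ₁ ≤
      L₂ ^ 3 * ∫⁻ p, ENNReal.ofReal (e₂ p ^ 2) ∂(μ₁.prod μ₂) := by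
    rw [lintegral_prod _ hg2.aemeasurable, ← lintegral_const_mul _ (by
      exact Measurable.lintegral_prod_right' (f := fun p : ℝ × ℝ => ENNReal.ofReal (e₂ p ^ 2)) hg2)]
    refine setLIntegral_mono' measurableSet_Ico fun x hx => ?_
    refine Vr_interval_le (w' := fun s => e₂ (x, s)) (fun s hs => h2 x ⟨hx.1, hx.2.le⟩ s hs) ?_
    exact c2.comp (Continuous.continuousOn (by fun_prop)) fun s hs => ⟨⟨hx.1, hx.2.le⟩, hs⟩
  refine (Vr_prod_le μ₁ μ₂ hw).trans ?_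
  rw [hu1, hu2, lintegral_add_left hg1]
  calc 2 * L₂ * ∫⁻ y, Vr μ₁ (fun x => w (x, y)) ∂μ₂ + 2 * L₁ * ∫⁻ x, Vr μ₂ (fun y => w (x, y)) ∂μ₁
      ≤ 2 * L₂ * (L₁ ^ 3 * ∫⁻ p, ENNReal.ofReal (e₁ p ^ 2) ∂(μ₁.prod μ₂)) +
        2 * L₁ * (L₂ ^ 3 * ∫⁻ p, ENNReal.ofReal (e₂ p ^ 2) ∂(μ₁.prod μ₂)) := by gcongr
    _ = 2 * L₁ * L₂ * L₁ ^ 2 * ∫⁻ p, ENNReal.ofReal (e₁ p ^ 2) ∂(μ₁.prod μ₂) +
        2 * L₁ * L₂ * L₂ ^ 2 * ∫⁻ p, ENNReal.ofReal (e₂ p ^ 2) ∂(μ₁.prod μ₂) := by ring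
    _ ≤ 2 * L₁ * L₂ * ENNReal.ofReal δ ^ 2 * ∫⁻ p, ENNReal.ofReal (e₁ p ^ 2) ∂(μ₁.prod μ₂) +
        2 * L₁ * L₂ * ENNReal.ofReal δ ^ 2 * ∫⁻ p, ENNReal.ofReal (e₂ p ^ 2) ∂(μ₁.prod μ₂) := by
        gcongr
    _ = _ := by ring

/-- The Poincaré inequality for functions of mean zero on a box. -/
theorem box_poincare (hu : Measurable u) (m1 : Measurable d₁) (m2 : Measurable d₂)
    (m3 : Measurable d₃)
    (hl₁ : a₁ < b₁) (hl₂ : a₂ < b₂) (hl₃ : a₃ < b₃)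
    (hδ₁ : b₁ - a₁ ≤ δ) (hδ₂ : b₂ - a₂ ≤ δ) (hδ₃ : b₃ - a₃ ≤ δ)
    (h1 : ∀ x ∈ Set.Icc a₁ b₁, ∀ y ∈ Set.Icc a₂ b₂, ∀ z ∈ Set.Icc a₃ b₃,
      HasDerivAt (fun s => u ((s, y), z)) (d₁ ((x, y), z)) x)
    (h2 : ∀ x ∈ Set.Icc a₁ b₁, ∀ y ∈ Set.Icc a₂ b₂, ∀ z ∈ Set.Icc a₃ b₃,
      HasDerivAt (fun s => u ((x, s), z)) (d₂ ((x, y), z)) y)
    (h3 : ∀ x ∈ Set.Icc a₁ b₁, ∀ y ∈ Set.Icc a₂ b₂, ∀ z ∈ Set.Icc a₃ b₃,
      HasDerivAt (fun s => u ((x, y), s)) (d₃ ((x, y), z)) z)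
    (c0 : ContinuousOn u ((Set.Icc a₁ b₁ ×ˢ Set.Icc a₂ b₂) ×ˢ Set.Icc a₃ b₃))
    (c1 : ContinuousOn d₁ ((Set.Icc a₁ b₁ ×ˢ Set.Icc a₂ b₂) ×ˢ Set.Icc a₃ b₃))
    (c2 : ContinuousOn d₂ ((Set.Icc a₁ b₁ ×ˢ Set.Icc a₂ b₂) ×ˢ Set.Icc a₃ b₃))
    (c3 : ContinuousOn d₃ ((Set.Icc a₁ b₁ ×ˢ Set.Icc a₂ b₂) ×ˢ Set.Icc a₃ b₃))
    (h0 : ∫ p, u p ∂(((volume.restrict (Set.Ico a₁ b₁)).prod (volume.restrict (Set.Ico a₂ b₂))).prod
      (volume.restrict (Set.Ico a₃ b₃))) = 0) :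
    ∫⁻ p, ENNReal.ofReal (u p ^ 2) ∂(((volume.restrict (Set.Ico a₁ b₁)).prod
      (volume.restrict (Set.Ico a₂ b₂))).prod (volume.restrict (Set.Ico a₃ b₃))) ≤
    4 * ENNReal.ofReal δ ^ 2 * ∫⁻ p, (ENNReal.ofReal (d₁ p ^ 2) + ENNReal.ofReal (d₂ p ^ 2) +
      ENNReal.ofReal (d₃ p ^ 2)) ∂(((volume.restrict (Set.Ico a₁ b₁)).prod
      (volume.restrict (Set.Ico a₂ b₂))).prod (volume.restrict (Set.Ico a₃ b₃))) := by
  set μ₁ : Measure ℝ := volume.restrict (Set.Ico a₁ b₁) with hμ₁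
  set μ₂ : Measure ℝ := volume.restrict (Set.Ico a₂ b₂) with hμ₂
  set μ₃ : Measure ℝ := volume.restrict (Set.Ico a₃ b₃) with hμ₃
  set μ := (μ₁.prod μ₂).prod μ₃ with hμ
  set L₁ := ENNReal.ofReal (b₁ - a₁) with hL₁
  set L₂ := ENNReal.ofReal (b₂ - a₂) with hL₂
  set L₃ := ENNReal.ofReal (b₃ - a₃) with hL₃
  have hu1 : μ₁ Set.univ = L₁ := by rw [hμ₁, Measure.restrict_apply_univ, Real.volume_Ico]
  have hu2 : μ₂ Set.univ = L₂ := by rw [hμ₂, Measure.restrict_apply_univ, Real.volume_Ico]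
  have hu3 : μ₃ Set.univ = L₃ := by rw [hμ₃, Measure.restrict_apply_univ, Real.volume_Ico]
  have hu12 : (μ₁.prod μ₂) Set.univ = L₁ * L₂ := by
    rw [← Set.univ_prod_univ, Measure.prod_prod, hu1, hu2]
  have huu : μ Set.univ = L₁ * L₂ * L₃ := by
    rw [hμ, ← Set.univ_prod_univ, Measure.prod_prod, hu12, hu3]
  have hL3δ : L₃ ≤ ENNReal.ofReal δ := ENNReal.ofReal_le_ofReal hδ₃
  have hg1 : Measurable fun p => ENNReal.ofReal (d₁ p ^ 2) := by fun_prop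
  have hg2 : Measurable fun p => ENNReal.ofReal (d₂ p ^ 2) := by fun_prop
  have hg3 : Measurable fun p => ENNReal.ofReal (d₃ p ^ 2) := by fun_prop
  have hg12 : Measurable fun p => ENNReal.ofReal (d₁ p ^ 2) + ENNReal.ofReal (d₂ p ^ 2) :=
    hg1.add hg2
  -- integrability
  have hbox : μ = (volume : Measure ((ℝ × ℝ) × ℝ)).restrict
      ((Set.Ico a₁ b₁ ×ˢ Set.Ico a₂ b₂) ×ˢ Set.Ico a₃ b₃) := by
    rw [hμ, hμ₁, hμ₂, hμ₃, Measure.prod_restrict, Measure.prod_restrict]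
    rfl
  have hsub : ((Set.Ico a₁ b₁ ×ˢ Set.Ico a₂ b₂) ×ˢ Set.Ico a₃ b₃) ⊆
      ((Set.Icc a₁ b₁ ×ˢ Set.Icc a₂ b₂) ×ˢ Set.Icc a₃ b₃) :=
    Set.prod_mono (Set.prod_mono Set.Ico_subset_Icc_self Set.Ico_subset_Icc_self)
      Set.Ico_subset_Icc_self
  have hcpt : IsCompact ((Set.Icc a₁ b₁ ×ˢ Set.Icc a₂ b₂) ×ˢ Set.Icc a₃ b₃) :=
    (isCompact_Icc.prod isCompact_Icc).prod isCompact_Icc
  have i1 : Integrable u μ := by
    rw [hbox]
    exact (c0.integrableOn_compact hcpt).mono_set hsub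
  have i2 : Integrable (fun p => u p ^ 2) μ := by
    rw [hbox]
    exact ((c0.pow 2).integrableOn_compact hcpt).mono_set hsub
  have hfin : IsFiniteMeasure μ := by
    refine ⟨?_⟩
    rw [huu]
    exact ENNReal.mul_lt_top (ENNReal.mul_lt_top ENNReal.ofReal_lt_top ENNReal.ofReal_lt_top)
      ENNReal.ofReal_lt_top
  have hmean := mean_zero_le μ hu i1 i2 h0
  -- the bound of the variance
  have k1 : ∫⁻ z, Vr (μ₁.prod μ₂) (fun p => u (p, z)) ∂μ₃ ≤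
      2 * L₁ * L₂ * ENNReal.ofReal δ ^ 2 *
        ∫⁻ p, (ENNReal.ofReal (d₁ p ^ 2) + ENNReal.ofReal (d₂ p ^ 2)) ∂μ := by
    rw [hμ, lintegral_prod_symm' _ hg12, ← lintegral_const_mul _ (by
      exact Measurable.lintegral_prod_left' (f := fun p : (ℝ × ℝ) × ℝ =>
        ENNReal.ofReal (d₁ p ^ 2) + ENNReal.ofReal (d₂ p ^ 2)) hg12)]
    refine setLIntegral_mono' measurableSet_Ico fun z hz => ?_
    have hz' : z ∈ Set.Icc a₃ b₃ := ⟨hz.1, hz.2.le⟩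
    refine square_le (e₁ := fun p => d₁ (p, z)) (e₂ := fun p => d₂ (p, z)) (by fun_prop)
      (by fun_prop) (by fun_prop) hδ₁ hδ₂ (fun x hx y hy => h1 x hx y hy z hz')
      (fun x hx y hy => h2 x hx y hy z hz') ?_ ?_
    · exact c1.comp (Continuous.continuousOn (by fun_prop)) fun s hs => ⟨hs, hz'⟩
    · exact c2.comp (Continuous.continuousOn (by fun_prop)) fun s hs => ⟨hs, hz'⟩
  have k2 : ∫⁻ p, Vr μ₃ (fun z => u (p, z)) ∂(μ₁.prod μ₂) ≤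
      L₃ ^ 3 * ∫⁻ p, ENNReal.ofReal (d₃ p ^ 2) ∂μ := by
    rw [hμ, lintegral_prod _ hg3.aemeasurable, ← lintegral_const_mul _ (by
      exact Measurable.lintegral_prod_right' (f := fun p : (ℝ × ℝ) × ℝ =>
        ENNReal.ofReal (d₃ p ^ 2)) hg3)]
    rw [hμ₁, hμ₂, Measure.prod_restrict]
    refine setLIntegral_mono' (measurableSet_Ico.prod measurableSet_Ico) fun p hp => ?_
    have hp1 : p.1 ∈ Set.Icc a₁ b₁ := ⟨hp.1.1, hp.1.2.le⟩
    have hp2 : p.2 ∈ Set.Icc a₂ b₂ := ⟨hp.2.1, hp.2.2.le⟩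
    refine Vr_interval_le (w' := fun s => d₃ (p, s)) (fun s hs => h3 p.1 hp1 p.2 hp2 s hs) ?_
    exact c3.comp (Continuous.continuousOn (by fun_prop)) fun s hs => ⟨⟨hp1, hp2⟩, hs⟩
  have hV : Vr μ u ≤ 4 * (L₁ * L₂ * L₃) * ENNReal.ofReal δ ^ 2 *
      ∫⁻ p, (ENNReal.ofReal (d₁ p ^ 2) + ENNReal.ofReal (d₂ p ^ 2) +
        ENNReal.ofReal (d₃ p ^ 2)) ∂μ := by
    refine (Vr_prod_le (μ₁.prod μ₂) μ₃ hu).trans ?_
    rw [hu3, hu12, lintegral_add_left hg12]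
    calc 2 * L₃ * ∫⁻ z, Vr (μ₁.prod μ₂) (fun p => u (p, z)) ∂μ₃ +
          2 * (L₁ * L₂) * ∫⁻ p, Vr μ₃ (fun z => u (p, z)) ∂(μ₁.prod μ₂)
        ≤ 2 * L₃ * (2 * L₁ * L₂ * ENNReal.ofReal δ ^ 2 *
        ∫⁻ p, (ENNReal.ofReal (d₁ p ^ 2) + ENNReal.ofReal (d₂ p ^ 2)) ∂μ) +
          2 * (L₁ * L₂) * (L₃ ^ 3 * ∫⁻ p, ENNReal.ofReal (d₃ p ^ 2) ∂μ) := by gcongr
      _ = 4 * (L₁ * L₂ * L₃) * ENNReal.ofReal δ ^ 2 *
          (∫⁻ p, (ENNReal.ofReal (d₁ p ^ 2) + ENNReal.ofReal (d₂ p ^ 2)) ∂μ) +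
          2 * (L₁ * L₂ * L₃) * L₃ ^ 2 * ∫⁻ p, ENNReal.ofReal (d₃ p ^ 2) ∂μ := by ring
      _ ≤ 4 * (L₁ * L₂ * L₃) * ENNReal.ofReal δ ^ 2 *
          (∫⁻ p, (ENNReal.ofReal (d₁ p ^ 2) + ENNReal.ofReal (d₂ p ^ 2)) ∂μ) +
          4 * (L₁ * L₂ * L₃) * ENNReal.ofReal δ ^ 2 * ∫⁻ p, ENNReal.ofReal (d₃ p ^ 2) ∂μ := by
          gcongr
          norm_num
      _ = _ := by ring
  have hne : L₁ * L₂ * L₃ ≠ 0 := by
    rw [hL₁, hL₂, hL₃]
    simp only [ne_eq, mul_eq_zero, ENNReal.ofReal_eq_zero, not_or, not_le]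
    exact ⟨⟨by linarith, by linarith⟩, by linarith⟩
  have hnt : L₁ * L₂ * L₃ ≠ ⊤ := by
    rw [← huu]
    exact measure_ne_top _ _
  have hfinal := hmean.trans hV
  rw [huu] at hfinal
  have h5 : 4 * (L₁ * L₂ * L₃) * ENNReal.ofReal δ ^ 2 *
      ∫⁻ p, (ENNReal.ofReal (d₁ p ^ 2) + ENNReal.ofReal (d₂ p ^ 2) +
        ENNReal.ofReal (d₃ p ^ 2)) ∂μ = (L₁ * L₂ * L₃) * (4 * ENNReal.ofReal δ ^ 2 *
      ∫⁻ p, (ENNReal.ofReal (d₁ p ^ 2) + ENNReal.ofReal (d₂ p ^ 2) +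
        ENNReal.ofReal (d₃ p ^ 2)) ∂μ) := by ring
  rw [h5] at hfinal
  exact (ENNReal.mul_le_mul_iff_right hne hnt).mp hfinal

end Box

end Pool.Agent.H85R3.RM
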