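import Pool.Agent.H85R3.RMCount
import Pool.Agent.H85R3.RMPoinc

/-! A uniform bound for the number of small eigenvalues with invariant eigenfunctions. -/

set_option autoImplicit false

open scoped MatrixGroups UpperHalfPlane ContDiff Topology Pointwise ENNReal
open MeasureTheory UpperHalfPlane

namespace Pool.Agent.H85R3.RM

open Pool.Agent.H85R3.HS

theorem measurable_ofComplex : Measurable (ofComplex : ℂ → ℍ) := by
  intro S hS
  set c : ℍ := Classical.choice inferInstance with hc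
  have h1 : (ofComplex : ℂ → ℍ) ⁻¹' S = UpperHalfPlane.coe '' S ∪ {w : ℂ | w.im ≤ 0 ∧ c ∈ S} := by
    ext w
    rcases lt_or_ge 0 w.im with h | h
    · have h2 : (ofComplex : ℂ → ℍ) w = ⟨w, h⟩ := ofComplex_apply_of_im_pos h
      rw [Set.mem_preimage, h2]
      constructor
      · intro h3
        exact Or.inl ⟨_, h3, rfl⟩
      · rintro (⟨z, hz, hzw⟩ | ⟨h3, -⟩)
        · have : z = ⟨w, h⟩ := UpperHalfPlane.ext hzw
          rwa [← this]
        · exact absurd h (not_lt.mpr h3)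
    · have h2 : (ofComplex : ℂ → ℍ) w = c := ofComplex_apply_of_im_nonpos h
      rw [Set.mem_preimage, h2]
      constructor
      · intro h3
        exact Or.inr ⟨h, h3⟩
      · rintro (⟨z, hz, rfl⟩ | ⟨-, h3⟩)
        · exact absurd z.im_pos (not_lt.mpr h)
        · exact h3
  rw [h1]
  refine (measurableEmbedding_coe.measurableSet_image.mpr hS).union ?_
  by_cases h : c ∈ S
  · simp only [h, and_true]
    exact measurableSet_le Complex.measurable_im measurable_const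
  · simp only [h, and_false]
    exact MeasurableSet.empty

theorem Sm.measurable_cx {F : ℍ × ℝ → ℝ} (h : Sm F) : Measurable (cx F) :=
  h.continuous.measurable.comp ((measurable_ofComplex.comp measurable_fst).prodMk measurable_snd)

theorem lintegral_hyp {g : ℂ → ℝ≥0∞} (hg : Measurable g) {B : Set ℂ} (hB : MeasurableSet B)
    (hpos : ∀ w ∈ B, 0 < w.im) :
    ∫⁻ z in {z : ℍ | (z : ℂ) ∈ B}, g z = ∫⁻ w in B, g w * ENNReal.ofReal ((w.im ^ 2)⁻¹) := by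
  have hmp : MeasurePreserving UpperHalfPlane.coe (volume.comap UpperHalfPlane.coe)
      (volume.restrict (.range UpperHalfPlane.coe)) :=
    ⟨measurable_coe, by rw [measurableEmbedding_coe.map_comap]⟩
  have hpre : {z : ℍ | (z : ℂ) ∈ B} = UpperHalfPlane.coe ⁻¹' B := rfl
  have hBr : B ⊆ Set.range UpperHalfPlane.coe := fun w hw => ⟨⟨w, hpos w hw⟩, rfl⟩
  have hden : Measurable fun z : ℍ => (((1 / NNReal.mk z.im z.im_pos.le : NNReal) ^ 2 : NNReal) : ℝ≥0∞) := by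
    refine measurable_coe_nnreal_ennreal.comp ?_
    refine Measurable.pow_const (measurable_const.div ?_) 2
    exact UpperHalfPlane.continuous_im.measurable.subtype_mk
  have hmB : MeasurableSet (UpperHalfPlane.coe ⁻¹' B) := measurable_coe hB
  have h2 := lintegral_withDensity_eq_lintegral_mul
    ((volume.comap UpperHalfPlane.coe).restrict (UpperHalfPlane.coe ⁻¹' B)) hden
    (g := g ∘ UpperHalfPlane.coe) (hg.comp measurable_coe)
  rw [hpre, volume_def, restrict_withDensity hmB]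
  refine h2.trans ?_
  have h1 : ∀ z : ℍ, ((fun z : ℍ => (((1 / NNReal.mk z.im z.im_pos.le : NNReal) ^ 2 : NNReal) : ℝ≥0∞)) *
      (g ∘ UpperHalfPlane.coe)) z = (fun w : ℂ => g w * ENNReal.ofReal ((w.im ^ 2)⁻¹)) (z : ℂ) := by
    intro z
    simp only [Pi.mul_apply, Function.comp]
    rw [mul_comm]
    congr 1
    rw [ENNReal.ofReal]
    congr 1
    apply NNReal.eq
    rw [Real.coe_toNNReal _ (by positivity)]
    push_cast
    rw [one_div, inv_pow]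
    rfl
  calc ∫⁻ z in UpperHalfPlane.coe ⁻¹' B, ((fun z : ℍ => (((1 / NNReal.mk z.im z.im_pos.le : NNReal) ^ 2 : NNReal) : ℝ≥0∞)) *
      (g ∘ UpperHalfPlane.coe)) z ∂(volume.comap UpperHalfPlane.coe)
      = ∫⁻ z in UpperHalfPlane.coe ⁻¹' B, (fun w : ℂ => g w * ENNReal.ofReal ((w.im ^ 2)⁻¹)) (z : ℂ)
        ∂(volume.comap UpperHalfPlane.coe) := lintegral_congr fun z => h1 z
    _ = ∫⁻ w in B, g w * ENNReal.ofReal ((w.im ^ 2)⁻¹) ∂(volume.restrict (Set.range UpperHalfPlane.coe)) :=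
        hmp.setLIntegral_comp_preimage_emb measurableEmbedding_coe
          (fun w : ℂ => g w * ENNReal.ofReal ((w.im ^ 2)⁻¹)) B
    _ = _ := by
        rw [Measure.restrict_restrict hB, Set.inter_eq_left.mpr hBr]

theorem lintegral_complex {g : ℂ → ℝ≥0∞} (hg : Measurable g) {R : Set (ℝ × ℝ)} (hR : MeasurableSet R) :
    ∫⁻ w in {w : ℂ | (w.re, w.im) ∈ R}, g w = ∫⁻ p in R, g (⟨p.1, p.2⟩ : ℂ) := by
  have h1 := Complex.volume_preserving_equiv_real_prod.setLIntegral_comp_preimage hR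
    (f := fun p : ℝ × ℝ => g (⟨p.1, p.2⟩ : ℂ)) (by
      refine hg.comp ?_
      exact Complex.measurableEquivRealProd.symm.measurable)
  rw [← h1]
  rfl

theorem sum_Ico (f : ℝ → ℝ≥0∞) (a s : ℝ) (hs : 0 ≤ s) (M : ℕ) :
    ∫⁻ x in Set.Ico a (a + M * s), f x =
      ∑ i ∈ Finset.range M, ∫⁻ x in Set.Ico (a + i * s) (a + (i + 1) * s), f x := by
  induction M with
  | zero => simp
  | succ M ih =>
    rw [Finset.sum_range_succ, ← ih]
    have h1 : Set.Ico a (a + (M + 1 : ℕ) * s) = Set.Ico a (a + M * s) ∪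
        Set.Ico (a + M * s) (a + (M + 1) * s) := by
      rw [Set.Ico_union_Ico_eq_Ico]
      · push_cast
        rfl
      · nlinarith [mul_nonneg (Nat.cast_nonneg (α := ℝ) M) hs]
      · nlinarith
    rw [h1, lintegral_union measurableSet_Ico]
    exact Set.Ico_disjoint_Ico_same

theorem sum_boxes {h : ℝ × ℝ → ℝ≥0∞} (hh : Measurable h) (a b s t : ℝ) (hs : 0 ≤ s) (ht : 0 ≤ t)
    (M : ℕ) :
    ∫⁻ p in Set.Ico a (a + M * s) ×ˢ Set.Ico b (b + M * t), h p =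
      ∑ i ∈ Finset.range M, ∑ j ∈ Finset.range M,
        ∫⁻ p in Set.Ico (a + i * s) (a + (i + 1) * s) ×ˢ Set.Ico (b + j * t) (b + (j + 1) * t), h p := by
  rw [Measure.volume_eq_prod, ← Measure.prod_restrict, lintegral_prod _ hh.aemeasurable, sum_Ico _ _ _ hs]
  refine Finset.sum_congr rfl fun i _ => ?_
  simp only [← Measure.prod_restrict]
  have h1 : ∀ x, ∫⁻ y in Set.Ico b (b + M * t), h (x, y) =
      ∑ j ∈ Finset.range M, ∫⁻ y in Set.Ico (b + j * t) (b + (j + 1) * t), h (x, y) :=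
    fun x => sum_Ico _ _ _ ht M
  simp only [h1]
  rw [lintegral_finsetSum]
  · refine Finset.sum_congr rfl fun j _ => ?_
    rw [lintegral_prod _ hh.aemeasurable]
  · intro j _
    exact hh.lintegral_prod_right'


/-- The coordinates. -/
noncomputable def lin (p : (ℝ × ℝ) × ℝ) : ℂ × ℝ := (⟨p.1.1, p.1.2⟩, p.2)

theorem continuous_lin : Continuous lin := by
  have : lin = fun p : (ℝ × ℝ) × ℝ => ((p.1.1 : ℂ) + (p.1.2 : ℂ) * Complex.I, p.2) := by
    funext p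
    unfold lin
    apply Prod.ext
    · exact Complex.mk_eq_add_mul_I _ _
    · rfl
  rw [this]
  fun_prop

/-- The partial derivative in coordinates. -/
noncomputable def pdc (v : ℂ × ℝ) (F : ℍ × ℝ → ℝ) (p : (ℝ × ℝ) × ℝ) : ℝ := fderiv ℝ (cx F) (lin p) v

theorem measurable_pdc (v : ℂ × ℝ) (F : ℍ × ℝ → ℝ) : Measurable (pdc v F) :=
  (measurable_fderiv_apply_const ℝ (cx F) v).comp continuous_lin.measurable

theorem lin_mem {p : (ℝ × ℝ) × ℝ} (h : 0 < p.1.2) : lin p ∈ up := h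

theorem Sm.continuousOn_pdc {F : ℍ × ℝ → ℝ} (h : Sm F) (v : ℂ × ℝ) {s : Set ((ℝ × ℝ) × ℝ)}
    (hs : ∀ p ∈ s, 0 < p.1.2) : ContinuousOn (pdc v F) s := by
  have h1 : ContinuousOn (fderiv ℝ (cx F)) up :=
    ContDiffOn.continuousOn_fderiv_of_isOpen h isOpen_up (by simp)
  exact (h1.comp continuous_lin.continuousOn fun p hp => lin_mem (hs p hp)).clm_apply
    continuousOn_const

theorem Sm.continuousOn_cx {F : ℍ × ℝ → ℝ} (h : Sm F) {s : Set ((ℝ × ℝ) × ℝ)}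
    (hs : ∀ p ∈ s, 0 < p.1.2) : ContinuousOn (fun p => cx F (lin p)) s :=
  (ContDiffOn.continuousOn h).comp continuous_lin.continuousOn fun p hp => lin_mem (hs p hp)

theorem Sm.hasDerivAt_path {F : ℍ × ℝ → ℝ} (h : Sm F) {γ : ℝ → (ℝ × ℝ) × ℝ} {v : ℂ × ℝ} {s : ℝ}
    (hγ : HasDerivAt (fun s => lin (γ s)) v s) (hs : 0 < (γ s).1.2) :
    HasDerivAt (fun s => cx F (lin (γ s))) (pdc v F (γ s)) s := by
  have h1 : DifferentiableAt ℝ (cx F) (lin (γ s)) :=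
    (ContDiffOn.contDiffAt h (isOpen_up.mem_nhds (lin_mem hs))).differentiableAt (by simp)
  exact h1.hasFDerivAt.comp_hasDerivAt s hγ

theorem path1 (y z s : ℝ) : HasDerivAt (fun s => lin ((s, y), z)) (1, 0) s := by
  have : (fun s => lin ((s, y), z)) = fun s : ℝ => (((s : ℂ) + (y : ℂ) * Complex.I, z) : ℂ × ℝ) := by
    funext s
    exact Prod.ext (Complex.mk_eq_add_mul_I _ _) rfl
  rw [this]
  exact ((hasDerivAt_id s).ofReal_comp.add_const _).prodMk (hasDerivAt_const s z)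

theorem path2 (x z s : ℝ) : HasDerivAt (fun s => lin ((x, s), z)) (Complex.I, 0) s := by
  have : (fun s => lin ((x, s), z)) = fun s : ℝ => (((x : ℂ) + (s : ℂ) * Complex.I, z) : ℂ × ℝ) := by
    funext s
    exact Prod.ext (Complex.mk_eq_add_mul_I _ _) rfl
  rw [this]
  have h1 := (((hasDerivAt_id s).ofReal_comp.mul_const Complex.I).const_add (x : ℂ)).prodMk
    (hasDerivAt_const s z)
  simpa using h1

theorem path3 (x y s : ℝ) : HasDerivAt (fun s => lin ((x, y), s)) (0, 1) s := by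
  show HasDerivAt (fun s : ℝ => ((⟨x, y⟩ : ℂ), s)) (0, 1) s
  exact (hasDerivAt_const s _).prodMk (hasDerivAt_id s)

/-- The measure of a box. -/
noncomputable def boxμ (x₀ s a t : ℝ) (i j : ℕ) (ε : ℝ) : Measure ((ℝ × ℝ) × ℝ) :=
  ((volume.restrict (Set.Ico (x₀ + i * s) (x₀ + (i + 1) * s))).prod
    (volume.restrict (Set.Ico (a + j * t) (a + (j + 1) * t)))).prod
    (volume.restrict (Set.Ico 0 ε))

theorem box_le {F : ℍ × ℝ → ℝ} (h : Sm F) {x₀ s a t ε δ : ℝ} (hs : 0 < s) (ha : 0 < a) (ht : 0 < t)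
    (hε : 0 < ε) (hsδ : s ≤ δ) (htδ : t ≤ δ) (hεδ : ε ≤ δ) (i j : ℕ)
    (h0 : ∫ p, cx F (lin p) ∂(boxμ x₀ s a t i j ε) = 0) :
    ∫⁻ p, ENNReal.ofReal (cx F (lin p) ^ 2) ∂(boxμ x₀ s a t i j ε) ≤
      4 * ENNReal.ofReal δ ^ 2 * ∫⁻ p, (ENNReal.ofReal (pdc (1, 0) F p ^ 2) +
        ENNReal.ofReal (pdc (Complex.I, 0) F p ^ 2) + ENNReal.ofReal (pdc (0, 1) F p ^ 2))
        ∂(boxμ x₀ s a t i j ε) := by
  have hj : (0 : ℝ) ≤ j * t := by positivity
  have hpos : ∀ y ∈ Set.Icc (a + j * t) (a + (j + 1) * t), 0 < y := fun y hy => by linarith [hy.1]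
  have hpos' : ∀ p ∈ (Set.Icc (x₀ + i * s) (x₀ + (i + 1) * s) ×ˢ
      Set.Icc (a + j * t) (a + (j + 1) * t)) ×ˢ Set.Icc 0 ε, 0 < p.1.2 := fun p hp => hpos _ hp.1.2
  refine box_poincare (u := fun p => cx F (lin p)) (h.measurable_cx.comp continuous_lin.measurable)
    (measurable_pdc _ F) (measurable_pdc _ F) (measurable_pdc _ F) (by linarith) (by linarith) hε
    (by linarith) (by linarith) (by linarith)
    (fun x _ y hy z _ => h.hasDerivAt_path (γ := fun s => ((s, y), z)) (path1 y z x) (hpos y hy))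
    (fun x _ y hy z _ => h.hasDerivAt_path (γ := fun s => ((x, s), z)) (path2 x z y) (hpos y hy))
    (fun x _ y hy z _ => h.hasDerivAt_path (γ := fun s => ((x, y), s)) (path3 x y z) (hpos y hy))
    (h.continuousOn_cx hpos') (h.continuousOn_pdc _ hpos') (h.continuousOn_pdc _ hpos')
    (h.continuousOn_pdc _ hpos') h0

/-- The rectangle in `ℍ`. -/
def rect (x₀ s a t : ℝ) (M : ℕ) : Set ℍ :=
  {z : ℍ | ((z : ℂ).re, (z : ℂ).im) ∈ Set.Ico x₀ (x₀ + M * s) ×ˢ Set.Ico a (a + M * t)}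

theorem measurableSet_rect (x₀ s a t : ℝ) (M : ℕ) : MeasurableSet (rect x₀ s a t M) := by
  have h1 : Measurable fun z : ℍ => ((z : ℂ).re, (z : ℂ).im) :=
    (Complex.measurable_re.comp measurable_coe).prodMk (Complex.measurable_im.comp measurable_coe)
  exact h1 (measurableSet_Ico.prod measurableSet_Ico)

theorem lintegral_rect {g : ℂ → ℝ≥0∞} (hg : Measurable g) {x₀ s a t : ℝ} (ha : 0 < a) (M : ℕ) :
    ∫⁻ z in rect x₀ s a t M, g z = ∫⁻ p in Set.Ico x₀ (x₀ + M * s) ×ˢ Set.Ico a (a + M * t),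
      g (⟨p.1, p.2⟩ : ℂ) * ENNReal.ofReal ((p.2 ^ 2)⁻¹) := by
  have hR : MeasurableSet (Set.Ico x₀ (x₀ + M * s) ×ˢ Set.Ico a (a + M * t)) :=
    measurableSet_Ico.prod measurableSet_Ico
  have hB : MeasurableSet {w : ℂ | (w.re, w.im) ∈ Set.Ico x₀ (x₀ + M * s) ×ˢ Set.Ico a (a + M * t)} :=
    (Complex.measurable_re.prodMk Complex.measurable_im) hR
  have h1 := lintegral_hyp hg hB (fun w hw => ha.trans_le hw.2.1)
  have h2 := lintegral_complex (g := fun w : ℂ => g w * ENNReal.ofReal ((w.im ^ 2)⁻¹))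
    (by fun_prop) hR
  exact h1.trans h2

theorem rect_le {F : ℍ × ℝ → ℝ} (h : Sm F) {x₀ s a b t ε δ : ℝ} (hs : 0 < s) (ha : 0 < a)
    (ht : 0 < t) (hε : 0 < ε) (hsδ : s ≤ δ) (htδ : t ≤ δ) (hεδ : ε ≤ δ) {M : ℕ}
    (hb : a + M * t ≤ b) (hb1 : 1 ≤ b)
    (h0 : ∀ i < M, ∀ j < M, ∫ p, cx F (lin p) ∂(boxμ x₀ s a t i j ε) = 0) :
    ∫⁻ z in rect x₀ s a t M, ∫⁻ θ in Set.Ico 0 ε, ENNReal.ofReal (F (z, θ) ^ 2) ≤
      ENNReal.ofReal (4 * δ ^ 2 * b ^ 2 / a ^ 2) *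
        ∫⁻ z in rect x₀ s a t M, ∫⁻ θ in Set.Ico 0 ε, ENNReal.ofReal (ef F F (z, θ)) := by
  -- the integrands in coordinates
  have hm0 : Measurable fun q : ℂ × ℝ => ENNReal.ofReal (cx F q ^ 2) := by
    have := h.measurable_cx
    fun_prop
  have hmv : ∀ v : ℂ × ℝ, Measurable fun q : ℂ × ℝ => fderiv ℝ (cx F) q v := fun v =>
    measurable_fderiv_apply_const ℝ (cx F) v
  have hm1 := hmv (1, 0)
  have hm2 := hmv (Complex.I, 0)
  have hm3 := hmv (0, 1)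
  have hmE : Measurable fun q : ℂ × ℝ => ENNReal.ofReal (q.1.im ^ 2 *
      (fderiv ℝ (cx F) q (1, 0) * fderiv ℝ (cx F) q (1, 0) +
        fderiv ℝ (cx F) q (Complex.I, 0) * fderiv ℝ (cx F) q (Complex.I, 0)) +
      fderiv ℝ (cx F) q (0, 1) * fderiv ℝ (cx F) q (0, 1)) := by
    fun_prop
  have e1 : ∫⁻ z in rect x₀ s a t M, ∫⁻ θ in Set.Ico 0 ε, ENNReal.ofReal (F (z, θ) ^ 2) =
      ∫⁻ p in Set.Ico x₀ (x₀ + M * s) ×ˢ Set.Ico a (a + M * t),
        (∫⁻ θ in Set.Ico 0 ε, ENNReal.ofReal (cx F (lin (p, θ)) ^ 2)) *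
          ENNReal.ofReal ((p.2 ^ 2)⁻¹) := by
    refine Eq.trans ?_ (lintegral_rect
      (g := fun w => ∫⁻ θ in Set.Ico 0 ε, ENNReal.ofReal (cx F (w, θ) ^ 2))
      hm0.lintegral_prod_right' ha M)
    refine lintegral_congr fun z => lintegral_congr fun θ => ?_
    rw [← cx_pt F (z, θ)]
    rfl
  have e2 : ∫⁻ z in rect x₀ s a t M, ∫⁻ θ in Set.Ico 0 ε, ENNReal.ofReal (ef F F (z, θ)) =
      ∫⁻ p in Set.Ico x₀ (x₀ + M * s) ×ˢ Set.Ico a (a + M * t),
        (∫⁻ θ in Set.Ico 0 ε, ENNReal.ofReal (p.2 ^ 2 *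
          (pdc (1, 0) F (p, θ) * pdc (1, 0) F (p, θ) +
            pdc (Complex.I, 0) F (p, θ) * pdc (Complex.I, 0) F (p, θ)) +
          pdc (0, 1) F (p, θ) * pdc (0, 1) F (p, θ))) *
          ENNReal.ofReal ((p.2 ^ 2)⁻¹) := by
    exact lintegral_rect (g := fun w => ∫⁻ θ in Set.Ico 0 ε, ENNReal.ofReal (w.im ^ 2 *
      (fderiv ℝ (cx F) (w, θ) (1, 0) * fderiv ℝ (cx F) (w, θ) (1, 0) +
        fderiv ℝ (cx F) (w, θ) (Complex.I, 0) * fderiv ℝ (cx F) (w, θ) (Complex.I, 0)) +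
      fderiv ℝ (cx F) (w, θ) (0, 1) * fderiv ℝ (cx F) (w, θ) (0, 1)))
      hmE.lintegral_prod_right' ha M
  rw [e1, e2]
  have hml : Measurable fun p : (ℝ × ℝ) × ℝ => ENNReal.ofReal (cx F (lin p) ^ 2) :=
    hm0.comp continuous_lin.measurable
  have hmd : Measurable fun p : (ℝ × ℝ) × ℝ => (ENNReal.ofReal (pdc (1, 0) F p ^ 2) +
        ENNReal.ofReal (pdc (Complex.I, 0) F p ^ 2) + ENNReal.ofReal (pdc (0, 1) F p ^ 2)) := by
    have k1 := measurable_pdc (1, 0) F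
    have k2 := measurable_pdc (Complex.I, 0) F
    have k3 := measurable_pdc (0, 1) F
    fun_prop
  have hmG : Measurable fun p : ℝ × ℝ => ∫⁻ θ in Set.Ico 0 ε, ENNReal.ofReal (cx F (lin (p, θ)) ^ 2) :=
    hml.lintegral_prod_right'
  have hmH : Measurable fun p : ℝ × ℝ => ∫⁻ θ in Set.Ico 0 ε,
      (ENNReal.ofReal (pdc (1, 0) F (p, θ) ^ 2) + ENNReal.ofReal (pdc (Complex.I, 0) F (p, θ) ^ 2) +
        ENNReal.ofReal (pdc (0, 1) F (p, θ) ^ 2)) :=
    hmd.lintegral_prod_right'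
  have hRm : MeasurableSet (Set.Ico x₀ (x₀ + M * s) ×ˢ Set.Ico a (a + M * t)) :=
    measurableSet_Ico.prod measurableSet_Ico
  -- upper bound
  have s1 : ∫⁻ p in Set.Ico x₀ (x₀ + M * s) ×ˢ Set.Ico a (a + M * t),
        (∫⁻ θ in Set.Ico 0 ε, ENNReal.ofReal (cx F (lin (p, θ)) ^ 2)) *
          ENNReal.ofReal ((p.2 ^ 2)⁻¹) ≤
      ENNReal.ofReal ((a ^ 2)⁻¹) * ∫⁻ p in Set.Ico x₀ (x₀ + M * s) ×ˢ Set.Ico a (a + M * t),
        ∫⁻ θ in Set.Ico 0 ε, ENNReal.ofReal (cx F (lin (p, θ)) ^ 2) := by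
    rw [← lintegral_const_mul _ hmG]
    refine setLIntegral_mono' hRm fun p hp => ?_
    rw [mul_comm]
    gcongr
    exact hp.2.1
  have s2 : ∫⁻ p in Set.Ico x₀ (x₀ + M * s) ×ˢ Set.Ico a (a + M * t),
        ∫⁻ θ in Set.Ico 0 ε, ENNReal.ofReal (cx F (lin (p, θ)) ^ 2) ≤
      4 * ENNReal.ofReal δ ^ 2 * ∫⁻ p in Set.Ico x₀ (x₀ + M * s) ×ˢ Set.Ico a (a + M * t),
        ∫⁻ θ in Set.Ico 0 ε,
      (ENNReal.ofReal (pdc (1, 0) F (p, θ) ^ 2) + ENNReal.ofReal (pdc (Complex.I, 0) F (p, θ) ^ 2) +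
        ENNReal.ofReal (pdc (0, 1) F (p, θ) ^ 2)) := by
    rw [sum_boxes hmG _ _ _ _ hs.le ht.le, sum_boxes hmH _ _ _ _ hs.le ht.le, Finset.mul_sum]
    refine Finset.sum_le_sum fun i hi => ?_
    rw [Finset.mul_sum]
    refine Finset.sum_le_sum fun j hj => ?_
    have k1 := box_le h hs ha ht hε hsδ htδ hεδ i j (h0 i (Finset.mem_range.mp hi) j
      (Finset.mem_range.mp hj))
    unfold boxμ at k1
    rw [lintegral_prod _ hml.aemeasurable, lintegral_prod _ hmd.aemeasurable,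
      Measure.prod_restrict] at k1
    exact k1
  -- lower bound
  have s3 : ENNReal.ofReal ((b ^ 2)⁻¹) * ∫⁻ p in Set.Ico x₀ (x₀ + M * s) ×ˢ Set.Ico a (a + M * t),
        ∫⁻ θ in Set.Ico 0 ε,
      (ENNReal.ofReal (pdc (1, 0) F (p, θ) ^ 2) + ENNReal.ofReal (pdc (Complex.I, 0) F (p, θ) ^ 2) +
        ENNReal.ofReal (pdc (0, 1) F (p, θ) ^ 2)) ≤
      ∫⁻ p in Set.Ico x₀ (x₀ + M * s) ×ˢ Set.Ico a (a + M * t),
        (∫⁻ θ in Set.Ico 0 ε, ENNReal.ofReal (p.2 ^ 2 *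
          (pdc (1, 0) F (p, θ) * pdc (1, 0) F (p, θ) +
            pdc (Complex.I, 0) F (p, θ) * pdc (Complex.I, 0) F (p, θ)) +
          pdc (0, 1) F (p, θ) * pdc (0, 1) F (p, θ))) *
          ENNReal.ofReal ((p.2 ^ 2)⁻¹) := by
    rw [← lintegral_const_mul _ hmH]
    refine setLIntegral_mono' hRm fun p hp => ?_
    have hp2 : 0 < p.2 := ha.trans_le hp.2.1
    have hpb : p.2 ≤ b := hp.2.2.le.trans hb
    rw [← lintegral_const_mul' _ _ ENNReal.ofReal_ne_top, ← lintegral_mul_const' _ _ ENNReal.ofReal_ne_top]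
    refine lintegral_mono fun θ => ?_
    set d1 := pdc (1, 0) F (p, θ)
    set d2 := pdc (Complex.I, 0) F (p, θ)
    set d3 := pdc (0, 1) F (p, θ)
    rw [← ENNReal.ofReal_add (by positivity) (by positivity),
      ← ENNReal.ofReal_add (by positivity) (by positivity), ← ENNReal.ofReal_mul (by positivity),
      ← ENNReal.ofReal_mul (by nlinarith [mul_nonneg (sq_nonneg p.2) (add_nonneg
        (mul_self_nonneg d1) (mul_self_nonneg d2)), mul_self_nonneg d3])]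
    apply ENNReal.ofReal_le_ofReal
    have hb0 : 0 < b := by linarith
    have q1 : (b ^ 2)⁻¹ ≤ 1 := by
      apply inv_le_one_of_one_le₀
      nlinarith
    have q2 : (b ^ 2)⁻¹ ≤ (p.2 ^ 2)⁻¹ := by
      apply inv_anti₀ (by positivity)
      exact pow_le_pow_left₀ hp2.le hpb 2
    have q3 : (p.2 ^ 2 * (d1 * d1 + d2 * d2) + d3 * d3) * (p.2 ^ 2)⁻¹ =
        (d1 ^ 2 + d2 ^ 2) + d3 ^ 2 * (p.2 ^ 2)⁻¹ := by
      field_simp
    rw [q3]
    nlinarith [sq_nonneg d1, sq_nonneg d2, sq_nonneg d3]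
  -- conclusion
  set X := ∫⁻ p in Set.Ico x₀ (x₀ + M * s) ×ˢ Set.Ico a (a + M * t),
        ∫⁻ θ in Set.Ico 0 ε,
      (ENNReal.ofReal (pdc (1, 0) F (p, θ) ^ 2) + ENNReal.ofReal (pdc (Complex.I, 0) F (p, θ) ^ 2) +
        ENNReal.ofReal (pdc (0, 1) F (p, θ) ^ 2)) with hX
  have hb0 : 0 < b := by linarith
  have hδ0 : 0 ≤ δ := by linarith
  have s4 : X ≤ ENNReal.ofReal (b ^ 2) * ∫⁻ p in Set.Ico x₀ (x₀ + M * s) ×ˢ Set.Ico a (a + M * t),
        (∫⁻ θ in Set.Ico 0 ε, ENNReal.ofReal (p.2 ^ 2 *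
          (pdc (1, 0) F (p, θ) * pdc (1, 0) F (p, θ) +
            pdc (Complex.I, 0) F (p, θ) * pdc (Complex.I, 0) F (p, θ)) +
          pdc (0, 1) F (p, θ) * pdc (0, 1) F (p, θ))) *
          ENNReal.ofReal ((p.2 ^ 2)⁻¹) := by
    have k1 : X = ENNReal.ofReal (b ^ 2) * (ENNReal.ofReal ((b ^ 2)⁻¹) * X) := by
      rw [← mul_assoc, ← ENNReal.ofReal_mul (by positivity), mul_inv_cancel₀ (by positivity),
        ENNReal.ofReal_one, one_mul]
    rw [k1]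
    gcongr
  refine s1.trans ((mul_le_mul_right s2 _).trans ?_)
  have k2 : ENNReal.ofReal (4 * δ ^ 2 * b ^ 2 / a ^ 2) = ENNReal.ofReal ((a ^ 2)⁻¹) *
      (4 * ENNReal.ofReal δ ^ 2 * ENNReal.ofReal (b ^ 2)) := by
    rw [← ENNReal.ofReal_pow hδ0, show (4 : ℝ≥0∞) = ENNReal.ofReal 4 by simp,
      ← ENNReal.ofReal_mul (by norm_num), ← ENNReal.ofReal_mul (by positivity),
      ← ENNReal.ofReal_mul (by positivity)]
    congr 1
    field_simp
  rw [k2, mul_assoc (ENNReal.ofReal ((a ^ 2)⁻¹)), mul_assoc (4 * ENNReal.ofReal δ ^ 2)]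
  gcongr

end Pool.Agent.H85R3.RM
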