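import Pool.Agent.H85R3.RMAct
import Pool.Agent.H85R3.RMAlg

/-! Comparing integrals over a fundamental domain of the small group and over a compact set that
meets all orbits of the big group. -/

set_option autoImplicit false

open scoped MatrixGroups UpperHalfPlane ContDiff Topology Pointwise ENNReal
open MeasureTheory UpperHalfPlane

namespace Pool.Agent.H85R3.RM

open Pool.Agent.H85R3.HS

theorem abs_le_of_two {a b c : ℝ} (h1 : |a + b| ≤ c) (h2 : |a - b| ≤ c) : |a| ≤ c ∧ |b| ≤ c := by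
  rw [abs_le] at h1 h2
  refine ⟨abs_le.mpr ⟨?_, ?_⟩, abs_le.mpr ⟨?_, ?_⟩⟩ <;> linarith [h1.1, h1.2, h2.1, h2.2]

/-- The units moving the base point by at most `R` form a finite set. -/
theorem finite_small (R : ℝ) :
    {k : cong 1 | dist UpperHalfPlane.I (k.1 • UpperHalfPlane.I) ≤ R}.Finite := by
  obtain ⟨n, hn⟩ := exists_nat_gt (2 * Real.cosh R + 1)
  have hc0 := Real.one_le_cosh R
  have hfin : (Set.Icc ((-(n : ℤ)), (-(n : ℤ)), (-(n : ℤ)), (-(n : ℤ))) ((n : ℤ), (n : ℤ), (n : ℤ), (n : ℤ))).Finite :=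
    Set.finite_Icc _ _
  refine Set.Finite.of_injOn (f := crd) (t := Set.Icc ((-(n : ℤ)), (-(n : ℤ)), (-(n : ℤ)), (-(n : ℤ)))
    ((n : ℤ), (n : ℤ), (n : ℤ), (n : ℤ))) ?_ ?_ hfin
  · intro k hk
    have h1 := cosh_dist_I k.1
    have h2 : Real.cosh (dist UpperHalfPlane.I (k.1 • UpperHalfPlane.I)) ≤ Real.cosh R := by
      rw [Real.cosh_le_cosh, abs_of_nonneg dist_nonneg]
      exact (show dist UpperHalfPlane.I (k.1 • UpperHalfPlane.I) ≤ R from hk).trans (le_abs_self R)
    have hmat := crd_spec k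
    rcases hxy : crd k with ⟨x, y, z, w⟩
    rw [hxy] at hmat
    simp only at hmat
    have e00 : k.1 0 0 = x + y * √2 := by
      have := congrFun (congrFun hmat 0) 0
      simpa [qm] using this
    have e01 : k.1 0 1 = z + w * √2 := by
      have := congrFun (congrFun hmat 0) 1
      simpa [qm] using this
    have e10 : k.1 1 0 = 3 * (z - w * √2) := by
      have := congrFun (congrFun hmat 1) 0
      simpa [qm] using this
    have e11 : k.1 1 1 = x - y * √2 := by
      have := congrFun (congrFun hmat 1) 1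
      simpa [qm] using this
    rw [h1, e00, e01, e10, e11] at h2
    have hsq : ∀ t : ℝ, t ^ 2 ≤ 2 * Real.cosh R → |t| ≤ n := by
      intro t ht
      rw [abs_le]
      constructor <;> nlinarith [sq_nonneg (t - 1), sq_nonneg (t + 1)]
    have b1 : |(x : ℝ) + y * √2| ≤ n := hsq _ (by
      nlinarith [sq_nonneg ((x : ℝ) - y * √2), sq_nonneg ((z : ℝ) + w * √2),
        sq_nonneg (3 * ((z : ℝ) - w * √2))])
    have b2 : |(x : ℝ) - y * √2| ≤ n := hsq _ (by
      nlinarith [sq_nonneg ((x : ℝ) + y * √2), sq_nonneg ((z : ℝ) + w * √2),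
        sq_nonneg (3 * ((z : ℝ) - w * √2))])
    have b3 : |(z : ℝ) + w * √2| ≤ n := hsq _ (by
      nlinarith [sq_nonneg ((x : ℝ) - y * √2), sq_nonneg ((x : ℝ) + y * √2),
        sq_nonneg (3 * ((z : ℝ) - w * √2))])
    have b4 : |(z : ℝ) - w * √2| ≤ n := hsq _ (by
      nlinarith [sq_nonneg ((x : ℝ) - y * √2), sq_nonneg ((x : ℝ) + y * √2),
        sq_nonneg ((z : ℝ) + w * √2), sq_nonneg ((z : ℝ) - w * √2)])
    obtain ⟨c1, c2⟩ := abs_le_of_two b1 b2
    obtain ⟨c3, c4⟩ := abs_le_of_two b3 b4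
    have h2s : (1 : ℝ) ≤ √2 := by
      rw [Real.one_le_sqrt]
      norm_num
    have drop : ∀ t : ℝ, |t * √2| ≤ n → |t| ≤ n := by
      intro t ht
      rw [abs_mul, abs_of_nonneg (by positivity : (0 : ℝ) ≤ √2)] at ht
      nlinarith [abs_nonneg t]
    have c2' := drop _ c2
    have c4' := drop _ c4
    have conv : ∀ t : ℤ, |(t : ℝ)| ≤ n → -(n : ℤ) ≤ t ∧ t ≤ n := by
      intro t ht
      rw [abs_le] at ht
      constructor
      · have := ht.1
        exact_mod_cast this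
      · have := ht.2
        exact_mod_cast this
    exact ⟨⟨(conv x c1).1, (conv y c2').1, (conv z c3).1, (conv w c4').1⟩,
      ⟨(conv x c1).2, (conv y c2').2, (conv z c3).2, (conv w c4').2⟩⟩
  · intro k _ k' _ h
    have h1 := crd_spec k
    rw [h, ← crd_spec k'] at h1
    exact Subtype.ext (Subtype.ext h1)

namespace Setup

variable (A : Setup) {Δ : Subgroup SL(2, ℝ)} {G : Type*} [Group G] (Φ : Δ →* G)
  (hΦs : Function.Surjective Φ) (hΦk : ∀ g : Δ, Φ g = 1 ↔ g.1 ∈ A.Γ) (hΔ : A.Γ ≤ Δ)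

/-- The decomposition of the big group into cosets. -/
noncomputable def cosetEquiv : G × A.Γ ≃ Δ :=
  Equiv.ofBijective (fun p => sec Φ hΦs p.1 * ⟨p.2.1, hΔ p.2.2⟩) (by
    constructor
    · rintro ⟨g, γ⟩ ⟨g', γ'⟩ h
      simp only at h
      have h1 := congrArg Φ h
      rw [map_mul, map_mul, sec_spec, sec_spec, (hΦk _).mpr γ.2, (hΦk _).mpr γ'.2, mul_one,
        mul_one] at h1
      subst h1
      have h2 := mul_left_cancel h
      have h3 : γ = γ' := Subtype.ext (congrArg (fun t : Δ => t.1) h2)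
      rw [h3]
    · intro h
      have h1 : Φ ((sec Φ hΦs (Φ h))⁻¹ * h) = 1 := by
        rw [map_mul, map_inv, sec_spec, inv_mul_cancel]
      refine ⟨(Φ h, ⟨((sec Φ hΦs (Φ h))⁻¹ * h).1, (hΦk _).mp h1⟩), ?_⟩
      simp only
      show sec Φ hΦs (Φ h) * ((sec Φ hΦs (Φ h))⁻¹ * h) = h
      rw [mul_inv_cancel_left])

/-- The number of elements of the big group moving a point into `Q`. -/
noncomputable def cnt (Δ : Subgroup SL(2, ℝ)) (Q : Set ℍ) (z : ℍ) : ℝ≥0∞ :=
  ∑' h : Δ, Q.indicator 1 (h.1 • z)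

include hΦs hΦk hΔ in
theorem count_identity [Countable G] {Q : Set ℍ} (hQ : MeasurableSet Q) {F : ℍ → ℝ≥0∞}
    (hF : Measurable F) (hinv : ∀ h : Δ, ∀ z, F (h.1 • z) = F z) :
    ∫⁻ z in A.D, F z * cnt Δ Q z = (∑' _g : G, 1) * ∫⁻ z in Q, F z := by
  have hc := A.countable
  set e := A.cosetEquiv Φ hΦs hΦk hΔ with he
  have hΔc : Countable Δ := e.symm.injective.countable
  have hFQ : Measurable (Q.indicator F) := hF.indicator hQ
  have key : ∀ (h : Δ) (z : ℍ), F z * Q.indicator (1 : ℍ → ℝ≥0∞) (h.1 • z) =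
      Q.indicator F (h.1 • z) := by
    intro h z
    by_cases hz : h.1 • z ∈ Q
    · rw [Set.indicator_of_mem hz, Set.indicator_of_mem hz, hinv, Pi.one_apply, mul_one]
    · rw [Set.indicator_of_notMem hz, Set.indicator_of_notMem hz, mul_zero]
  have h1 : ∀ z, F z * cnt Δ Q z = ∑' h : Δ, Q.indicator F (h.1 • z) := by
    intro z
    unfold cnt
    rw [← ENNReal.tsum_mul_left]
    exact tsum_congr fun h => key h z
  simp only [h1]
  have h5 : ∫⁻ z in A.D, ∑' h : Δ, Q.indicator F (h.1 • z) =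
      ∑' h : Δ, ∫⁻ z in A.D, Q.indicator F (h.1 • z) :=
    lintegral_tsum fun h => (hFQ.comp (measurable_const_smul h.1)).aemeasurable
  rw [h5]
  rw [← e.tsum_eq, ENNReal.tsum_prod (f := fun g γ => ∫⁻ z in A.D, Q.indicator F ((e (g, γ)).1 • z))]
  have h2 : ∀ g : G, ∑' γ : A.Γ, ∫⁻ z in A.D, Q.indicator F ((e (g, γ)).1 • z) = ∫⁻ z in Q, F z := by
    intro g
    have h3 : ∀ γ : A.Γ, ∀ z : ℍ, Q.indicator F ((e (g, γ)).1 • z) =
        (fun w : ℍ => Q.indicator F ((sec Φ hΦs g).1 • w)) (γ • z) := by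
      intro γ z
      show Q.indicator F (((sec Φ hΦs g).1 * γ.1) • z) = Q.indicator F ((sec Φ hΦs g).1 • (γ.1 • z))
      rw [mul_smul]
    simp only [h3]
    rw [← A.fd.lintegral_eq_tsum'' (fun w : ℍ => Q.indicator F ((sec Φ hΦs g).1 • w))]
    rw [(measurePreserving_smul (sec Φ hΦs g).1 (volume : Measure ℍ)).lintegral_comp hFQ,
      lintegral_indicator hQ]
  simp only [h2]
  rw [← ENNReal.tsum_mul_right]
  simp

theorem cnt_ge {Q : Set ℍ} {z : ℍ} (h : ∃ g ∈ Δ, g • z ∈ Q) : 1 ≤ cnt Δ Q z := by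
  obtain ⟨g, hg, hgz⟩ := h
  unfold cnt
  refine le_trans ?_ (ENNReal.le_tsum (⟨g, hg⟩ : Δ))
  rw [Set.indicator_of_mem hgz]
  rfl

/-- The counting function is bounded. -/
theorem cnt_le {Q : Set ℍ} {R : ℝ} (hQ : ∀ z ∈ Q, dist UpperHalfPlane.I z ≤ R) :
    ∀ z, cnt (cong 1) Q z ≤ (finite_small (2 * R)).toFinset.card := by
  intro z
  by_cases hex : ∃ h₀ : cong 1, h₀.1 • z ∈ Q
  · obtain ⟨h₀, hh₀⟩ := hex
    classical
    set s : Finset (cong 1) := (finite_small (2 * R)).toFinset.image fun k => k * h₀ with hs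
    have h1 : ∀ h : cong 1, h ∉ s → Q.indicator (1 : ℍ → ℝ≥0∞) (h.1 • z) = 0 := by
      intro h hh
      apply Set.indicator_of_notMem
      intro hmem
      apply hh
      rw [hs, Finset.mem_image]
      refine ⟨h * h₀⁻¹, ?_, by group⟩
      rw [Set.Finite.mem_toFinset]
      show dist UpperHalfPlane.I ((h * h₀⁻¹).1 • UpperHalfPlane.I) ≤ 2 * R
      have h2 : (h * h₀⁻¹).1 • (h₀.1 • z) = h.1 • z := by
        rw [← mul_smul]
        show (h.1 * h₀.1⁻¹ * h₀.1) • z = h.1 • z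
        rw [inv_mul_cancel_right]
      have h3 := hQ _ hmem
      have h4 := hQ _ hh₀
      have h5 : dist (h.1 • z) ((h * h₀⁻¹).1 • UpperHalfPlane.I) ≤ R := by
        rw [← h2, dist_smul, dist_comm]
        exact h4
      have h6 := dist_triangle UpperHalfPlane.I (h.1 • z) ((h * h₀⁻¹).1 • UpperHalfPlane.I)
      linarith
    unfold cnt
    rw [tsum_eq_sum h1]
    calc ∑ h ∈ s, Q.indicator (1 : ℍ → ℝ≥0∞) (h.1 • z) ≤ ∑ _h ∈ s, 1 := by
          refine Finset.sum_le_sum fun h _ => ?_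
          by_cases hz : h.1 • z ∈ Q
          · rw [Set.indicator_of_mem hz]; rfl
          · rw [Set.indicator_of_notMem hz]; exact zero_le
      _ = (s.card : ℝ≥0∞) := by simp
      _ ≤ _ := by exact_mod_cast Finset.card_image_le
  · push Not at hex
    unfold cnt
    have : ∀ h : cong 1, Q.indicator (1 : ℍ → ℝ≥0∞) (h.1 • z) = 0 := fun h =>
      Set.indicator_of_notMem (hex h) _
    simp only [this, tsum_zero]
    exact zero_le

end Setup

end Pool.Agent.H85R3.RM
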