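import Mathlib

/-! Closed Riemannian manifolds as quotients of domains of `ℝⁿ`: Ricci curvature, volume and
Laplace eigenvalues. -/

set_option autoImplicit false

open scoped ContDiff Topology
open MeasureTheory Matrix

namespace Pool.Agent.H85R3.RM

/-- A closed connected Riemannian manifold of dimension `n`, presented as a quotient `dom / deck`:
`dom` is a connected open subset of `ℝⁿ` with a smooth Riemannian metric `metric` (the matrix
`g_ij` in the coordinates of `ℝⁿ`), and `deck` is a group of isometries of `dom`, acting freely,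
properly discontinuously and cocompactly. The datum of a measurable fundamental domain `fund` is
part of the presentation. -/
structure ClosedManifold (n : ℕ) where
  dom : Set (Fin n → ℝ)
  isOpen_dom : IsOpen dom
  isConnected_dom : IsConnected dom
  metric : (Fin n → ℝ) → Matrix (Fin n) (Fin n) ℝ
  smooth_metric : ∀ i j, ContDiffOn ℝ ∞ (fun x => metric x i j) dom
  posDef_metric : ∀ x ∈ dom, (metric x).PosDef
  deck : Type
  group_deck : Group deck
  act : deck → (Fin n → ℝ) → (Fin n → ℝ)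
  act_mem : ∀ g, ∀ x ∈ dom, act g x ∈ dom
  act_one : ∀ x ∈ dom, act 1 x = x
  act_mul : ∀ g h, ∀ x ∈ dom, act (g * h) x = act g (act h x)
  smooth_act : ∀ g, ContDiffOn ℝ ∞ (act g) dom
  /-- the deck transformations are isometries -/
  isometry_act : ∀ g, ∀ x ∈ dom, ∀ v w : Fin n → ℝ,
    (fderiv ℝ (act g) x v) ⬝ᵥ (metric (act g x) *ᵥ (fderiv ℝ (act g) x w)) =
      v ⬝ᵥ (metric x *ᵥ w)
  /-- the projection to the quotient is a covering map -/
  covering_act : ∀ x ∈ dom, ∃ U ∈ 𝓝 x, ∀ g, g ≠ 1 → ∀ y ∈ U, y ∈ dom → act g y ∉ U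
  /-- the quotient is Hausdorff -/
  separated_act : ∀ x ∈ dom, ∀ y ∈ dom, (∀ g, act g x ≠ y) →
    ∃ U ∈ 𝓝 x, ∃ V ∈ 𝓝 y, ∀ g, ∀ z ∈ U, z ∈ dom → act g z ∉ V
  /-- the quotient is compact -/
  cocompact_act : ∃ K ⊆ dom, IsCompact K ∧ ∀ x ∈ dom, ∃ g, act g x ∈ K
  fund : Set (Fin n → ℝ)
  measurable_fund : MeasurableSet fund
  fund_subset : fund ⊆ dom
  /-- `fund` contains exactly one point of every orbit -/
  fund_unique : ∀ x ∈ dom, ∃! g, act g x ∈ fund

variable {n : ℕ}

/-- The partial derivative `∂_i f`. -/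
noncomputable def pd (i : Fin n) (f : (Fin n → ℝ) → ℝ) (x : Fin n → ℝ) : ℝ :=
  fderiv ℝ f x (Pi.single i 1)

/-- The Christoffel symbols `Γ^k_{ij}` of a metric. -/
noncomputable def christoffel (g : (Fin n → ℝ) → Matrix (Fin n) (Fin n) ℝ) (k i j : Fin n)
    (x : Fin n → ℝ) : ℝ :=
  ∑ l, (g x)⁻¹ k l * (pd i (fun y => g y j l) x + pd j (fun y => g y i l) x -
    pd l (fun y => g y i j) x) / 2

/-- The Ricci tensor `R_ij = ∂_k Γ^k_{ij} - ∂_j Γ^k_{ik} + Γ^k_{kl} Γ^l_{ij} - Γ^k_{jl} Γ^l_{ik}`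
of a metric. -/
noncomputable def ricci (g : (Fin n → ℝ) → Matrix (Fin n) (Fin n) ℝ) (i j : Fin n)
    (x : Fin n → ℝ) : ℝ :=
  ∑ k, (pd k (christoffel g k i j) x - pd j (christoffel g k i k) x +
    ∑ l, (christoffel g k k l x * christoffel g l i j x -
      christoffel g k j l x * christoffel g l i k x))

/-- `Ric ≥ c g`. -/
def RicciGE (M : ClosedManifold n) (c : ℝ) : Prop :=
  ∀ x ∈ M.dom, ∀ v : Fin n → ℝ,
    c * (v ⬝ᵥ (M.metric x *ᵥ v)) ≤ ∑ i, ∑ j, ricci M.metric i j x * v i * v j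

/-- The Riemannian volume of the manifold. -/
noncomputable def vol (M : ClosedManifold n) : ℝ := ∫ x in M.fund, √(M.metric x).det

/-- `f` is a smooth function on the manifold: a smooth function on `dom` (extended by zero to
`ℝⁿ`) that is invariant under the deck transformations. -/
structure IsFunction (M : ClosedManifold n) (f : (Fin n → ℝ) → ℝ) : Prop where
  smooth : ContDiffOn ℝ ∞ f M.dom
  eq_zero : ∀ x, x ∉ M.dom → f x = 0
  invariant : ∀ g, ∀ x ∈ M.dom, f (M.act g x) = f x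

/-- The square of the norm of the gradient, `g^{ij} ∂_i f ∂_j f`. -/
noncomputable def gradSq (M : ClosedManifold n) (f : (Fin n → ℝ) → ℝ) (x : Fin n → ℝ) : ℝ :=
  ∑ i, ∑ j, (M.metric x)⁻¹ i j * pd i f x * pd j f x

/-- The Rayleigh quotient of `f` is at most `t`: `∫ |∇f|² ≤ t ∫ f²`. -/
def RayleighLE (M : ClosedManifold n) (f : (Fin n → ℝ) → ℝ) (t : ℝ) : Prop :=
  ∫ x in M.fund, gradSq M f x * √(M.metric x).det ≤ t * ∫ x in M.fund, f x ^ 2 * √(M.metric x).det

/-- The eigenvalue `λ_k` of the Laplacian, where `0 = λ_0 < λ_1 ≤ λ_2 ≤ …` with multiplicity,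
through the min-max principle: the infimum of the `t ≥ 0` such that the Rayleigh quotient is at
most `t` on some `(k + 1)`-dimensional space of smooth functions. -/
noncomputable def eigenvalue (M : ClosedManifold n) (k : ℕ) : ℝ :=
  sInf {t : ℝ | 0 ≤ t ∧ ∃ W : Submodule ℝ ((Fin n → ℝ) → ℝ), Module.finrank ℝ W = k + 1 ∧
    ∀ f ∈ W, IsFunction M f ∧ RayleighLE M f t}

/-- The multiplicity `m_k` of the eigenvalue `λ_k`: the number of times it occurs in the list
`λ_0, λ_1, λ_2, …` of the eigenvalues with multiplicity. -/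
noncomputable def eigenMultiplicity (M : ClosedManifold n) (k : ℕ) : ℕ∞ :=
  {j : ℕ | eigenvalue M j = eigenvalue M k}.encard

end Pool.Agent.H85R3.RM
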