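import Pool.Agent.H85R3.RMBound

/-! The uniform bound for the dimension of spaces of invariant functions of small energy. -/

set_option autoImplicit false

open scoped MatrixGroups UpperHalfPlane ContDiff Topology Pointwise ENNReal
open MeasureTheory UpperHalfPlane

namespace Pool.Agent.H85R3.RM

open Pool.Agent.H85R3.HS

theorem Setup.ofReal_integral (A : Setup) {φ : ℍ × ℝ → ℝ} (h : A.IsInv φ) (hc : Continuous φ)
    (h0 : ∀ p, 0 ≤ φ p) :
    ENNReal.ofReal (∫ p in A.D ×ˢ Set.Ico 0 A.ε, φ p) =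
      ∫⁻ z in A.D, ∫⁻ θ in Set.Ico 0 A.ε, ENNReal.ofReal (φ (z, θ)) := by
  rw [ofReal_integral_eq_lintegral_ofReal (h.integrableOn hc) (Filter.Eventually.of_forall h0),
    Measure.volume_eq_prod, ← Measure.prod_restrict,
    lintegral_prod _ (hc.measurable.ennreal_ofReal.aemeasurable)]

theorem dist_I_le {X a b : ℝ} (ha : 0 < a) {z : ℍ} (h1 : |z.re| ≤ X) (h2 : a ≤ z.im)
    (h3 : z.im ≤ b) : dist UpperHalfPlane.I z ≤ 2 * (1 + (X ^ 2 + (b + 1) ^ 2) / (2 * a)) := by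
  have hd : dist UpperHalfPlane.I z ≤ 2 * Real.cosh (dist UpperHalfPlane.I z) := by
    rw [Real.cosh_eq]
    have h5 := Real.add_one_le_exp (dist UpperHalfPlane.I z)
    have h6 := Real.exp_pos (-(dist UpperHalfPlane.I z))
    linarith
  refine hd.trans ?_
  rw [UpperHalfPlane.cosh_dist]
  have h4 : dist ((UpperHalfPlane.I : ℍ) : ℂ) (z : ℂ) ^ 2 = z.re ^ 2 + (1 - z.im) ^ 2 := by
    rw [Complex.dist_eq, ← Complex.normSq_eq_norm_sq, Complex.normSq_apply]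
    simp
    ring
  rw [h4, UpperHalfPlane.I_im]
  have h7 : z.re ^ 2 ≤ X ^ 2 := by
    rw [← sq_abs]
    exact pow_le_pow_left₀ (abs_nonneg _) h1 2
  have h8 : (1 - z.im) ^ 2 ≤ (b + 1) ^ 2 := by nlinarith
  have h9 : (z.re ^ 2 + (1 - z.im) ^ 2) / (2 * 1 * z.im) ≤ (X ^ 2 + (b + 1) ^ 2) / (2 * a) := by
    apply div_le_div₀ (by positivity) (by linarith) (by positivity)
    linarith
  linarith

theorem integrable_box {F : ℍ × ℝ → ℝ} (h : Sm F) {x₀ s a t ε : ℝ} (ha : 0 < a) (ht : 0 < t)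
    (i j : ℕ) : Integrable (fun p => cx F (lin p)) (boxμ x₀ s a t i j ε) := by
  have hbox : boxμ x₀ s a t i j ε = (volume : Measure ((ℝ × ℝ) × ℝ)).restrict
      ((Set.Ico (x₀ + i * s) (x₀ + (i + 1) * s) ×ˢ Set.Ico (a + j * t) (a + (j + 1) * t)) ×ˢ
        Set.Ico 0 ε) := by
    unfold boxμ
    rw [Measure.prod_restrict, Measure.prod_restrict]
    rfl
  have hj : (0 : ℝ) ≤ j * t := by positivity
  have hpos' : ∀ p ∈ (Set.Icc (x₀ + i * s) (x₀ + (i + 1) * s) ×ˢ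
      Set.Icc (a + j * t) (a + (j + 1) * t)) ×ˢ Set.Icc 0 ε, 0 < p.1.2 := fun p hp => by
    have := hp.1.2.1
    linarith
  have hsub : ((Set.Ico (x₀ + i * s) (x₀ + (i + 1) * s) ×ˢ Set.Ico (a + j * t) (a + (j + 1) * t)) ×ˢ
        Set.Ico 0 ε) ⊆ (Set.Icc (x₀ + i * s) (x₀ + (i + 1) * s) ×ˢ
      Set.Icc (a + j * t) (a + (j + 1) * t)) ×ˢ Set.Icc 0 ε :=
    Set.prod_mono (Set.prod_mono Set.Ico_subset_Icc_self Set.Ico_subset_Icc_self)
      Set.Ico_subset_Icc_self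
  rw [hbox]
  exact ((h.continuousOn_cx hpos').integrableOn_compact
    ((isCompact_Icc.prod isCompact_Icc).prod isCompact_Icc)).mono_set hsub

/-- The box averages. -/
noncomputable def boxL (A : Setup) {x₀ s a t : ℝ} (ha : 0 < a) (ht : 0 < t) (M : ℕ) :
    A.Inv →ₗ[ℝ] (Fin M × Fin M → ℝ) where
  toFun F ij := ∫ p, cx F.1 (lin p) ∂(boxμ x₀ s a t ij.1 ij.2 A.ε)
  map_add' F F' := by
    funext ij
    exact integral_add (integrable_box F.2.1 ha ht _ _) (integrable_box F'.2.1 ha ht _ _)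
  map_smul' c F := by
    funext ij
    exact integral_const_mul c _

theorem box_bounds : ∃ X a b : ℝ, 0 < X ∧ 0 < a ∧ 1 ≤ b ∧ a < b ∧ ∀ z : ℍ, ∃ g ∈ cong 1,
    (g • z).re ∈ Set.Ico (-X) X ∧ (g • z).im ∈ Set.Ico a b := by
  obtain ⟨K, hK, hKΔ⟩ := cocompact (N := 1) one_pos
  obtain ⟨C₁, hC₁⟩ := hK.exists_bound_of_continuousOn UpperHalfPlane.continuous_re.continuousOn
  obtain ⟨C₂, hC₂⟩ := hK.exists_bound_of_continuousOn UpperHalfPlane.continuous_im.continuousOn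
  obtain ⟨C₃, hC₃⟩ := hK.exists_bound_of_continuousOn
    (f := fun z : ℍ => (z.im)⁻¹) (UpperHalfPlane.continuous_im.inv₀ fun z => z.im_ne_zero).continuousOn
  have hab : (|C₃| + 1)⁻¹ ≤ 1 := inv_le_one_of_one_le₀ (by linarith [abs_nonneg C₃])
  refine ⟨|C₁| + 1, (|C₃| + 1)⁻¹, |C₂| + 2, by positivity, by positivity,
    by linarith [abs_nonneg C₂], by linarith [abs_nonneg C₂], fun z => ?_⟩
  obtain ⟨g, hg, hgz⟩ := hKΔ z
  have h1 := hC₁ _ hgz
  have h2 := hC₂ _ hgz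
  have h3 := hC₃ _ hgz
  have hp := (g • z).im_pos
  rw [Real.norm_eq_abs] at h1 h2 h3
  rw [abs_of_pos hp] at h2
  rw [abs_of_pos (inv_pos.mpr hp)] at h3
  rw [abs_le] at h1
  have k1 := le_abs_self C₁
  have k2 := le_abs_self C₂
  have k3 := le_abs_self C₃
  refine ⟨g, hg, ⟨by linarith [h1.1], by linarith [h1.2]⟩, ?_, by linarith⟩
  rw [inv_le_comm₀ (by positivity) hp]
  linarith

theorem small_delta {B : ℝ} (hB : 0 < B) : (1 / (B + 1)) ^ 2 * B < 1 := by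
  rw [div_pow, one_pow, div_mul_eq_mul_div, one_mul, div_lt_one (by positivity)]
  nlinarith

theorem dim_bound (Λ : ℝ) : ∃ (k₀ : ℕ) (ε₀ : ℝ), 0 < ε₀ ∧ ∀ (A : Setup) (G : Type) [Group G]
    [Countable G] (Φ : cong 1 →* G) (_ : Function.Surjective Φ)
    (_ : ∀ g : cong 1, Φ g = 1 ↔ g.1 ∈ A.Γ) (_ : A.Γ ≤ cong 1), A.ε ≤ ε₀ →
    ∀ W : Submodule ℝ A.Inv, FiniteDimensional ℝ W →
      (∀ F ∈ W, (∀ h : cong 1, ∀ p, F.1 (tr h.1 0 p) = F.1 p) ∧ A.E F F ≤ Λ * A.N F F) →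
      Module.finrank ℝ W ≤ k₀ := by
  obtain ⟨X, a, b, hX, ha, hb1, hab, hcov⟩ := box_bounds
  obtain ⟨R, hR⟩ : ∃ R : ℝ, R = 2 * (1 + (X ^ 2 + (b + 1) ^ 2) / (2 * a)) := ⟨_, rfl⟩
  obtain ⟨C, hC⟩ : ∃ C : ℕ, C = (finite_small (2 * R)).toFinset.card := ⟨_, rfl⟩
  -- the size of the boxes
  have hb0 : 0 < b := by linarith
  obtain ⟨B, hB⟩ : ∃ B : ℝ, B = 4 * b ^ 2 / a ^ 2 * ((C : ℝ) + 1) * (|Λ| + 1) := ⟨_, rfl⟩
  have hB0 : 0 < B := by
    rw [hB]
    positivity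
  obtain ⟨δ, hδ0, hδB⟩ : ∃ δ : ℝ, 0 < δ ∧ δ ^ 2 * B < 1 :=
    ⟨1 / (B + 1), div_pos one_pos (by linarith), small_delta hB0⟩
  obtain ⟨M, hM⟩ := exists_nat_gt (max (2 * X / δ) ((b - a) / δ))
  have hM1 : 2 * X / δ < M := (le_max_left _ _).trans_lt hM
  have hM2 : (b - a) / δ < M := (le_max_right _ _).trans_lt hM
  have hM0 : (0 : ℝ) < M := lt_trans (by positivity) hM1
  obtain ⟨s, hs⟩ : ∃ s : ℝ, s = 2 * X / M := ⟨_, rfl⟩
  obtain ⟨t, ht⟩ : ∃ t : ℝ, t = (b - a) / M := ⟨_, rfl⟩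
  have hba : 0 < b - a := by linarith
  have hs0 : 0 < s := by
    rw [hs]
    exact div_pos (by linarith) hM0
  have ht0 : 0 < t := by
    rw [ht]
    exact div_pos hba hM0
  have hsδ : s ≤ δ := by
    rw [hs, div_le_iff₀ hM0]
    rw [div_lt_iff₀ hδ0] at hM1
    linarith
  have htδ : t ≤ δ := by
    rw [ht, div_le_iff₀ hM0]
    rw [div_lt_iff₀ hδ0] at hM2
    linarith
  have hMs : -X + M * s = X := by
    rw [hs, mul_div_cancel₀ _ hM0.ne']
    ring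
  have hMt : a + M * t = b := by
    rw [ht, mul_div_cancel₀ _ hM0.ne']
    ring
  refine ⟨M * M, δ, hδ0, ?_⟩
  intro A G _ _ Φ hΦs hΦk hΔ hε W hWf hW
  by_contra hcon
  push Not at hcon
  -- a nonzero function with vanishing box averages
  obtain ⟨F, hFW, hF0, hFL⟩ : ∃ F ∈ W, F ≠ 0 ∧
      boxL A (x₀ := -X) (s := s) ha ht0 M F = 0 := by
    by_contra hno
    push Not at hno
    have hinj : Function.Injective ((boxL A (x₀ := -X) (s := s) ha ht0 M).domRestrict W) := by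
      rw [injective_iff_map_eq_zero]
      intro F hF
      by_contra hne
      exact hno F.1 F.2 (fun h => hne (Subtype.ext h)) hF
    have h1 := LinearMap.finrank_le_finrank_of_injective hinj
    rw [Module.finrank_fintype_fun_eq_card, Fintype.card_prod, Fintype.card_fin] at h1
    omega
  obtain ⟨hFinv, hFE⟩ := hW F hFW
  have hN := A.N_pos F hF0
  set Q : Set ℍ := rect (-X) s a t M with hQ
  have hQm : MeasurableSet Q := measurableSet_rect _ _ _ _ _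
  -- the Poincaré inequality on `Q`
  have hrect := rect_le F.2.1 (x₀ := -X) (b := b) hs0 ha ht0 A.hε hsδ htδ hε (M := M) hMt.le hb1
    (fun i hi j hj => congrFun hFL (⟨i, hi⟩, ⟨j, hj⟩))
  -- the two functions on `ℍ`
  set f : ℍ → ℝ≥0∞ := fun z => ∫⁻ θ in Set.Ico 0 A.ε, ENNReal.ofReal (F.1 (z, θ) ^ 2) with hf
  set e : ℍ → ℝ≥0∞ := fun z => ∫⁻ θ in Set.Ico 0 A.ε, ENNReal.ofReal (ef F.1 F.1 (z, θ)) with he
  have hcF : Continuous F.1 := F.2.1.continuous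
  have hcE : Continuous (ef F.1 F.1) := F.2.1.continuous_ef F.2.1
  have hfm : Measurable f := by
    have : Measurable fun p : ℍ × ℝ => ENNReal.ofReal (F.1 p ^ 2) :=
      (hcF.pow 2).measurable.ennreal_ofReal
    exact this.lintegral_prod_right'
  have hem : Measurable e := by
    have : Measurable fun p : ℍ × ℝ => ENNReal.ofReal (ef F.1 F.1 p) := hcE.measurable.ennreal_ofReal
    exact this.lintegral_prod_right'
  have hfi : ∀ h : cong 1, ∀ z, f (h.1 • z) = f z := by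
    intro h z
    refine lintegral_congr fun θ => ?_
    have := hFinv h (z, θ)
    simp only [tr, add_zero] at this
    rw [this]
  have hei : ∀ h : cong 1, ∀ z, e (h.1 • z) = e z := by
    intro h z
    refine lintegral_congr fun θ => ?_
    have h1 := ef_comp_tr F.2.1 F.2.1 h.1 0 (z, θ)
    have h2 : F.1 ∘ tr h.1 0 = F.1 := funext (hFinv h)
    rw [h2] at h1
    simp only [tr, add_zero] at h1
    rw [h1]
  have c1 := A.count_identity Φ hΦs hΦk hΔ hQm hfm hfi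
  have c2 := A.count_identity Φ hΦs hΦk hΔ hQm hem hei
  set J : ℝ≥0∞ := ∑' _g : G, 1 with hJ
  have hQR : ∀ z ∈ Q, dist UpperHalfPlane.I z ≤ R := by
    rintro z ⟨hz1, hz2⟩
    simp only at hz1 hz2
    rw [hMs] at hz1
    rw [hMt] at hz2
    rw [hR]
    refine dist_I_le ha ?_ hz2.1 hz2.2.le
    rw [abs_le]
    exact ⟨hz1.1, hz1.2.le⟩
  have hcge : ∀ z, 1 ≤ Setup.cnt (cong 1) Q z := by
    intro z
    apply Setup.cnt_ge
    obtain ⟨g, hg, h1, h2⟩ := hcov z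
    refine ⟨g, hg, ?_⟩
    show (_ ∈ _)
    rw [hQ]
    unfold rect
    rw [Set.mem_ofPred_eq, hMs, hMt]
    exact ⟨h1, h2⟩
  have hcle : ∀ z, Setup.cnt (cong 1) Q z ≤ C := by
    rw [hC]
    exact Setup.cnt_le hQR
  -- the chain
  have i1 : ∫⁻ z in A.D, f z ≤ ENNReal.ofReal (4 * δ ^ 2 * b ^ 2 / a ^ 2) * (C * ∫⁻ z in A.D, e z) := by
    calc ∫⁻ z in A.D, f z ≤ ∫⁻ z in A.D, f z * Setup.cnt (cong 1) Q z :=
          lintegral_mono fun z => by
            calc f z = f z * 1 := (mul_one _).symm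
              _ ≤ _ := mul_le_mul_right (hcge z) _
      _ = J * ∫⁻ z in Q, f z := c1
      _ ≤ J * (ENNReal.ofReal (4 * δ ^ 2 * b ^ 2 / a ^ 2) * ∫⁻ z in Q, e z) :=
          mul_le_mul_right hrect _
      _ = ENNReal.ofReal (4 * δ ^ 2 * b ^ 2 / a ^ 2) * (J * ∫⁻ z in Q, e z) := by ring
      _ = ENNReal.ofReal (4 * δ ^ 2 * b ^ 2 / a ^ 2) *
          ∫⁻ z in A.D, e z * Setup.cnt (cong 1) Q z := by rw [c2]
      _ ≤ _ := by
          gcongr
          rw [← lintegral_const_mul _ hem]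
          refine lintegral_mono fun z => ?_
          rw [mul_comm]
          exact mul_le_mul_left (hcle z) _
  have hNe : ENNReal.ofReal (A.N F F) = ∫⁻ z in A.D, f z := by
    rw [Setup.N_apply, A.ofReal_integral (φ := fun p => F.1 p * F.1 p) (Setup.isInv_mul F.2 F.2)
      (hcF.mul hcF) fun p => mul_self_nonneg _]
    refine lintegral_congr fun z => lintegral_congr fun θ => ?_
    rw [sq]
  have hEe : ENNReal.ofReal (A.E F F) = ∫⁻ z in A.D, e z := by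
    rw [Setup.E_apply, A.ofReal_integral (Setup.isInv_ef F.2 F.2) hcE fun p => ef_nonneg _ p]
  rw [← hNe, ← hEe, ← ENNReal.ofReal_natCast, ← ENNReal.ofReal_mul (Nat.cast_nonneg _),
    ← ENNReal.ofReal_mul (by positivity)] at i1
  have hEn := A.E_nonneg F
  have i2 : A.N F F ≤ 4 * δ ^ 2 * b ^ 2 / a ^ 2 * ((C : ℝ) * A.E F F) :=
    (ENNReal.ofReal_le_ofReal_iff (by positivity)).mp i1
  have i3 : (C : ℝ) * A.E F F ≤ ((C : ℝ) + 1) * ((|Λ| + 1) * A.N F F) := by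
    have h1 : A.E F F ≤ (|Λ| + 1) * A.N F F := by
      refine hFE.trans ?_
      have := le_abs_self Λ
      nlinarith
    have h2 : (0 : ℝ) ≤ C := Nat.cast_nonneg _
    nlinarith
  have i4 : A.N F F ≤ δ ^ 2 * B * A.N F F := by
    calc A.N F F ≤ 4 * δ ^ 2 * b ^ 2 / a ^ 2 * ((C : ℝ) * A.E F F) := i2
      _ ≤ 4 * δ ^ 2 * b ^ 2 / a ^ 2 * (((C : ℝ) + 1) * ((|Λ| + 1) * A.N F F)) := by gcongr
      _ = δ ^ 2 * B * A.N F F := by rw [hB]; ring
  nlinarith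

end Pool.Agent.H85R3.RM
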