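import Pool.Agent.H85R3.RMMan
import Pool.Agent.H85R3.RMBound
import Pool.Agent.H85R3.RMPlateau

/-! The manifold of a setup: volume and eigenvalues. -/

set_option autoImplicit false

open scoped MatrixGroups UpperHalfPlane ContDiff Topology Pointwise ENNReal
open MeasureTheory UpperHalfPlane Matrix

namespace Pool.Agent.H85R3.RM

open Pool.Agent.H85R3.HS

theorem smooth_met (i j : Fin 3) : ContDiffOn ℝ ∞ (fun x => met x i j) half := by
  have h2 : ContDiffOn ℝ ∞ (fun x : Fin 3 → ℝ => (x 2 ^ 2)⁻¹) half := by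
    refine ContDiffOn.inv (by fun_prop) fun x hx => ?_
    exact pow_ne_zero 2 (show 0 < x 2 from hx).ne'
  unfold met
  by_cases hij : i = j
  · subst hij
    simp only [Matrix.diagonal_apply_eq]
    fin_cases i
    · exact contDiffOn_const
    · exact h2
    · exact h2
  · simp only [Matrix.diagonal_apply_ne _ hij]
    exact contDiffOn_const

theorem posDef_met {x : Fin 3 → ℝ} (hx : x ∈ half) : (met x).PosDef := by
  have h : 0 < x 2 := hx
  unfold met
  apply Matrix.PosDef.diagonal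
  intro i
  fin_cases i
  · exact one_pos
  · show 0 < (x 2 ^ 2)⁻¹
    positivity
  · show 0 < (x 2 ^ 2)⁻¹
    positivity

namespace Setup

variable (A : Setup)

/-- The closed Riemannian manifold `(ℍ / Γ) × (ℝ / εℤ)`. -/
noncomputable def man : ClosedManifold 3 where
  dom := half
  isOpen_dom := isOpen_half
  isConnected_dom := isConnected_half
  metric := met
  smooth_metric := smooth_met
  posDef_metric _ hx := posDef_met hx
  deck := A.Γ × Multiplicative ℤ
  group_deck := inferInstance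
  act g := mo g.1.1 (A.tl g)
  act_mem _ _ hx := mo_mem _ _ hx
  act_one x hx := by
    have h1 : A.tl 1 = 0 := by
      unfold tl
      simp
    rw [h1, mo_eq _ _ hx]
    have h2 : tr (1 : A.Γ × Multiplicative ℤ).1.1 0 (P x) = P x := tr_one (P x)
    rw [h2, SL_pt_P hx]
  act_mul g h x hx := by
    rw [mo_eq _ _ hx, mo_eq _ _ (mo_mem _ _ hx), P_mo _ _ hx, tr_tr, A.tl_mul]
    rfl
  smooth_act g x hx := (contDiffAt_mo _ _ hx).contDiffWithinAt
  isometry_act g x hx v w := isometry_mo _ _ hx v w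
  covering_act x hx := A.covering hx
  separated_act x hx y hy hne := A.separated hx hy hne
  cocompact_act := A.cocompactS
  fund := A.fundS
  measurable_fund := A.measurable_fundS
  fund_subset _ hx := hx.1
  fund_unique _ hx := A.fund_uniqueS hx

theorem ricci_man : RicciGE A.man (-((3 - 1) * (1 / 2))) := by
  intro x hx v
  show -((3 - 1) * (1 / 2)) * (v ⬝ᵥ (met x *ᵥ v)) ≤ ∑ i, ∑ j, ricci met i j x * v i * v j
  rw [ricci_form hx, met_apply]
  nlinarith [sq_nonneg (v 0)]

end Setup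

/-- Coordinates as a measurable equivalence. -/
noncomputable def TE : (Fin 3 → ℝ) ≃ᵐ ℝ × ℂ :=
  (MeasurableEquiv.piFinSuccAbove (fun _ => ℝ) 0).trans
    ((MeasurableEquiv.refl ℝ).prodCongr Complex.measurableEquivPi.symm)

theorem TE_apply (x : Fin 3 → ℝ) : TE x = (x 0, (⟨x 1, x 2⟩ : ℂ)) := by
  have h1 : TE x = (x 0, Complex.measurableEquivPi.symm (fun i : Fin 2 => x i.succ)) := rfl
  rw [h1, Complex.measurableEquivPi_symm_apply]
  apply Prod.ext
  · rfl
  · exact (Complex.mk_eq_add_mul_I _ _).symm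

theorem measurePreserving_TE : MeasurePreserving TE (volume : Measure (Fin 3 → ℝ))
    (volume : Measure (ℝ × ℂ)) := by
  have h1 := volume_preserving_piFinSuccAbove (fun _ : Fin 3 => ℝ) 0
  have h2 : MeasurePreserving ((MeasurableEquiv.refl ℝ).prodCongr Complex.measurableEquivPi.symm)
      (volume : Measure (ℝ × (Fin 2 → ℝ))) (volume : Measure (ℝ × ℂ)) := by
    rw [Measure.volume_eq_prod, Measure.volume_eq_prod]
    exact (MeasurePreserving.id _).prod Complex.volume_preserving_equiv_pi.symm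
  exact h2.comp h1

theorem lintegral_fund (A : Setup) {g : ℂ × ℝ → ℝ≥0∞} (hg : Measurable g) :
    ∫⁻ x in A.fundS, g (TL x) * ENNReal.ofReal ((x 2 ^ 2)⁻¹) =
      ∫⁻ z in A.D, ∫⁻ θ in Set.Ico 0 A.ε, g ((z : ℂ), θ) := by
  set B : Set ℂ := UpperHalfPlane.coe '' A.D with hB
  have hBm : MeasurableSet B := measurableEmbedding_coe.measurableSet_image.mpr A.hDm
  have hpos : ∀ w ∈ B, 0 < w.im := by
    rintro _ ⟨z, -, rfl⟩
    exact z.im_pos
  have hD : {z : ℍ | (z : ℂ) ∈ B} = A.D := by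
    ext z
    constructor
    · rintro ⟨w, hw, hwz⟩
      rwa [← UpperHalfPlane.ext hwz]
    · intro hz
      exact ⟨z, hz, rfl⟩
  have hfund : A.fundS = TE ⁻¹' (Set.Ico 0 A.ε ×ˢ B) := by
    ext x
    rw [Set.mem_preimage, TE_apply]
    constructor
    · rintro ⟨h1, h2, h3⟩
      refine ⟨h3, (P x).1, h2, ?_⟩
      exact congrArg Prod.fst (pt_P h1)
    · rintro ⟨h1, w, hw, hwx⟩
      have h2 : x ∈ half := by
        have := w.im_pos
        have h3 : (w : ℂ).im = x 2 := congrArg Complex.im hwx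
        show 0 < x 2
        rw [← h3]
        exact this
      refine ⟨h2, ?_, h1⟩
      have h4 : (P x).1 = w := by
        apply UpperHalfPlane.ext
        exact (congrArg Prod.fst (pt_P h2)).trans hwx.symm
      show (P x).1 ∈ A.D
      rw [h4]
      exact hw
  have hg' : Measurable fun q : ℝ × ℂ => g (q.2, q.1) * ENNReal.ofReal ((q.2.im ^ 2)⁻¹) := by
    have h1 : Measurable fun q : ℝ × ℂ => g (q.2, q.1) := hg.comp (measurable_snd.prodMk measurable_fst)
    exact h1.mul (by fun_prop)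
  have h1 : ∀ x : Fin 3 → ℝ, g (TL x) * ENNReal.ofReal ((x 2 ^ 2)⁻¹) =
      (fun q : ℝ × ℂ => g (q.2, q.1) * ENNReal.ofReal ((q.2.im ^ 2)⁻¹)) (TE x) := by
    intro x
    simp only [TE_apply, TL_apply]
  simp only [h1]
  rw [hfund, measurePreserving_TE.setLIntegral_comp_preimage (measurableSet_Ico.prod hBm) hg',
    Measure.volume_eq_prod, ← Measure.prod_restrict, lintegral_prod_symm' _ hg']
  have h2 : ∀ w : ℂ, ∫⁻ θ in Set.Ico 0 A.ε, g (w, θ) * ENNReal.ofReal ((w.im ^ 2)⁻¹) =
      (∫⁻ θ in Set.Ico 0 A.ε, g (w, θ)) * ENNReal.ofReal ((w.im ^ 2)⁻¹) := fun w =>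
    lintegral_mul_const' _ _ ENNReal.ofReal_ne_top
  simp only [h2]
  rw [← lintegral_hyp (g := fun w => ∫⁻ θ in Set.Ico 0 A.ε, g (w, θ))
    hg.lintegral_prod_right' hBm hpos, hD]

theorem measurable_P : Measurable P :=
  (measurable_ofComplex.comp (continuous_fst.comp TL.continuous).measurable).prodMk
    (continuous_snd.comp TL.continuous).measurable

theorem integral_fund (A : Setup) {Φ : ℍ × ℝ → ℝ} (hΦ : Measurable Φ) (h0 : ∀ p, 0 ≤ Φ p) :
    ∫ x in A.fundS, Φ (P x) * (x 2 ^ 2)⁻¹ = ∫ p in A.D ×ˢ Set.Ico 0 A.ε, Φ p := by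
  have hm : Measurable fun x : Fin 3 → ℝ => Φ (P x) * (x 2 ^ 2)⁻¹ :=
    (hΦ.comp measurable_P).mul (by fun_prop)
  rw [integral_eq_lintegral_of_nonneg_ae (Filter.Eventually.of_forall fun x =>
      mul_nonneg (h0 _) (by positivity)) hm.aestronglyMeasurable,
    integral_eq_lintegral_of_nonneg_ae (Filter.Eventually.of_forall h0) hΦ.aestronglyMeasurable]
  congr 1
  have hg : Measurable fun q : ℂ × ℝ => ENNReal.ofReal (Φ (ofComplex q.1, q.2)) :=
    (hΦ.comp ((measurable_ofComplex.comp measurable_fst).prodMk measurable_snd)).ennreal_ofReal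
  have h1 : ∀ x : Fin 3 → ℝ, ENNReal.ofReal (Φ (P x) * (x 2 ^ 2)⁻¹) =
      (fun q : ℂ × ℝ => ENNReal.ofReal (Φ (ofComplex q.1, q.2))) (TL x) *
        ENNReal.ofReal ((x 2 ^ 2)⁻¹) := fun x => ENNReal.ofReal_mul (h0 _)
  simp only [h1]
  rw [lintegral_fund A hg, Measure.volume_eq_prod, ← Measure.prod_restrict,
    lintegral_prod _ hΦ.ennreal_ofReal.aemeasurable]
  refine lintegral_congr fun z => lintegral_congr fun θ => ?_
  simp only [ofComplex_apply]

theorem vol_man (A : Setup) : vol A.man = (volume A.D).toReal * A.ε := by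
  have h1 : vol A.man = ∫ x in A.fundS, (fun _ : ℍ × ℝ => (1 : ℝ)) (P x) * (x 2 ^ 2)⁻¹ := by
    unfold vol
    refine integral_congr_ae (Filter.Eventually.of_forall fun x => ?_)
    show √(met x).det = 1 * (x 2 ^ 2)⁻¹
    rw [sqrt_det_met, one_mul]
  rw [h1, integral_fund A measurable_const fun _ => zero_le_one, integral_const, smul_eq_mul,
    mul_one, Measure.real, Measure.restrict_apply_univ, Measure.volume_eq_prod, Measure.prod_prod,
    ENNReal.toReal_mul, Real.volume_Ico, sub_zero, ENNReal.toReal_ofReal A.hε.le]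

/-- A function on `ℍ × ℝ` as a function on `ℝ³` (zero outside the half space). -/
noncomputable def extF (F : ℍ × ℝ → ℝ) : (Fin 3 → ℝ) → ℝ := half.indicator fun x => cx F (TL x)

theorem extF_apply (F : ℍ × ℝ → ℝ) {x : Fin 3 → ℝ} (hx : x ∈ half) : extF F x = F (P x) := by
  unfold extF
  rw [Set.indicator_of_mem hx]
  rfl

theorem extF_eventually (F : ℍ × ℝ → ℝ) {x : Fin 3 → ℝ} (hx : x ∈ half) :
    extF F =ᶠ[𝓝 x] fun y => cx F (TL y) := by
  filter_upwards [isOpen_half.mem_nhds hx] with y hy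
  unfold extF
  rw [Set.indicator_of_mem hy]

theorem TL_mem {x : Fin 3 → ℝ} (hx : x ∈ half) : TL x ∈ up := hx

theorem pd_extF {F : ℍ × ℝ → ℝ} (hF : Sm F) {x : Fin 3 → ℝ} (hx : x ∈ half) (i : Fin 3) :
    pd i (extF F) x = dd (TL (Pi.single i 1)) F (P x) := by
  unfold pd dd
  rw [(extF_eventually F hx).fderiv_eq, pt_P hx]
  have h1 : DifferentiableAt ℝ (cx F) (TL x) := by
    rw [← pt_P hx]
    exact hF.differentiableAt _
  have h2 : HasFDerivAt (fun y => cx F (TL y)) ((fderiv ℝ (cx F) (TL x)).comp TL) x :=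
    h1.hasFDerivAt.comp x TL.hasFDerivAt
  rw [h2.fderiv]
  rfl

theorem TL_single : TL (Pi.single 0 1) = (0, 1) ∧ TL (Pi.single 1 1) = (1, 0) ∧
    TL (Pi.single 2 1) = (Complex.I, 0) := by
  refine ⟨?_, ?_, ?_⟩ <;> rw [TL_apply] <;> apply Prod.ext <;> simp <;> apply Complex.ext <;> simp

theorem gradSq_extF (A : Setup) {F : ℍ × ℝ → ℝ} (hF : Sm F) {x : Fin 3 → ℝ} (hx : x ∈ half) :
    gradSq A.man (extF F) x = ef F F (P x) := by
  show ∑ i, ∑ j, (met x)⁻¹ i j * pd i (extF F) x * pd j (extF F) x = _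
  rw [met_inv hx]
  obtain ⟨e0, e1, e2⟩ := TL_single
  simp only [pd_extF hF hx, Fin.sum_univ_three, e0, e1, e2]
  unfold ef
  rw [P_im hx]
  simp [Matrix.diagonal]
  ring

theorem smooth_extF {F : ℍ × ℝ → ℝ} (hF : Sm F) : ContDiffOn ℝ ∞ (extF F) half := by
  intro x hx
  refine ContDiffAt.contDiffWithinAt ?_
  refine ContDiffAt.congr_of_eventuallyEq ?_ (extF_eventually F hx)
  have h1 : ContDiffAt ℝ ∞ (cx F) (TL x) := by
    rw [← pt_P hx]
    exact hF.contDiffAt _
  exact h1.comp x TL.contDiff.contDiffAt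

/-- Extension as a linear map. -/
noncomputable def extL (A : Setup) : A.Inv →ₗ[ℝ] ((Fin 3 → ℝ) → ℝ) where
  toFun F := extF F.1
  map_add' F G := by
    funext x
    by_cases hx : x ∈ half
    · rw [Pi.add_apply, extF_apply _ hx, extF_apply _ hx, extF_apply _ hx]
      rfl
    · simp [extF, hx]
  map_smul' c F := by
    funext x
    by_cases hx : x ∈ half
    · rw [Pi.smul_apply, extF_apply _ hx, extF_apply _ hx]
      rfl
    · simp [extF, hx]

theorem extL_injective (A : Setup) : Function.Injective (extL A) := by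
  intro F G h
  apply Subtype.ext
  funext p
  have h1 := congrFun h (SL (pt p))
  have h2 : extF F.1 (SL (pt p)) = extF G.1 (SL (pt p)) := h1
  rwa [extF_apply _ (SL_mem p), extF_apply _ (SL_mem p), P_SL] at h2

theorem tr_int (A : Setup) {F : ℍ × ℝ → ℝ} (hF : F ∈ A.Inv) (g : A.Γ × Multiplicative ℤ)
    (p : ℍ × ℝ) : F (tr g.1.1 (A.tl g) p) = F p := by
  have hinv : A.IsInv F := hF.2
  have hper := (hinv.periodic (g.1.1 • p.1)).int_mul (Multiplicative.toAdd g.2) p.2
  have h5 := hF.2.1 g.1.1 g.1.2 p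
  simp only [tr] at hper h5 ⊢
  unfold Setup.tl
  rw [hper, ← h5, add_zero]

theorem isFunction_ext (A : Setup) (F : A.Inv) : IsFunction A.man (extL A F) where
  smooth := smooth_extF F.2.1
  eq_zero x hx := by
    show extF F.1 x = 0
    exact Set.indicator_of_notMem (s := half) hx _
  invariant g x hx := by
    show extF F.1 (mo g.1.1 (A.tl g) x) = extF F.1 x
    rw [extF_apply _ (mo_mem _ _ hx), extF_apply _ hx, P_mo _ _ hx]
    exact tr_int A F.2 g (P x)

/-- Every function on the manifold comes from a function on `ℍ × ℝ`. -/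
theorem exists_of_isFunction (A : Setup) {f : (Fin 3 → ℝ) → ℝ} (hf : IsFunction A.man f) :
    ∃ F : A.Inv, extL A F = f := by
  set F : ℍ × ℝ → ℝ := fun p => f (SL (pt p)) with hF
  have hsm : Sm F := by
    intro q hq
    refine ContDiffAt.contDiffWithinAt ?_
    have h1 : cx F =ᶠ[𝓝 q] fun q => f (SL q) := by
      filter_upwards [isOpen_up.mem_nhds hq] with q' hq'
      show f (SL (pt (ofComplex q'.1, q'.2))) = f (SL q')
      unfold pt
      rw [ofComplex_apply_of_im_pos (show 0 < q'.1.im from hq')]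
    refine ContDiffAt.congr_of_eventuallyEq ?_ h1
    have h2 : ContDiffAt ℝ ∞ f (SL q) := by
      refine hf.smooth.contDiffAt (isOpen_half.mem_nhds ?_)
      show 0 < (SL q) 2
      rw [SL_apply]
      exact hq
    exact h2.comp q SL.contDiff.contDiffAt
  have hinv : ∀ (g : SL(2, ℝ)) (hg : g ∈ A.Γ) (n : ℤ) (p : ℍ × ℝ), F (tr g (n * A.ε) p) = F p := by
    intro g hg n p
    have h1 := hf.invariant (⟨g, hg⟩, Multiplicative.ofAdd n) (SL (pt p)) (SL_mem p)
    have h2 : A.man.act (⟨g, hg⟩, Multiplicative.ofAdd n) (SL (pt p)) = SL (pt (tr g (n * A.ε) p)) := by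
      show mo g (A.tl (⟨g, hg⟩, Multiplicative.ofAdd n)) (SL (pt p)) = _
      rw [mo_eq _ _ (SL_mem p), P_SL]
      rfl
    rw [h2] at h1
    exact h1
  refine ⟨⟨F, hsm, fun g hg p => ?_, fun p => ?_⟩, ?_⟩
  · have := hinv g hg 0 p
    simpa using this
  · have := hinv 1 A.Γ.one_mem 1 p
    simpa using this
  · funext x
    show extF F x = f x
    by_cases hx : x ∈ half
    · rw [extF_apply _ hx]
      show f (SL (pt (P x))) = f x
      rw [SL_pt_P hx]
    · rw [hf.eq_zero x hx]
      exact Set.indicator_of_notMem hx _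

theorem rayleigh_iff (A : Setup) (F : A.Inv) (t : ℝ) :
    RayleighLE A.man (extL A F) t ↔ A.E F F ≤ t * A.N F F := by
  have hcF : Continuous F.1 := F.2.1.continuous
  have hcE : Continuous (ef F.1 F.1) := F.2.1.continuous_ef F.2.1
  have h1 : ∫ x in A.man.fund, gradSq A.man (extL A F) x * √(A.man.metric x).det = A.E F F := by
    rw [Setup.E_apply, ← integral_fund A hcE.measurable fun p => ef_nonneg _ p]
    refine setIntegral_congr_fun A.measurable_fundS fun x hx => ?_
    show gradSq A.man (extF F.1) x * √(met x).det = ef F.1 F.1 (P x) * (x 2 ^ 2)⁻¹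
    rw [gradSq_extF A F.2.1 hx.1, sqrt_det_met]
  have h2 : ∫ x in A.man.fund, (extL A F) x ^ 2 * √(A.man.metric x).det = A.N F F := by
    rw [Setup.N_apply, ← integral_fund A (Φ := fun p => F.1 p * F.1 p) (hcF.mul hcF).measurable
      fun p => mul_self_nonneg _]
    refine setIntegral_congr_fun A.measurable_fundS fun x hx => ?_
    show (extF F.1) x ^ 2 * √(met x).det = F.1 (P x) * F.1 (P x) * (x 2 ^ 2)⁻¹
    rw [extF_apply _ hx.1, sqrt_det_met, sq]
  unfold RayleighLE
  rw [h1, h2]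

theorem eigenvalue_man (A : Setup) (k : ℕ) : eigenvalue A.man k = minmax A.E A.N k := by
  unfold eigenvalue minmax
  congr 1
  ext t
  constructor
  · rintro ⟨ht, W, hW1, hW2⟩
    have hrange : W ≤ LinearMap.range (extL A) := by
      intro f hf
      obtain ⟨F, hF⟩ := exists_of_isFunction A (hW2 f hf).1
      exact ⟨F, hF⟩
    refine ⟨ht, W.comap (extL A), ?_, fun F hF => ?_⟩
    · have h1 : (W.comap (extL A)).map (extL A) = W := Submodule.map_comap_eq_of_le hrange
      have h2 := (Submodule.equivMapOfInjective (extL A) (extL_injective A)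
        (W.comap (extL A))).finrank_eq
      rw [h1] at h2
      rw [h2, hW1]
    · exact (rayleigh_iff A F t).mp (hW2 _ hF).2
  · rintro ⟨ht, W, hW1, hW2⟩
    refine ⟨ht, W.map (extL A), ?_, ?_⟩
    · rw [← (Submodule.equivMapOfInjective (extL A) (extL_injective A) W).finrank_eq, hW1]
    · rintro _ ⟨F, hF, rfl⟩
      exact ⟨isFunction_ext A F, (rayleigh_iff A F t).mpr (hW2 F hF)⟩

end Pool.Agent.H85R3.RM
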