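import Pool.Agent.H85R3.RMSpace

/-! The space of smooth functions on `(ℍ / Γ) × (ℝ / εℤ)`, with the energy form and the `L²` form. -/

set_option autoImplicit false

open scoped MatrixGroups UpperHalfPlane ContDiff Topology Pointwise ENNReal
open MeasureTheory UpperHalfPlane

namespace Pool.Agent.H85R3.RM

open Pool.Agent.H85R3.HS

/-- The data of a closed hyperbolic surface `ℍ / Γ` and of a circle of length `ε`. -/
structure Setup where
  Γ : Subgroup SL(2, ℝ)
  S : ℝ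
  hS : 0 < S
  hM : MovesFar Γ S
  K : Set ℍ
  hK : IsCompact K
  hKΓ : ∀ z : ℍ, ∃ g ∈ Γ, g • z ∈ K
  D : Set ℍ
  hDm : MeasurableSet D
  hDu : ∀ z : ℍ, ∃! g : Γ, g.1 • z ∈ D
  ε : ℝ
  hε : 0 < ε

theorem exists_strict {Γ : Subgroup SL(2, ℝ)} {S : ℝ} (h : MovesFar Γ S) (hS : 0 < S) :
    ∃ D : Set ℍ, MeasurableSet D ∧ ∀ z : ℍ, ∃! g : Γ, g.1 • z ∈ D := by
  have : Countable Γ := h.countable hS
  set p : ℕ → ℍ := TopologicalSpace.denseSeq ℍ with hp
  set B : ℕ → Set ℍ := fun k => Metric.ball (p k) (S / 2) with hB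
  set A : ℕ → Set ℍ := fun k => ⋃ g : Γ, g • B k with hA
  have hAm : ∀ k, MeasurableSet (A k) := fun k =>
    MeasurableSet.iUnion fun g => (Metric.isOpen_ball.measurableSet).const_smul g
  have hAinv : ∀ k (g : Γ) (z : ℍ), g • z ∈ A k ↔ z ∈ A k := by
    intro k g z
    simp only [hA, Set.mem_iUnion, Set.mem_smul_set_iff_inv_smul_mem]
    constructor
    · rintro ⟨g', hg'⟩
      refine ⟨g⁻¹ * g', ?_⟩
      rwa [mul_inv_rev, inv_inv, mul_smul]
    · rintro ⟨g', hg'⟩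
      refine ⟨g * g', ?_⟩
      rwa [mul_inv_rev, mul_smul, inv_smul_smul]
  have hdinv : ∀ k (g : Γ) (z : ℍ), g • z ∈ disjointed A k ↔ z ∈ disjointed A k := by
    intro k g z
    rw [disjointed_eq_inter_compl]
    simp only [Set.mem_inter_iff, Set.mem_iInter, Set.mem_compl_iff, hAinv]
  have hcov : ∀ z : ℍ, ∃ k, z ∈ disjointed A k := by
    intro z
    have h1 : z ∈ ⋃ k, A k := by
      obtain ⟨k, hk⟩ := (TopologicalSpace.denseRange_denseSeq ℍ).exists_dist_lt z
        (show 0 < S / 2 by linarith)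
      refine Set.mem_iUnion.mpr ⟨k, Set.mem_iUnion.mpr ⟨1, ?_⟩⟩
      rw [one_smul]
      exact hk
    rw [← iUnion_disjointed] at h1
    exact Set.mem_iUnion.mp h1
  refine ⟨⋃ k, B k ∩ disjointed A k, MeasurableSet.iUnion fun k =>
    Metric.isOpen_ball.measurableSet.inter (MeasurableSet.disjointed hAm k), ?_⟩
  intro z
  obtain ⟨k, hk⟩ := hcov z
  have h2 : z ∈ A k := disjointed_subset A k hk
  obtain ⟨g, hg⟩ := Set.mem_iUnion.mp h2
  rw [Set.mem_smul_set_iff_inv_smul_mem] at hg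
  refine ⟨g⁻¹, Set.mem_iUnion.mpr ⟨k, hg, (hdinv k _ z).mpr hk⟩, ?_⟩
  intro g' hg'
  obtain ⟨k', hk'1, hk'2⟩ := Set.mem_iUnion.mp hg'
  have hk'3 : z ∈ disjointed A k' := (hdinv k' g' z).mp hk'2
  have hkk : k' = k := by
    by_contra hne
    exact Set.disjoint_left.mp (disjoint_disjointed A hne) hk'3 hk
  subst hkk
  apply Subtype.ext
  refine h.eq_of_dist_lt g'.2 (g⁻¹).2 (z := z) ?_
  have h3 : dist (g'.1 • z) (p k') < S / 2 := hk'1
  have h4 : dist ((g⁻¹).1 • z) (p k') < S / 2 := hg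
  calc dist (g'.1 • z) ((g⁻¹).1 • z) ≤ dist (g'.1 • z) (p k') + dist ((g⁻¹).1 • z) (p k') :=
        dist_triangle_right _ _ _
    _ < S := by linarith

namespace Setup

variable (A : Setup)

theorem countable : Countable A.Γ := A.hM.countable A.hS

theorem fd : IsFundamentalDomain A.Γ A.D (volume : Measure ℍ) :=
  IsFundamentalDomain.mk' A.hDm.nullMeasurableSet A.hDu

theorem vol_lt : volume A.D < ⊤ :=
  (A.hM.volume_le_of_cover A.hS A.fd A.hKΓ).trans_lt A.hK.measure_lt_top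

/-- The smooth functions on `(ℍ / Γ) × (ℝ / εℤ)`. -/
def Inv : Submodule ℝ (ℍ × ℝ → ℝ) where
  carrier := {F | Sm F ∧ (∀ g ∈ A.Γ, ∀ p, F (tr g 0 p) = F p) ∧ ∀ p, F (tr 1 A.ε p) = F p}
  add_mem' := by
    rintro F F' ⟨h1, h2, h3⟩ ⟨h1', h2', h3'⟩
    refine ⟨h1.add h1', fun g hg p => ?_, fun p => ?_⟩
    · simp only [Pi.add_apply, h2 g hg p, h2' g hg p]
    · simp only [Pi.add_apply, h3 p, h3' p]
  zero_mem' := ⟨Sm.zero, fun _ _ _ => rfl, fun _ => rfl⟩
  smul_mem' := by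
    rintro c F ⟨h1, h2, h3⟩
    refine ⟨h1.smul c, fun g hg p => ?_, fun p => ?_⟩
    · simp only [Pi.smul_apply, h2 g hg p]
    · simp only [Pi.smul_apply, h3 p]

/-- Invariance of a function under the group generated by `Γ` and the translation by `ε`. -/
def IsInv (φ : ℍ × ℝ → ℝ) : Prop :=
  (∀ g ∈ A.Γ, ∀ p, φ (tr g 0 p) = φ p) ∧ ∀ p, φ (tr 1 A.ε p) = φ p

variable {A}

theorem IsInv.periodic {φ : ℍ × ℝ → ℝ} (h : A.IsInv φ) (z : ℍ) :
    Function.Periodic (fun θ => φ (z, θ)) A.ε := by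
  intro θ
  have := h.2 (z, θ)
  simpa [tr] using this

theorem IsInv.bounded {φ : ℍ × ℝ → ℝ} (h : A.IsInv φ) (hc : Continuous φ) :
    ∃ C : ℝ, ∀ p, |φ p| ≤ C := by
  obtain ⟨C, hC⟩ := (A.hK.prod (isCompact_Icc (a := (0 : ℝ)) (b := A.ε))).exists_bound_of_continuousOn
    hc.continuousOn
  refine ⟨C, fun p => ?_⟩
  obtain ⟨g, hg, hgz⟩ := A.hKΓ p.1
  obtain ⟨y, hy, hy2⟩ := (h.periodic (g • p.1)).exists_mem_Ico₀ A.hε p.2
  have h1 : φ p = φ (g • p.1, y) := by
    rw [← hy2, ← h.1 g hg p]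
    simp [tr]
  rw [h1]
  exact hC (g • p.1, y) ⟨hgz, hy.1, hy.2.le⟩

theorem IsInv.integrableOn {φ : ℍ × ℝ → ℝ} (h : A.IsInv φ) (hc : Continuous φ) :
    IntegrableOn φ (A.D ×ˢ Set.Ico 0 A.ε) := by
  obtain ⟨C, hC⟩ := h.bounded hc
  refine Measure.integrableOn_of_bounded (M := C) ?_ hc.aestronglyMeasurable
    (Filter.Eventually.of_forall fun p => hC p)
  rw [Measure.volume_eq_prod, Measure.prod_prod]
  exact (ENNReal.mul_lt_top A.vol_lt (by simp)).ne

theorem isInv_mul {F F' : ℍ × ℝ → ℝ} (h : F ∈ A.Inv) (h' : F' ∈ A.Inv) :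
    A.IsInv (fun p => F p * F' p) := by
  refine ⟨fun g hg p => ?_, fun p => ?_⟩
  · simp only [h.2.1 g hg p, h'.2.1 g hg p]
  · simp only [h.2.2 p, h'.2.2 p]

theorem isInv_ef {F F' : ℍ × ℝ → ℝ} (h : F ∈ A.Inv) (h' : F' ∈ A.Inv) : A.IsInv (ef F F') := by
  refine ⟨fun g hg p => ?_, fun p => ?_⟩
  · rw [← ef_comp_tr h.1 h'.1]
    congr 1
    · exact funext (h.2.1 g hg)
    · exact funext (h'.2.1 g hg)
  · rw [← ef_comp_tr h.1 h'.1]
    congr 1
    · exact funext h.2.2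
    · exact funext h'.2.2

theorem integrable_mul {F F' : ℍ × ℝ → ℝ} (h : F ∈ A.Inv) (h' : F' ∈ A.Inv) :
    IntegrableOn (fun p => F p * F' p) (A.D ×ˢ Set.Ico 0 A.ε) :=
  (isInv_mul h h').integrableOn (h.1.continuous.mul h'.1.continuous)

theorem integrable_ef {F F' : ℍ × ℝ → ℝ} (h : F ∈ A.Inv) (h' : F' ∈ A.Inv) :
    IntegrableOn (ef F F') (A.D ×ˢ Set.Ico 0 A.ε) :=
  (isInv_ef h h').integrableOn (h.1.continuous_ef h'.1)

theorem ef_add_left {F F' G : ℍ × ℝ → ℝ} (h : Sm F) (h' : Sm F') (p : ℍ × ℝ) :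
    ef (F + F') G p = ef F G p + ef F' G p := by
  unfold ef
  simp only [dd_add h h']
  ring

theorem ef_smul_left {F G : ℍ × ℝ → ℝ} (h : Sm F) (c : ℝ) (p : ℍ × ℝ) :
    ef (c • F) G p = c * ef F G p := by
  unfold ef
  simp only [dd_smul h]
  ring

variable (A)

/-- The energy form. -/
noncomputable def E : A.Inv →ₗ[ℝ] A.Inv →ₗ[ℝ] ℝ :=
  LinearMap.mk₂ ℝ (fun F G => ∫ p in A.D ×ˢ Set.Ico 0 A.ε, ef F.1 G.1 p)
    (by
      intro F F' G
      rw [← integral_add (integrable_ef F.2 G.2) (integrable_ef F'.2 G.2)]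
      exact integral_congr_ae (Filter.Eventually.of_forall fun p => ef_add_left F.2.1 F'.2.1 p))
    (by
      intro c F G
      rw [smul_eq_mul, ← integral_const_mul]
      exact integral_congr_ae (Filter.Eventually.of_forall fun p => ef_smul_left F.2.1 c p))
    (by
      intro F G G'
      rw [← integral_add (integrable_ef F.2 G.2) (integrable_ef F.2 G'.2)]
      refine integral_congr_ae (Filter.Eventually.of_forall fun p => ?_)
      simp only [ef_comm F.1]
      exact ef_add_left G.2.1 G'.2.1 p)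
    (by
      intro c F G
      rw [smul_eq_mul, ← integral_const_mul]
      refine integral_congr_ae (Filter.Eventually.of_forall fun p => ?_)
      simp only [ef_comm F.1]
      exact ef_smul_left G.2.1 c p)

/-- The `L²` form. -/
noncomputable def N : A.Inv →ₗ[ℝ] A.Inv →ₗ[ℝ] ℝ :=
  LinearMap.mk₂ ℝ (fun F G => ∫ p in A.D ×ˢ Set.Ico 0 A.ε, F.1 p * G.1 p)
    (by
      intro F F' G
      rw [← integral_add (integrable_mul F.2 G.2) (integrable_mul F'.2 G.2)]
      exact integral_congr_ae (Filter.Eventually.of_forall fun p => add_mul _ _ _))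
    (by
      intro c F G
      rw [smul_eq_mul, ← integral_const_mul]
      exact integral_congr_ae (Filter.Eventually.of_forall fun p => mul_assoc _ _ _))
    (by
      intro F G G'
      rw [← integral_add (integrable_mul F.2 G.2) (integrable_mul F.2 G'.2)]
      exact integral_congr_ae (Filter.Eventually.of_forall fun p => mul_add _ _ _))
    (by
      intro c F G
      rw [smul_eq_mul, ← integral_const_mul]
      exact integral_congr_ae (Filter.Eventually.of_forall fun p => mul_left_comm _ _ _))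

theorem E_apply (F G : A.Inv) : A.E F G = ∫ p in A.D ×ˢ Set.Ico 0 A.ε, ef F.1 G.1 p := rfl

theorem N_apply (F G : A.Inv) : A.N F G = ∫ p in A.D ×ˢ Set.Ico 0 A.ε, F.1 p * G.1 p := rfl

theorem E_symm (F G : A.Inv) : A.E F G = A.E G F := by
  rw [E_apply, E_apply]
  exact integral_congr_ae (Filter.Eventually.of_forall fun p => ef_comm _ _ p)

theorem N_symm (F G : A.Inv) : A.N F G = A.N G F := by
  rw [N_apply, N_apply]
  exact integral_congr_ae (Filter.Eventually.of_forall fun p => mul_comm _ _)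

theorem E_nonneg (F : A.Inv) : 0 ≤ A.E F F := integral_nonneg fun p => ef_nonneg _ p

theorem measurePreserving_tr (h : SL(2, ℝ)) (c : ℝ) :
    MeasurePreserving (tr h c) (volume : Measure (ℍ × ℝ)) volume := by
  rw [Measure.volume_eq_prod]
  exact (measurePreserving_smul h (volume : Measure ℍ)).prod
    (measurePreserving_add_right (volume : Measure ℝ) c)

theorem N_pos (F : A.Inv) (hF : F ≠ 0) : 0 < A.N F F := by
  have hcount := A.countable
  rw [N_apply]
  have h0 : ∀ p, 0 ≤ F.1 p * F.1 p := fun p => mul_self_nonneg _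
  have hI : 0 ≤ ∫ p in A.D ×ˢ Set.Ico 0 A.ε, F.1 p * F.1 p := integral_nonneg fun p => h0 p
  rcases hI.lt_or_eq with h | h
  · exact h
  exfalso
  have h1 := (integral_eq_zero_iff_of_nonneg (fun p => h0 p) (integrable_mul F.2 F.2)).mp h.symm
  set O : Set (ℍ × ℝ) := {p | F.1 p ≠ 0} with hO
  have hOo : IsOpen O := isOpen_ne_fun F.2.1.continuous continuous_const
  have hms : MeasurableSet (A.D ×ˢ Set.Ico 0 A.ε) := A.hDm.prod measurableSet_Ico
  have h2 : volume (O ∩ A.D ×ˢ Set.Ico 0 A.ε) = 0 := by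
    have h3 : volume.restrict (A.D ×ˢ Set.Ico 0 A.ε) O = 0 := by
      refine measure_mono_null ?_ (ae_iff.mp h1)
      intro p hp hp2
      apply hp
      exact mul_self_eq_zero.mp hp2
    rwa [Measure.restrict_apply hOo.measurableSet] at h3
  have hcov : O ⊆ ⋃ g : A.Γ, ⋃ n : ℤ, tr g.1 (n * A.ε) ⁻¹' (O ∩ A.D ×ˢ Set.Ico 0 A.ε) := by
    intro p hp
    obtain ⟨g, hg, -⟩ := A.hDu p.1
    have hinv : A.IsInv F.1 := F.2.2
    have hper := hinv.periodic (g.1 • p.1)
    obtain ⟨n, hn, -⟩ := existsUnique_add_zsmul_mem_Ico A.hε p.2 0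
    refine Set.mem_iUnion.mpr ⟨g, Set.mem_iUnion.mpr ⟨n, ?_, hg, ?_⟩⟩
    · have h3 : F.1 (tr g.1 (n * A.ε) p) = F.1 p := by
        have h4 := hper.int_mul n p.2
        have h5 := F.2.2.1 g.1 g.2 p
        simp only [tr] at h4 h5 ⊢
        rw [h4, ← h5, add_zero]
      show F.1 (tr g.1 (n * A.ε) p) ≠ 0
      rw [h3]
      exact hp
    · simpa [tr] using hn
  have h3 : volume O = 0 := by
    refine measure_mono_null hcov ?_
    rw [measure_iUnion_null_iff]
    intro g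
    rw [measure_iUnion_null_iff]
    intro n
    rw [(measurePreserving_tr g.1 (n * A.ε)).measure_preimage
      (hOo.measurableSet.inter hms).nullMeasurableSet, h2]
  have hne : ∃ p, F.1 p ≠ 0 := by
    by_contra hcon
    push Not at hcon
    exact hF (Subtype.ext (funext hcon))
  obtain ⟨p, hp⟩ := hne
  obtain ⟨r, hr, hball⟩ := Metric.isOpen_iff.mp hOo p hp
  have h4 : volume (Metric.ball p r) = 0 := measure_mono_null hball h3
  rw [← ball_prod_same, Measure.volume_eq_prod, Measure.prod_prod, mul_eq_zero] at h4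
  rcases h4 with h4 | h4
  · rw [volume_ball] at h4
    exact volume_ball_ne_zero hr h4
  · rw [Real.volume_ball, ENNReal.ofReal_eq_zero] at h4
    linarith

/-- Integrals of invariant functions are invariant under the normalizer. -/
theorem integral_smul {ψ : ℍ → ℝ} (hψ : ∀ g ∈ A.Γ, ∀ z, ψ (g • z) = ψ z) {h : SL(2, ℝ)}
    (hh : ∀ g, g ∈ A.Γ ↔ h * g * h⁻¹ ∈ A.Γ) :
    ∫ z in A.D, ψ (h • z) = ∫ z in A.D, ψ z := by
  have hcount := A.countable
  have hfd2 : IsFundamentalDomain A.Γ ((fun z : ℍ => h • z) ⁻¹' A.D) (volume : Measure ℍ) := by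
    refine IsFundamentalDomain.mk' (A.hDm.preimage (measurable_const_smul h)).nullMeasurableSet ?_
    intro z
    obtain ⟨g, hg, hgu⟩ := A.hDu (h • z)
    have hg' : h⁻¹ * g.1 * h ∈ A.Γ := by
      rw [hh]
      have : h * (h⁻¹ * g.1 * h) * h⁻¹ = g.1 := by group
      rw [this]
      exact g.2
    refine ⟨⟨_, hg'⟩, ?_, ?_⟩
    · show h • ((h⁻¹ * g.1 * h) • z) ∈ A.D
      rw [← mul_smul]
      have : h * (h⁻¹ * g.1 * h) = g.1 * h := by group
      rw [this, mul_smul]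
      exact hg
    · intro g' hg'2
      have h1 : h • (g'.1 • z) ∈ A.D := hg'2
      have h2 := hgu ⟨h * g'.1 * h⁻¹, (hh _).mp g'.2⟩ (by
        show (h * g'.1 * h⁻¹) • (h • z) ∈ A.D
        rw [← mul_smul]
        have : h * g'.1 * h⁻¹ * h = h * g'.1 := by group
        rw [this, mul_smul]
        exact h1)
      apply Subtype.ext
      show g'.1 = h⁻¹ * g.1 * h
      rw [← h2]
      group
  have h1 : ∫ z in A.D, ψ (h • z) = ∫ z in (fun z : ℍ => h • z) ⁻¹' A.D, ψ (h • z) := by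
    refine A.fd.setIntegral_eq hfd2 ?_
    intro g z
    have h2 : h • (g.1 • z) = (h * g.1 * h⁻¹) • (h • z) := by
      rw [← mul_smul, ← mul_smul]
      congr 1
      group
    show ψ (h • (g.1 • z)) = _
    rw [h2, hψ _ ((hh _).mp g.2)]
  rw [h1]
  exact (measurePreserving_smul h (volume : Measure ℍ)).setIntegral_preimage_emb
    (measurableEmbedding_const_smul h) ψ A.D

theorem integral_tr {φ : ℍ × ℝ → ℝ} (hφ : A.IsInv φ) (hc : Continuous φ) {h : SL(2, ℝ)}
    (hh : ∀ g, g ∈ A.Γ ↔ h * g * h⁻¹ ∈ A.Γ) :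
    ∫ p in A.D ×ˢ Set.Ico 0 A.ε, φ (tr h 0 p) = ∫ p in A.D ×ˢ Set.Ico 0 A.ε, φ p := by
  have hφ' : A.IsInv (fun p => φ (tr h 0 p)) := by
    refine ⟨fun g hg p => ?_, fun p => ?_⟩
    · have h1 : tr h 0 (tr g 0 p) = tr (h * g * h⁻¹) 0 (tr h 0 p) := by
        rw [tr_tr, tr_tr]
        congr 1
        group
      simp only [h1]
      exact hφ.1 _ ((hh g).mp hg) _
    · have h1 : tr h 0 (tr 1 A.ε p) = tr 1 A.ε (tr h 0 p) := by
        rw [tr_tr, tr_tr, mul_one, one_mul, add_zero, zero_add]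
      simp only [h1]
      exact hφ.2 _
  rw [Measure.volume_eq_prod, setIntegral_prod _ (hφ'.integrableOn (hc.comp (continuous_tr h 0))),
    setIntegral_prod _ (hφ.integrableOn hc)]
  have h2 : ∀ z : ℍ, ∫ θ in Set.Ico 0 A.ε, φ (tr h 0 (z, θ)) =
      (fun z' => ∫ θ in Set.Ico 0 A.ε, φ (z', θ)) (h • z) := by
    intro z
    simp only [tr, add_zero]
  simp only [h2]
  refine A.integral_smul (ψ := fun z' => ∫ θ in Set.Ico 0 A.ε, φ (z', θ)) ?_ hh
  intro g hg z
  refine integral_congr_ae (Filter.Eventually.of_forall fun θ => ?_)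
  have := hφ.1 g hg (z, θ)
  simpa [tr] using this

end Setup

end Pool.Agent.H85R3.RM
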