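import Pool.Agent.H85R3.RMRicci
import Pool.Agent.H85R3.RMForms
import Pool.Agent.H85R3.HSEig

/-! The closed Riemannian manifold `(ℍ / Γ) × (ℝ / εℤ)`. -/

set_option autoImplicit false

open scoped MatrixGroups UpperHalfPlane ContDiff Topology Pointwise ENNReal
open MeasureTheory UpperHalfPlane Matrix

namespace Pool.Agent.H85R3.RM

open Pool.Agent.H85R3.HS

/-- Coordinates: from `ℝ³` to `ℂ × ℝ`. -/
noncomputable def TL : (Fin 3 → ℝ) →L[ℝ] ℂ × ℝ :=
  LinearMap.toContinuousLinearMap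
    { toFun := fun x => ((⟨x 1, x 2⟩ : ℂ), x 0)
      map_add' := fun x y => rfl
      map_smul' := fun c x => by
        apply Prod.ext
        · apply Complex.ext <;> simp
        · simp }

theorem TL_apply (x : Fin 3 → ℝ) : TL x = ((⟨x 1, x 2⟩ : ℂ), x 0) := rfl

/-- Coordinates: from `ℂ × ℝ` to `ℝ³`. -/
noncomputable def SL : ℂ × ℝ →L[ℝ] (Fin 3 → ℝ) :=
  LinearMap.toContinuousLinearMap
    { toFun := fun p => ![p.2, p.1.re, p.1.im]
      map_add' := fun x y => by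
        funext i
        fin_cases i <;> simp
      map_smul' := fun c x => by
        funext i
        fin_cases i <;> simp }

theorem SL_apply (p : ℂ × ℝ) : SL p = ![p.2, p.1.re, p.1.im] := rfl

theorem TL_SL (p : ℂ × ℝ) : TL (SL p) = p := by
  rw [TL_apply, SL_apply]
  rfl

theorem SL_TL (x : Fin 3 → ℝ) : SL (TL x) = x := by
  rw [TL_apply, SL_apply]
  funext i
  fin_cases i <;> rfl

/-- The point of `ℍ × ℝ` with given coordinates. -/
noncomputable def P (x : Fin 3 → ℝ) : ℍ × ℝ := (ofComplex (TL x).1, (TL x).2)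

theorem pt_P {x : Fin 3 → ℝ} (hx : x ∈ half) : pt (P x) = TL x := by
  unfold pt P
  have h : 0 < (TL x).1.im := hx
  rw [ofComplex_apply_of_im_pos h]

theorem P_SL (p : ℍ × ℝ) : P (SL (pt p)) = p := by
  unfold P
  rw [TL_SL]
  unfold pt
  simp [ofComplex_apply]

theorem SL_mem (p : ℍ × ℝ) : SL (pt p) ∈ half := by
  show 0 < (SL (pt p)) 2
  rw [SL_apply]
  exact p.1.im_pos

theorem SL_pt_P {x : Fin 3 → ℝ} (hx : x ∈ half) : SL (pt (P x)) = x := by
  rw [pt_P hx, SL_TL]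

theorem P_im {x : Fin 3 → ℝ} (hx : x ∈ half) : (P x).1.im = x 2 := by
  have h := congrArg (fun q : ℂ × ℝ => q.1.im) (pt_P hx)
  exact h

theorem P_snd (x : Fin 3 → ℝ) : (P x).2 = x 0 := rfl

/-- The motions in the coordinates of `ℝ³`. -/
noncomputable def mo (h : SL(2, ℝ)) (c : ℝ) (x : Fin 3 → ℝ) : Fin 3 → ℝ := SL (trc h c (TL x))

theorem mo_eq (h : SL(2, ℝ)) (c : ℝ) {x : Fin 3 → ℝ} (hx : x ∈ half) :
    mo h c x = SL (pt (tr h c (P x))) := by
  unfold mo
  rw [← pt_P hx, trc_pt]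

theorem mo_mem (h : SL(2, ℝ)) (c : ℝ) {x : Fin 3 → ℝ} (hx : x ∈ half) : mo h c x ∈ half := by
  rw [mo_eq h c hx]
  exact SL_mem _

theorem P_mo (h : SL(2, ℝ)) (c : ℝ) {x : Fin 3 → ℝ} (hx : x ∈ half) :
    P (mo h c x) = tr h c (P x) := by
  rw [mo_eq h c hx, P_SL]

theorem tr_one (p : ℍ × ℝ) : tr 1 0 p = p := by
  unfold tr
  rw [one_smul, add_zero]

theorem contDiffAt_mo (h : SL(2, ℝ)) (c : ℝ) {x : Fin 3 → ℝ} (hx : x ∈ half) :
    ContDiffAt ℝ ∞ (mo h c) x := by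
  unfold mo
  refine SL.contDiff.contDiffAt.comp x ?_
  have h1 := contDiffAt_trc h c (P x)
  rw [pt_P hx] at h1
  exact h1.comp x TL.contDiff.contDiffAt

theorem fderiv_mo (h : SL(2, ℝ)) (c : ℝ) {x : Fin 3 → ℝ} (hx : x ∈ half) (v : Fin 3 → ℝ) :
    fderiv ℝ (mo h c) x v = SL (dtr h (P x).1 (TL v)) := by
  have h1 : DifferentiableAt ℝ (trc h c) (TL x) := by
    rw [← pt_P hx]
    exact (contDiffAt_trc h c (P x)).differentiableAt (by simp)
  have h2 : HasFDerivAt (mo h c) (SL.comp ((fderiv ℝ (trc h c) (TL x)).comp TL)) x :=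
    SL.hasFDerivAt.comp x (h1.hasFDerivAt.comp x TL.hasFDerivAt)
  rw [h2.fderiv]
  show SL (fderiv ℝ (trc h c) (TL x) (TL v)) = _
  rw [← pt_P hx, fderiv_trc]

/-- The motions are isometries. -/
theorem isometry_mo (h : SL(2, ℝ)) (c : ℝ) {x : Fin 3 → ℝ} (hx : x ∈ half) (v w : Fin 3 → ℝ) :
    (fderiv ℝ (mo h c) x v) ⬝ᵥ (met (mo h c x) *ᵥ (fderiv ℝ (mo h c) x w)) =
      v ⬝ᵥ (met x *ᵥ w) := by
  rw [met_apply, met_apply, fderiv_mo h c hx, fderiv_mo h c hx]
  have him : (mo h c x) 2 = x 2 * ‖(1 : ℂ) / denom h (P x).1 ^ 2‖ := by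
    rw [← P_im (mo_mem h c hx), P_mo h c hx]
    show (h • (P x).1 : ℍ).im = _
    rw [im_smul_eq, P_im hx]
  rw [him]
  set m : ℂ := 1 / denom h (P x).1 ^ 2 with hm
  have hm0 : m ≠ 0 := by
    rw [hm]
    exact div_ne_zero one_ne_zero (pow_ne_zero 2 (denom_ne_zero _ _))
  have hx2 : x 2 ≠ 0 := (show 0 < x 2 from hx).ne'
  have h5 : ‖m‖ ^ 2 = m.re ^ 2 + m.im ^ 2 := by
    rw [← Complex.normSq_eq_norm_sq, Complex.normSq_apply]
    ring
  have h6 : m.re ^ 2 + m.im ^ 2 ≠ 0 := by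
    rw [← h5]
    exact pow_ne_zero 2 (norm_ne_zero_iff.mpr hm0)
  have e : ∀ u : Fin 3 → ℝ, SL (dtr h (P x).1 (TL u)) =
      ![u 0, m.re * u 1 - m.im * u 2, m.re * u 2 + m.im * u 1] := by
    intro u
    rw [SL_apply, TL_apply]
    unfold dtr
    rw [← hm]
    funext i
    fin_cases i <;> simp
  rw [e, e, mul_pow, h5]
  simp
  field_simp
  ring


theorem continuousAt_P {x : Fin 3 → ℝ} (hx : x ∈ half) : ContinuousAt P x := by
  have h1 : (P x).1 = ofComplex (TL x).1 := rfl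
  have h2 : ((P x).1 : ℂ) = (TL x).1 := congrArg Prod.fst (pt_P hx)
  have h3 : Filter.Tendsto ofComplex (𝓝 (TL x).1) (𝓝 (P x).1) := by
    rw [← h2]
    exact tendsto_ofComplex (P x).1
  have h4 : Filter.Tendsto (fun y => (TL y).1) (𝓝 x) (𝓝 (TL x).1) :=
    (continuous_fst.comp TL.continuous).continuousAt
  have h5 : Filter.Tendsto (fun y => (TL y).2) (𝓝 x) (𝓝 (TL x).2) :=
    (continuous_snd.comp TL.continuous).continuousAt
  exact (h3.comp h4).prodMk_nhds h5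

theorem isConnected_half : IsConnected half := by
  refine ⟨⟨fun _ => 1, ?_⟩, Convex.isPreconnected ?_⟩
  · show (0 : ℝ) < 1
    exact one_pos
  · intro x hx y hy a b ha hb hab
    show 0 < a * x 2 + b * y 2
    have h1 : 0 < x 2 := hx
    have h2 : 0 < y 2 := hy
    rcases ha.eq_or_lt with rfl | ha'
    · have : b = 1 := by linarith
      rw [this]
      linarith
    · have := mul_pos ha' h1
      have := mul_nonneg hb h2.le
      linarith

/-- The neighbourhood of a point. -/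
theorem nhds_P {x : Fin 3 → ℝ} (hx : x ∈ half) {r : ℝ} (hr : 0 < r) :
    {y | y ∈ half ∧ dist (P y).1 (P x).1 < r ∧ |y 0 - x 0| < r} ∈ 𝓝 x := by
  have h1 := (continuousAt_P hx).eventually (Metric.ball_mem_nhds (P x) hr)
  filter_upwards [h1, isOpen_half.mem_nhds hx] with y hy1 hy2
  have h2 : dist (P y) (P x) < r := hy1
  rw [Prod.dist_eq, max_lt_iff] at h2
  exact ⟨hy2, h2.1, h2.2⟩

theorem mo_zero (h : SL(2, ℝ)) (c : ℝ) (x : Fin 3 → ℝ) : (mo h c x) 0 = x 0 + c := rfl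

theorem int_zero_of_lt {ε : ℝ} (hε : 0 < ε) {n : ℤ} (h : |(n : ℝ) * ε| < ε) : n = 0 := by
  rw [abs_mul, abs_of_pos hε] at h
  have h1 : |(n : ℝ)| < 1 := by
    by_contra hcon
    push Not at hcon
    nlinarith
  have h2 : |n| < 1 := by exact_mod_cast h1
  exact Int.abs_lt_one_iff.mp h2

namespace Setup

variable (A : Setup)

/-- The translation length of a deck transformation. -/
noncomputable def tl (g : A.Γ × Multiplicative ℤ) : ℝ := (Multiplicative.toAdd g.2 : ℤ) * A.ε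

theorem tl_mul (g h : A.Γ × Multiplicative ℤ) : A.tl (g * h) = A.tl h + A.tl g := by
  unfold tl
  rw [Prod.snd_mul, toAdd_mul]
  push_cast
  ring

/-- The fundamental domain. -/
def fundS : Set (Fin 3 → ℝ) := {x | x ∈ half ∧ (P x).1 ∈ A.D ∧ x 0 ∈ Set.Ico 0 A.ε}

theorem deck_eq_one {g : A.Γ × Multiplicative ℤ} (h1 : g.1.1 = 1) (h2 : |A.tl g| < A.ε) : g = 1 := by
  have h3 : (Multiplicative.toAdd g.2 : ℤ) = 0 := int_zero_of_lt A.hε h2
  apply Prod.ext
  · exact Subtype.ext h1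
  · exact toAdd_eq_zero.mp h3

theorem eq_of_close {p : ℍ} {g g' : A.Γ × Multiplicative ℤ}
    (h1 : dist (g.1.1 • p) (g'.1.1 • p) < A.S) (h2 : |A.tl g - A.tl g'| < A.ε) : g = g' := by
  have h3 := A.hM.eq_of_dist_lt g.1.2 g'.1.2 h1
  have h4 : A.tl g - A.tl g' = A.tl (g'⁻¹ * g) := by
    have h5 : A.tl g = A.tl (g'⁻¹ * g) + A.tl g' := by
      rw [← A.tl_mul, mul_inv_cancel_left]
    linarith
  rw [h4] at h2
  have h6 : g'⁻¹ * g = 1 := by
    apply A.deck_eq_one _ h2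
    show g'.1.1⁻¹ * g.1.1 = 1
    rw [h3, inv_mul_cancel]
  exact (inv_mul_eq_one.mp h6).symm

theorem covering {x : Fin 3 → ℝ} (hx : x ∈ half) : ∃ U ∈ 𝓝 x, ∀ g : A.Γ × Multiplicative ℤ,
    g ≠ 1 → ∀ y ∈ U, y ∈ half → mo g.1.1 (A.tl g) y ∉ U := by
  have hr : 0 < min A.S A.ε / 2 := by
    have := lt_min A.hS A.hε
    linarith
  refine ⟨_, nhds_P hx hr, ?_⟩
  rintro g hg y ⟨hy1, hy2, hy3⟩ - ⟨-, hz2, hz3⟩
  apply hg
  rw [P_mo _ _ hy1] at hz2
  rw [mo_zero] at hz3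
  have k1 : min A.S A.ε ≤ A.S := min_le_left _ _
  have k2 : min A.S A.ε ≤ A.ε := min_le_right _ _
  refine A.eq_of_close (p := (P y).1) ?_ ?_
  · have h1 : dist (g.1.1 • (P y).1) (P x).1 < min A.S A.ε / 2 := hz2
    have h2 := dist_triangle_right (g.1.1 • (P y).1) (P y).1 (P x).1
    have h3 : (1 : A.Γ × Multiplicative ℤ).1.1 • (P y).1 = (P y).1 := one_smul _ _
    rw [h3]
    linarith
  · have h1 : A.tl (1 : A.Γ × Multiplicative ℤ) = 0 := by
      unfold tl
      simp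
    rw [h1, sub_zero]
    have h2 : A.tl g = (y 0 + A.tl g - x 0) - (y 0 - x 0) := by ring
    rw [h2]
    have := abs_sub (y 0 + A.tl g - x 0) (y 0 - x 0)
    linarith

theorem separated {x y : Fin 3 → ℝ} (hx : x ∈ half) (hy : y ∈ half)
    (hne : ∀ g : A.Γ × Multiplicative ℤ, mo g.1.1 (A.tl g) x ≠ y) :
    ∃ U ∈ 𝓝 x, ∃ V ∈ 𝓝 y, ∀ g : A.Γ × Multiplicative ℤ, ∀ z ∈ U, z ∈ half →
      mo g.1.1 (A.tl g) z ∉ V := by
  -- a radius
  have hrad : ∃ r > 0, ∀ g : A.Γ × Multiplicative ℤ, ¬ (dist (g.1.1 • (P x).1) (P y).1 < 2 * r ∧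
      |x 0 + A.tl g - y 0| < 2 * r) := by
    have hr : 0 < min A.S A.ε / 4 := by
      have := lt_min A.hS A.hε
      linarith
    have k1 : min A.S A.ε ≤ A.S := min_le_left _ _
    have k2 : min A.S A.ε ≤ A.ε := min_le_right _ _
    by_cases hex : ∃ g₀ : A.Γ × Multiplicative ℤ,
        dist (g₀.1.1 • (P x).1) (P y).1 < 2 * (min A.S A.ε / 4) ∧
        |x 0 + A.tl g₀ - y 0| < 2 * (min A.S A.ε / 4)
    · obtain ⟨g₀, h1, h2⟩ := hex
      set d₀ := max (dist (g₀.1.1 • (P x).1) (P y).1) |x 0 + A.tl g₀ - y 0| with hd₀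
      have hd₀pos : 0 < d₀ := by
        by_contra hcon
        push Not at hcon
        have e1 : dist (g₀.1.1 • (P x).1) (P y).1 = 0 :=
          le_antisymm ((le_max_left _ _).trans hcon) dist_nonneg
        have e2 : |x 0 + A.tl g₀ - y 0| = 0 :=
          le_antisymm ((le_max_right _ _).trans hcon) (abs_nonneg _)
        apply hne g₀
        rw [mo_eq _ _ hx, ← SL_pt_P hy]
        congr 2
        apply Prod.ext
        · exact dist_eq_zero.mp e1
        · exact sub_eq_zero.mp (abs_eq_zero.mp e2)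
      refine ⟨min (min A.S A.ε / 4) (d₀ / 2), lt_min hr (by linarith), ?_⟩
      rintro g ⟨h3, h4⟩
      have m1 : min (min A.S A.ε / 4) (d₀ / 2) ≤ min A.S A.ε / 4 := min_le_left _ _
      have m2 : min (min A.S A.ε / 4) (d₀ / 2) ≤ d₀ / 2 := min_le_right _ _
      have hg : g = g₀ := by
        refine A.eq_of_close (p := (P x).1) ?_ ?_
        · have := dist_triangle_right (g.1.1 • (P x).1) (g₀.1.1 • (P x).1) (P y).1
          linarith
        · have h5 : A.tl g - A.tl g₀ = (x 0 + A.tl g - y 0) - (x 0 + A.tl g₀ - y 0) := by ring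
          rw [h5]
          have := abs_sub (x 0 + A.tl g - y 0) (x 0 + A.tl g₀ - y 0)
          linarith
      rw [hg] at h3 h4
      have h6 : d₀ < 2 * min (min A.S A.ε / 4) (d₀ / 2) := max_lt h3 h4
      linarith
    · push Not at hex
      refine ⟨min A.S A.ε / 4, hr, ?_⟩
      rintro g ⟨h3, h4⟩
      exact absurd h4 (not_lt.mpr (hex g h3))
  obtain ⟨r, hr, H⟩ := hrad
  refine ⟨_, nhds_P hx hr, _, nhds_P hy hr, ?_⟩
  rintro g z ⟨hz1, hz2, hz3⟩ - ⟨-, hw2, hw3⟩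
  apply H g
  rw [P_mo _ _ hz1] at hw2
  rw [mo_zero] at hw3
  constructor
  · have h1 : dist (g.1.1 • (P z).1) (P y).1 < r := hw2
    have h2 : dist (g.1.1 • (P x).1) (g.1.1 • (P z).1) < r := by
      rw [dist_smul, dist_comm]
      exact hz2
    have := dist_triangle (g.1.1 • (P x).1) (g.1.1 • (P z).1) (P y).1
    linarith
  · have h2 : x 0 + A.tl g - y 0 = (z 0 + A.tl g - y 0) - (z 0 - x 0) := by ring
    rw [h2]
    have := abs_sub (z 0 + A.tl g - y 0) (z 0 - x 0)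
    linarith

theorem cocompactS : ∃ K ⊆ half, IsCompact K ∧ ∀ x ∈ half, ∃ g : A.Γ × Multiplicative ℤ,
    mo g.1.1 (A.tl g) x ∈ K := by
  refine ⟨(fun p => SL (pt p)) '' (A.K ×ˢ Set.Icc 0 A.ε), ?_, ?_, ?_⟩
  · rintro _ ⟨p, -, rfl⟩
    exact SL_mem p
  · exact (A.hK.prod isCompact_Icc).image (SL.continuous.comp continuous_pt)
  · intro x hx
    obtain ⟨g, hg, hgx⟩ := A.hKΓ (P x).1
    obtain ⟨n, hn, -⟩ := existsUnique_add_zsmul_mem_Ico A.hε (x 0) 0
    refine ⟨(⟨g, hg⟩, Multiplicative.ofAdd n), ?_⟩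
    rw [mo_eq _ _ hx]
    refine ⟨_, ⟨hgx, ?_⟩, rfl⟩
    have h1 : (tr g (A.tl (⟨g, hg⟩, Multiplicative.ofAdd n)) (P x)).2 = x 0 + n * A.ε := rfl
    rw [zsmul_eq_mul, zero_add] at hn
    rw [h1]
    exact ⟨hn.1, hn.2.le⟩

theorem fund_uniqueS {x : Fin 3 → ℝ} (hx : x ∈ half) :
    ∃! g : A.Γ × Multiplicative ℤ, mo g.1.1 (A.tl g) x ∈ A.fundS := by
  obtain ⟨g, hg, hgu⟩ := A.hDu (P x).1
  obtain ⟨n, hn, hnu⟩ := existsUnique_add_zsmul_mem_Ico A.hε (x 0) 0
  refine ⟨(g, Multiplicative.ofAdd n), ⟨mo_mem _ _ hx, ?_, ?_⟩, ?_⟩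
  · show (P (mo g.1 _ x)).1 ∈ A.D
    rw [P_mo _ _ hx]
    exact hg
  · show (mo g.1 _ x) 0 ∈ Set.Ico 0 A.ε
    rw [mo_zero]
    simpa [tl] using hn
  · rintro ⟨g', n'⟩ ⟨-, h1, h2⟩
    simp only at h1 h2
    rw [P_mo _ _ hx] at h1
    rw [mo_zero] at h2
    apply Prod.ext
    · exact hgu g' h1
    · have h3 := hnu (Multiplicative.toAdd n') (by simpa [tl] using h2)
      exact congrArg Multiplicative.ofAdd h3

theorem measurable_fundS : MeasurableSet A.fundS := by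
  have h1 : MeasurableSet half := isOpen_half.measurableSet
  have h2 : Measurable fun x : Fin 3 → ℝ => (P x).1 := by
    have h3 : Measurable fun x : Fin 3 → ℝ => (TL x).1 := (continuous_fst.comp TL.continuous).measurable
    have h4 : Measurable (half.domRestrict fun x : Fin 3 → ℝ => (P x).1) := by
      have : Continuous (half.domRestrict fun x : Fin 3 → ℝ => (P x).1) := by
        rw [continuous_iff_continuousAt]
        intro x
        have h5 := (continuousAt_P x.2).comp (f := fun y : half => (y : Fin 3 → ℝ))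
          continuous_subtype_val.continuousAt
        exact continuous_fst.continuousAt.comp h5
      exact this.measurable
    have h5 : Measurable (halfᶜ.domRestrict fun x : Fin 3 → ℝ => (P x).1) := by
      have : (halfᶜ.domRestrict fun x : Fin 3 → ℝ => (P x).1) =
          fun _ => Classical.choice inferInstance := by
        funext x
        have h6 : ((TL x.1).1).im ≤ 0 := not_lt.mp x.2
        exact ofComplex_apply_of_im_nonpos h6
      rw [this]
      exact measurable_const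
    exact measurable_of_restrict_of_restrict_compl h1 h4 h5
  exact h1.inter ((h2 A.hDm).inter ((measurable_pi_apply 0) measurableSet_Ico))

end Setup

end Pool.Agent.H85R3.RM
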