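import Mathlib

/-! Real representations of `SL₂(F_q)` without fixed vectors have dimension at least
`(q - 1) / 2`. -/

set_option autoImplicit false

open scoped MatrixGroups
open Matrix

namespace Pool.Agent.H85R3.RM

section Gen

variable {F : Type*} [CommRing F]

def Um (t : F) : SL(2, F) := ⟨!![1, t; 0, 1], by rw [Matrix.det_fin_two_of]; ring⟩

def Lm (t : F) : SL(2, F) := ⟨!![1, 0; t, 1], by rw [Matrix.det_fin_two_of]; ring⟩

theorem Um_mul (s t : F) : Um s * Um t = Um (s + t) := by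
  apply Subtype.ext
  rw [Matrix.SpecialLinearGroup.coe_mul]
  ext i j
  fin_cases i <;> fin_cases j <;> simp [Um, Matrix.mul_apply, Fin.sum_univ_two, add_comm]

theorem Lm_mul (s t : F) : Lm s * Lm t = Lm (s + t) := by
  apply Subtype.ext
  rw [Matrix.SpecialLinearGroup.coe_mul]
  ext i j
  fin_cases i <;> fin_cases j <;> simp [Lm, Matrix.mul_apply, Fin.sum_univ_two]

theorem Um_zero : Um (0 : F) = 1 := by
  apply Subtype.ext
  simp [Um, Matrix.one_fin_two]

theorem Lm_zero : Lm (0 : F) = 1 := by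
  apply Subtype.ext
  simp [Lm, Matrix.one_fin_two]

theorem Um_pow (t : F) (n : ℕ) : Um t ^ n = Um (n * t) := by
  induction n with
  | zero => simp [Um_zero]
  | succ n ih =>
    rw [pow_succ, ih, Um_mul]
    congr 1
    push_cast
    ring

theorem Lm_pow (t : F) (n : ℕ) : Lm t ^ n = Lm (n * t) := by
  induction n with
  | zero => simp [Lm_zero]
  | succ n ih =>
    rw [pow_succ, ih, Lm_mul]
    congr 1
    push_cast
    ring

end Gen

theorem eq_top_of_elementary {F : Type*} [Field F] (K : Subgroup SL(2, F)) (hU : ∀ t, Um t ∈ K)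
    (hL : ∀ t, Lm t ∈ K) : K = ⊤ := by
  have key : ∀ g : SL(2, F), g 1 0 ≠ 0 → g ∈ K := by
    intro g hg
    have hdet : g 0 0 * g 1 1 - g 0 1 * g 1 0 = 1 := by
      have := g.2
      rw [Matrix.det_fin_two] at this
      exact this
    have h1 : g = Um ((g 0 0 - 1) / g 1 0) * Lm (g 1 0) * Um ((g 1 1 - 1) / g 1 0) := by
      have e0 : 1 + (g 0 0 - 1) / g 1 0 * g 1 0 = g 0 0 := by
        rw [div_mul_cancel₀ _ hg]
        ring
      have e3 : g 1 0 * ((g 1 1 - 1) / g 1 0) + 1 = g 1 1 := by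
        rw [mul_div_cancel₀ _ hg]
        ring
      have e1 : g 0 0 * ((g 1 1 - 1) / g 1 0) + (g 0 0 - 1) / g 1 0 = g 0 1 := by
        field_simp
        linear_combination hdet
      apply Subtype.ext
      rw [Matrix.SpecialLinearGroup.coe_mul, Matrix.SpecialLinearGroup.coe_mul]
      simp only [Um, Lm, Matrix.mul_fin_two]
      ext i j
      fin_cases i <;> fin_cases j
      · show g 0 0 = (1 * 1 + (g 0 0 - 1) / g 1 0 * g 1 0) * 1 + (1 * 0 + (g 0 0 - 1) / g 1 0 * 1) * 0
        rw [mul_one, mul_one, e0]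
        ring
      · show g 0 1 = (1 * 1 + (g 0 0 - 1) / g 1 0 * g 1 0) * ((g 1 1 - 1) / g 1 0) +
          (1 * 0 + (g 0 0 - 1) / g 1 0 * 1) * 1
        rw [mul_one, e0, ← e1]
        ring
      · show g 1 0 = (0 * 1 + 1 * g 1 0) * 1 + (0 * 0 + 1 * 1) * 0
        ring
      · show g 1 1 = (0 * 1 + 1 * g 1 0) * ((g 1 1 - 1) / g 1 0) + (0 * 0 + 1 * 1) * 1
        linear_combination -e3
    rw [h1]
    exact K.mul_mem (K.mul_mem (hU _) (hL _)) (hU _)
  rw [eq_top_iff]
  intro g _
  by_cases hg : g 1 0 = 0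
  · have hdet : g 0 0 * g 1 1 - g 0 1 * g 1 0 = 1 := by
      have := g.2
      rw [Matrix.det_fin_two] at this
      exact this
    have h0 : g 0 0 ≠ 0 := by
      intro h0
      rw [h0, hg] at hdet
      simp at hdet
    have h1 : (Lm 1 * g : SL(2, F)) 1 0 = g 0 0 + g 1 0 := by
      rw [Matrix.SpecialLinearGroup.coe_mul]
      simp [Lm, Matrix.mul_apply, Fin.sum_univ_two]
    have h2 : Lm 1 * g ∈ K := key _ (by rw [h1, hg, add_zero]; exact h0)
    have h3 := K.mul_mem (K.inv_mem (hL 1)) h2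
    rwa [inv_mul_cancel_left] at h3
  · exact key g hg

theorem exists_eigen {m : ℕ} {T : Module.End ℂ (Fin m → ℂ)} {q : ℕ} (hq : q ≠ 0) (hT : T ^ q = 1)
    (hT1 : T ≠ 1) : ∃ ζ : ℂ, ζ ≠ 1 ∧ ζ ^ q = 1 ∧ ∃ w, w ≠ 0 ∧ T w = ζ • w := by
  set R := LinearMap.range (T - 1) with hR
  have hinv : ∀ x ∈ R, T x ∈ R := by
    rintro _ ⟨u, rfl⟩
    exact ⟨T u, by simp⟩
  obtain ⟨u, hu⟩ : ∃ u, T u ≠ u := by
    by_contra hcon
    push Not at hcon
    exact hT1 (LinearMap.ext fun u => by rw [hcon u]; rfl)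
  have hnt : Nontrivial R := by
    refine ⟨⟨⟨(T - 1) u, u, rfl⟩, 0, fun h => hu ?_⟩⟩
    have h1 := congrArg Subtype.val h
    simp only [LinearMap.sub_apply, Module.End.one_apply, Submodule.coe_zero] at h1
    exact sub_eq_zero.mp h1
  obtain ⟨ζ, hζ⟩ := Module.End.exists_eigenvalue (T.restrict hinv)
  obtain ⟨⟨w, hwR⟩, hw⟩ := hζ.exists_hasEigenvector
  have hw0 : w ≠ 0 := fun h => hw.2 (Subtype.ext h)
  have hTw : T w = ζ • w := congrArg Subtype.val hw.apply_eq_smul
  have hpow : ∀ n : ℕ, (T ^ n) w = ζ ^ n • w := by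
    intro n
    induction n with
    | zero => simp
    | succ n ih => rw [pow_succ', Module.End.mul_apply, ih, map_smul, hTw, smul_smul, pow_succ]
  have hζq : ζ ^ q = 1 := by
    have h1 := hpow q
    rw [hT, Module.End.one_apply] at h1
    have h2 : (ζ ^ q - 1) • w = 0 := by rw [sub_smul, one_smul, ← h1, sub_self]
    rcases smul_eq_zero.mp h2 with h3 | h3
    · exact sub_eq_zero.mp h3
    · exact absurd h3 hw0
  refine ⟨ζ, ?_, hζq, w, hw0, hTw⟩
  rintro rfl
  rw [one_smul] at hTw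
  obtain ⟨x, hx⟩ := hwR
  have hx' : T x = x + w := by
    rw [← hx]
    simp
  have hxp : ∀ n : ℕ, (T ^ n) x = x + (n : ℂ) • w := by
    intro n
    induction n with
    | zero => simp
    | succ n ih =>
      rw [pow_succ', Module.End.mul_apply, ih, map_add, map_smul, hTw, hx', Nat.cast_succ, add_smul,
        one_smul]
      abel
  have h4 := hxp q
  rw [hT, Module.End.one_apply] at h4
  have h5 : (q : ℂ) • w = 0 := by simpa using h4
  rcases smul_eq_zero.mp h5 with h6 | h6
  · exact hq (by exact_mod_cast h6)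
  · exact hw0 h6


section Conj

variable {F : Type*} [Field F]

/-- The diagonal matrix `diag(t, t⁻¹)`. -/
def Dm (t : F) (ht : t ≠ 0) : SL(2, F) :=
  ⟨!![t, 0; 0, t⁻¹], by rw [Matrix.det_fin_two_of, mul_inv_cancel₀ ht]; ring⟩

theorem Dm_conj (t : F) (ht : t ≠ 0) : Dm t ht * Um 1 = Um (t ^ 2) * Dm t ht := by
  apply Subtype.ext
  rw [Matrix.SpecialLinearGroup.coe_mul, Matrix.SpecialLinearGroup.coe_mul]
  have : t ^ 2 * t⁻¹ = t := by field_simp
  ext i j
  fin_cases i <;> fin_cases j <;>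
    simp [Um, Dm, Matrix.mul_apply, Fin.sum_univ_two, this]

/-- The Weyl element. -/
def Wm : SL(2, F) := ⟨!![0, 1; -1, 0], by rw [Matrix.det_fin_two_of]; ring⟩

theorem Wm_conj (t : F) : Lm t * Wm = Wm * Um (-t) := by
  apply Subtype.ext
  rw [Matrix.SpecialLinearGroup.coe_mul, Matrix.SpecialLinearGroup.coe_mul]
  ext i j
  fin_cases i <;> fin_cases j <;>
    simp [Um, Lm, Wm, Matrix.mul_apply, Fin.sum_univ_two]

end Conj

variable {q : ℕ} [Fact q.Prime]

theorem Um_eq_pow (t : ZMod q) : Um t = Um 1 ^ t.val := by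
  rw [Um_pow, mul_one, ZMod.natCast_zmod_val]

/-- If `Um 1` is in the kernel of a homomorphism then the homomorphism is trivial. -/
theorem trivial_of_Um {M : Type*} [Monoid M] (ρ : SL(2, ZMod q) →* M) (h : ρ (Um 1) = 1) (g) :
    ρ g = 1 := by
  have hU : ∀ t, ρ (Um t) = 1 := fun t => by rw [Um_eq_pow, map_pow, h, one_pow]
  have hL : ∀ t, ρ (Lm t) = 1 := by
    intro t
    have h1 : Lm t = Wm * Um (-t) * Wm⁻¹ := by rw [← Wm_conj, mul_inv_cancel_right]
    rw [h1, map_mul, map_mul, hU, mul_one, ← map_mul, mul_inv_cancel, map_one]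
  have hK : ρ.ker = ⊤ := eq_top_of_elementary _ (fun t => hU t) (fun t => hL t)
  have : g ∈ ρ.ker := by rw [hK]; exact Subgroup.mem_top g
  exact this

theorem complex_bound {m : ℕ} (ρ : SL(2, ZMod q) →* Module.End ℂ (Fin m → ℂ))
    (h : ρ (Um 1) ≠ 1) : (q - 1) / 2 ≤ m := by
  have hqp : q.Prime := Fact.out
  obtain ⟨ζ, hζ1, hζq, w, hw0, hTw⟩ := exists_eigen (T := ρ (Um 1)) hqp.ne_zero
    (by rw [← map_pow, Um_pow, mul_one, CharP.cast_eq_zero, Um_zero, map_one]) h
  have hord : orderOf ζ = q := orderOf_eq_prime hζq hζ1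
  have hpow : ∀ n : ℕ, (ρ (Um 1) ^ n) w = ζ ^ n • w := by
    intro n
    induction n with
    | zero => simp
    | succ n ih => rw [pow_succ', Module.End.mul_apply, ih, map_smul, hTw, smul_smul, pow_succ]
  set k := (q - 1) / 2 with hk
  have h2k : 2 * k < q := by
    have := hqp.two_le
    omega
  have ht : ∀ i : Fin k, (((i : ℕ) + 1 : ℕ) : ZMod q) ≠ 0 := by
    intro i h0
    rw [ZMod.natCast_eq_zero_iff] at h0
    have := Nat.le_of_dvd (by omega) h0
    have := i.2
    omega
  set μ : Fin k → ℂ := fun i => ζ ^ (((((i : ℕ) + 1 : ℕ) : ZMod q) ^ 2).val) with hμ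
  have hinj : Function.Injective μ := by
    intro i j hij
    simp only [hμ] at hij
    have hprim : IsPrimitiveRoot ζ q := hord ▸ IsPrimitiveRoot.orderOf ζ
    have h1 := ZMod.val_injective q (hprim.pow_inj (ZMod.val_lt _) (ZMod.val_lt _) hij)
    have hi := i.2
    have hj := j.2
    rcases sq_eq_sq_iff_eq_or_eq_neg.mp h1 with h2 | h2
    · rw [ZMod.natCast_eq_natCast_iff] at h2
      have h3 := h2.eq_of_lt_of_lt (by omega) (by omega)
      exact Fin.ext (by omega)
    · have h3 : (((i : ℕ) + 1 + ((j : ℕ) + 1) : ℕ) : ZMod q) = 0 := by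
        push_cast at h2 ⊢
        rw [h2]
        ring
      rw [ZMod.natCast_eq_zero_iff] at h3
      have := Nat.le_of_dvd (by omega) h3
      omega
  have hvec : ∀ i : Fin k, (ρ (Um 1)).HasEigenvector (μ i) (ρ (Dm _ (ht i))⁻¹ w) := by
    intro i
    set t : ZMod q := (((i : ℕ) + 1 : ℕ) : ZMod q) with htdef
    constructor
    · rw [Module.End.mem_eigenspace_iff]
      have h1 : Um 1 * (Dm t (ht i))⁻¹ = (Dm t (ht i))⁻¹ * Um (t ^ 2) := by
        rw [eq_inv_mul_iff_mul_eq, ← mul_assoc, Dm_conj, mul_inv_cancel_right]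
      rw [← Module.End.mul_apply, ← map_mul, h1, map_mul, Module.End.mul_apply, Um_eq_pow (t ^ 2),
        map_pow, hpow, map_smul]
    · intro h0
      apply hw0
      have h1 : ρ (Dm t (ht i)) (ρ (Dm t (ht i))⁻¹ w) = w := by
        rw [← Module.End.mul_apply, ← map_mul, mul_inv_cancel, map_one, Module.End.one_apply]
      rw [← h1, h0, map_zero]
  have hli := Module.End.eigenvectors_linearIndependent' (ρ (Um 1)) μ hinj _ hvec
  have := hli.fintype_card_le_finrank
  rwa [Fintype.card_fin, Module.finrank_fin_fun] at this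

/-- Real representations of `SL₂(F_q)` without fixed vectors have dimension at least
`(q - 1) / 2`. -/
theorem rep_bound {V : Type*} [AddCommGroup V] [Module ℝ V] [FiniteDimensional ℝ V] [Nontrivial V]
    (ρ : SL(2, ZMod q) →* Module.End ℝ V) (hfix : ∀ v, (∀ g, ρ g v = v) → v = 0) :
    (q - 1) / 2 ≤ Module.finrank ℝ V := by
  set b := Module.finBasis ℝ V with hb
  set φ : Module.End ℝ V →* Module.End ℂ (Fin (Module.finrank ℝ V) → ℂ) :=
    ((Matrix.toLinAlgEquiv' : Matrix (Fin (Module.finrank ℝ V)) (Fin (Module.finrank ℝ V)) ℂ ≃ₐ[ℂ] _).toMonoidHom.comp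
      ((algebraMap ℝ ℂ).mapMatrix.toMonoidHom)).comp (LinearMap.toMatrixAlgEquiv b).toMonoidHom
    with hφ
  have hφinj : Function.Injective φ := by
    intro x y hxy
    have h1 := (Matrix.toLinAlgEquiv' (R := ℂ) (n := Fin (Module.finrank ℝ V))).injective hxy
    have h2 : LinearMap.toMatrixAlgEquiv b x = LinearMap.toMatrixAlgEquiv b y := by
      ext i j
      have h3 := congrFun (congrFun h1 i) j
      exact Complex.ofReal_injective h3
    exact (LinearMap.toMatrixAlgEquiv b).injective h2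
  refine complex_bound (φ.comp ρ) fun h => ?_
  have h1 := trivial_of_Um (φ.comp ρ) h
  have h2 : ∀ g, ρ g = 1 := by
    intro g
    apply hφinj
    rw [map_one]
    exact h1 g
  obtain ⟨v, hv⟩ := exists_ne (0 : V)
  exact hv (hfix v fun g => by rw [h2 g]; rfl)

/-- The version for invariant subspaces. -/
theorem rep_bound' {H : Type*} [AddCommGroup H] [Module ℝ H] (ρ : SL(2, ZMod q) →* Module.End ℝ H)
    (V : Submodule ℝ H) (hVf : FiniteDimensional ℝ V) (hV : V ≠ ⊥)
    (hinv : ∀ g, ∀ v ∈ V, ρ g v ∈ V) (hfix : ∀ v ∈ V, (∀ g, ρ g v = v) → v = 0) :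
    (q - 1) / 2 ≤ Module.finrank ℝ V := by
  have : Nontrivial V := Submodule.nontrivial_iff_ne_bot.mpr hV
  set ρV : SL(2, ZMod q) →* Module.End ℝ V :=
    { toFun := fun g => (ρ g).restrict (hinv g)
      map_one' := by
        ext v
        simp [LinearMap.restrict_apply]
      map_mul' := fun g h => by
        ext v
        simp [LinearMap.restrict_apply] } with hρV
  refine rep_bound ρV ?_
  intro v hv
  apply Subtype.ext
  exact hfix v v.2 fun g => congrArg Subtype.val (hv g)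

end Pool.Agent.H85R3.RM
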