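import Pool.Agent.H85R3.RMDefs

/-! The metric `dθ² + (dx² + dy²) / y²` on the half space: its Ricci tensor. -/

set_option autoImplicit false

open scoped ContDiff Topology
open MeasureTheory Matrix

namespace Pool.Agent.H85R3.RM

/-- The half space `{x | 0 < x₂}` of `ℝ³`. -/
def half : Set (Fin 3 → ℝ) := {x | 0 < x 2}

theorem isOpen_half : IsOpen half := isOpen_lt continuous_const (continuous_apply 2)

/-- The metric `dx₀² + (dx₁² + dx₂²) / x₂²`. -/
noncomputable def met (x : Fin 3 → ℝ) : Matrix (Fin 3) (Fin 3) ℝ :=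
  Matrix.diagonal ![1, (x 2 ^ 2)⁻¹, (x 2 ^ 2)⁻¹]

theorem met_inv {x : Fin 3 → ℝ} (hx : x ∈ half) :
    (met x)⁻¹ = Matrix.diagonal ![1, x 2 ^ 2, x 2 ^ 2] := by
  have h : x 2 ≠ 0 := (show 0 < x 2 from hx).ne'
  apply Matrix.inv_eq_right_inv
  unfold met
  rw [Matrix.diagonal_mul_diagonal, ← Matrix.diagonal_one]
  congr 1
  funext i
  fin_cases i
  · simp
  · simp [h]
  · simp [h]

theorem det_met (x : Fin 3 → ℝ) : (met x).det = ((x 2 ^ 2)⁻¹) ^ 2 := by
  unfold met
  rw [Matrix.det_diagonal, Fin.prod_univ_three]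
  simp
  ring

theorem sqrt_det_met (x : Fin 3 → ℝ) : √(met x).det = (x 2 ^ 2)⁻¹ := by
  rw [det_met]
  exact Real.sqrt_sq (by positivity)

theorem met_apply (x v w : Fin 3 → ℝ) :
    v ⬝ᵥ (met x *ᵥ w) = v 0 * w 0 + (v 1 * w 1 + v 2 * w 2) * (x 2 ^ 2)⁻¹ := by
  unfold met
  simp [dotProduct, Matrix.mulVec_diagonal, Fin.sum_univ_three]
  ring

/-- Partial derivatives of functions of the last coordinate. -/
theorem pd_of_last {f : (Fin 3 → ℝ) → ℝ} {φ : ℝ → ℝ} {x : Fin 3 → ℝ} {φ' : ℝ}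
    (hf : f =ᶠ[𝓝 x] fun y => φ (y 2)) (hφ : HasDerivAt φ φ' (x 2)) (i : Fin 3) :
    pd i f x = if i = 2 then φ' else 0 := by
  unfold pd
  rw [hf.fderiv_eq]
  have h1 : HasFDerivAt (fun y : Fin 3 → ℝ => y 2) (ContinuousLinearMap.proj (R := ℝ) 2) x :=
    (ContinuousLinearMap.proj (R := ℝ) (φ := fun _ : Fin 3 => ℝ) 2).hasFDerivAt
  have h2 : HasFDerivAt (fun y : Fin 3 → ℝ => φ (y 2)) _ x := hφ.comp_hasFDerivAt x h1
  rw [h2.fderiv]
  simp only [ContinuousLinearMap.smul_apply, ContinuousLinearMap.proj_apply, smul_eq_mul]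
  split_ifs with h
  · rw [h]; simp
  · rw [Pi.single_eq_of_ne (Ne.symm h), mul_zero]

/-- The coefficients of the metric. -/
def mc : Fin 3 → Fin 3 → ℝ := fun i j => if i = j ∧ i ≠ 0 then 1 else 0

theorem pd_met {x : Fin 3 → ℝ} (hx : x ∈ half) (m i j : Fin 3) :
    pd m (fun y => met y i j) x = if m = 2 then mc i j * (-2 / x 2 ^ 3) else 0 := by
  have h : x 2 ≠ 0 := (show 0 < x 2 from hx).ne'
  by_cases hij : i = j ∧ i ≠ 0
  · obtain ⟨rfl, hi⟩ := hij
    have h1 : (fun y : Fin 3 → ℝ => met y i i) = fun y => (fun t : ℝ => (t ^ 2)⁻¹) (y 2) := by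
      funext y
      unfold met
      rw [Matrix.diagonal_apply_eq]
      fin_cases i
      · exact absurd rfl hi
      · rfl
      · rfl
    have h2 : HasDerivAt (fun t : ℝ => (t ^ 2)⁻¹) (-2 / x 2 ^ 3) (x 2) := by
      have h3 := (hasDerivAt_pow 2 (x 2)).inv (by positivity)
      convert! h3 using 1
      field_simp
      norm_num
    rw [h1, pd_of_last Filter.EventuallyEq.rfl h2]
    simp [mc, hi]
  · have h1 : (fun y : Fin 3 → ℝ => met y i j) = fun y => (fun _ : ℝ => met x i j) (y 2) := by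
      funext y
      unfold met
      by_cases he : i = j
      · subst he
        have hi : i = 0 := by
          by_contra h0
          exact hij ⟨rfl, h0⟩
        subst hi
        simp
      · rw [Matrix.diagonal_apply_ne _ he, Matrix.diagonal_apply_ne _ he]
    rw [h1, pd_of_last Filter.EventuallyEq.rfl (hasDerivAt_const _ _)]
    simp [mc, hij]

/-- The coefficients of the Christoffel symbols. -/
def cc (k i j : Fin 3) : ℝ :=
  if k = 0 then 0 else -((if i = 2 then mc j k else 0) + (if j = 2 then mc i k else 0) -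
    (if k = 2 then mc i j else 0))

theorem christoffel_met {x : Fin 3 → ℝ} (hx : x ∈ half) (k i j : Fin 3) :
    christoffel met k i j x = cc k i j * (x 2)⁻¹ := by
  have h : x 2 ≠ 0 := (show 0 < x 2 from hx).ne'
  unfold christoffel
  rw [met_inv hx, Finset.sum_eq_single k]
  · rw [Matrix.diagonal_apply_eq, pd_met hx, pd_met hx, pd_met hx]
    unfold cc
    by_cases hk : k = 0
    · subst hk
      simp [mc]
    · have h3 : (![1, x 2 ^ 2, x 2 ^ 2] : Fin 3 → ℝ) k = x 2 ^ 2 := by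
        fin_cases k
        · exact absurd rfl hk
        · rfl
        · rfl
      rw [h3, if_neg hk]
      split_ifs <;> field_simp <;> ring
  · intro l _ hl
    rw [Matrix.diagonal_apply_ne _ (Ne.symm hl)]
    ring
  · simp


theorem pd_christoffel {x : Fin 3 → ℝ} (hx : x ∈ half) (m k i j : Fin 3) :
    pd m (christoffel met k i j) x = if m = 2 then -(cc k i j * (x 2 ^ 2)⁻¹) else 0 := by
  have h : x 2 ≠ 0 := (show 0 < x 2 from hx).ne'
  have h1 : christoffel met k i j =ᶠ[𝓝 x] fun y => (fun t : ℝ => cc k i j * t⁻¹) (y 2) := by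
    filter_upwards [isOpen_half.mem_nhds hx] with y hy
    exact christoffel_met hy k i j
  have h2 : HasDerivAt (fun t : ℝ => cc k i j * t⁻¹) (-(cc k i j * (x 2 ^ 2)⁻¹)) (x 2) := by
    have h3 := (hasDerivAt_inv h).const_mul (cc k i j)
    convert! h3 using 1
    ring
  exact pd_of_last h1 h2 m

theorem coef (i j : Fin 3) : ∑ k, ((if k = 2 then -cc k i j else 0) - (if j = 2 then -cc k i k else 0) +
    ∑ l, (cc k k l * cc l i j - cc k j l * cc l i k)) = -mc i j := by
  fin_cases i <;> fin_cases j <;> simp [cc, mc, Fin.sum_univ_three]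

theorem ricci_met {x : Fin 3 → ℝ} (hx : x ∈ half) (i j : Fin 3) :
    ricci met i j x = -mc i j * (x 2 ^ 2)⁻¹ := by
  have h : x 2 ≠ 0 := (show 0 < x 2 from hx).ne'
  unfold ricci
  rw [← coef i j, Finset.sum_mul]
  refine Finset.sum_congr rfl fun k _ => ?_
  rw [add_mul, Finset.sum_mul]
  congr 1
  · rw [pd_christoffel hx, pd_christoffel hx]
    split_ifs <;> ring
  · refine Finset.sum_congr rfl fun l _ => ?_
    rw [christoffel_met hx, christoffel_met hx, christoffel_met hx, christoffel_met hx]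
    field_simp

theorem ricci_form {x : Fin 3 → ℝ} (hx : x ∈ half) (v : Fin 3 → ℝ) :
    ∑ i, ∑ j, ricci met i j x * v i * v j = -((v 1 ^ 2 + v 2 ^ 2) * (x 2 ^ 2)⁻¹) := by
  simp only [ricci_met hx]
  simp [mc, Fin.sum_univ_three]
  ring

end Pool.Agent.H85R3.RM
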