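import Pool.Agent.H85R3.HSTest

/-! Smooth functions on `ℍ × ℝ`, their partial derivatives and the energy density. -/

set_option autoImplicit false

open scoped MatrixGroups UpperHalfPlane ContDiff Topology
open MeasureTheory UpperHalfPlane

namespace Pool.Agent.H85R3.RM

open Pool.Agent.H85R3.HS

/-- The upper half space `{im > 0} × ℝ` in `ℂ × ℝ`. -/
def up : Set (ℂ × ℝ) := {p | 0 < p.1.im}

theorem isOpen_up : IsOpen up := isOpen_lt continuous_const (Complex.continuous_im.comp continuous_fst)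

/-- A function on `ℍ × ℝ` in the coordinates of `ℂ × ℝ`. -/
noncomputable def cx (F : ℍ × ℝ → ℝ) (p : ℂ × ℝ) : ℝ := F (ofComplex p.1, p.2)

/-- The point of `ℂ × ℝ` of a point of `ℍ × ℝ`. -/
def pt (p : ℍ × ℝ) : ℂ × ℝ := ((p.1 : ℂ), p.2)

theorem pt_mem (p : ℍ × ℝ) : pt p ∈ up := p.1.im_pos

theorem continuous_pt : Continuous pt :=
  (UpperHalfPlane.continuous_coe.comp continuous_fst).prodMk continuous_snd

theorem cx_pt (F : ℍ × ℝ → ℝ) (p : ℍ × ℝ) : cx F (pt p) = F p := by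
  unfold cx pt
  simp [ofComplex_apply]

/-- Smooth functions on `ℍ × ℝ`. -/
def Sm (F : ℍ × ℝ → ℝ) : Prop := ContDiffOn ℝ ∞ (cx F) up

variable {F F' : ℍ × ℝ → ℝ}

theorem Sm.contDiffAt (h : Sm F) (p : ℍ × ℝ) : ContDiffAt ℝ ∞ (cx F) (pt p) :=
  ContDiffOn.contDiffAt h (isOpen_up.mem_nhds (pt_mem p))

theorem Sm.differentiableAt (h : Sm F) (p : ℍ × ℝ) : DifferentiableAt ℝ (cx F) (pt p) :=
  (h.contDiffAt p).differentiableAt (by simp)

theorem Sm.continuous (h : Sm F) : Continuous F := by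
  have h1 : F = cx F ∘ pt := funext fun p => (cx_pt F p).symm
  rw [h1, continuous_iff_continuousAt]
  intro p
  exact ContinuousAt.comp (h.contDiffAt p).continuousAt continuous_pt.continuousAt

theorem Sm.add (h : Sm F) (h' : Sm F') : Sm (F + F') := ContDiffOn.add h h'

theorem Sm.smul (h : Sm F) (c : ℝ) : Sm (c • F) := ContDiffOn.const_smul c h

theorem Sm.zero : Sm 0 := contDiffOn_const

/-- The derivative in the direction `v`. -/
noncomputable def dd (v : ℂ × ℝ) (F : ℍ × ℝ → ℝ) (p : ℍ × ℝ) : ℝ := fderiv ℝ (cx F) (pt p) v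

theorem Sm.continuous_dd (h : Sm F) (v : ℂ × ℝ) : Continuous (dd v F) := by
  have h1 : ContinuousOn (fderiv ℝ (cx F)) up :=
    ContDiffOn.continuousOn_fderiv_of_isOpen h isOpen_up (by simp)
  have h2 : Continuous fun p => fderiv ℝ (cx F) (pt p) :=
    h1.comp_continuous continuous_pt pt_mem
  exact h2.clm_apply continuous_const

theorem dd_add (h : Sm F) (h' : Sm F') (v : ℂ × ℝ) (p : ℍ × ℝ) :
    dd v (F + F') p = dd v F p + dd v F' p := by
  unfold dd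
  have : cx (F + F') = cx F + cx F' := rfl
  rw [this, fderiv_add (h.differentiableAt p) (h'.differentiableAt p)]
  rfl

theorem dd_smul (h : Sm F) (c : ℝ) (v : ℂ × ℝ) (p : ℍ × ℝ) :
    dd v (c • F) p = c * dd v F p := by
  unfold dd
  have : cx (c • F) = c • cx F := rfl
  rw [this, fderiv_const_smul (h.differentiableAt p)]
  rfl

/-- The motion `(z, θ) ↦ (h z, θ + c)`. -/
noncomputable def tr (h : SL(2, ℝ)) (c : ℝ) (p : ℍ × ℝ) : ℍ × ℝ := (h • p.1, p.2 + c)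

theorem tr_tr (h h' : SL(2, ℝ)) (c c' : ℝ) (p : ℍ × ℝ) :
    tr h c (tr h' c' p) = tr (h * h') (c' + c) p := by
  unfold tr
  rw [mul_smul, add_assoc]

theorem continuous_tr (h : SL(2, ℝ)) (c : ℝ) : Continuous (tr h c) :=
  ((continuous_const_smul h).comp continuous_fst).prodMk (continuous_snd.add continuous_const)

/-- The motion in the coordinates of `ℂ × ℝ`. -/
noncomputable def trc (h : SL(2, ℝ)) (c : ℝ) (p : ℂ × ℝ) : ℂ × ℝ := (mob h p.1, p.2 + c)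

theorem trc_pt (h : SL(2, ℝ)) (c : ℝ) (p : ℍ × ℝ) : trc h c (pt p) = pt (tr h c p) := by
  unfold trc pt tr mob
  simp [ofComplex_apply]

theorem contDiffAt_trc (h : SL(2, ℝ)) (c : ℝ) (p : ℍ × ℝ) :
    ContDiffAt ℝ ∞ (trc h c) (pt p) := by
  have h1 : ContDiffAt ℝ ∞ (mob h) (pt p).1 := contDiffAt_mob h p.1
  have h2 : ContDiffAt ℝ ∞ (fun q : ℂ × ℝ => mob h q.1) (pt p) :=
    ContDiffAt.comp (g := mob h) (f := fun q : ℂ × ℝ => q.1) (pt p) h1 contDiff_fst.contDiffAt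
  exact h2.prodMk (contDiff_snd.contDiffAt.add contDiffAt_const)

/-- The derivative of the motion. -/
noncomputable def dtr (h : SL(2, ℝ)) (z : ℍ) (v : ℂ × ℝ) : ℂ × ℝ := (1 / denom h z ^ 2 * v.1, v.2)

theorem fderiv_trc (h : SL(2, ℝ)) (c : ℝ) (p : ℍ × ℝ) (v : ℂ × ℝ) :
    fderiv ℝ (trc h c) (pt p) v = dtr h p.1 v := by
  have h1 : HasFDerivAt (mob h) _ (pt p).1 := (hasDerivAt_mob h p.1).hasFDerivAt.restrictScalars ℝ
  have h2 := h1.comp (pt p) (hasFDerivAt_fst (𝕜 := ℝ) (p := pt p))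
  have h3 := h2.prodMk ((hasFDerivAt_snd (𝕜 := ℝ) (p := pt p)).add_const c)
  have h4 : HasFDerivAt (trc h c) _ (pt p) := h3
  rw [h4.fderiv]
  unfold dtr
  apply Prod.ext
  · simp [mul_comm]
  · simp

theorem cx_comp_tr (F : ℍ × ℝ → ℝ) (h : SL(2, ℝ)) (c : ℝ) : cx (F ∘ tr h c) = cx F ∘ trc h c := by
  funext p
  simp [cx, tr, trc, mob, ofComplex_apply]

theorem Sm.comp_tr (hF : Sm F) (h : SL(2, ℝ)) (c : ℝ) : Sm (F ∘ tr h c) := by
  unfold Sm
  rw [cx_comp_tr]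
  intro q hq
  obtain ⟨p, rfl⟩ : ∃ p, pt p = q := ⟨(⟨q.1, hq⟩, q.2), rfl⟩
  refine ContDiffAt.contDiffWithinAt ?_
  refine ContDiffAt.comp (pt p) ?_ (contDiffAt_trc h c p)
  rw [trc_pt]
  exact hF.contDiffAt _

theorem dd_comp_tr (hF : Sm F) (h : SL(2, ℝ)) (c : ℝ) (v : ℂ × ℝ) (p : ℍ × ℝ) :
    dd v (F ∘ tr h c) p = dd (dtr h p.1 v) F (tr h c p) := by
  unfold dd
  rw [cx_comp_tr]
  have h1 : DifferentiableAt ℝ (cx F) (trc h c (pt p)) := by
    rw [trc_pt]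
    exact hF.differentiableAt _
  rw [fderiv_comp (pt p) h1 ((contDiffAt_trc h c p).differentiableAt (by simp)),
    ContinuousLinearMap.comp_apply, fderiv_trc, trc_pt]

theorem dd_vec (F : ℍ × ℝ → ℝ) (v : ℂ × ℝ) (p : ℍ × ℝ) :
    dd v F p = v.1.re * dd (1, 0) F p + v.1.im * dd (Complex.I, 0) F p + v.2 * dd (0, 1) F p := by
  unfold dd
  have h1 : v = v.1.re • ((1, 0) : ℂ × ℝ) + v.1.im • ((Complex.I, 0) : ℂ × ℝ) +
      v.2 • ((0, 1) : ℂ × ℝ) := by
    apply Prod.ext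
    · simp
    · simp
  conv_lhs => rw [h1]
  simp only [map_add, map_smul, smul_eq_mul]

/-- The energy density `⟨∇F, ∇F'⟩`. -/
noncomputable def ef (F F' : ℍ × ℝ → ℝ) (p : ℍ × ℝ) : ℝ :=
  p.1.im ^ 2 * (dd (1, 0) F p * dd (1, 0) F' p + dd (Complex.I, 0) F p * dd (Complex.I, 0) F' p) +
    dd (0, 1) F p * dd (0, 1) F' p

theorem im_smul_eq (h : SL(2, ℝ)) (w : ℍ) : (h • w : ℍ).im = w.im * ‖(1 : ℂ) / denom h w ^ 2‖ := by
  have h3 := UpperHalfPlane.im_smul_eq_div_normSq (h : GL (Fin 2) ℝ) w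
  have h4 : ((h : GL (Fin 2) ℝ) • w : ℍ) = h • w := rfl
  rw [h4] at h3
  rw [h3, norm_div, norm_pow, norm_one, ← Complex.normSq_eq_norm_sq]
  simp
  field_simp

theorem ef_comp_tr (hF : Sm F) (hF' : Sm F') (h : SL(2, ℝ)) (c : ℝ) (p : ℍ × ℝ) :
    ef (F ∘ tr h c) (F' ∘ tr h c) p = ef F F' (tr h c p) := by
  unfold ef
  simp only [dd_comp_tr hF, dd_comp_tr hF']
  set q := tr h c p with hq
  set m : ℂ := 1 / denom h p.1 ^ 2 with hm
  have him : q.1.im = p.1.im * ‖m‖ := im_smul_eq h p.1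
  have e1 : dtr h p.1 (1, 0) = (m, 0) := by simp [dtr, hm]
  have e2 : dtr h p.1 (Complex.I, 0) = (m * Complex.I, 0) := by simp [dtr, hm]
  have e3 : dtr h p.1 (0, 1) = (0, 1) := by simp [dtr]
  rw [e1, e2, e3, him, dd_vec F (m, 0), dd_vec F' (m, 0), dd_vec F (m * Complex.I, 0),
    dd_vec F' (m * Complex.I, 0)]
  have h5 : ‖m‖ ^ 2 = m.re ^ 2 + m.im ^ 2 := by
    rw [← Complex.normSq_eq_norm_sq, Complex.normSq_apply]
    ring
  rw [mul_pow, h5]
  simp
  ring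

theorem Sm.continuous_ef (h : Sm F) (h' : Sm F') : Continuous (ef F F') := by
  unfold ef
  have hc : Continuous fun p : ℍ × ℝ => p.1.im := UpperHalfPlane.continuous_im.comp continuous_fst
  exact ((hc.pow 2).mul (((h.continuous_dd _).mul (h'.continuous_dd _)).add
    ((h.continuous_dd _).mul (h'.continuous_dd _)))).add ((h.continuous_dd _).mul (h'.continuous_dd _))

theorem ef_comm (F F' : ℍ × ℝ → ℝ) (p : ℍ × ℝ) : ef F F' p = ef F' F p := by
  unfold ef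
  ring

theorem ef_nonneg (F : ℍ × ℝ → ℝ) (p : ℍ × ℝ) : 0 ≤ ef F F p := by
  unfold ef
  nlinarith [mul_nonneg (sq_nonneg p.1.im) (add_nonneg (mul_self_nonneg (dd (1, 0) F p))
    (mul_self_nonneg (dd (Complex.I, 0) F p))), mul_self_nonneg (dd (0, 1) F p)]

theorem abs_ef_le (F F' : ℍ × ℝ → ℝ) (p : ℍ × ℝ) : |ef F F' p| ≤ ef F F p + ef F' F' p := by
  unfold ef
  set a := dd (1, 0) F p
  set b := dd (Complex.I, 0) F p
  set c := dd (0, 1) F p
  set a' := dd (1, 0) F' p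
  set b' := dd (Complex.I, 0) F' p
  set c' := dd (0, 1) F' p
  set y := p.1.im
  rw [abs_le]
  constructor <;>
    nlinarith [mul_nonneg (sq_nonneg y) (add_nonneg (sq_nonneg (a + a')) (sq_nonneg (b + b'))),
      mul_nonneg (sq_nonneg y) (add_nonneg (sq_nonneg (a - a')) (sq_nonneg (b - b'))),
      mul_nonneg (sq_nonneg y) (add_nonneg (sq_nonneg a) (sq_nonneg b)),
      mul_nonneg (sq_nonneg y) (add_nonneg (sq_nonneg a') (sq_nonneg b')),
      sq_nonneg (c + c'), sq_nonneg (c - c'), sq_nonneg c, sq_nonneg c']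

end Pool.Agent.H85R3.RM
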